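import Pool.Agent.Lib.MP_a325a5_ag.GK.Base
import Pool.Agent.Lib.MP_a325a5_ag.GK.SDef
import Mathlib.RingTheory.Polynomial.GaussLemma
import Mathlib.RingTheory.Derivation.Basic

/-! Definitions for Theorem G_ALL (arbitrary curves in a torus of dimension k = κ + 3). -/

open NumberField

namespace BMK

open BMF BMS BMG

variable {κ : ℕ}

/-- the 1-norm of an exponent vector -/
def nm (a : Fin (κ + 3) → ℤ) : ℕ := ∑ j, (a j).natAbs

/-- the 1-norm of a rational vector -/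
def qn (θ : Fin (κ + 3) → ℚ) : ℚ := ∑ j, |θ j|

section curve
variable (L : Type) {Ω E : Type} [Field L] [Field Ω] [Field E] [Algebra L Ω] [Algebra L E]

/-- `x` is a generic point over `L` of a curve in the torus which does not lie in a proper coset;
`Ω` is algebraic over the field generated by `x 0` -/
structure Crv (x : Fin (κ + 3) → Ω) : Prop where
  ne : ∀ j, x j ≠ 0
  alg : ∀ y : Ω, IsAlgebraic (IntermediateField.adjoin L {x 0}) y
  tr : ∀ a : Fin (κ + 3) → ℤ, a ≠ 0 → Transcendental L (∏ j, x j ^ a j)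

/-- `c` is a point of the curve with generic point `x` -/
def OnC (x : Fin (κ + 3) → Ω) (c : Fin (κ + 3) → E) : Prop :=
  ∀ p : MvPolynomial (Fin (κ + 3)) L, MvPolynomial.aeval x p = 0 → MvPolynomial.aeval c p = 0

/-- the functions with bounded degree: the span of the Laurent monomials of size at most `K` -/
def Bm (x : Fin (κ + 3) → Ω) (K : ℕ) : Submodule L Ω :=
  Submodule.span L {g | ∃ m : Fin (κ + 3) → ℤ, nm m ≤ K ∧ g = ∏ j, x j ^ m j}

/-- the function field of the curve with generic point `x` -/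
abbrev KF (x : Fin (κ + 3) → Ω) : IntermediateField L Ω := IntermediateField.adjoin L (Set.range x)

/-- the complex points of the curve, for an embedding of the ground field -/
def CT (x : Fin (κ + 3) → Ω) (τ : L →+* ℂ) : Set (Fin (κ + 3) → ℂ) :=
  {w | (∀ j, w j ≠ 0) ∧
    ∀ p : MvPolynomial (Fin (κ + 3)) L, MvPolynomial.aeval x p = 0 → MvPolynomial.eval₂ τ w p = 0}

/-- the complex points whose logarithmic vector is nearly orthogonal to two vectors -/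
def NearG (x : Fin (κ + 3) → Ω) (τ : L →+* ℂ) (δ : ℝ) (a b : Fin (κ + 3) → ℝ)
    (w : Fin (κ + 3) → ℂ) : Prop :=
  w ∈ CT L x τ ∧ |∑ j, a j * Real.log ‖w j‖| ≤ δ ∧ |∑ j, b j * Real.log ‖w j‖| ≤ δ

/-- an orthonormal pair of vectors -/
def ON2 (a b : Fin (κ + 3) → ℝ) : Prop :=
  ∑ j, a j * a j = 1 ∧ ∑ j, b j * b j = 1 ∧ ∑ j, a j * b j = 0

/-- the archimedean hypothesis (NA_k) -/
def NAc (x : Fin (κ + 3) → Ω) (τ : L →+* ℂ) : Prop :=
  ∀ a b : Fin (κ + 3) → ℝ, LinearIndependent ℝ ![a, b] →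
    {w | w ∈ CT L x τ ∧ ∑ j, a j * Real.log ‖w j‖ = 0 ∧ ∑ j, b j * Real.log ‖w j‖ = 0}.Finite

/-- a place of `Ω` over `L` with values in `E` at the point `c` -/
structure IsPlc (x : Fin (κ + 3) → Ω) (c : Fin (κ + 3) → E) (R : Subalgebra L Ω) (π : R →ₐ[L] E) : Prop where
  mem : ∀ j, ∃ h : x j ∈ R, π ⟨x j, h⟩ = c j
  val : ∀ y : Ω, y ∈ R ∨ y⁻¹ ∈ R
  loc : ∀ (y : Ω) (h : y ∈ R), π ⟨y, h⟩ ≠ 0 → y⁻¹ ∈ R

end curve

/-- elements of the division hull of the group generated by `x`, with their exponent -/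
def DE {Ω : Type} [Field Ω] (x : Fin (κ + 3) → Ω) (θ : Fin (κ + 3) → ℚ) (z : Ω) : Prop :=
  z ≠ 0 ∧ ∃ Δ : ℕ, 0 < Δ ∧ ∃ a : Fin (κ + 3) → ℤ, (∀ j, (a j : ℚ) = Δ * θ j) ∧ z ^ Δ = ∏ j, x j ^ a j

/-- the points considered in Theorem S_C -/
structure PtG (L : Type) {Ω F : Type} [Field L] [Field Ω] [Field F] [Algebra L Ω] [Algebra L F]
    (x : Fin (κ + 3) → Ω) {n : ℕ} (f : Fin (n + 1) → Polynomial L) (c : Fin (κ + 3) → F)
    (z : Fin (n + 1) → F) : Prop where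
  ne : ∀ j, c j ≠ 0
  on : OnC L x c
  z0 : z 0 = 1
  hz : ∀ i, z i ≠ 0
  eq : ∑ i, Polynomial.aeval (c 0) (f i) * z i = 0
  sub : ∀ I : Finset (Fin (n + 1)), I.Nonempty → I ≠ Finset.univ →
    ∑ i ∈ I, Polynomial.aeval (c 0) (f i) * z i ≠ 0
  rel : ∃ a : Fin (κ + 3) → ℤ, a ≠ 0 ∧ ∏ j, c j ^ a j = 1
  two : ∀ a b : Fin (κ + 3) → ℤ, ∏ j, c j ^ a j = 1 → ∏ j, c j ^ b j = 1 →
    ¬ LinearIndependent ℤ ![a, b]
  div : ∀ i, ∃ N : ℕ, 0 < N ∧ ∃ a : Fin (κ + 3) → ℤ, z i ^ N = ∏ j, c j ^ a j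

/-- an exact relation -/
def RlG {F : Type} [Field F] {n : ℕ} (c : Fin (κ + 3) → F) (z : Fin (n + 1) → F) (a : Fin (κ + 3) → ℤ)
    (b : Fin n → ℤ) : Prop :=
  (∏ j, c j ^ a j) * ∏ i : Fin n, z i.succ ^ b i = 1

/-- the functions with bounded degree on the cover given by the `w i` -/
def BAg (L : Type) {Ω : Type} [Field L] [Field Ω] [Algebra L Ω] {n : ℕ} (x : Fin (κ + 3) → Ω)
    (w : Fin n → Ω) (θ : Fin n → Fin (κ + 3) → ℚ) (K : ℕ) : Submodule L Ω :=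
  Submodule.span L {g | ∃ (m : Fin (κ + 3) → ℤ) (u : Fin n → ℤ),
    ∑ j, |(m j : ℚ) + BMK.tx θ u j| ≤ K ∧ g = (∏ j, x j ^ m j) * ∏ i, w i ^ u i}

end BMK
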