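import Pool.Agent.Lib.MP_a325a5_ag.GK.Base
import Pool.Agent.Lib.MP_a325a5_ag.GK.GDef

/-! x j is algebraic over k(x 0) and x 0 is transcendental over k: a primitive polynomial of least degree. -/

open NumberField

namespace BMK

open BMF BMS BMG

variable {κ : ℕ}

variable {k Ω : Type} [Field k] [CharZero k] [Field Ω] [Algebra k Ω] {x : Fin (κ + 3) → Ω}

open Polynomial in
omit [CharZero k] in
private theorem expol_ex (u y : Ω) (hu : Transcendental k u)
    (h : IsAlgebraic (IntermediateField.adjoin k {u}) y) :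
    ∃ P : Polynomial (Polynomial k), P ≠ 0 ∧ Polynomial.aevalAeval u y P = 0 := by
  classical
  obtain ⟨Q, hQ0, hQ⟩ := h
  have key : ∀ c : IntermediateField.adjoin k {u}, ∃ r s : k[X], aeval u s ≠ 0 ∧
      (c : Ω) * aeval u s = aeval u r := by
    intro c
    obtain ⟨r, s, h⟩ := (IntermediateField.mem_adjoin_simple_iff k _).mp c.2
    by_cases hs : aeval u s = 0
    · refine ⟨0, 1, by simp, ?_⟩
      rw [h, hs, div_zero]
      simp
    · exact ⟨r, s, hs, by rw [h]; field_simp⟩
  choose r s hs hrs using key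
  set n := Q.natDegree with hn
  set I := Finset.range (n + 1) with hI
  let S : k[X] := ∏ i ∈ I, s (Q.coeff i)
  have hS : aeval u S ≠ 0 := by
    rw [map_prod]
    exact Finset.prod_ne_zero_iff.mpr fun i _ => hs _
  let q : ℕ → k[X] := fun i => r (Q.coeff i) * ∏ l ∈ I.erase i, s (Q.coeff l)
  have hq : ∀ i ∈ I, aeval u (q i) = (Q.coeff i : Ω) * aeval u S := by
    intro i hi
    have h1 : aeval u (q i) = aeval u (r (Q.coeff i)) *
        ∏ l ∈ I.erase i, aeval u (s (Q.coeff l)) := by
      simp only [q, map_mul, map_prod]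
    rw [h1, ← hrs, map_prod, ← Finset.mul_prod_erase I _ hi]
    ring
  refine ⟨∑ i ∈ I, C (q i) * X ^ i, ?_, ?_⟩
  · intro h0
    have h1 : (∑ i ∈ I, C (q i) * X ^ i : k[X][X]).coeff n = q n := by
      rw [finset_sum_coeff]
      rw [Finset.sum_eq_single n]
      · rw [coeff_C_mul, coeff_X_pow_self, mul_one]
      · intro b _ hb
        rw [coeff_C_mul, coeff_X_pow, if_neg (Ne.symm hb), mul_zero]
      · intro h
        exact absurd (Finset.mem_range.mpr (Nat.lt_succ_self n)) h
    rw [h0, coeff_zero] at h1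
    have h2 := hq n (Finset.mem_range.mpr (Nat.lt_succ_self n))
    rw [← h1, map_zero] at h2
    have h3 : (Q.coeff n : Ω) ≠ 0 := by
      intro h4
      apply hQ0
      rw [← leadingCoeff_eq_zero]
      exact Subtype.ext h4
    exact (mul_ne_zero h3 hS) h2.symm
  · rw [map_sum]
    have h1 : ∀ i ∈ I, aevalAeval u y (C (q i) * X ^ i : k[X][X]) =
        aeval u S * ((Q.coeff i : Ω) * y ^ i) := by
      intro i hi
      rw [map_mul, map_pow, aevalAeval_C, aevalAeval_Y, hq i hi]
      ring
    rw [Finset.sum_congr rfl h1, ← Finset.mul_sum]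
    have h2 : ∑ i ∈ I, (Q.coeff i : Ω) * y ^ i = aeval y Q := by
      rw [aeval_eq_sum_range]
      rfl
    rw [h2, hQ, mul_zero]

open Polynomial in
theorem expol (hx : Crv k x) (j : Fin (κ + 3)) :
    ∃ P : Polynomial (Polynomial k), P.IsPrimitive ∧ 1 ≤ P.natDegree ∧ P.coeff 0 ≠ 0 ∧
      Polynomial.aevalAeval (x 0) (x j) P = 0 ∧
      Polynomial.aevalAeval (x 0) (x j) (Polynomial.derivative P) ≠ 0 := by
  classical
  have hu : Transcendental k (x 0) := by
    have h := hx.tr (Pi.single 0 1) (by simp)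
    have h1 : ∏ i, x i ^ (Pi.single 0 1 : Fin (κ + 3) → ℤ) i = x 0 := by
      rw [Finset.prod_eq_single 0]
      · simp
      · intro i _ hi
        rw [Pi.single_eq_of_ne hi, zpow_zero]
      · intro h
        exact absurd (Finset.mem_univ _) h
    rwa [h1] at h
  have hinj : ∀ p : k[X], aeval (x 0) p = 0 → p = 0 := by
    intro p hp
    by_contra h0
    exact hu ⟨p, h0, hp⟩
  have hex : ∃ n : ℕ, ∃ P : k[X][X], P ≠ 0 ∧ aevalAeval (x 0) (x j) P = 0 ∧
      P.natDegree = n := by
    obtain ⟨P, h0, h1⟩ := expol_ex (x 0) (x j) hu (hx.alg (x j))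
    exact ⟨_, P, h0, h1, rfl⟩
  obtain ⟨P, hP0, hP, hPn⟩ := Nat.find_spec hex
  have hmin : ∀ Q : k[X][X], Q ≠ 0 → aevalAeval (x 0) (x j) Q = 0 →
      P.natDegree ≤ Q.natDegree := by
    intro Q hQ0 hQ
    rw [hPn]
    exact Nat.find_min' hex ⟨Q, hQ0, hQ, rfl⟩
  letI : NormalizedGCDMonoid k[X] := UniqueFactorizationMonoid.toNormalizedGCDMonoid k[X]
  have hc : P = C P.content * P.primPart := P.eq_C_content_mul_primPart
  have hc0 : P.content ≠ 0 := content_eq_zero_iff.not.mpr hP0
  have hroot : aevalAeval (x 0) (x j) P.primPart = 0 := by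
    rw [hc, map_mul, aevalAeval_C] at hP
    rcases mul_eq_zero.mp hP with h | h
    · exact absurd (hinj _ h) hc0
    · exact h
  have hpp : P.primPart ≠ 0 := (isPrimitive_primPart P).ne_zero
  have hdeg : P.primPart.natDegree = P.natDegree := natDegree_primPart P
  have hmin' : ∀ Q : k[X][X], Q ≠ 0 → aevalAeval (x 0) (x j) Q = 0 →
      P.primPart.natDegree ≤ Q.natDegree := by
    intro Q h1 h2
    rw [hdeg]
    exact hmin Q h1 h2
  have h1 : 1 ≤ P.primPart.natDegree := by
    by_contra h
    have h0 : P.primPart.natDegree = 0 := by omega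
    rw [eq_C_of_natDegree_eq_zero h0, aevalAeval_C] at hroot
    apply hpp
    rw [eq_C_of_natDegree_eq_zero h0, hinj _ hroot, C_0]
  refine ⟨P.primPart, isPrimitive_primPart P, h1, ?_, hroot, ?_⟩
  · intro h0
    have h2 : P.primPart = P.primPart.divX * X := by
      conv_lhs => rw [← divX_mul_X_add P.primPart, h0, C_0, add_zero]
    have h3 : P.primPart.divX ≠ 0 := by
      intro h3
      rw [h3, zero_mul] at h2
      exact hpp h2
    have h4 : aevalAeval (x 0) (x j) P.primPart.divX = 0 := by
      rw [h2, map_mul, aevalAeval_Y] at hroot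
      exact (mul_eq_zero.mp hroot).resolve_right (hx.ne j)
    have h5 := hmin' _ h3 h4
    rw [natDegree_divX_eq_natDegree_tsub_one] at h5
    omega
  · intro h0
    have h3 : derivative P.primPart ≠ 0 := by
      intro h3
      have := natDegree_eq_zero_of_derivative_eq_zero h3
      omega
    have h5 := hmin' _ h3 h0
    have h6 := natDegree_derivative_lt (p := P.primPart) (by omega)
    omega

end BMK
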