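import Pool.Agent.Lib.MP_a325a5_ag.GK.Base
import Pool.Agent.Lib.MP_a325a5_ag.GK.BmB
import Pool.Agent.Lib.MP_a325a5_ag.GK.ExPol

/-! Lemma 1.1 of GZ_PROOF.md: the dimension of the spaces Bm grows at most linearly. -/

open NumberField

namespace BMK

open BMF BMS BMG

variable {κ : ℕ}

open Polynomial in
/-- span of the `u ^ i * y ^ a * w`, `i ≤ N`, `a < n` -/
private def SS (k : Type) {Ω : Type} [Field k] [Field Ω] [Algebra k Ω] (u y w : Ω) (n N : ℕ) :
    Submodule k Ω :=
  Submodule.span k {g | ∃ i a : ℕ, i ≤ N ∧ a < n ∧ g = u ^ i * y ^ a * w}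

/-- span of the `u ^ i * ∏ j, x j ^ a j`, `i ≤ N`, `a j < n j` -/
private def VV (k : Type) {Ω ι : Type} [Fintype ι] [Field k] [Field Ω] [Algebra k Ω] (u : Ω)
    (x : ι → Ω) (n : ι → ℕ) (N : ℕ) : Submodule k Ω :=
  Submodule.span k {g | ∃ (i : ℕ) (a : ι → ℕ), i ≤ N ∧ (∀ j, a j < n j) ∧
    g = u ^ i * ∏ j, x j ^ a j}

section
variable {k Ω : Type} [Field k] [Field Ω] [Algebra k Ω]

open Polynomial

private theorem hil_pol (u y w : Ω) (n N D : ℕ) (p : k[X]) (hp : p.natDegree ≤ D) (i a : ℕ)
    (hi : i ≤ N) (ha : a < n) : aeval u p * (u ^ i * y ^ a * w) ∈ SS k u y w n (N + D) := by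
  rw [aeval_eq_sum_range, Finset.sum_mul]
  refine Submodule.sum_mem _ fun s hs => ?_
  have h : (p.coeff s • u ^ s) * (u ^ i * y ^ a * w) =
      p.coeff s • (u ^ (s + i) * y ^ a * w) := by
    rw [smul_mul_assoc, pow_add]
    congr 1
    ring
  rw [h]
  refine Submodule.smul_mem _ _ (Submodule.subset_span ⟨s + i, a, ?_, ha, rfl⟩)
  have := Finset.mem_range.mp hs
  omega

private theorem hil_root (u y : Ω) (P : k[X][X]) (hP : aevalAeval u y P = 0) :
    ∑ i ∈ Finset.range (P.natDegree + 1), aeval u (P.coeff i) * y ^ i = 0 := by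
  have h : aevalAeval u y P = ∑ i ∈ Finset.range (P.natDegree + 1),
      aeval u (P.coeff i) * y ^ i := by
    conv_lhs => rw [P.as_sum_range_C_mul_X_pow]
    rw [map_sum]
    refine Finset.sum_congr rfl fun i _ => ?_
    rw [map_mul, map_pow, aevalAeval_C, aevalAeval_Y]
  rw [← h, hP]

private theorem hil_up (u y w : Ω) (P : k[X][X]) (hP : aevalAeval u y P = 0) (D N : ℕ)
    (hD : ∀ i, (P.coeff i).natDegree ≤ D) (i a : ℕ) (hi : i ≤ N) (ha : a < P.natDegree) :
    aeval u (P.coeff P.natDegree) * y * (u ^ i * y ^ a * w) ∈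
      SS k u y w P.natDegree (N + D) := by
  by_cases h : a + 1 < P.natDegree
  · have h1 : aeval u (P.coeff P.natDegree) * y * (u ^ i * y ^ a * w) =
        aeval u (P.coeff P.natDegree) * (u ^ i * y ^ (a + 1) * w) := by ring
    rw [h1]
    exact hil_pol u y w _ N D _ (hD _) i (a + 1) hi h
  · have h2 : a + 1 = P.natDegree := by omega
    have h3 := hil_root u y P hP
    rw [Finset.sum_range_succ] at h3
    have h4 : aeval u (P.coeff P.natDegree) * y * (u ^ i * y ^ a * w) =
        -∑ s ∈ Finset.range P.natDegree, aeval u (P.coeff s) * (u ^ i * y ^ s * w) := by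
      have h5 : aeval u (P.coeff P.natDegree) * y ^ P.natDegree =
          -∑ s ∈ Finset.range P.natDegree, aeval u (P.coeff s) * y ^ s := by
        linear_combination h3
      have h6 : aeval u (P.coeff P.natDegree) * y * (u ^ i * y ^ a * w) =
          (aeval u (P.coeff P.natDegree) * y ^ P.natDegree) * (u ^ i * w) := by
        rw [← h2]
        ring
      rw [h6, h5, neg_mul, Finset.sum_mul]
      congr 1
      refine Finset.sum_congr rfl fun s _ => ?_
      ring
    rw [h4]
    refine Submodule.neg_mem _ (Submodule.sum_mem _ fun s hs => ?_)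
    exact hil_pol u y w _ N D _ (hD _) i s hi (Finset.mem_range.mp hs)

private theorem hil_down (u y w : Ω) (hy : y ≠ 0) (P : k[X][X]) (hP : aevalAeval u y P = 0)
    (D N : ℕ) (hD : ∀ i, (P.coeff i).natDegree ≤ D) (i a : ℕ) (hi : i ≤ N)
    (ha : a < P.natDegree) :
    aeval u (P.coeff 0) * y⁻¹ * (u ^ i * y ^ a * w) ∈ SS k u y w P.natDegree (N + D) := by
  rcases Nat.eq_zero_or_pos a with h | h
  · subst h
    have h3 := hil_root u y P hP
    rw [Finset.sum_range_succ'] at h3
    have h5 : aeval u (P.coeff 0) * y⁻¹ =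
        -∑ s ∈ Finset.range P.natDegree, aeval u (P.coeff (s + 1)) * y ^ s := by
      have h6 : aeval u (P.coeff 0) =
          -∑ s ∈ Finset.range P.natDegree, aeval u (P.coeff (s + 1)) * y ^ (s + 1) := by
        rw [pow_zero, mul_one] at h3
        linear_combination h3
      rw [h6, neg_mul, Finset.sum_mul]
      congr 1
      refine Finset.sum_congr rfl fun s _ => ?_
      rw [pow_succ]
      field_simp
    rw [h5, neg_mul, Finset.sum_mul]
    refine Submodule.neg_mem _ (Submodule.sum_mem _ fun s hs => ?_)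
    have h7 : aeval u (P.coeff (s + 1)) * y ^ s * (u ^ i * y ^ 0 * w) =
        aeval u (P.coeff (s + 1)) * (u ^ i * y ^ s * w) := by ring
    rw [h7]
    exact hil_pol u y w _ N D _ (hD _) i s hi (Finset.mem_range.mp hs)
  · obtain ⟨b, rfl⟩ : ∃ b, a = b + 1 := ⟨a - 1, by omega⟩
    have h1 : aeval u (P.coeff 0) * y⁻¹ * (u ^ i * y ^ (b + 1) * w) =
        aeval u (P.coeff 0) * (u ^ i * y ^ b * w) := by
      rw [pow_succ]
      field_simp
    rw [h1]
    exact hil_pol u y w _ N D _ (hD _) i b hi (by omega)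

private theorem hil_mono {ι : Type} [Fintype ι] (u : Ω) (x : ι → Ω) (n : ι → ℕ) {N N' : ℕ}
    (h : N ≤ N') : VV k u x n N ≤ VV k u x n N' := by
  refine Submodule.span_mono ?_
  rintro g ⟨i, a, hi, ha, rfl⟩
  exact ⟨i, a, hi.trans h, ha, rfl⟩

private theorem hil_ss {ι : Type} [Fintype ι] [DecidableEq ι] (u : Ω) (x : ι → Ω) (n : ι → ℕ)
    (N : ℕ) (j : ι) (a : ι → ℕ) (ha : ∀ l, a l < n l) :
    SS k u (x j) (∏ l ∈ Finset.univ.erase j, x l ^ a l) (n j) N ≤ VV k u x n N := by
  refine Submodule.span_mono ?_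
  rintro g ⟨i, b, hi, hb, rfl⟩
  refine ⟨i, Function.update a j b, hi, ?_, ?_⟩
  · intro l
    by_cases h : l = j
    · subst h
      rw [Function.update_self]
      exact hb
    · rw [Function.update_of_ne h]
      exact ha l
  · rw [← Finset.mul_prod_erase Finset.univ _ (Finset.mem_univ j), Function.update_self, mul_assoc]
    congr 2
    refine Finset.prod_congr rfl fun l hl => ?_
    rw [Function.update_of_ne (Finset.ne_of_mem_erase hl)]

/-- to check that multiplication by `g` maps `V N` to `V N'` it is enough to look at generators -/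
private theorem hil_gen {ι : Type} [Fintype ι] [DecidableEq ι] (u g : Ω) (x : ι → Ω) (n : ι → ℕ)
    (N N' : ℕ) (j : ι) (h : ∀ (i : ℕ) (a : ι → ℕ), i ≤ N → (∀ l, a l < n l) →
      g * (u ^ i * x j ^ a j * ∏ l ∈ Finset.univ.erase j, x l ^ a l) ∈
        SS k u (x j) (∏ l ∈ Finset.univ.erase j, x l ^ a l) (n j) N')
    (v : Ω) (hv : v ∈ VV k u x n N) : g * v ∈ VV k u x n N' := by
  induction hv using Submodule.span_induction with
  | mem v hv =>
    obtain ⟨i, a, hi, ha, rfl⟩ := hv
    rw [← Finset.mul_prod_erase Finset.univ _ (Finset.mem_univ j), ← mul_assoc (u ^ i)]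
    exact hil_ss u x n N' j a ha (h i a hi ha)
  | zero =>
    rw [mul_zero]
    exact Submodule.zero_mem _
  | add v w _ _ hv hw =>
    rw [mul_add]
    exact Submodule.add_mem _ hv hw
  | smul c v _ hv =>
    rw [mul_smul_comm]
    exact Submodule.smul_mem _ _ hv

private theorem hil_vpol {ι : Type} [Fintype ι] [DecidableEq ι] (j : ι) (u : Ω) (x : ι → Ω)
    (n : ι → ℕ) (N D : ℕ) (p : k[X]) (hp : p.natDegree ≤ D) (v : Ω)
    (hv : v ∈ VV k u x n N) : aeval u p * v ∈ VV k u x n (N + D) := by
  refine hil_gen u _ x n N (N + D) j (fun i a hi ha => ?_) v hv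
  exact hil_pol u (x j) _ (n j) N D p hp i (a j) hi (ha j)

private theorem hil_fin {ι : Type} [Fintype ι] [DecidableEq ι] (u : Ω) (x : ι → Ω) (n : ι → ℕ)
    (N : ℕ) : FiniteDimensional k (VV k u x n N) ∧
    Module.finrank k (VV k u x n N) ≤ (∏ j, n j) * (N + 1) := by
  classical
  let s : Finset Ω := (Finset.univ : Finset (Fin (N + 1) × (∀ j, Fin (n j)))).image
    fun t => u ^ (t.1 : ℕ) * ∏ j, x j ^ (t.2 j : ℕ)
  have hs : VV k u x n N = Submodule.span k (s : Set Ω) := by
    unfold VV
    congr 1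
    ext g
    constructor
    · rintro ⟨i, a, hi, ha, rfl⟩
      exact Finset.mem_coe.mpr (Finset.mem_image.mpr
        ⟨(⟨i, Nat.lt_succ_of_le hi⟩, fun j => ⟨a j, ha j⟩), Finset.mem_univ _, rfl⟩)
    · intro hg
      obtain ⟨t, _, rfl⟩ := Finset.mem_image.mp (Finset.mem_coe.mp hg)
      exact ⟨t.1, fun j => t.2 j, Nat.lt_succ_iff.mp t.1.2, fun j => (t.2 j).2, rfl⟩
  rw [hs]
  refine ⟨FiniteDimensional.span_finset k s, (finrank_span_finset_le_card s).trans ?_⟩
  refine Finset.card_image_le.trans ?_
  rw [Finset.card_univ, Fintype.card_prod, Fintype.card_pi, Fintype.card_fin]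
  simp only [Fintype.card_fin]
  exact le_of_eq (mul_comm _ _)

end

open Polynomial in
private theorem hil_step {k Ω ι : Type} [Field k] [Field Ω] [Algebra k Ω] [Fintype ι]
    [DecidableEq ι] (j₀ : ι) (u : Ω) (x : ι → Ω) (hx : ∀ j, x j ≠ 0) (P : ι → k[X][X])
    (hP : ∀ j, aevalAeval u (x j) (P j) = 0) :
    ∃ D : ℕ, ∀ (N : ℕ) (v : Ω), v ∈ VV k u x (fun j => (P j).natDegree) N →
      (aeval u (∏ j, ((P j).coeff (P j).natDegree * (P j).coeff 0)) * v ∈
        VV k u x (fun j => (P j).natDegree) (N + D)) ∧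
      ∀ j, (aeval u (∏ j, ((P j).coeff (P j).natDegree * (P j).coeff 0)) * (x j * v) ∈
          VV k u x (fun j => (P j).natDegree) (N + D)) ∧
        (aeval u (∏ j, ((P j).coeff (P j).natDegree * (P j).coeff 0)) * ((x j)⁻¹ * v) ∈
          VV k u x (fun j => (P j).natDegree) (N + D)) := by
  classical
  set n : ι → ℕ := fun j => (P j).natDegree with hn
  let D₁ : ι → ℕ := fun j => ∑ i ∈ Finset.range ((P j).natDegree + 1), ((P j).coeff i).natDegree
  have hD₁ : ∀ j i, ((P j).coeff i).natDegree ≤ D₁ j := by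
    intro j i
    by_cases h : i ≤ (P j).natDegree
    · exact Finset.single_le_sum (f := fun i => ((P j).coeff i).natDegree)
        (fun _ _ => Nat.zero_le _) (Finset.mem_range.mpr (Nat.lt_succ_of_le h))
    · rw [coeff_eq_zero_of_natDegree_lt (by omega), natDegree_zero]
      exact Nat.zero_le _
  let R : ι → k[X] := fun j => (P j).coeff 0 *
    ∏ l ∈ Finset.univ.erase j, ((P l).coeff (P l).natDegree * (P l).coeff 0)
  let S : ι → k[X] := fun j => (P j).coeff (P j).natDegree *
    ∏ l ∈ Finset.univ.erase j, ((P l).coeff (P l).natDegree * (P l).coeff 0)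
  set q : k[X] := ∏ j, ((P j).coeff (P j).natDegree * (P j).coeff 0) with hq
  have hqR : ∀ j, q = R j * (P j).coeff (P j).natDegree := by
    intro j
    rw [hq, ← Finset.mul_prod_erase Finset.univ _ (Finset.mem_univ j)]
    simp only [R]
    ring
  have hqS : ∀ j, q = S j * (P j).coeff 0 := by
    intro j
    rw [hq, ← Finset.mul_prod_erase Finset.univ _ (Finset.mem_univ j)]
    simp only [S]
    ring
  let D : ℕ := q.natDegree + ∑ j, (D₁ j + (R j).natDegree + (S j).natDegree)
  have hDj : ∀ j, D₁ j + (R j).natDegree + (S j).natDegree ≤ D := by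
    intro j
    have h := Finset.single_le_sum (f := fun j => D₁ j + (R j).natDegree + (S j).natDegree)
      (fun _ _ => Nat.zero_le _) (Finset.mem_univ j)
    exact h.trans (Nat.le_add_left _ _)
  refine ⟨D, fun N v hv => ⟨?_, fun j => ⟨?_, ?_⟩⟩⟩
  · exact hil_vpol j₀ u x n N D q (Nat.le_add_right _ _) v hv
  · have h1 : aeval u ((P j).coeff (P j).natDegree) * x j * v ∈ VV k u x n (N + D₁ j) := by
      refine hil_gen u _ x n N (N + D₁ j) j (fun i a hi ha => ?_) v hv
      exact hil_up u (x j) _ (P j) (hP j) (D₁ j) N (hD₁ j) i (a j) hi (ha j)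
    have h2 := hil_vpol j₀ u x n (N + D₁ j) (R j).natDegree (R j) le_rfl _ h1
    have h3 : aeval u q * (x j * v) =
        aeval u (R j) * (aeval u ((P j).coeff (P j).natDegree) * x j * v) := by
      rw [hqR j, map_mul]
      ring
    rw [h3]
    exact hil_mono u x n (by have := hDj j; omega) h2
  · have h1 : aeval u ((P j).coeff 0) * (x j)⁻¹ * v ∈ VV k u x n (N + D₁ j) := by
      refine hil_gen u _ x n N (N + D₁ j) j (fun i a hi ha => ?_) v hv
      exact hil_down u (x j) _ (hx j) (P j) (hP j) (D₁ j) N (hD₁ j) i (a j) hi (ha j)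
    have h2 := hil_vpol j₀ u x n (N + D₁ j) (S j).natDegree (S j) le_rfl _ h1
    have h3 : aeval u q * ((x j)⁻¹ * v) =
        aeval u (S j) * (aeval u ((P j).coeff 0) * (x j)⁻¹ * v) := by
      rw [hqS j, map_mul]
      ring
    rw [h3]
    exact hil_mono u x n (by have := hDj j; omega) h2

variable {k Ω : Type} [Field k] [CharZero k] [Field Ω] [Algebra k Ω] {x : Fin (κ + 3) → Ω}

open Polynomial in
theorem hil (hx : Crv k x) : ∃ σ : ℕ, 1 ≤ σ ∧ ∃ τ : ℕ, ∀ K : ℕ,
    FiniteDimensional k (Bm k x K) ∧ (Module.finrank k (Bm k x K) : ℝ) ≤ σ * K + τ := by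
  classical
  choose P _ hP1 hPc hP _ using fun j => expol hx j
  obtain ⟨D, hD⟩ := hil_step 0 (x 0) x hx.ne P hP
  set q : k[X] := ∏ j, ((P j).coeff (P j).natDegree * (P j).coeff 0) with hq
  have hu : Transcendental k (x 0) := by
    have h := hx.tr (Pi.single 0 1) (by simp)
    have h1 : ∏ i, x i ^ (Pi.single 0 1 : Fin (κ + 3) → ℤ) i = x 0 := by
      rw [Finset.prod_eq_single 0]
      · simp
      · intro i _ hi
        rw [Pi.single_eq_of_ne hi, zpow_zero]
      · intro h
        exact absurd (Finset.mem_univ _) h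
    rwa [h1] at h
  have hq0 : q ≠ 0 := by
    rw [hq, Finset.prod_ne_zero_iff]
    intro j _
    refine mul_ne_zero ?_ (hPc j)
    rw [coeff_natDegree, Ne, leadingCoeff_eq_zero]
    intro h
    have h1 := hP1 j
    rw [h] at h1
    simp at h1
  have hqe : aeval (x 0) q ≠ 0 := fun h => hu ⟨q, hq0, h⟩
  let V : ℕ → Submodule k Ω := VV k (x 0) x (fun j => (P j).natDegree)
  have key : ∀ (K : ℕ) (m : Fin (κ + 3) → ℤ), nm m ≤ K →
      aeval (x 0) q ^ K * ∏ j, x j ^ m j ∈ V (D * K) := by
    intro K
    induction K with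
    | zero =>
      intro m hm
      have hm0 : m = 0 := by
        have h0 : nm m = 0 := Nat.le_zero.mp hm
        unfold nm at h0
        rw [Finset.sum_eq_zero_iff] at h0
        funext j
        exact Int.natAbs_eq_zero.mp (h0 j (Finset.mem_univ j))
      rw [hm0]
      refine Submodule.subset_span ⟨0, 0, Nat.zero_le _, fun j => hP1 j, ?_⟩
      simp
    | succ K ih =>
      intro m hm
      by_cases h : nm m ≤ K
      · have h1 := (hD (D * K) _ (ih m h)).1
        have h2 : aeval (x 0) q ^ (K + 1) * ∏ j, x j ^ m j =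
            aeval (x 0) q * (aeval (x 0) q ^ K * ∏ j, x j ^ m j) := by ring
        rw [h2]
        exact h1
      · have h3 : ∃ j, m j ≠ 0 := by
          by_contra h3
          push Not at h3
          apply h
          have : nm m = 0 := by
            unfold nm
            exact Finset.sum_eq_zero fun j _ => by rw [h3 j]; rfl
          omega
        obtain ⟨j, hj⟩ := h3
        obtain ⟨e, he, hab⟩ : ∃ e : ℤ, (e = 1 ∨ e = -1) ∧
            (m j - e).natAbs + 1 = (m j).natAbs := by
          rcases lt_or_gt_of_ne hj with h4 | h4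
          · exact ⟨-1, Or.inr rfl, by omega⟩
          · exact ⟨1, Or.inl rfl, by omega⟩
        let m' : Fin (κ + 3) → ℤ := m - Pi.single j e
        have hm' : nm m' + 1 = nm m := by
          unfold nm
          rw [← Finset.add_sum_erase _ _ (Finset.mem_univ j),
            ← Finset.add_sum_erase Finset.univ (fun i => (m i).natAbs) (Finset.mem_univ j)]
          have h5 : ∑ i ∈ Finset.univ.erase j, (m' i).natAbs =
              ∑ i ∈ Finset.univ.erase j, (m i).natAbs := by
            refine Finset.sum_congr rfl fun i hi => ?_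
            simp only [m', Pi.sub_apply, Pi.single_eq_of_ne (Finset.ne_of_mem_erase hi), sub_zero]
          have h6 : m' j = m j - e := by
            simp only [m', Pi.sub_apply, Pi.single_eq_same]
          rw [h5, h6]
          omega
        have hmm : m = m' + Pi.single j e := by
          simp only [m', sub_add_cancel]
        have h7 : ∏ i, x i ^ m i = (∏ i, x i ^ m' i) * x j ^ e := by
          have h71 := mon_add hx.ne m' (Pi.single j e)
          rw [← hmm] at h71
          rw [h71]
          congr 1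
          rw [Finset.prod_eq_single j]
          · rw [Pi.single_eq_same]
          · intro i _ hi
            rw [Pi.single_eq_of_ne hi, zpow_zero]
          · intro h
            exact absurd (Finset.mem_univ _) h
        have h8 := ih m' (by omega)
        have h9 := (hD (D * K) _ h8).2 j
        rcases he with rfl | rfl
        · have h2 : aeval (x 0) q ^ (K + 1) * ∏ i, x i ^ m i =
              aeval (x 0) q * (x j * (aeval (x 0) q ^ K * ∏ i, x i ^ m' i)) := by
            rw [h7, zpow_one]
            ring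
          rw [h2]
          exact h9.1
        · have h2 : aeval (x 0) q ^ (K + 1) * ∏ i, x i ^ m i =
              aeval (x 0) q * ((x j)⁻¹ * (aeval (x 0) q ^ K * ∏ i, x i ^ m' i)) := by
            rw [h7, zpow_neg_one]
            ring
          rw [h2]
          exact h9.2
  have hmul : ∀ (K : ℕ) (g : Ω), g ∈ Bm k x K → aeval (x 0) q ^ K * g ∈ V (D * K) := by
    intro K g hg
    induction hg using Submodule.span_induction with
    | mem g hg =>
      obtain ⟨m, hm, rfl⟩ := hg
      exact key K m hm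
    | zero =>
      rw [mul_zero]
      exact Submodule.zero_mem _
    | add v w _ _ hv hw =>
      rw [mul_add]
      exact Submodule.add_mem _ hv hw
    | smul c v _ hv =>
      rw [mul_smul_comm]
      exact Submodule.smul_mem _ _ hv
  refine ⟨(∏ j, (P j).natDegree) * D + 1, by omega, ∏ j, (P j).natDegree, fun K => ?_⟩
  obtain ⟨hfin, hdim⟩ := hil_fin (k := k) (x 0) x (fun j => (P j).natDegree) (D * K)
  let φ : Bm k x K →ₗ[k] V (D * K) :=
    { toFun := fun g => ⟨aeval (x 0) q ^ K * (g : Ω), hmul K g g.2⟩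
      map_add' := fun a b => by
        apply Subtype.ext
        simp [mul_add]
      map_smul' := fun c a => by
        apply Subtype.ext
        simp }
  have hφ : Function.Injective φ := by
    intro a b hab
    have h := congrArg (fun z : V (D * K) => (z : Ω)) hab
    have h' : aeval (x 0) q ^ K * (a : Ω) = aeval (x 0) q ^ K * (b : Ω) := h
    exact Subtype.ext (mul_left_cancel₀ (pow_ne_zero _ hqe) h')
  have : FiniteDimensional k (V (D * K)) := hfin
  refine ⟨FiniteDimensional.of_injective φ hφ, ?_⟩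
  have h1 : Module.finrank k (Bm k x K) ≤ (∏ j, (P j).natDegree) * (D * K + 1) :=
    (LinearMap.finrank_le_finrank_of_injective hφ).trans hdim
  have h2 : (Module.finrank k (Bm k x K) : ℝ) ≤
      (((∏ j, (P j).natDegree) * (D * K + 1) : ℕ) : ℝ) := Nat.cast_le.mpr h1
  refine h2.trans ?_
  push_cast
  have h3 : (0 : ℝ) ≤ K := Nat.cast_nonneg K
  nlinarith

end BMK
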