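import Pool.Agent.Lib.MP_a325a5_ag.GK.Base
import Pool.Agent.Lib.MP_a325a5_ag.GK.GDef
import Pool.Agent.Lib.MP_a325a5_ag.GK.BmB

/-! Lemma 3.2.  u^m = 1: u or 1/u is in R, and 1/u = u^(m-1), u = (1/u)^(m-1), so u is in R.  π u = 1 implies u = 1: T^m - 1 = ∏ (T - v) over the m-th
roots of unity v of Ω (the algebraic closure of L or Ω; if Ω is not algebraically closed use the cyclotomic factor: u ≠ 1 gives 1 + u + .. + u^(m'-1) = 0 with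
m' the order of u, apply π: m' = 0 in E, impossible in characteristic 0).  plc_lift: w₀^Δ = ∏ x^a, w₀ in R and 1/w₀ in R (integrally closed), π(w₀)^Δ = y^Δ,
so y/π(w₀) is a Δ-th root of unity in E; π maps the Δ-th roots of unity of Ω injectively, so bijectively (there are Δ of them), to those of E. -/

open NumberField

namespace BMK

open BMF BMS BMG

variable {κ : ℕ}

variable {L Ω E : Type} [Field L] [Field Ω] [Field E] [Algebra L Ω] [Algebra L E]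
  {x : Fin (κ + 3) → Ω} {c : Fin (κ + 3) → E} {R : Subalgebra L Ω} {π : R →ₐ[L] E}

private theorem lift_mul {y y' : Ω} {e e' : E} (h : ∃ h : y ∈ R, π ⟨y, h⟩ = e)
    (h' : ∃ h : y' ∈ R, π ⟨y', h⟩ = e') : ∃ h : y * y' ∈ R, π ⟨y * y', h⟩ = e * e' := by
  obtain ⟨h1, rfl⟩ := h
  obtain ⟨h2, rfl⟩ := h'
  refine ⟨R.mul_mem h1 h2, ?_⟩
  rw [← map_mul]
  rfl

private theorem lift_inv (hp : IsPlc L x c R π) {y : Ω} {e : E} (h : ∃ h : y ∈ R, π ⟨y, h⟩ = e)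
    (he : e ≠ 0) : ∃ h : y⁻¹ ∈ R, π ⟨y⁻¹, h⟩ = e⁻¹ := by
  obtain ⟨h1, rfl⟩ := h
  have h2 := hp.loc y h1 he
  have hy : y ≠ 0 := by
    rintro rfl
    apply he
    have : (⟨0, h1⟩ : R) = 0 := rfl
    rw [this, map_zero]
  refine ⟨h2, ?_⟩
  have h3 : (⟨y, h1⟩ : R) * ⟨y⁻¹, h2⟩ = 1 := Subtype.ext (mul_inv_cancel₀ hy)
  have h4 := congrArg π h3
  rw [map_mul, map_one] at h4
  exact eq_inv_of_mul_eq_one_right h4

private theorem lift_pow {y : Ω} {e : E} (h : ∃ h : y ∈ R, π ⟨y, h⟩ = e) (n : ℕ) :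
    ∃ h : y ^ n ∈ R, π ⟨y ^ n, h⟩ = e ^ n := by
  induction n with
  | zero =>
    simp only [pow_zero]
    exact ⟨R.one_mem, map_one π⟩
  | succ n ih =>
    simp only [pow_succ]
    exact lift_mul ih h

private theorem lift_zpow (hp : IsPlc L x c R π) {y : Ω} {e : E} (h : ∃ h : y ∈ R, π ⟨y, h⟩ = e)
    (he : e ≠ 0) (n : ℤ) : ∃ h : y ^ n ∈ R, π ⟨y ^ n, h⟩ = e ^ n := by
  rcases n with n | n
  · simp only [Int.ofNat_eq_natCast, zpow_natCast]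
    exact lift_pow h n
  · simp only [zpow_negSucc]
    exact lift_inv hp (lift_pow h (n + 1)) (pow_ne_zero _ he)

private theorem lift_prod (hp : IsPlc L x c R π) (hc : ∀ j, c j ≠ 0) (m : Fin (κ + 3) → ℤ)
    (s : Finset (Fin (κ + 3))) : ∃ h : ∏ j ∈ s, x j ^ m j ∈ R,
      π ⟨∏ j ∈ s, x j ^ m j, h⟩ = ∏ j ∈ s, c j ^ m j := by
  classical
  induction s using Finset.induction_on with
  | empty =>
    simp only [Finset.prod_empty]
    exact ⟨R.one_mem, map_one π⟩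
  | insert a s ha ih =>
    simp only [Finset.prod_insert ha]
    exact lift_mul (lift_zpow hp (hp.mem a) (hc a) (m a)) ih

theorem plc_mon (h : IsPlc L x c R π) (hc : ∀ j, c j ≠ 0) (m : Fin (κ + 3) → ℤ) :
    ∃ hR : ∏ j, x j ^ m j ∈ R, π ⟨∏ j, x j ^ m j, hR⟩ = ∏ j, c j ^ m j :=
  lift_prod h hc m Finset.univ

theorem plc_unit (h : IsPlc L x c R π) (w : Ω) (hw : w ∈ R) (h0 : π ⟨w, hw⟩ ≠ 0) (n : ℤ) :
    ∃ hR : w ^ n ∈ R, π ⟨w ^ n, hR⟩ = π ⟨w, hw⟩ ^ n :=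
  lift_zpow h ⟨hw, rfl⟩ h0 n

theorem plc_root [CharZero L] (h : IsPlc L x c R π) (u : Ω) (m : ℕ) (hm : 0 < m)
    (hu : u ^ m = 1) : ∃ hR : u ∈ R, π ⟨u, hR⟩ = 1 → u = 1 := by
  have hE : CharZero E := charZero_of_injective_algebraMap (algebraMap L E).injective
  have hu0 : u ≠ 0 := by
    rintro rfl
    rw [zero_pow hm.ne'] at hu
    exact zero_ne_one hu
  have hR : u ∈ R := by
    rcases h.val u with h1 | h1
    · exact h1
    · have h2 : u = u⁻¹ ^ (m - 1) := by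
        have h3 : u⁻¹ ^ (m - 1) * u⁻¹ = 1 := by
          rw [← pow_succ, Nat.sub_add_cancel hm, inv_pow, hu, inv_one]
        rw [eq_comm]
        exact (mul_inv_eq_one₀ hu0).1 h3
      rw [h2]
      exact R.pow_mem h1 _
  refine ⟨hR, fun h1 => ?_⟩
  by_contra hne
  have h2 : ∑ i ∈ Finset.range m, u ^ i = 0 := by
    have h3 := geom_sum_mul u m
    rw [hu, sub_self] at h3
    exact (mul_eq_zero.1 h3).resolve_right (sub_ne_zero.2 hne)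
  have h3 : ∑ i ∈ Finset.range m, (⟨u, hR⟩ : R) ^ i = 0 := by
    apply Subtype.ext
    push_cast
    exact h2
  have h4 := congrArg π h3
  rw [map_sum, map_zero] at h4
  simp only [map_pow, h1, one_pow, Finset.sum_const, Finset.card_range, nsmul_eq_mul,
    mul_one] at h4
  exact hm.ne' (by exact_mod_cast h4)

theorem plc_lift [CharZero L] [IsAlgClosed Ω] (h : IsPlc L x c R π) (hx : ∀ j, x j ≠ 0)
    (hc : ∀ j, c j ≠ 0) (Δ : ℕ) (hΔ : 0 < Δ) (a : Fin (κ + 3) → ℤ) (y : E)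
    (hy : y ^ Δ = ∏ j, c j ^ a j) :
    ∃ (w : Ω) (hw : w ∈ R), w ≠ 0 ∧ w ^ Δ = ∏ j, x j ^ a j ∧ π ⟨w, hw⟩ = y := by
  have hO : CharZero Ω := charZero_of_injective_algebraMap (algebraMap L Ω).injective
  obtain ⟨w₀, hw₀⟩ := IsAlgClosed.exists_pow_nat_eq (∏ j, x j ^ a j) hΔ
  obtain ⟨hm, hπ⟩ := plc_mon h hc a
  have hne : ∏ j, x j ^ a j ≠ 0 := Finset.prod_ne_zero_iff.2 fun j _ => zpow_ne_zero _ (hx j)
  have hne' : ∏ j, c j ^ a j ≠ 0 := Finset.prod_ne_zero_iff.2 fun j _ => zpow_ne_zero _ (hc j)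
  have hw0 : w₀ ≠ 0 := by
    rintro rfl
    rw [zero_pow hΔ.ne'] at hw₀
    exact hne hw₀.symm
  have hwR : w₀ ∈ R := by
    rcases h.val w₀ with h1 | h1
    · exact h1
    · have h2 : w₀ = (∏ j, x j ^ a j) * w₀⁻¹ ^ (Δ - 1) := by
        obtain ⟨D, hD⟩ : ∃ D, Δ = D + 1 := ⟨Δ - 1, by omega⟩
        rw [← hw₀, hD, Nat.add_sub_cancel, pow_succ, mul_right_comm, ← mul_pow,
          mul_inv_cancel₀ hw0, one_pow, one_mul]
      rw [h2]
      exact R.mul_mem hm (R.pow_mem h1 _)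
  have hpw : π ⟨w₀, hwR⟩ ^ Δ = ∏ j, c j ^ a j := by
    rw [← hπ, ← map_pow]
    congr 1
    exact Subtype.ext hw₀
  have hpw0 : π ⟨w₀, hwR⟩ ≠ 0 := by
    intro h1
    rw [h1, zero_pow hΔ.ne'] at hpw
    exact hne' hpw.symm
  have : NeZero Δ := ⟨hΔ.ne'⟩
  have : NeZero (Δ : Ω) := ⟨by exact_mod_cast hΔ.ne'⟩
  obtain ⟨ζ, hζ⟩ := HasEnoughRootsOfUnity.exists_primitiveRoot Ω Δ
  obtain ⟨hζR, _⟩ := plc_root h ζ Δ hΔ hζ.pow_eq_one
  have hη : IsPrimitiveRoot (π ⟨ζ, hζR⟩) Δ := by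
    constructor
    · rw [← map_pow]
      have : (⟨ζ, hζR⟩ : R) ^ Δ = 1 := Subtype.ext hζ.pow_eq_one
      rw [this, map_one]
    · intro l hl
      have h1 : (ζ ^ l) ^ Δ = 1 := by
        rw [← pow_mul, mul_comm, pow_mul, hζ.pow_eq_one, one_pow]
      obtain ⟨h2, h3⟩ := plc_root h (ζ ^ l) Δ hΔ h1
      have h4 : (⟨ζ ^ l, h2⟩ : R) = ⟨ζ, hζR⟩ ^ l := rfl
      rw [h4, map_pow] at h3
      exact hζ.dvd_of_pow_eq_one l (h3 hl)
  have hq : (y / π ⟨w₀, hwR⟩) ^ Δ = 1 := by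
    rw [div_pow, hpw, hy, div_self hne']
  obtain ⟨i, _, hi⟩ := hη.eq_pow_of_pow_eq_one hq
  refine ⟨ζ ^ i * w₀, R.mul_mem (R.pow_mem hζR i) hwR,
    mul_ne_zero (pow_ne_zero _ (hζ.ne_zero hΔ.ne')) hw0, ?_, ?_⟩
  · rw [mul_pow, hw₀, ← pow_mul, mul_comm i Δ, pow_mul, hζ.pow_eq_one, one_pow, one_mul]
  · have h1 : (⟨ζ ^ i * w₀, R.mul_mem (R.pow_mem hζR i) hwR⟩ : R) =
        ⟨ζ, hζR⟩ ^ i * ⟨w₀, hwR⟩ := rfl
    rw [h1, map_mul, map_pow, hi, div_mul_cancel₀ _ hpw0]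

end BMK
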