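import Pool.Agent.Lib.MP_a325a5_ag.GK.Base
import Pool.Agent.Lib.MP_a325a5_ag.GK.GDef
import Pool.Agent.Lib.MP_a325a5_ag.F2.SClear

/-! Identities between Laurent polynomials pass from the generic point x to points c of the curve.  Use BMS.exists_clear (F2/SClear.lean): for the two
monomials ∏ t^b and t_j there are a polynomial P and N with P(t) = (∏ t)^N G(∏ t^b, t_j) for all points t with invertible coordinates; P(x) = 0, so
P(c) = 0.  (A polynomial in two variables as MvPolynomial, or clear the denominators by hand.)  onC_bip0, onC_map, onC_CT are direct. -/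

open NumberField

namespace BMK

open BMF BMS BMG

variable {κ : ℕ}

private theorem onCL_comp {R A B : Type} [CommRing R] [CommRing A] [CommRing B] [Algebra R A]
    [Algebra R B] (φ : A →ₐ[R] B) (u v : A) (p : Polynomial (Polynomial R)) :
    φ (Polynomial.aevalAeval u v p) = Polynomial.aevalAeval (φ u) (φ v) p := by
  have h : φ.comp (Polynomial.aevalAeval u v) = Polynomial.aevalAeval (φ u) (φ v) :=
    Polynomial.algHom_ext' (by ext; simp) (by simp)
  exact congrArg (fun f : Polynomial (Polynomial R) →ₐ[R] B => f p) h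

private theorem onCL_single {F : Type} [Field F] (y : Fin (κ + 3) → F) (j : Fin (κ + 3)) :
    ∏ i, y i ^ (Pi.single j 1 : Fin (κ + 3) → ℤ) i = y j := by
  rw [Finset.prod_eq_single j]
  · simp
  · intro i _ hi
    rw [Pi.single_eq_of_ne hi, zpow_zero]
  · intro h
    exact absurd (Finset.mem_univ _) h

theorem onC_bip {L Ω E : Type} [Field L] [Field Ω] [Field E] [Algebra L Ω] [Algebra L E]
    {x : Fin (κ + 3) → Ω} (hx : ∀ j, x j ≠ 0) {c : Fin (κ + 3) → E} (hc : ∀ j, c j ≠ 0)
    (h : OnC L x c) (b : Fin (κ + 3) → ℤ) (j : Fin (κ + 3)) (G : Polynomial (Polynomial L))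
    (hG : Polynomial.aevalAeval (∏ l, x l ^ b l) (x j) G = 0) :
    Polynomial.aevalAeval (∏ l, c l ^ b l) (c j) G = 0 := by
  obtain ⟨f, hf⟩ : ∃ f : MvPolynomial (Fin 2) L, f = Polynomial.aevalAeval (MvPolynomial.X 0)
    (MvPolynomial.X 1) G := ⟨_, rfl⟩
  obtain ⟨A, hA⟩ : ∃ A : Fin 2 → Fin (κ + 3) → ℤ, A = ![b, Pi.single j 1] := ⟨_, rfl⟩
  obtain ⟨P, N, hP⟩ := BMS.exists_clear A f
  have key : ∀ (F : Type) [Field F] [Algebra L F] (y : Fin (κ + 3) → F) (hy : ∀ i, y i ≠ 0),
      MvPolynomial.aeval y P = (∏ i, y i) ^ N *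
        Polynomial.aevalAeval (∏ l, y l ^ b l) (y j) G := by
    intro F _ _ y hy
    have h1 := hP F (fun i => Units.mk0 (y i) (hy i))
    have h2 : (fun i => ((∏ l, (Units.mk0 (y l) (hy l)) ^ A i l : Fˣ) : F)) =
        ![∏ l, y l ^ b l, y j] := by
      funext i
      rw [Units.coe_prod]
      simp only [Units.val_zpow_eq_zpow_val, Units.val_mk0]
      rw [hA]
      fin_cases i
      · rfl
      · exact onCL_single y j
    rw [h2, hf, onCL_comp] at h1
    simpa using h1
  have h1 := key Ω x hx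
  rw [hG, mul_zero] at h1
  have h2 := key E c hc
  rw [h P h1] at h2
  have h3 : (∏ i, c i) ^ N ≠ 0 := pow_ne_zero _ (Finset.prod_ne_zero_iff.2 fun i _ => hc i)
  exact (mul_eq_zero.1 h2.symm).resolve_left h3

theorem onC_bip0 {L Ω E : Type} [Field L] [Field Ω] [Field E] [Algebra L Ω] [Algebra L E]
    {x : Fin (κ + 3) → Ω} {c : Fin (κ + 3) → E} (h : OnC L x c) (i j : Fin (κ + 3))
    (G : Polynomial (Polynomial L)) (hG : Polynomial.aevalAeval (x i) (x j) G = 0) :
    Polynomial.aevalAeval (c i) (c j) G = 0 := by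
  have h1 := h (Polynomial.aevalAeval (MvPolynomial.X i) (MvPolynomial.X j) G)
  rw [onCL_comp, onCL_comp, MvPolynomial.aeval_X, MvPolynomial.aeval_X, MvPolynomial.aeval_X,
    MvPolynomial.aeval_X] at h1
  exact h1 hG

theorem onC_map {L Ω E E' : Type} [Field L] [Field Ω] [Field E] [Field E'] [Algebra L Ω]
    [Algebra L E] [Algebra L E'] {x : Fin (κ + 3) → Ω} {c : Fin (κ + 3) → E} (h : OnC L x c)
    (σ : E →ₐ[L] E') : OnC L x (fun j => σ (c j)) := by
  intro p hp
  have h1 := h p hp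
  rw [← MvPolynomial.comp_aeval, AlgHom.comp_apply, h1, map_zero]

theorem onC_CT {L Ω E : Type} [Field L] [Field Ω] [Field E] [Algebra L Ω] [Algebra L E]
    {x : Fin (κ + 3) → Ω} {c : Fin (κ + 3) → E} (hc : ∀ j, c j ≠ 0) (h : OnC L x c) (τ : L →+* ℂ)
    (σ : E →+* ℂ) (hσ : σ.comp (algebraMap L E) = τ) : (fun j => σ (c j)) ∈ CT L x τ := by
  refine ⟨fun j => (map_ne_zero σ).2 (hc j), fun p hp => ?_⟩
  have h1 := h p hp
  rw [MvPolynomial.aeval_def] at h1
  have h2 := MvPolynomial.eval₂_comp_left σ (algebraMap L E) c p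
  rw [h1, map_zero, hσ] at h2
  exact h2.symm

end BMK
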