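import Mathlib

/-! Registers the namespaces used in the files of this directory. -/

namespace BMF

end BMF

namespace BMS

end BMS

namespace BMG

end BMG
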