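import Pool.Agent.Lib.MP_a325a5_ag.GK.Base
import Pool.Agent.Lib.MP_a325a5_ag.UL.Defs
import Pool.Agent.Lib.MP_a325a5_ag.GK.GDef

/-! The complex points of a closed set over the algebraic numbers. -/

namespace BMK

open BMF BMS BMG

variable {κ : ℕ}

open MvPolynomial Pool.Agent.Lib.MP_a325a5_ag.UL

/-- The complex points of the closed subset `C` of the torus over the algebraic numbers, for the
embedding `τ` of the algebraic numbers: the common zeros of the polynomials `τ p`, `p` in the
ideal of `C`. -/
def cpts {ι : Type} (τ : AlgebraicClosure ℚ →+* ℂ) (C : Set (ι → (AlgebraicClosure ℚ)ˣ)) :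
    Set (ι → ℂˣ) :=
  {w | ∀ p ∈ vanIdeal C, eval₂ τ (fun j => (w j : ℂ)) p = 0}

end BMK
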