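import Pool.Agent.Lib.MP_a325a5_ag.GK.Base
import Pool.Agent.Lib.MP_a325a5_ag.GK.BmB

/-! Lemma 2.1.  v s = r with r, s in Bm K₀ (exists_frac).  For J ≥ 0 the elements s^(K-1) p^J v^(i + K j) = s^(K-1-i) r^i p^(J-j) q^j
(i < K, j ≤ J) are in Bm ((K-1) K₀ + J N) and linearly independent over k (the powers v^0, v^1, .. are: transcendence_basis of one element,
or linearIndependent of powers; then multiply by the nonzero s^(K-1) p^J).  So K (J+1) ≤ σ ((K-1) K₀ + J N) + τ for all J. -/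

open NumberField

namespace BMK

open BMF BMS BMG

variable {κ : ℕ}

variable {k Ω : Type} [Field k] [CharZero k] [Field Ω] [Algebra k Ω] {x : Fin (κ + 3) → Ω}


omit [CharZero k] in
private theorem deg1_li {v : Ω} (hvt : Transcendental k v) {c : Ω} (hc : c ≠ 0) (n : ℕ) :
    LinearIndependent k (fun t : Fin n => c * v ^ (t : ℕ)) := by
  have h1 : LinearIndependent k (fun m : ℕ => v ^ m) := by
    have h2 := (Polynomial.basisMonomials k).linearIndependent.map'
      (Polynomial.aeval v : Polynomial k →ₐ[k] Ω).toLinearMap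
      (LinearMap.ker_eq_bot.2 (transcendental_iff_injective.1 hvt))
    have h5 : ((Polynomial.aeval v : Polynomial k →ₐ[k] Ω).toLinearMap ∘
        (Polynomial.basisMonomials k)) = fun m : ℕ => v ^ m := by
      funext m
      simp
    rw [h5] at h2
    exact h2
  have h3 : LinearIndependent k (fun t : Fin n => v ^ (t : ℕ)) :=
    h1.comp (fun t : Fin n => (t : ℕ)) Fin.val_injective
  have h4 := h3.map' (LinearMap.mulLeft k c) (LinearMap.ker_eq_bot.2 (mul_right_injective₀ hc))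
  exact h4

theorem deg1 (hx : Crv k x) (σ τ : ℝ)
    (hdim : ∀ K : ℕ, FiniteDimensional k (Bm k x K) ∧
      (Module.finrank k (Bm k x K) : ℝ) ≤ σ * K + τ) (v : Ω) (hv : v ∈ KF k x)
    (hvt : Transcendental k v) (K N : ℕ) (hK : 1 ≤ K) (p q : Ω) (hp : p ∈ Bm k x N)
    (hq : q ∈ Bm k x N) (hp0 : p ≠ 0) (h : v ^ K * p = q) : (K : ℝ) ≤ σ * N := by
  obtain ⟨K₀, r, s, hr, hs, hs0, hvs⟩ := exists_frac hx.ne hv
  have key : ∀ J : ℕ, (K : ℝ) * (J + 1) ≤ σ * ((K - 1 : ℕ) * K₀ + J * N) + τ := by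
    intro J
    obtain ⟨M, hM⟩ : ∃ M : ℕ, M = (K - 1) * K₀ + J * N := ⟨_, rfl⟩
    have hmem : ∀ t : Fin (K * (J + 1)), (s ^ (K - 1) * p ^ J) * v ^ (t : ℕ) ∈ Bm k x M := by
      intro t
      obtain ⟨i, hi⟩ : ∃ i : ℕ, i = (t : ℕ) % K := ⟨_, rfl⟩
      obtain ⟨j, hj⟩ : ∃ j : ℕ, j = (t : ℕ) / K := ⟨_, rfl⟩
      have hiK : i < K := by
        rw [hi]
        exact Nat.mod_lt _ (by omega)
      have hjJ : j ≤ J := by
        rw [hj]
        exact Nat.lt_succ_iff.1 (Nat.div_lt_of_lt_mul t.2)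
      have ht : (t : ℕ) = i + K * j := by
        rw [hi, hj]
        exact (Nat.mod_add_div _ _).symm
      obtain ⟨a, ha⟩ : ∃ a : ℕ, K - 1 = i + a := ⟨K - 1 - i, by omega⟩
      obtain ⟨b, hb⟩ : ∃ b : ℕ, J = j + b := ⟨J - j, by omega⟩
      have e1 : (s ^ (K - 1) * p ^ J) * v ^ (t : ℕ) = (s ^ a * r ^ i) * (p ^ b * q ^ j) := by
        rw [ht, ha, hb, ← h, ← hvs]
        ring
      rw [e1]
      have e2 : M = (a * K₀ + i * K₀) + (b * N + j * N) := by
        rw [hM, ha, hb]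
        ring
      rw [e2]
      exact Bm_mul hx.ne (Bm_mul hx.ne (Bm_pow hx.ne hs a) (Bm_pow hx.ne hr i))
        (Bm_mul hx.ne (Bm_pow hx.ne hp b) (Bm_pow hx.ne hq j))
    have hc : s ^ (K - 1) * p ^ J ≠ 0 := mul_ne_zero (pow_ne_zero _ hs0) (pow_ne_zero _ hp0)
    have hli : LinearIndependent k (fun t : Fin (K * (J + 1)) =>
        (⟨(s ^ (K - 1) * p ^ J) * v ^ (t : ℕ), hmem t⟩ : Bm k x M)) := by
      refine LinearIndependent.of_comp (Bm k x M).subtype ?_
      exact deg1_li hvt hc _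
    obtain ⟨hfin, hle⟩ := hdim M
    have hcard := hli.fintype_card_le_finrank
    rw [Fintype.card_fin] at hcard
    have h1 : ((K * (J + 1) : ℕ) : ℝ) ≤ (Module.finrank k (Bm k x M) : ℝ) := by
      exact_mod_cast hcard
    push_cast at h1
    have h2 : (M : ℝ) = ((K - 1 : ℕ) : ℝ) * K₀ + J * N := by
      rw [hM]
      push_cast
      ring
    rw [h2] at hle
    linarith
  by_contra hcon
  push Not at hcon
  have hd : 0 < (K : ℝ) - σ * N := by linarith
  obtain ⟨J, hJ⟩ := exists_nat_gt ((σ * ((K - 1 : ℕ) * K₀) + τ - K) / ((K : ℝ) - σ * N))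
  rw [div_lt_iff₀ hd] at hJ
  have h1 := key J
  nlinarith

end BMK
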