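import Pool.Agent.Lib.MP_a325a5_ag.GK.Base
import Pool.Agent.Lib.MP_a325a5_ag.GK.Deg1
import Pool.Agent.Lib.MP_a325a5_ag.GK.Dir
import Pool.Agent.Lib.MP_a325a5_ag.GK.Hil
import Pool.Agent.Lib.MP_a325a5_ag.GK.DEb

/-! Lemma 2.2.  θ = a / Δ, z^Δ = ∏ x^a, a ≠ 0 without loss.  dirich with Q = 6 σ: A b = q₀ a + e.  v = ∏ x^b is transcendental (Crv.tr), v in KF,
v^A = (z^Δ)^(q₀) ∏ x^e, so v^A (l p)^(q₀ Δ) = q^(q₀ Δ) ∏ x^e, both (l p)^(q₀ Δ) and the right side are in Bm N, N = q₀ Δ D + nm e.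
deg1: A ≤ σ (Q^3 Δ D + 3A/Q) = σ Q^3 Δ D + A/2, so A ≤ 2 σ Q^3 Δ D and qn θ = nm a / Δ ≤ 3A/Δ. -/

open NumberField

namespace BMK

open BMF BMS BMG

variable {κ : ℕ}

variable {k Ω : Type} [Field k] [CharZero k] [Field Ω] [Algebra k Ω] {x : Fin (κ + 3) → Ω}


theorem deg2 (hx : Crv k x) : ∃ C₂ : ℕ, 1 ≤ C₂ ∧ ∀ (D : ℕ) (θ : Fin (κ + 3) → ℚ) (z p q : Ω) (l : k),
    1 ≤ D → DE x θ z → z ∈ KF k x → l ≠ 0 → p ∈ Bm k x D → q ∈ Bm k x D → p ≠ 0 →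
    algebraMap k Ω l * z * p = q → qn θ ≤ C₂ * D := by
  obtain ⟨σ, hσ, τ, hdim⟩ := hil hx
  obtain ⟨Q, hQ⟩ : ∃ Q : ℕ, Q = 2 * ((κ + 3) * σ) := ⟨_, rfl⟩
  have hκσ : 3 ≤ (κ + 3) * σ := by
    calc 3 = 3 * 1 := rfl
      _ ≤ (κ + 3) * σ := Nat.mul_le_mul (Nat.le_add_left 3 κ) hσ
  refine ⟨(κ + 3) * (2 * (σ * Q ^ (κ + 3))), by
    have h1 : 1 ≤ Q ^ (κ + 3) := Nat.one_le_pow _ _ (by omega)
    have h2 : 1 ≤ σ * Q ^ (κ + 3) := Nat.mul_pos hσ h1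
    have h3 : 1 ≤ 2 * (σ * Q ^ (κ + 3)) := by omega
    exact Nat.mul_pos (by omega) h3, fun D θ z p q l hD hz _ hl hp hq hp0 h => ?_⟩
  obtain ⟨hz0, Δ, hΔ, a, ha, hza⟩ := hz
  have hΔQ : (0 : ℚ) < Δ := by exact_mod_cast hΔ
  by_cases ha0 : a = 0
  · have hθ : θ = 0 := by
      funext j
      have h1 := ha j
      rw [ha0, Pi.zero_apply, Int.cast_zero] at h1
      exact (mul_eq_zero.mp h1.symm).resolve_left hΔQ.ne'
    rw [hθ, qn_eq_zero.2 rfl]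
    positivity
  obtain ⟨A, q₀, b, e, hA, hnA, hq1, hqQ, hb, -, hAb, he⟩ := dirich a ha0 Q (by omega)
  -- the relation
  have hlk : algebraMap k Ω l ≠ 0 := by
    rw [Ne, map_eq_zero]
    exact hl
  have hlp : algebraMap k Ω l * p ∈ Bm k x D := by
    rw [← Algebra.smul_def]
    exact Submodule.smul_mem _ _ hp
  have hlp0 : algebraMap k Ω l * p ≠ 0 := mul_ne_zero hlk hp0
  have hv : (∏ j, x j ^ b j) ^ A = z ^ (q₀ * Δ) * ∏ j, x j ^ e j := by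
    rw [← mon_smul, mul_comm q₀ Δ, pow_mul, hza, ← mon_smul, ← mon_add hx.ne]
    refine Finset.prod_congr rfl fun j _ => ?_
    rw [hAb j, Pi.add_apply]
  have hrel : (∏ j, x j ^ b j) ^ A * (algebraMap k Ω l * p) ^ (q₀ * Δ) =
      q ^ (q₀ * Δ) * ∏ j, x j ^ e j := by
    rw [hv, ← h]
    ring
  have hd1 := deg1 hx (σ : ℝ) (τ : ℝ) hdim (∏ j, x j ^ b j) (mon_KF b) (hx.tr b hb) A
    (q₀ * Δ * D + nm e) hA ((algebraMap k Ω l * p) ^ (q₀ * Δ)) (q ^ (q₀ * Δ) * ∏ j, x j ^ e j)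
    (Bm_mono (Nat.le_add_right _ _) (Bm_pow hx.ne hlp _))
    (Bm_mul hx.ne (Bm_pow hx.ne hq _) (Bm_mon e le_rfl)) (pow_ne_zero _ hlp0) hrel
  have hd2 : A ≤ σ * (q₀ * Δ * D + nm e) := by exact_mod_cast hd1
  -- the numbers
  have hne : Q * nm e ≤ (κ + 3) * A := by
    unfold nm
    rw [Finset.mul_sum]
    have h1 : ∀ j ∈ (Finset.univ : Finset (Fin (κ + 3))), Q * (e j).natAbs ≤ A := by
      intro j _
      have h0 := he j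
      rw [Int.abs_eq_natAbs] at h0
      exact_mod_cast h0
    have h2 := Finset.sum_le_card_nsmul _ _ _ h1
    rwa [Finset.card_univ, Fintype.card_fin, smul_eq_mul] at h2
  have hne2 : 2 * (σ * nm e) ≤ A := by
    rw [hQ] at hne
    have h1 : 2 * ((κ + 3) * σ) * nm e = (κ + 3) * (2 * (σ * nm e)) := by ring
    rw [h1] at hne
    exact Nat.le_of_mul_le_mul_left hne (by omega)
  have hA2 : A ≤ 2 * (σ * (Q ^ (κ + 3) * Δ * D)) := by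
    have h1 : σ * (q₀ * Δ * D + nm e) = σ * (q₀ * Δ * D) + σ * nm e := by ring
    have h2 : σ * (q₀ * Δ * D) ≤ σ * (Q ^ (κ + 3) * Δ * D) :=
      Nat.mul_le_mul_left _ (Nat.mul_le_mul_right _ (Nat.mul_le_mul_right _ hqQ))
    omega
  have hnm : nm a ≤ (κ + 3) * (2 * (σ * Q ^ (κ + 3))) * D * Δ := by
    calc nm a ≤ (κ + 3) * A := hnA
      _ ≤ (κ + 3) * (2 * (σ * (Q ^ (κ + 3) * Δ * D))) := Nat.mul_le_mul_left _ hA2
      _ = (κ + 3) * (2 * (σ * Q ^ (κ + 3))) * D * Δ := by ring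
  -- the norm
  have hqn : qn θ * Δ = nm a := by
    unfold qn nm
    rw [Finset.sum_mul]
    push_cast
    refine Finset.sum_congr rfl fun j _ => ?_
    have h1 : |θ j| * (Δ : ℚ) = |(a j : ℚ)| := by
      rw [ha j, abs_mul, abs_of_pos hΔQ, mul_comm]
    rw [h1]
    rw [Nat.cast_natAbs, Int.cast_abs]
  have h1 : qn θ * Δ ≤ ((κ + 3) * (2 * (σ * Q ^ (κ + 3))) * D : ℕ) * Δ := by
    rw [hqn]
    exact_mod_cast hnm
  have h2 := le_of_mul_le_mul_right h1 hΔQ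
  refine h2.trans (le_of_eq ?_)
  push_cast
  ring

end BMK
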