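import Pool.Agent.Lib.MP_a325a5_ag.GK.Base
import Pool.Agent.Lib.MP_a325a5_ag.GK.GDef
import Mathlib.RingTheory.Etale.Kaehler
import Mathlib.RingTheory.Etale.Field
import Mathlib.RingTheory.Localization.Integral
import Mathlib.RingTheory.AlgebraicIndependent.TranscendenceBasis

/-! Lemma 2.5, first part.  Existence: K = k(x 0) is isomorphic to the field of rational functions (x 0 is transcendental), it has the derivation
d/dx_0, and Ω is algebraic, hence separable, over K (characteristic 0), so the derivation extends to Ω (Algebra.FormallyEtale.of_isSeparable and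
KaehlerDifferential: Ω[Ω/k] = Ω ⊗ Ω[K/k]; or Zorn / minimal polynomials).  Kernel: y is algebraic over k(x 0): there are P ≠ 0 in k[X,Y] with
P(x_0, y) = 0; choose one of least degree in X.  0 = δ(P(x_0,y)) = P_X(x_0,y) + P_Y(x_0,y) δ y = P_X(x_0,y), so P_X = 0, P in k[Y], y algebraic over k,
so y is in k (algebraically closed). -/

open NumberField

namespace BMK

open BMF BMS BMG

variable {κ : ℕ}

variable {k Ω : Type} [Field k] [CharZero k] [IsAlgClosed k] [Field Ω] [Algebra k Ω]
  {x : Fin (κ + 3) → Ω}

open Polynomial in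
open scoped IntermediateField.algebraAdjoinAdjoin in
private theorem derq_alg {t : Ω} (ht : ∀ y : Ω, IsAlgebraic (IntermediateField.adjoin k {t}) y) (y : Ω) :
    ∃ Q : k[X][X], Q ≠ 0 ∧ Q.eval₂ (aeval t : k[X] →ₐ[k] Ω).toRingHom y = 0 := by
  have h1 : IsAlgebraic (Algebra.adjoin k {t}) y :=
    (IsFractionRing.isAlgebraic_iff (Algebra.adjoin k {t}) (IntermediateField.adjoin k {t}) Ω).2 (ht y)
  obtain ⟨P, hP0, hPy⟩ := h1
  let f : k[X] →+* Algebra.adjoin k {t} :=
    (aeval (⟨t, Algebra.self_mem_adjoin_singleton k t⟩ : Algebra.adjoin k {t}) : k[X] →ₐ[k] _).toRingHom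
  have hcomp : (algebraMap (Algebra.adjoin k {t}) Ω).comp f = (aeval t : k[X] →ₐ[k] Ω).toRingHom := by
    refine Polynomial.ringHom_ext (fun a => ?_) ?_
    · simp [f]
    · simp [f]
  have hsurj : Function.Surjective f := by
    rintro ⟨z, hz⟩
    rw [Algebra.adjoin_singleton_eq_range_aeval] at hz
    obtain ⟨q, rfl⟩ := hz
    refine ⟨q, Subtype.ext ?_⟩
    have := congrArg (fun g : k[X] →+* Ω => g q) hcomp
    exact this
  obtain ⟨Q, rfl⟩ := Polynomial.map_surjective f hsurj P
  refine ⟨Q, fun h => hP0 (by rw [h, Polynomial.map_zero]), ?_⟩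
  rw [← hcomp, ← Polynomial.eval₂_map]
  exact hPy

open Polynomial in
open scoped TensorProduct KaehlerDifferential in
private theorem derq_ex {t : Ω} (htr : Transcendental k t)
    (ht : ∀ y : Ω, IsAlgebraic (IntermediateField.adjoin k {t}) y) :
    ∃ δ : Derivation k Ω Ω, δ t = 1 := by
  let iA : Algebra k[X] Ω := (aeval t : k[X] →ₐ[k] Ω).toRingHom.toAlgebra
  have hmap : ∀ q : k[X], algebraMap k[X] Ω q = aeval t q := fun q => rfl
  have : IsScalarTower k k[X] Ω := IsScalarTower.of_algebraMap_eq' (by
    refine RingHom.ext fun a => ?_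
    rw [RingHom.comp_apply, hmap]
    simp)
  have hinj : Function.Injective (algebraMap k[X] Ω) := by
    rw [injective_iff_map_eq_zero]
    intro q hq
    rw [hmap] at hq
    by_contra h0
    exact htr ⟨q, h0, hq⟩
  have : FaithfulSMul k[X] Ω := (faithfulSMul_iff_algebraMap_injective _ _).2 hinj
  let := FractionRing.liftAlgebra k[X] Ω
  have := FractionRing.isScalarTower_liftAlgebra k[X] Ω
  have h1 : Algebra.IsAlgebraic k[X] Ω := ⟨fun y => by
    obtain ⟨Q, h1, h2⟩ := derq_alg ht y
    exact ⟨Q, h1, h2⟩⟩
  have h2 : Algebra.IsAlgebraic (FractionRing k[X]) Ω := IsFractionRing.comap_isAlgebraic_iff.1 h1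
  have : CharZero (FractionRing k[X]) := charZero_of_injective_algebraMap (R := k[X]) (IsFractionRing.injective _ _)
  have : Algebra.FormallyEtale (FractionRing k[X]) Ω := Algebra.FormallyEtale.of_isSeparable _ _
  have : Algebra.FormallyEtale k[X] (FractionRing k[X]) := Algebra.FormallyEtale.of_isLocalization (nonZeroDivisors k[X])
  have : Algebra.FormallyEtale k[X] Ω := Algebra.FormallyEtale.comp k[X] (FractionRing k[X]) Ω
  let d0 : Derivation k k[X] Ω := Polynomial.mkDerivation k (1 : Ω)
  let e := (KaehlerDifferential.tensorKaehlerEquivOfFormallyEtale k k[X] Ω).symm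
  let g : Ω ⊗[k[X]] Ω[k[X]⁄k] →ₗ[Ω] Ω := LinearMap.liftBaseChange Ω d0.liftKaehlerDifferential
  refine ⟨(g.comp e.toLinearMap).compDer (KaehlerDifferential.D k Ω), ?_⟩
  have hX : algebraMap k[X] Ω X = t := by rw [hmap, aeval_X]
  have h3 : e (KaehlerDifferential.D k Ω t) = 1 ⊗ₜ[k[X]] KaehlerDifferential.D k k[X] X := by
    rw [← hX]
    exact KaehlerDifferential.tensorKaehlerEquivOfFormallyEtale_symm_D_algebraMap k k[X] Ω X
  change g (e (KaehlerDifferential.D k Ω t)) = 1
  rw [h3]
  change (LinearMap.liftBaseChange Ω d0.liftKaehlerDifferential) (1 ⊗ₜ[k[X]] KaehlerDifferential.D k k[X] X) = 1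
  rw [LinearMap.liftBaseChange_tmul, one_smul, Derivation.liftKaehlerDifferential_comp_D]
  exact Polynomial.mkDerivation_X k (1 : Ω)

open Polynomial Cardinal in
open scoped IntermediateField.algebraAdjoinAdjoin in
private theorem derq_ker {t : Ω} (htr : Transcendental k t)
    (ht : ∀ y : Ω, IsAlgebraic (IntermediateField.adjoin k {t}) y) (δ : Derivation k Ω Ω) (hδ : δ t = 1) {y : Ω}
    (hy : δ y = 0) : ∃ c : k, algebraMap k Ω c = y := by
  by_cases hya : IsAlgebraic k y
  · have h1 : Algebra.IsIntegral k (IntermediateField.adjoin k {y}) := by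
      have : Algebra.IsAlgebraic k (IntermediateField.adjoin k {y}) :=
        IntermediateField.isAlgebraic_adjoin (fun z hz => by
          rw [Set.mem_singleton_iff] at hz
          rw [hz]
          exact hya.isIntegral)
      exact Algebra.IsAlgebraic.isIntegral
    obtain ⟨c, hc⟩ := (IsAlgClosed.algebraMap_bijective_of_isIntegral (k := k)
      (K := IntermediateField.adjoin k {y})).2 ⟨y, IntermediateField.mem_adjoin_simple_self k y⟩
    refine ⟨c, ?_⟩
    have := congrArg (fun z : IntermediateField.adjoin k {y} => (z : Ω)) hc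
    exact this
  exfalso
  have hr : ∀ u : Ω, Set.range (fun _ : Unit => u) = {u} := fun u => Set.range_const
  have hB1 : IsTranscendenceBasis k (fun _ : Unit => t) := by
    rw [isTranscendenceBasis_iff_algebraicIndependent_isAlgebraic]
    refine ⟨(algebraicIndependent_unique_type_iff).2 htr, ?_⟩
    rw [hr]
    exact ⟨fun z => (IsFractionRing.isAlgebraic_iff (Algebra.adjoin k {t}) (IntermediateField.adjoin k {t}) Ω).2 (ht z)⟩
  have hB2 : IsTranscendenceBasis k (fun _ : Unit => y) := by
    refine AlgebraicIndependent.isTranscendenceBasis_of_trdeg_le_of_finite ?_ ?_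
    · exact (algebraicIndependent_unique_type_iff).2 hya
    · rw [← hB1.cardinalMk_eq_trdeg]
  have h2 : Algebra.IsAlgebraic (IntermediateField.adjoin k (Set.range (fun _ : Unit => y))) Ω := hB2.isAlgebraic_field
  rw [hr] at h2
  have hk : ∀ z : IntermediateField.adjoin k {y}, δ (z : Ω) = 0 := by
    rintro ⟨z, hz⟩
    change δ z = 0
    refine IntermediateField.adjoin_induction (p := fun z _ => δ z = 0) k ?_ ?_ ?_ ?_ ?_ hz
    · intro a ha
      rw [Set.mem_singleton_iff] at ha
      rw [ha, hy]
    · intro c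
      exact δ.map_algebraMap c
    · intro a b _ _ ha hb
      rw [map_add, ha, hb, add_zero]
    · intro a _ ha
      rw [Derivation.leibniz_inv, ha, smul_zero]
    · intro a b _ _ ha hb
      rw [Derivation.leibniz, ha, hb, smul_zero, smul_zero, add_zero]
  have hder : ∀ q : (IntermediateField.adjoin k {y})[X], δ (aeval t q) = aeval t (derivative q) := by
    intro q
    induction q using Polynomial.induction_on' with
    | add p q hp hq => rw [map_add, map_add, hp, hq, map_add, map_add]
    | monomial n a =>
      rw [aeval_monomial, Derivation.leibniz, Derivation.leibniz_pow, hδ, derivative_monomial, aeval_monomial]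
      have := hk a
      rw [show (algebraMap (IntermediateField.adjoin k {y}) Ω) a = (a : Ω) from rfl, this]
      simp
      ring
  have hint : IsIntegral (IntermediateField.adjoin k {y}) t := (h2.isAlgebraic t).isIntegral
  have hsep : (minpoly (IntermediateField.adjoin k {y}) t).Separable := (minpoly.irreducible hint).separable
  refine hsep.aeval_derivative_ne_zero (minpoly.aeval _ t) ?_
  rw [← hder, minpoly.aeval, map_zero]

theorem exists_der (hx : Crv k x) : ∃ δ : Derivation k Ω Ω, δ (x 0) = 1 ∧
    ∀ y : Ω, δ y = 0 → ∃ c : k, algebraMap k Ω c = y := by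
  have htr : Transcendental k (x 0) := by
    have h := hx.tr (Pi.single 0 1) (by
      intro h
      have := congrFun h 0
      simp at this)
    rw [Finset.prod_eq_single (0 : Fin (κ + 3))] at h
    · rw [Pi.single_eq_same, zpow_one] at h
      exact h
    · intro j _ hj
      rw [Pi.single_eq_of_ne hj, zpow_zero]
    · intro h0
      exact absurd (Finset.mem_univ _) h0
  obtain ⟨δ, hδ⟩ := derq_ex htr hx.alg
  exact ⟨δ, hδ, fun y hy => derq_ker htr hx.alg δ hδ hy⟩

end BMK
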