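import Pool.Agent.Lib.MP_a325a5_ag.GK.Base
import Pool.Agent.Lib.MP_a325a5_ag.GK.DerB
import Pool.Agent.Lib.MP_a325a5_ag.GK.Der
import Pool.Agent.Lib.MP_a325a5_ag.GK.Deg2

/-! Lemma 2.6, induction on r.  δ from exists_der, c and E₀ from derB.  D_i = E₀ (δ p_i + p_i ∑_j θ_ij δ(x_j)/x_j) is in Bm (D + c), and
δ(p_i z_i) = D_i z_i / E₀ (DE_der).  So ∑ D_i z_i = 0 and, for a fixed i₁ in S, ∑_{i ≠ i₁} (p_(i₁) D_i - D_(i₁) p_i) z_i = 0 with coefficients in
Bm (2D + c).  If some coefficient is 0: δ(p_i z_i / (p_(i₁) z_(i₁))) = 0, so p_i z_i = l p_(i₁) z_(i₁) with l in k, l ≠ 0, and deg2 for z_(i₁)/z_i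
(l (z_(i₁)/z_i) p_(i₁) = p_i).  Otherwise r ≥ 3 (for r = 2 there is one term, not 0) and the induction hypothesis for S without i₁. -/

open NumberField

namespace BMK

open BMF BMS BMG

variable {κ : ℕ}

variable {k Ω : Type} [Field k] [CharZero k] [IsAlgClosed k] [Field Ω] [Algebra k Ω]
  {x : Fin (κ + 3) → Ω}

private noncomputable def el6D (δ : Derivation k Ω Ω) (x : Fin (κ + 3) → Ω) (E₀ p : Ω)
    (θ : Fin (κ + 3) → ℚ) : Ω :=
  E₀ * (δ p + p * ∑ j, ((θ j : ℚ) : Ω) * (δ (x j) / x j))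

omit [IsAlgClosed k] in
private theorem el6_mem (hx : ∀ j, x j ≠ 0) (δ : Derivation k Ω Ω) {c : ℕ} {E₀ : Ω}
    (hB : ∀ K, ∀ g ∈ Bm k x K, E₀ * δ g ∈ Bm k x (K + c))
    (hX : ∀ j, E₀ * (δ (x j) / x j) ∈ Bm k x c) {D : ℕ} {p : Ω} (hp : p ∈ Bm k x D)
    (θ : Fin (κ + 3) → ℚ) : el6D δ x E₀ p θ ∈ Bm k x (D + c) := by
  have h : el6D δ x E₀ p θ = E₀ * δ p + p * ∑ j, ((θ j : ℚ) : k) • (E₀ * (δ (x j) / x j)) := by
    unfold el6D
    have h1 : ∑ j, ((θ j : ℚ) : k) • (E₀ * (δ (x j) / x j)) =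
        E₀ * ∑ j, ((θ j : ℚ) : Ω) * (δ (x j) / x j) := by
      rw [Finset.mul_sum]
      refine Finset.sum_congr rfl fun j _ => ?_
      rw [Algebra.smul_def, map_ratCast]
      ring
    rw [h1]
    ring
  rw [h]
  exact Submodule.add_mem _ (hB D p hp)
    (Bm_mul hx hp (Submodule.sum_mem _ fun j _ => Submodule.smul_mem _ _ (hX j)))

omit [IsAlgClosed k] in
private theorem el6_der (hx : ∀ j, x j ≠ 0) (δ : Derivation k Ω Ω) (E₀ p : Ω) {θ : Fin (κ + 3) → ℚ}
    {z : Ω} (h : DE x θ z) : E₀ * δ (p * z) = el6D δ x E₀ p θ * z := by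
  unfold el6D
  rw [Derivation.leibniz, smul_eq_mul, smul_eq_mul, DE_der hx δ h]
  ring

theorem elim6 (hx : Crv k x) (r : ℕ) (hr : 2 ≤ r) : ∀ D : ℕ, 1 ≤ D → ∃ C : ℕ,
    ∀ (ι : Type) [DecidableEq ι] (S : Finset ι) (p z : ι → Ω) (θ : ι → Fin (κ + 3) → ℚ), S.card = r →
    (∀ i ∈ S, p i ∈ Bm k x D ∧ p i ≠ 0 ∧ DE x (θ i) (z i) ∧ z i ∈ KF k x) →
    ∑ i ∈ S, p i * z i = 0 → ∃ i ∈ S, ∃ j ∈ S, i ≠ j ∧ qn (θ i - θ j) ≤ C := by
  obtain ⟨δ, hδ, hker⟩ := exists_der hx
  obtain ⟨c, E₀, _, hE0, _, hB, hX⟩ := derB hx δ hδ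
  obtain ⟨C₂, _, hdeg⟩ := deg2 hx
  have hr1 : 1 ≤ r := le_trans one_le_two hr
  clear hr
  induction r, hr1 using Nat.le_induction with
  | base =>
    intro D _
    refine ⟨0, fun ι _ S p z θ hS h hsum => ?_⟩
    exfalso
    obtain ⟨i, rfl⟩ := Finset.card_eq_one.mp hS
    rw [Finset.sum_singleton] at hsum
    obtain ⟨_, h1, h2, _⟩ := h i (Finset.mem_singleton_self i)
    exact mul_ne_zero h1 h2.1 hsum
  | succ r hr ih =>
    intro D hD
    obtain ⟨C, hC⟩ := ih (D + (D + c)) (by omega)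
    refine ⟨max (C₂ * D) C, fun ι _ S p z θ hS h hsum => ?_⟩
    have hne : S.Nonempty := by
      rw [← Finset.card_pos, hS]
      exact Nat.succ_pos r
    obtain ⟨a, ha⟩ := hne
    obtain ⟨hpa, hpa0, hDa, hza⟩ := h a ha
    let e : ι → Ω := fun i => el6D δ x E₀ (p i) (θ i)
    have he : ∀ i ∈ S, E₀ * δ (p i * z i) = e i * z i :=
      fun i hi => el6_der hx.ne δ E₀ (p i) (h i hi).2.2.1
    have hsum2 : ∑ i ∈ S, e i * z i = 0 := by
      have h1 := congrArg (fun w => E₀ * δ w) hsum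
      simp only [map_sum, map_zero, mul_zero] at h1
      rw [Finset.mul_sum] at h1
      rw [← h1]
      exact Finset.sum_congr rfl fun i hi => (he i hi).symm
    let q : ι → Ω := fun i => p a * e i - e a * p i
    have hq : ∀ i ∈ S, q i ∈ Bm k x (D + (D + c)) := by
      intro i hi
      refine Submodule.sub_mem _ (Bm_mul hx.ne hpa (el6_mem hx.ne δ hB hX (h i hi).1 (θ i))) ?_
      rw [mul_comm]
      exact Bm_mul hx.ne (h i hi).1 (el6_mem hx.ne δ hB hX hpa (θ a))
    have hqa : q a * z a = 0 := by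
      have h1 : q a = 0 := by
        show p a * e a - e a * p a = 0
        ring
      rw [h1, zero_mul]
    have hsum3 : ∑ i ∈ S.erase a, q i * z i = 0 := by
      rw [Finset.sum_erase S hqa]
      have h1 : ∀ i, q i * z i = p a * (e i * z i) - e a * (p i * z i) := by
        intro i
        show (p a * e i - e a * p i) * z i = _
        ring
      rw [Finset.sum_congr rfl fun i _ => h1 i, Finset.sum_sub_distrib, ← Finset.mul_sum,
        ← Finset.mul_sum, hsum2, hsum, mul_zero, mul_zero, sub_zero]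
    have hzero : ∀ i ∈ S, q i = 0 → qn (θ i - θ a) ≤ (C₂ * D : ℕ) := by
      intro i hi hqi
      obtain ⟨hpi, hpi0, hDi, hzi⟩ := h i hi
      have hza0 : z a ≠ 0 := hDa.1
      have hzi0 : z i ≠ 0 := hDi.1
      have hva : p a * z a ≠ 0 := mul_ne_zero hpa0 hza0
      have hvi : p i * z i ≠ 0 := mul_ne_zero hpi0 hzi0
      have h1 : (p a * z a) * δ (p i * z i) = (p i * z i) * δ (p a * z a) := by
        refine mul_left_cancel₀ hE0 ?_
        have h2 : E₀ * ((p a * z a) * δ (p i * z i)) = (p a * z a) * (E₀ * δ (p i * z i)) := by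
          ring
        have h3 : E₀ * ((p i * z i) * δ (p a * z a)) = (p i * z i) * (E₀ * δ (p a * z a)) := by
          ring
        have h4 : p a * e i = e a * p i := sub_eq_zero.mp hqi
        rw [h2, h3, he i hi, he a ha]
        linear_combination (z a * z i) * h4
      have h5 : δ ((p i * z i) * (p a * z a)⁻¹) = 0 := by
        have h6 := Derivation.leibniz δ ((p i * z i) * (p a * z a)⁻¹) (p a * z a)
        rw [mul_assoc, inv_mul_cancel₀ hva, mul_one, smul_eq_mul, smul_eq_mul] at h6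
        have h7 : (p a * z a) * ((p a * z a) * δ ((p i * z i) * (p a * z a)⁻¹)) = 0 := by
          have h8 : (p a * z a) * ((p i * z i) * (p a * z a)⁻¹) = p i * z i := by
            field_simp
          linear_combination h1 - (p a * z a) * h6 - δ (p a * z a) * h8
        exact (mul_eq_zero.mp ((mul_eq_zero.mp h7).resolve_left hva)).resolve_left hva
      obtain ⟨l, hl⟩ := hker _ h5
      have hl0 : l ≠ 0 := by
        rintro rfl
        rw [map_zero] at hl
        exact mul_ne_zero hvi (inv_ne_zero hva) hl.symm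
      have h9 : algebraMap k Ω l * (z a / z i) * p a = p i := by
        rw [hl]
        field_simp
      have h10 := hdeg D (θ a - θ i) (z a / z i) (p a) (p i) l hD (DE_div hx.ne hDa hDi)
        (div_mem hza hzi) hl0 hpa hpi hpa0 h9
      rw [← qn_neg, neg_sub]
      exact_mod_cast h10
    by_cases hex : ∃ i ∈ S.erase a, q i = 0
    · obtain ⟨i, hi, hqi⟩ := hex
      refine ⟨i, Finset.mem_of_mem_erase hi, a, ha, Finset.ne_of_mem_erase hi, ?_⟩
      refine (hzero i (Finset.mem_of_mem_erase hi) hqi).trans ?_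
      exact_mod_cast le_max_left _ _
    · push Not at hex
      obtain ⟨i, hi, j, hj, hij, hC1⟩ := hC ι (S.erase a) q z θ
        (by rw [Finset.card_erase_of_mem ha, hS]; rfl)
        (fun i hi => ⟨hq i (Finset.mem_of_mem_erase hi), hex i hi,
          (h i (Finset.mem_of_mem_erase hi)).2.2⟩) hsum3
      refine ⟨i, Finset.mem_of_mem_erase hi, j, Finset.mem_of_mem_erase hj, hij, hC1.trans ?_⟩
      exact_mod_cast le_max_right _ _

end BMK
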