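import Pool.Agent.Lib.MP_a325a5_ag.GK.Base
import Pool.Agent.Lib.MP_a325a5_ag.GK.Elim6
import Pool.Agent.Lib.MP_a325a5_ag.GK.Rep4

/-! Lemma 2.7, induction on r.  r = 2: elim6.  r > 2: i ≠ j from elim6 with qn (θ_i - θ_j) ≤ C; z_i/z_j is in KF and DE with exponent θ_i - θ_j:
(z_i/z_j) P = Q with P, Q in Bm D' (rep4).  Multiply the relation by P: on S without i, with the coefficients P p_l (l ≠ j) and P p_j + p_i Q for l = j:
these are not 0 (the last one: (P p_j + p_i Q) z_j = P (p_j z_j + p_i z_i), a proper subsum as r > 2), the sum is 0, subsums are P times subsums of the old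
sum.  Induction hypothesis with D + D', then the triangle inequality for θ_i. -/

open NumberField

namespace BMK

open BMF BMS BMG

variable {κ : ℕ}

variable {k Ω : Type} [Field k] [CharZero k] [IsAlgClosed k] [Field Ω] [Algebra k Ω]
  {x : Fin (κ + 3) → Ω}

private theorem cl7_sub {ι : Type} (θ : ι → Fin (κ + 3) → ℚ) (a b c : ι) :
    qn (θ a - θ c) ≤ qn (θ a - θ b) + qn (θ b - θ c) := by
  have h : θ a - θ c = (θ a - θ b) + (θ b - θ c) := by abel
  rw [h]
  exact qn_add_le _ _

private theorem cl7_comm {ι : Type} (θ : ι → Fin (κ + 3) → ℚ) (a b : ι) :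
    qn (θ a - θ b) = qn (θ b - θ a) := by
  rw [← qn_neg, neg_sub]

private theorem cl7_self {ι : Type} (θ : ι → Fin (κ + 3) → ℚ) (a : ι) : qn (θ a - θ a) = 0 := by
  rw [sub_self]
  exact qn_eq_zero.mpr rfl

theorem clos7 (hx : Crv k x) (r : ℕ) (hr : 2 ≤ r) : ∀ D : ℕ, 1 ≤ D → ∃ C : ℕ,
    ∀ (ι : Type) [DecidableEq ι] (S : Finset ι) (p z : ι → Ω) (θ : ι → Fin (κ + 3) → ℚ), S.card = r →
    (∀ i ∈ S, p i ∈ Bm k x D ∧ p i ≠ 0 ∧ DE x (θ i) (z i) ∧ z i ∈ KF k x) →
    ∑ i ∈ S, p i * z i = 0 →
    (∀ I ⊆ S, I.Nonempty → I ≠ S → ∑ i ∈ I, p i * z i ≠ 0) →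
    ∀ i ∈ S, ∀ j ∈ S, qn (θ i - θ j) ≤ C := by
  induction r, hr using Nat.le_induction with
  | base =>
    intro D hD
    obtain ⟨C, hC⟩ := elim6 hx 2 le_rfl D hD
    refine ⟨C, fun ι _ S p z θ hS h hsum _ => ?_⟩
    obtain ⟨i, hi, j, hj, hij, hb⟩ := hC ι S p z θ hS h hsum
    have hSij : S = {i, j} := by
      refine (Finset.eq_of_subset_of_card_le ?_ ?_).symm
      · intro l hl
        rcases Finset.mem_insert.mp hl with rfl | hl
        · exact hi
        · rw [Finset.mem_singleton.mp hl]
          exact hj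
      · rw [hS, Finset.card_pair hij]
    have h0 : (0 : ℚ) ≤ C := Nat.cast_nonneg C
    intro a ha b hb'
    rw [hSij] at ha hb'
    rcases Finset.mem_insert.mp ha with rfl | ha
    · rcases Finset.mem_insert.mp hb' with rfl | hb'
      · rw [cl7_self]
        exact h0
      · rw [Finset.mem_singleton.mp hb']
        exact hb
    · rw [Finset.mem_singleton.mp ha]
      rcases Finset.mem_insert.mp hb' with rfl | hb'
      · rw [cl7_comm]
        exact hb
      · rw [Finset.mem_singleton.mp hb', cl7_self]
        exact h0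
  | succ r hr ih =>
    intro D hD
    obtain ⟨C, hC⟩ := elim6 hx (r + 1) (by omega) D hD
    obtain ⟨D', hD', hrep⟩ := rep4 hx C
    obtain ⟨C', hC'⟩ := ih (D' + D) (by omega)
    refine ⟨C + C', fun ι _ S p z θ hS h hsum hsub => ?_⟩
    obtain ⟨i, hi, j, hj, hij, hb⟩ := hC ι S p z θ hS h hsum
    obtain ⟨hpi, hpi0, hDi, hzi⟩ := h i hi
    obtain ⟨hpj, hpj0, hDj, hzj⟩ := h j hj
    obtain ⟨P, hP, Q, hQ, hP0, hQ0, hPQ⟩ := hrep (θ i - θ j) (z i / z j)
      (DE_div hx.ne hDi hDj) (div_mem hzi hzj) hb
    have hzj0 : z j ≠ 0 := hDj.1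
    have hPQ' : z i * P = Q * z j := by
      rw [← hPQ]
      field_simp
    let q : ι → Ω := fun l => if l = j then P * p j + p i * Q else P * p l
    have hqj : q j * z j = P * (p i * z i + p j * z j) := by
      have h1 : q j = P * p j + p i * Q := if_pos rfl
      rw [h1]
      linear_combination (-p i) * hPQ'
    have hql : ∀ l, l ≠ j → q l * z l = P * (p l * z l) := by
      intro l hl
      have h1 : q l = P * p l := if_neg hl
      rw [h1]
      ring
    have hI : ∀ I : Finset ι, i ∉ I → j ∈ I →
        ∑ l ∈ I, q l * z l = P * ∑ l ∈ insert i I, p l * z l := by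
      intro I hiI hjI
      rw [Finset.sum_insert hiI, ← Finset.add_sum_erase I _ hjI,
        ← Finset.add_sum_erase I (fun l => p l * z l) hjI, hqj]
      have h1 : ∑ l ∈ I.erase j, q l * z l = P * ∑ l ∈ I.erase j, p l * z l := by
        rw [Finset.mul_sum]
        exact Finset.sum_congr rfl fun l hl => hql l (Finset.ne_of_mem_erase hl)
      rw [h1]
      ring
    have hI' : ∀ I : Finset ι, j ∉ I →
        ∑ l ∈ I, q l * z l = P * ∑ l ∈ I, p l * z l := by
      intro I hjI
      rw [Finset.mul_sum]
      refine Finset.sum_congr rfl fun l hl => hql l ?_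
      rintro rfl
      exact hjI hl
    have hcard : (S.erase i).card = r := by
      rw [Finset.card_erase_of_mem hi, hS]
      rfl
    have hji : j ∈ S.erase i := Finset.mem_erase.mpr ⟨hij.symm, hj⟩
    have key := hC' ι (S.erase i) q z θ hcard ?_ ?_ ?_
    · have hle : (0 : ℚ) ≤ (C : ℚ) := Nat.cast_nonneg C
      have hle' : (0 : ℚ) ≤ (C' : ℚ) := Nat.cast_nonneg C'
      have h1 : ∀ b ∈ S, qn (θ i - θ b) ≤ ((C + C' : ℕ) : ℚ) := by
        intro b hb'
        push_cast
        by_cases hbi : b = i
        · rw [hbi, cl7_self]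
          exact add_nonneg hle hle'
        · refine (cl7_sub θ i j b).trans ?_
          exact add_le_add hb (key j hji b (Finset.mem_erase.mpr ⟨hbi, hb'⟩))
      intro a ha b hb'
      by_cases hai : a = i
      · rw [hai]
        exact h1 b hb'
      · by_cases hbi : b = i
        · rw [hbi, cl7_comm]
          exact h1 a ha
        · refine (key a (Finset.mem_erase.mpr ⟨hai, ha⟩) b
            (Finset.mem_erase.mpr ⟨hbi, hb'⟩)).trans ?_
          push_cast
          linarith
    · intro l hl
      obtain ⟨hpl, hpl0, hDl, hzl⟩ := h l (Finset.mem_of_mem_erase hl)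
      refine ⟨?_, ?_, hDl, hzl⟩
      · by_cases hlj : l = j
        · rw [hlj]
          have h1 : q j = P * p j + p i * Q := if_pos rfl
          rw [h1]
          refine Submodule.add_mem _ (Bm_mul hx.ne hP hpj) ?_
          rw [mul_comm (p i) Q]
          exact Bm_mul hx.ne hQ hpi
        · have h1 : q l = P * p l := if_neg hlj
          rw [h1]
          exact Bm_mul hx.ne hP hpl
      · by_cases hlj : l = j
        · rw [hlj]
          intro h0
          rw [h0, zero_mul] at hqj
          refine hsub {i, j} ?_ ⟨i, Finset.mem_insert_self _ _⟩ ?_ ?_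
          · intro m hm
            rcases Finset.mem_insert.mp hm with rfl | hm
            · exact hi
            · rw [Finset.mem_singleton.mp hm]
              exact hj
          · intro hSe
            have h2 := Finset.card_pair hij
            rw [hSe, hS] at h2
            omega
          · rw [Finset.sum_pair hij]
            exact (mul_eq_zero.mp hqj.symm).resolve_left hP0
        · have h1 : q l = P * p l := if_neg hlj
          rw [h1]
          exact mul_ne_zero hP0 hpl0
    · rw [hI (S.erase i) (Finset.notMem_erase i S) hji, Finset.insert_erase hi, hsum, mul_zero]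
    · intro I hIS hIne hIn
      have hiI : i ∉ I := fun h0 => Finset.notMem_erase i S (hIS h0)
      by_cases hjI : j ∈ I
      · rw [hI I hiI hjI]
        refine mul_ne_zero hP0 (hsub (insert i I) ?_ (Finset.insert_nonempty i I) ?_)
        · exact Finset.insert_subset hi fun l hl => Finset.mem_of_mem_erase (hIS hl)
        · intro h0
          apply hIn
          rw [← h0, Finset.erase_insert hiI]
      · rw [hI' I hjI]
        refine mul_ne_zero hP0 (hsub I (fun l hl => Finset.mem_of_mem_erase (hIS hl)) hIne ?_)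
        rintro rfl
        exact hiI hi

end BMK
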