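import Pool.Agent.Lib.MP_a325a5_ag.GK.Base
import Pool.Agent.Lib.MP_a325a5_ag.GK.ExPol
import Pool.Agent.Lib.MP_a325a5_ag.GK.GDef

/-! Lemma 6.1.  P_j from expol for j = 1, 2 (coefficients a_ji in L[X]); Z = {0} and the zeros of the images under τ of the leading and constant
coefficients.  Contrapositive: |w_0| < 1/κ and |w_0 - b| > κ on Z: by compactness of {|ζ| ≤ 1/κ, |ζ - b| ≥ κ} the leading and the constant coefficient have
absolute value ≥ m > 0 at w_0 and all coefficients ≤ M'.  (τ P_j)(w_0, w_j) = 0: if |w_j| > 1 then m |w_j| ≤ n_j M', and the same for 1/w_j.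
R = 2 + max of (n_j M')/m, 1/κ. -/

open NumberField

namespace BMK

open BMF BMS BMG

variable {κ : ℕ}

/-- the relation on the complex points -/
private theorem esc_rel {L Ω : Type} [Field L] [Field Ω] [Algebra L Ω] {x : Fin (κ + 3) → Ω}
    {τ : L →+* ℂ} (j : Fin (κ + 3)) (P : Polynomial (Polynomial L))
    (hP : Polynomial.aevalAeval (x 0) (x j) P = 0) {w : Fin (κ + 3) → ℂ} (hw : w ∈ CT L x τ) :
    P.eval₂ (Polynomial.eval₂RingHom τ (w 0)) (w j) = 0 := by
  have h1 : ((MvPolynomial.aeval x).comp (Polynomial.aevalAeval (R := L)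
      (A := MvPolynomial (Fin (κ + 3)) L) (MvPolynomial.X 0) (MvPolynomial.X j))).toRingHom =
      (Polynomial.aevalAeval (R := L) (x 0) (x j)).toRingHom := by
    refine Polynomial.ringHom_ext' (Polynomial.ringHom_ext' ?_ ?_) ?_
    · ext a
      simp
    · simp
    · simp
  have h2 : (MvPolynomial.eval₂Hom τ w).comp (Polynomial.aevalAeval (R := L)
      (A := MvPolynomial (Fin (κ + 3)) L) (MvPolynomial.X 0) (MvPolynomial.X j)).toRingHom =
      Polynomial.eval₂RingHom (Polynomial.eval₂RingHom τ (w 0)) (w j) := by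
    refine Polynomial.ringHom_ext' (Polynomial.ringHom_ext' ?_ ?_) ?_
    · ext a
      simp
    · simp
    · simp
  have h3 := hw.2 (Polynomial.aevalAeval (R := L) (A := MvPolynomial (Fin (κ + 3)) L)
    (MvPolynomial.X 0) (MvPolynomial.X j) P) (by
      have := RingHom.congr_fun h1 P
      exact this.trans hP)
  have h4 := RingHom.congr_fun h2 P
  exact h4.symm.trans h3

/-- bounds for the roots of a polynomial -/
private theorem esc_root {n : ℕ} (hn : 1 ≤ n) (a : ℕ → ℂ) {m M : ℝ} (hm : 0 < m)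
    (h0 : m ≤ ‖a 0‖) (hl : m ≤ ‖a n‖) (hM : ∀ i, i ≤ n → ‖a i‖ ≤ M) {w : ℂ}
    (hw : ∑ i ∈ Finset.range (n + 1), a i * w ^ i = 0) :
    (‖w‖ ≤ 1 ∨ m * ‖w‖ ≤ n * M) ∧ (1 ≤ ‖w‖ ∨ m ≤ n * M * ‖w‖) := by
  have hM0 : 0 ≤ M := (norm_nonneg _).trans (hM 0 (Nat.zero_le _))
  constructor
  · by_contra hcon
    push Not at hcon
    obtain ⟨h1, h2⟩ := hcon
    rw [Finset.sum_range_succ] at hw
    have h3 : a n * w ^ n = -∑ i ∈ Finset.range n, a i * w ^ i := by
      linear_combination hw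
    have h4 : ‖a n * w ^ n‖ ≤ n * (M * ‖w‖ ^ (n - 1)) := by
      rw [h3, norm_neg]
      refine (norm_sum_le _ _).trans ?_
      calc ∑ i ∈ Finset.range n, ‖a i * w ^ i‖ ≤ ∑ _i ∈ Finset.range n, M * ‖w‖ ^ (n - 1) := by
            refine Finset.sum_le_sum fun i hi => ?_
            rw [Finset.mem_range] at hi
            rw [norm_mul, norm_pow]
            exact mul_le_mul (hM i hi.le) (pow_le_pow_right₀ h1.le (by omega)) (by positivity) hM0
        _ = n * (M * ‖w‖ ^ (n - 1)) := by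
            rw [Finset.sum_const, Finset.card_range, nsmul_eq_mul]
    rw [norm_mul, norm_pow] at h4
    have h5 : m * ‖w‖ * ‖w‖ ^ (n - 1) ≤ n * M * ‖w‖ ^ (n - 1) := by
      calc m * ‖w‖ * ‖w‖ ^ (n - 1) = m * ‖w‖ ^ n := by
            rw [mul_assoc, ← pow_succ']
            congr 2
            omega
        _ ≤ ‖a n‖ * ‖w‖ ^ n := mul_le_mul_of_nonneg_right hl (by positivity)
        _ ≤ n * (M * ‖w‖ ^ (n - 1)) := h4
        _ = n * M * ‖w‖ ^ (n - 1) := by ring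
    have h6 : 0 < ‖w‖ ^ (n - 1) := by
      have : 0 < ‖w‖ := by linarith
      positivity
    exact absurd (le_of_mul_le_mul_right h5 h6) (not_le.mpr h2)
  · by_contra hcon
    push Not at hcon
    obtain ⟨h1, h2⟩ := hcon
    rw [Finset.sum_range_succ'] at hw
    have h3 : a 0 = -∑ i ∈ Finset.range n, a (i + 1) * w ^ (i + 1) := by
      rw [pow_zero, mul_one] at hw
      linear_combination hw
    have h4 : ‖a 0‖ ≤ n * (M * ‖w‖) := by
      rw [h3, norm_neg]
      refine (norm_sum_le _ _).trans ?_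
      calc ∑ i ∈ Finset.range n, ‖a (i + 1) * w ^ (i + 1)‖ ≤ ∑ _i ∈ Finset.range n, M * ‖w‖ := by
            refine Finset.sum_le_sum fun i hi => ?_
            rw [Finset.mem_range] at hi
            rw [norm_mul, norm_pow]
            refine mul_le_mul (hM (i + 1) (by omega)) ?_ (by positivity) hM0
            calc ‖w‖ ^ (i + 1) = ‖w‖ ^ i * ‖w‖ := pow_succ _ _
              _ ≤ 1 * ‖w‖ := mul_le_mul_of_nonneg_right
                  (pow_le_one₀ (norm_nonneg _) h1.le) (norm_nonneg _)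
              _ = ‖w‖ := one_mul _
        _ = n * (M * ‖w‖) := by
            rw [Finset.sum_const, Finset.card_range, nsmul_eq_mul]
    have h5 : n * M * ‖w‖ = n * (M * ‖w‖) := by ring
    rw [h5] at h2
    linarith

/-- the lower bound on a compact set -/
private theorem esc_low {K : Set ℂ} (hK : IsCompact K) (q : Polynomial ℂ)
    (hq : ∀ ζ ∈ K, q.eval ζ ≠ 0) : ∃ m : ℝ, 0 < m ∧ ∀ ζ ∈ K, m ≤ ‖q.eval ζ‖ := by
  rcases K.eq_empty_or_nonempty with h0 | hne
  · exact ⟨1, one_pos, fun ζ hζ => by rw [h0] at hζ; exact hζ.elim⟩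
  · obtain ⟨ζ0, h1, h2⟩ := hK.exists_isMinOn hne (f := fun ζ => ‖q.eval ζ‖)
      q.continuous.norm.continuousOn
    exact ⟨‖q.eval ζ0‖, norm_pos_iff.mpr (hq ζ0 h1), fun ζ hζ => isMinOn_iff.mp h2 ζ hζ⟩

/-- the bound for one polynomial -/
private theorem esc_one {L : Type} [Field L] (τ : L →+* ℂ) {K : Set ℂ} (hK : IsCompact K)
    (P : Polynomial (Polynomial L)) (hP : 1 ≤ P.natDegree)
    (h0 : ∀ ζ ∈ K, ((P.coeff 0).map τ).eval ζ ≠ 0)
    (hl : ∀ ζ ∈ K, ((P.coeff P.natDegree).map τ).eval ζ ≠ 0) :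
    ∃ R : ℝ, 1 ≤ R ∧ ∀ ζ ∈ K, ∀ w : ℂ, P.eval₂ (Polynomial.eval₂RingHom τ ζ) w = 0 →
      ‖w‖ ≤ R ∧ 1 ≤ R * ‖w‖ := by
  obtain ⟨m1, hm1, hm1'⟩ := esc_low hK _ h0
  obtain ⟨m2, hm2, hm2'⟩ := esc_low hK _ hl
  have hb : ∀ i : ℕ, ∃ M : ℝ, ∀ ζ ∈ K, ‖((P.coeff i).map τ).eval ζ‖ ≤ M := fun i =>
    hK.exists_bound_of_continuousOn (Polynomial.continuous _).continuousOn
  choose M hM using hb
  obtain ⟨B, hB⟩ : ∃ B, B = ∑ i ∈ Finset.range (P.natDegree + 1), |M i| := ⟨_, rfl⟩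
  have hMB : ∀ i, i ≤ P.natDegree → ∀ ζ ∈ K, ‖((P.coeff i).map τ).eval ζ‖ ≤ B := by
    intro i hi ζ hζ
    refine (hM i ζ hζ).trans ((le_abs_self _).trans ?_)
    rw [hB]
    exact Finset.single_le_sum (f := fun i => |M i|) (fun _ _ => abs_nonneg _)
      (Finset.mem_range.mpr (by omega))
  have hB0 : 0 ≤ B := by
    rw [hB]
    exact Finset.sum_nonneg fun _ _ => abs_nonneg _
  obtain ⟨m, hm⟩ : ∃ m, m = min m1 m2 := ⟨_, rfl⟩
  have hmpos : 0 < m := by rw [hm]; exact lt_min hm1 hm2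
  refine ⟨1 + P.natDegree * B / m, ?_, fun ζ hζ w hw => ?_⟩
  · have : 0 ≤ P.natDegree * B / m := by positivity
    linarith
  · rw [Polynomial.eval₂_eq_sum_range] at hw
    have hco : ∀ i, (Polynomial.eval₂RingHom τ ζ) (P.coeff i) = ((P.coeff i).map τ).eval ζ := by
      intro i
      rw [Polynomial.eval_map]
      rfl
    simp only [hco] at hw
    obtain ⟨h1, h2⟩ := esc_root hP (fun i => ((P.coeff i).map τ).eval ζ) hmpos
      (by rw [hm]; exact (min_le_left _ _).trans (hm1' ζ hζ))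
      (by rw [hm]; exact (min_le_right _ _).trans (hm2' ζ hζ))
      (fun i hi => hMB i hi ζ hζ) hw
    have hR : 0 ≤ P.natDegree * B / m := by positivity
    constructor
    · rcases h1 with h | h
      · linarith
      · have h3 : ‖w‖ ≤ P.natDegree * B / m := by
          rw [le_div_iff₀ hmpos]
          linarith
        linarith
    · rcases h2 with h | h
      · nlinarith
      · have h3 : 1 ≤ P.natDegree * B / m * ‖w‖ := by
          rw [div_mul_eq_mul_div, le_div_iff₀ hmpos]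
          linarith
        have := norm_nonneg w
        linarith [add_mul 1 (P.natDegree * B / m) ‖w‖]

theorem escape {L Ω : Type} [Field L] [CharZero L] [Field Ω] [Algebra L Ω] {x : Fin (κ + 3) → Ω}
    (hx : Crv L x) (τ : L →+* ℂ) : ∃ Z : Finset ℂ, ∀ κ : ℝ, 0 < κ → κ < 1 → ∃ R : ℝ, 2 ≤ R ∧
    ∀ w ∈ CT L x τ, (∃ j, R < ‖w j‖ ∨ ‖w j‖ < 1 / R) →
      1 / κ ≤ ‖w 0‖ ∨ ∃ b ∈ Z, ‖w 0 - b‖ ≤ κ := by
  classical
  choose P hprim hdeg hc0 hrel _ using fun j => expol hx j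
  obtain ⟨Z, hZ⟩ : ∃ Z : Finset ℂ, Z = Finset.univ.biUnion fun j : Fin (κ + 3) =>
      (((P j).coeff 0).map τ).roots.toFinset ∪
      (((P j).coeff (P j).natDegree).map τ).roots.toFinset := ⟨_, rfl⟩
  have hlead : ∀ j, (P j).coeff (P j).natDegree ≠ 0 := by
    intro j h
    have h1 : (P j).leadingCoeff = 0 := h
    rw [Polynomial.leadingCoeff_eq_zero] at h1
    have h2 := hdeg j
    rw [h1, Polynomial.natDegree_zero] at h2
    omega
  refine ⟨Z, fun κ hκ0 hκ1 => ?_⟩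
  obtain ⟨K, hKd⟩ : ∃ K : Set ℂ, K = {ζ | ‖ζ‖ ≤ 1 / κ ∧ ∀ b ∈ Z, κ ≤ ‖ζ - b‖} := ⟨_, rfl⟩
  have hK : IsCompact K := by
    refine Metric.isCompact_of_isClosed_isBounded ?_ ?_
    · rw [hKd]
      refine IsClosed.inter (isClosed_le continuous_norm continuous_const) ?_
      have : {ζ : ℂ | ∀ b ∈ Z, κ ≤ ‖ζ - b‖} = ⋂ b ∈ Z, {ζ : ℂ | κ ≤ ‖ζ - b‖} := by
        ext ζ
        simp
      show IsClosed {ζ : ℂ | ∀ b ∈ Z, κ ≤ ‖ζ - b‖}
      rw [this]
      exact isClosed_iInter fun b => isClosed_iInter fun _ =>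
        isClosed_le continuous_const (continuous_id.sub continuous_const).norm
    · refine (Metric.isBounded_closedBall (x := (0 : ℂ)) (r := 1 / κ)).subset ?_
      intro ζ hζ
      rw [hKd] at hζ
      rw [mem_closedBall_zero_iff]
      exact hζ.1
  have hnot : ∀ ζ ∈ K, ζ ∉ Z := by
    intro ζ hζ hmem
    rw [hKd] at hζ
    have := hζ.2 ζ hmem
    rw [sub_self, norm_zero] at this
    linarith
  have hone : ∀ j, ∃ R : ℝ, 1 ≤ R ∧ ∀ ζ ∈ K, ∀ w : ℂ,
      (P j).eval₂ (Polynomial.eval₂RingHom τ ζ) w = 0 → ‖w‖ ≤ R ∧ 1 ≤ R * ‖w‖ := by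
    intro j
    refine esc_one τ hK (P j) (hdeg j) (fun ζ hζ h => hnot ζ hζ ?_) (fun ζ hζ h => hnot ζ hζ ?_)
    · rw [hZ, Finset.mem_biUnion]
      refine ⟨j, Finset.mem_univ _, Finset.mem_union_left _ ?_⟩
      rw [Multiset.mem_toFinset, Polynomial.mem_roots']
      exact ⟨(Polynomial.map_ne_zero_iff τ.injective).mpr (hc0 j), h⟩
    · rw [hZ, Finset.mem_biUnion]
      refine ⟨j, Finset.mem_univ _, Finset.mem_union_right _ ?_⟩
      rw [Multiset.mem_toFinset, Polynomial.mem_roots']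
      exact ⟨(Polynomial.map_ne_zero_iff τ.injective).mpr (hlead j), h⟩
  choose R hR1 hR using hone
  have hRj : ∀ j, R j ≤ 2 + ∑ j, R j := by
    intro j
    have := Finset.single_le_sum (f := R) (fun i _ => by linarith [hR1 i]) (Finset.mem_univ j)
    linarith
  have hsum : 0 ≤ ∑ j, R j := Finset.sum_nonneg fun i _ => by linarith [hR1 i]
  refine ⟨2 + ∑ j, R j, by linarith, fun w hw hj => ?_⟩
  by_contra hcon
  push Not at hcon
  obtain ⟨h1, h2⟩ := hcon
  have hw0 : w 0 ∈ K := by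
    rw [hKd]
    exact ⟨h1.le, fun b hb => (h2 b hb).le⟩
  obtain ⟨j, hj⟩ := hj
  obtain ⟨h3, h4⟩ := hR j (w 0) hw0 (w j) (esc_rel j (P j) (hrel j) hw)
  rcases hj with hj | hj
  · have := hRj j
    linarith
  · rw [lt_div_iff₀ (by linarith)] at hj
    have h5 : R j * ‖w j‖ ≤ (2 + ∑ j, R j) * ‖w j‖ :=
      mul_le_mul_of_nonneg_right (hRj j) (norm_nonneg _)
    linarith

end BMK
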