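import Pool.Agent.Lib.MP_a325a5_ag.GK.Base
import Pool.Agent.Lib.MP_a325a5_ag.GK.Esc

/-! GK 6.2 near a fixed family (A_k, B_k) of orthonormal pairs (new proof of G2/CovF; see also GK_PROOF 6.2).
E = the finite set of all w in CT with A_k.Log w = B_k.Log w = 0 for some k (NAc; ON2 gives linear independence).
N = |E| + |Z| + 1 (Z from escape), κ' in (0, 1/2) with 2 κ' ≤ ε N, R from escape (call the real number κ', κ is the dimension).
K' = {w in CT : 1/R ≤ |w_j| ≤ R, ‖w - e‖ ≥ κ' for e in E} is compact; max(|A_k.Log w|, |B_k.Log w|) is continuous and positive on it, so ≥ 3δ,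
0 < δ; η (κ + 3) log R ≤ δ (sup norms).  Then w in K' is in no Near(δ; a_k, b_k).  So every w in the union of the Near sets is κ'-near some e in E,
or |w_0| ≥ 1/κ', or |w_0 - b| ≤ κ' with b in Z; f = this label.  Same label: |z_0 - w_0| ≤ 2κ', or |z_0 - w_0| ≤ |z_0| + |w_0| ≤ 2 κ' |z_0| |w_0|.
The first part (the compact set) is in the old file G2/CovF.lean, private theorems covFK.., which only need renaming of κ. -/

open NumberField

namespace BMK

open BMF BMS BMG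

variable {κ : ℕ}

/-- the compact part -/
private def covFK {L Ω : Type} [Field L] [Field Ω] [Algebra L Ω] (x : Fin (κ + 3) → Ω) (τ : L →+* ℂ)
    (R r : ℝ) (E : Finset (Fin (κ + 3) → ℂ)) : Set (Fin (κ + 3) → ℂ) :=
  {w | (∀ j, 1 / R ≤ ‖w j‖) ∧ (∀ j, ‖w j‖ ≤ R) ∧
    (∀ p : MvPolynomial (Fin (κ + 3)) L, MvPolynomial.aeval x p = 0 →
      MvPolynomial.eval₂ τ w p = 0) ∧
    ∀ e ∈ E, r ≤ ‖w - e‖}

private theorem covFK_compact {L Ω : Type} [Field L] [Field Ω] [Algebra L Ω]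
    (x : Fin (κ + 3) → Ω)
    (τ : L →+* ℂ) {R : ℝ} (hR : 2 ≤ R) (r : ℝ) (E : Finset (Fin (κ + 3) → ℂ)) :
    IsCompact (covFK x τ R r E) := by
  refine Metric.isCompact_of_isClosed_isBounded ?_ ?_
  · have h1 : IsClosed {w : Fin (κ + 3) → ℂ | ∀ j, 1 / R ≤ ‖w j‖} := by
      simp only [Set.setOf_forall]
      exact isClosed_iInter fun j => isClosed_le continuous_const (continuous_apply j).norm
    have h2 : IsClosed {w : Fin (κ + 3) → ℂ | ∀ j, ‖w j‖ ≤ R} := by
      simp only [Set.setOf_forall]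
      exact isClosed_iInter fun j => isClosed_le (continuous_apply j).norm continuous_const
    have h3 : IsClosed {w : Fin (κ + 3) → ℂ | ∀ p : MvPolynomial (Fin (κ + 3)) L,
        MvPolynomial.aeval x p = 0 → MvPolynomial.eval₂ τ w p = 0} := by
      simp only [Set.setOf_forall]
      refine isClosed_iInter fun p => isClosed_iInter fun _ => ?_
      have h4 : Continuous fun w : Fin (κ + 3) → ℂ => MvPolynomial.eval₂ τ w p := by
        simp only [MvPolynomial.eval₂_eq_eval_map]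
        exact MvPolynomial.continuous_eval _
      exact isClosed_eq h4 continuous_const
    have h4 : IsClosed {w : Fin (κ + 3) → ℂ | ∀ e ∈ E, r ≤ ‖w - e‖} := by
      simp only [Set.setOf_forall]
      exact isClosed_iInter fun e => isClosed_iInter fun _ =>
        isClosed_le continuous_const (continuous_id.sub continuous_const).norm
    exact h1.inter (h2.inter (h3.inter h4))
  · refine (Metric.isBounded_closedBall (x := (0 : Fin (κ + 3) → ℂ)) (r := R)).subset ?_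
    rintro w ⟨-, hw, -⟩
    rw [mem_closedBall_zero_iff, pi_norm_le_iff_of_nonneg (by linarith)]
    exact hw

private theorem covFK_CT {L Ω : Type} [Field L] [Field Ω] [Algebra L Ω] {x : Fin (κ + 3) → Ω}
    {τ : L →+* ℂ} {R : ℝ} (hR : 2 ≤ R) {r : ℝ} {E : Finset (Fin (κ + 3) → ℂ)}
    {w : Fin (κ + 3) → ℂ} (h : w ∈ covFK x τ R r E) : w ∈ CT L x τ := by
  refine ⟨fun j h0 => ?_, h.2.2.1⟩
  have h1 := h.1 j
  rw [h0, norm_zero] at h1
  have : 0 < 1 / R := by positivity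
  linarith

/-- points of the box have bounded logarithms -/
private theorem covF_log {R : ℝ} (hR : 2 ≤ R) {w : Fin (κ + 3) → ℂ} (h1 : ∀ j, 1 / R ≤ ‖w j‖)
    (h2 : ∀ j, ‖w j‖ ≤ R) (j : Fin (κ + 3)) : |Real.log ‖w j‖| ≤ Real.log R := by
  have hR0 : 0 < R := by linarith
  have h3 : 0 < 1 / R := by positivity
  have h4 : 0 < ‖w j‖ := h3.trans_le (h1 j)
  rw [abs_le]
  constructor
  · have h5 := Real.log_le_log h3 (h1 j)
    rwa [one_div, Real.log_inv] at h5
  · exact Real.log_le_log h4 (h2 j)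

/-- an orthonormal pair is linearly independent -/
private theorem covF_li {A B : Fin (κ + 3) → ℝ} (h : ON2 A B) : LinearIndependent ℝ ![A, B] := by
  obtain ⟨h1, h2, h3⟩ := h
  rw [LinearIndependent.pair_iff]
  intro s t hst
  have h4 : ∀ j, s * A j + t * B j = 0 := by
    intro j
    have := congrFun hst j
    simpa using this
  have h5 : ∑ j, A j * (s * A j + t * B j) = 0 := Finset.sum_eq_zero fun j _ => by
    rw [h4 j, mul_zero]
  have h6 : ∑ j, B j * (s * A j + t * B j) = 0 := Finset.sum_eq_zero fun j _ => by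
    rw [h4 j, mul_zero]
  have h7 : ∑ j, A j * (s * A j + t * B j) = s * ∑ j, A j * A j + t * ∑ j, A j * B j := by
    rw [Finset.mul_sum, Finset.mul_sum, ← Finset.sum_add_distrib]
    exact Finset.sum_congr rfl fun j _ => by ring
  have h8 : ∑ j, B j * (s * A j + t * B j) = s * ∑ j, A j * B j + t * ∑ j, B j * B j := by
    rw [Finset.mul_sum, Finset.mul_sum, ← Finset.sum_add_distrib]
    exact Finset.sum_congr rfl fun j _ => by ring
  rw [h7, h1, h3] at h5
  rw [h8, h2, h3] at h6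
  constructor
  · linarith
  · linarith

/-- no point of the compact part is near the codimension two space -/
private theorem covF_one {L Ω : Type} [Field L] [Field Ω] [Algebra L Ω] (x : Fin (κ + 3) → Ω)
    (τ : L →+* ℂ) {R : ℝ} (hR : 2 ≤ R) {r : ℝ} (hr : 0 < r) (E : Finset (Fin (κ + 3) → ℂ))
    {A B : Fin (κ + 3) → ℝ}
    (hE : ∀ w ∈ CT L x τ, ∑ j, A j * Real.log ‖w j‖ = 0 → ∑ j, B j * Real.log ‖w j‖ = 0 →
      w ∈ E) :
    ∃ δ : ℝ, 0 < δ ∧ ∀ w ∈ covFK x τ R r E,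
      ¬ (|∑ j, A j * Real.log ‖w j‖| ≤ δ ∧ |∑ j, B j * Real.log ‖w j‖| ≤ δ) := by
  rcases (covFK x τ R r E).eq_empty_or_nonempty with h0 | hne
  · exact ⟨1, one_pos, fun w hw => by rw [h0] at hw; exact hw.elim⟩
  have hlog : ∀ j : Fin (κ + 3), ContinuousOn (fun w : Fin (κ + 3) → ℂ => Real.log ‖w j‖)
      (covFK x τ R r E) := by
    intro j
    refine ContinuousOn.log (continuous_apply j).norm.continuousOn ?_
    intro w hw
    have h1 : 1 / R ≤ ‖w j‖ := hw.1 j
    have h2 : 0 < 1 / R := by positivity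
    exact (h2.trans_le h1).ne'
  have hcont : ContinuousOn (fun w : Fin (κ + 3) → ℂ => |∑ j, A j * Real.log ‖w j‖| +
      |∑ j, B j * Real.log ‖w j‖|) (covFK x τ R r E) := by
    refine ContinuousOn.add (ContinuousOn.abs ?_) (ContinuousOn.abs ?_)
    · exact continuousOn_finsetSum _ fun j _ => continuousOn_const.mul (hlog j)
    · exact continuousOn_finsetSum _ fun j _ => continuousOn_const.mul (hlog j)
  obtain ⟨w0, hw0, hmin⟩ := (covFK_compact x τ hR r E).exists_isMinOn hne hcont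
  obtain ⟨μ, hμ⟩ : ∃ μ, μ = |∑ j, A j * Real.log ‖w0 j‖| + |∑ j, B j * Real.log ‖w0 j‖| :=
    ⟨_, rfl⟩
  have hμ0 : 0 < μ := by
    rcases (add_nonneg (abs_nonneg (∑ j, A j * Real.log ‖w0 j‖))
      (abs_nonneg (∑ j, B j * Real.log ‖w0 j‖))).eq_or_lt with h | h
    · exfalso
      have h1 := abs_nonneg (∑ j, A j * Real.log ‖w0 j‖)
      have h2 := abs_nonneg (∑ j, B j * Real.log ‖w0 j‖)
      have h3 : w0 ∈ E := hE w0 (covFK_CT hR hw0) (abs_eq_zero.mp (by linarith))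
        (abs_eq_zero.mp (by linarith))
      have h4 := hw0.2.2.2 w0 h3
      rw [sub_self, norm_zero] at h4
      linarith
    · rw [hμ]; exact h
  refine ⟨μ / 3, by positivity, ?_⟩
  rintro w hw ⟨h1, h2⟩
  have h3 : μ ≤ |∑ j, A j * Real.log ‖w j‖| + |∑ j, B j * Real.log ‖w j‖| := by
    rw [hμ]
    exact isMinOn_iff.mp hmin w hw
  linarith

/-- change of the functional -/
private theorem covF_move {R : ℝ} (hR : 2 ≤ R) {w : Fin (κ + 3) → ℂ} (h1 : ∀ j, 1 / R ≤ ‖w j‖)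
    (h2 : ∀ j, ‖w j‖ ≤ R) {a A : Fin (κ + 3) → ℝ} {δ : ℝ} (hδ : 0 < δ)
    (haA : ‖a - A‖ < δ / ((κ + 3) * Real.log R + 1))
    (ha : |∑ j, a j * Real.log ‖w j‖| ≤ δ) : |∑ j, A j * Real.log ‖w j‖| ≤ 2 * δ := by
  have hlogR : 0 ≤ Real.log R := Real.log_nonneg (by linarith)
  have hden : 0 < ((κ : ℝ) + 3) * Real.log R + 1 := by positivity
  have h3 : ∑ j, A j * Real.log ‖w j‖ = ∑ j, a j * Real.log ‖w j‖ -
      ∑ j, (a j - A j) * Real.log ‖w j‖ := by
    rw [← Finset.sum_sub_distrib]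
    exact Finset.sum_congr rfl fun j _ => by ring
  have h4 : |∑ j, (a j - A j) * Real.log ‖w j‖| ≤ δ := by
    refine (Finset.abs_sum_le_sum_abs _ _).trans ?_
    have h5 : ∀ j ∈ (Finset.univ : Finset (Fin (κ + 3))), |(a j - A j) * Real.log ‖w j‖| ≤
        δ / ((κ + 3) * Real.log R + 1) * Real.log R := by
      intro j _
      rw [abs_mul]
      have h6 : |a j - A j| ≤ δ / ((κ + 3) * Real.log R + 1) := by
        have := norm_le_pi_norm (a - A) j
        rw [Pi.sub_apply, Real.norm_eq_abs] at this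
        exact this.trans haA.le
      exact mul_le_mul h6 (covF_log hR h1 h2 j) (abs_nonneg _) (by positivity)
    refine (Finset.sum_le_card_nsmul _ _ _ h5).trans ?_
    rw [Finset.card_univ, Fintype.card_fin, nsmul_eq_mul]
    have h7 : ((κ + 3 : ℕ) : ℝ) * (δ / ((κ + 3) * Real.log R + 1) * Real.log R) =
        δ * (((κ : ℝ) + 3) * Real.log R / (((κ : ℝ) + 3) * Real.log R + 1)) := by
      push_cast
      ring
    rw [h7]
    have h8 : ((κ : ℝ) + 3) * Real.log R / (((κ : ℝ) + 3) * Real.log R + 1) ≤ 1 := by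
      rw [div_le_one hden]
      linarith
    calc δ * (((κ : ℝ) + 3) * Real.log R / (((κ : ℝ) + 3) * Real.log R + 1)) ≤ δ * 1 :=
          mul_le_mul_of_nonneg_left h8 hδ.le
      _ = δ := mul_one _
  rw [h3]
  exact (abs_sub _ _).trans (by linarith)

theorem covF {L Ω : Type} [Field L] [CharZero L] [Field Ω] [Algebra L Ω] {x : Fin (κ + 3) → Ω}
    (hx : Crv L x) (τ : L →+* ℂ) (hNA : NAc L x τ) (ι : Type) [Fintype ι]
    (A B : ι → Fin (κ + 3) → ℝ) (hD : ∀ k, ON2 (A k) (B k)) (ε : ℕ → ℝ) (hε : ∀ n, 0 < ε n) :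
    ∃ (N : ℕ) (δ η : ℝ), 0 < δ ∧ 0 < η ∧ ∀ a b : ι → Fin (κ + 3) → ℝ, (∀ k, ON2 (a k) (b k)) →
      (∀ k, ‖a k - A k‖ < η) → (∀ k, ‖b k - B k‖ < η) → ∃ f : (Fin (κ + 3) → ℂ) → Fin N,
        ∀ z w : Fin (κ + 3) → ℂ,
        (∃ k, NearG L x τ δ (a k) (b k) z) → (∃ k, NearG L x τ δ (a k) (b k) w) → f z = f w →
        ‖z 0 - w 0‖ ≤ ε N * (max 1 ‖z 0‖ * max 1 ‖w 0‖) := by
  classical
  obtain ⟨Z, hZ⟩ := escape hx τ
  have hfin : (⋃ k, {w | w ∈ CT L x τ ∧ ∑ j, A k j * Real.log ‖w j‖ = 0 ∧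
      ∑ j, B k j * Real.log ‖w j‖ = 0}).Finite :=
    Set.finite_iUnion fun k => hNA (A k) (B k) (covF_li (hD k))
  obtain ⟨E, hE⟩ : ∃ E : Finset (Fin (κ + 3) → ℂ), E = hfin.toFinset := ⟨_, rfl⟩
  have hmemE : ∀ k, ∀ w ∈ CT L x τ, ∑ j, A k j * Real.log ‖w j‖ = 0 →
      ∑ j, B k j * Real.log ‖w j‖ = 0 → w ∈ E := by
    intro k w hw h1 h2
    rw [hE, Set.Finite.mem_toFinset, Set.mem_iUnion]
    exact ⟨k, hw, h1, h2⟩
  obtain ⟨N, hN⟩ : ∃ N, N = Fintype.card (Option (E ⊕ Z)) := ⟨_, rfl⟩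
  obtain ⟨r, hr0, hr1, hrε⟩ : ∃ r : ℝ, 0 < r ∧ r < 1 ∧ 2 * r ≤ ε N := by
    refine ⟨min (ε N) 1 / 2, ?_, ?_, ?_⟩
    · have := lt_min (hε N) one_pos
      positivity
    · have := min_le_right (ε N) 1
      linarith
    · have := min_le_left (ε N) 1
      linarith
  obtain ⟨R, hR, hesc⟩ := hZ r hr0 hr1
  have hlogR : 0 ≤ Real.log R := Real.log_nonneg (by linarith)
  choose δ' hδ0 hδ using fun k => covF_one x τ hR hr0 E (hmemE k)
  -- a common `δ`
  obtain ⟨δ, hδpos, hδle⟩ : ∃ δ : ℝ, 0 < δ ∧ ∀ k, 2 * δ ≤ δ' k := by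
    rcases isEmpty_or_nonempty ι with hι | hι
    · exact ⟨1, one_pos, fun k => hι.elim k⟩
    · refine ⟨Finset.univ.inf' Finset.univ_nonempty δ' / 2, ?_, fun k => ?_⟩
      · have : 0 < Finset.univ.inf' Finset.univ_nonempty δ' :=
          (Finset.lt_inf'_iff _).mpr fun k _ => hδ0 k
        positivity
      · have := Finset.inf'_le δ' (Finset.mem_univ k)
        linarith
  refine ⟨N, δ, δ / ((κ + 3) * Real.log R + 1), hδpos, by positivity, fun a b hab haA hbB => ?_⟩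
  -- every near point has one of the properties
  have key : ∀ w : Fin (κ + 3) → ℂ, (∃ k, NearG L x τ δ (a k) (b k) w) →
      (∃ e ∈ E, ‖w - e‖ < r) ∨ (1 / r ≤ ‖w 0‖ ∨ ∃ b ∈ Z, ‖w 0 - b‖ ≤ r) := by
    rintro w ⟨k, hw, hwa, hwb⟩
    by_cases hbox : ∃ j, R < ‖w j‖ ∨ ‖w j‖ < 1 / R
    · exact Or.inr (hesc w hw hbox)
    push Not at hbox
    by_contra hcon
    push Not at hcon
    have h1 : ∀ j, 1 / R ≤ ‖w j‖ := fun j => (hbox j).2
    have h2 : ∀ j, ‖w j‖ ≤ R := fun j => (hbox j).1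
    have hK : w ∈ covFK x τ R r E := ⟨h1, h2, hw.2, hcon.1⟩
    exact hδ k w hK ⟨(covF_move hR h1 h2 hδpos (haA k) hwa).trans (hδle k),
      (covF_move hR h1 h2 hδpos (hbB k) hwb).trans (hδle k)⟩
  -- the labels
  let lab : (Fin (κ + 3) → ℂ) → Option (E ⊕ Z) := fun w =>
    if h : ∃ e ∈ E, ‖w - e‖ < r then some (Sum.inl ⟨h.choose, h.choose_spec.1⟩)
    else if h : ∃ b ∈ Z, ‖w 0 - b‖ ≤ r then some (Sum.inr ⟨h.choose, h.choose_spec.1⟩)
    else none
  have labE : ∀ w e, lab w = some (Sum.inl e) → ‖w - e.1‖ < r := by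
    intro w e h
    simp only [lab] at h
    split_ifs at h with h1 h2
    · have h3 := h1.choose_spec.2
      rw [Option.some.injEq, Sum.inl.injEq] at h
      rw [← h]
      exact h3
    · exact absurd h (by simp)
  have labZ : ∀ w b, lab w = some (Sum.inr b) → ‖w 0 - b.1‖ ≤ r := by
    intro w e h
    simp only [lab] at h
    split_ifs at h with h1 h2
    · exact absurd h (by simp)
    · have h3 := h2.choose_spec.2
      rw [Option.some.injEq, Sum.inr.injEq] at h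
      rw [← h]
      exact h3
  have labN : ∀ w, lab w = none → ¬ (∃ e ∈ E, ‖w - e‖ < r) ∧ ¬ ∃ b ∈ Z, ‖w 0 - b‖ ≤ r := by
    intro w h
    simp only [lab] at h
    split_ifs at h with h1 h2
    exact ⟨h1, h2⟩
  have eqv : Option (E ⊕ Z) ≃ Fin N := Fintype.equivFinOfCardEq hN.symm
  refine ⟨fun w => eqv (lab w), fun z w hz hw hzw => ?_⟩
  have hzw' : lab z = lab w := eqv.injective hzw
  have hmax : 1 ≤ max 1 ‖z 0‖ * max 1 ‖w 0‖ :=
    one_le_mul_of_one_le_of_one_le (le_max_left _ _) (le_max_left _ _)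
  have hsmall : ‖z 0 - w 0‖ ≤ 2 * r → ‖z 0 - w 0‖ ≤ ε N * (max 1 ‖z 0‖ * max 1 ‖w 0‖) := by
    intro h
    calc ‖z 0 - w 0‖ ≤ 2 * r := h
      _ ≤ ε N := hrε
      _ = ε N * 1 := (mul_one _).symm
      _ ≤ _ := mul_le_mul_of_nonneg_left hmax (hε N).le
  rcases hlz : lab z with _ | (e | b)
  · have hlw : lab w = none := by rw [← hzw', hlz]
    obtain ⟨z1, z2⟩ := labN z hlz
    obtain ⟨w1, w2⟩ := labN w hlw
    have z3 : 1 / r ≤ ‖z 0‖ := by
      rcases key z hz with h | h | h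
      · exact absurd h z1
      · exact h
      · exact absurd h z2
    have w3 : 1 / r ≤ ‖w 0‖ := by
      rcases key w hw with h | h | h
      · exact absurd h w1
      · exact h
      · exact absurd h w2
    have z4 : 1 ≤ r * ‖z 0‖ := by
      rw [div_le_iff₀ hr0] at z3
      linarith
    have w4 : 1 ≤ r * ‖w 0‖ := by
      rw [div_le_iff₀ hr0] at w3
      linarith
    have h1 : ‖z 0‖ * ‖w 0‖ ≤ max 1 ‖z 0‖ * max 1 ‖w 0‖ :=
      mul_le_mul (le_max_right _ _) (le_max_right _ _) (norm_nonneg _) (by positivity)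
    calc ‖z 0 - w 0‖ ≤ ‖z 0‖ + ‖w 0‖ := norm_sub_le _ _
      _ ≤ ‖z 0‖ * (r * ‖w 0‖) + (r * ‖z 0‖) * ‖w 0‖ := by
          refine add_le_add ?_ ?_
          · exact le_mul_of_one_le_right (norm_nonneg _) w4
          · exact le_mul_of_one_le_left (norm_nonneg _) z4
      _ = 2 * r * (‖z 0‖ * ‖w 0‖) := by ring
      _ ≤ ε N * (max 1 ‖z 0‖ * max 1 ‖w 0‖) :=
          mul_le_mul hrε h1 (by positivity) (hε N).le
  · have hlw : lab w = some (Sum.inl e) := by rw [← hzw', hlz]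
    have z1 := labE z e hlz
    have w1 := labE w e hlw
    refine hsmall ?_
    have z2 : ‖z 0 - e.1 0‖ ≤ ‖z - e.1‖ := norm_le_pi_norm (z - e.1) 0
    have w2 : ‖w 0 - e.1 0‖ ≤ ‖w - e.1‖ := norm_le_pi_norm (w - e.1) 0
    have h1 : z 0 - w 0 = (z 0 - e.1 0) - (w 0 - e.1 0) := by ring
    rw [h1]
    exact (norm_sub_le _ _).trans (by linarith)
  · have hlw : lab w = some (Sum.inr b) := by rw [← hzw', hlz]
    have z1 := labZ z b hlz
    have w1 := labZ w b hlw
    refine hsmall ?_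
    have h1 : z 0 - w 0 = (z 0 - b.1) - (w 0 - b.1) := by ring
    rw [h1]
    exact (norm_sub_le _ _).trans (by linarith)

end BMK
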