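import Pool.Agent.Lib.MP_a325a5_ag.GK.Base
import Pool.Agent.Lib.MP_a325a5_ag.GK.CovF

/-! GK 6.2.  NearG increases with δ.  The set X of the families (a_k, b_k)_k with ON2 (a_k) (b_k) for all k is compact (closed, and all coordinates
are bounded by 1): finite subcover of the neighbourhoods from covF (as covG in G2/Cov.lean, with pairs (a, b) instead of d); δ = minimum, N₀ = maximum. -/

open NumberField

namespace BMK

open BMF BMS BMG

variable {κ : ℕ}

private theorem Cov_min {α : Type*} (t : Finset α) (f : α → ℝ) (hf : ∀ x ∈ t, 0 < f x) :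
    ∃ δ : ℝ, 0 < δ ∧ ∀ x ∈ t, δ ≤ f x := by
  classical
  induction t using Finset.induction_on with
  | empty => exact ⟨1, one_pos, by simp⟩
  | insert a s ha ih =>
    obtain ⟨δ, h0, h1⟩ := ih fun x hx => hf x (Finset.mem_insert_of_mem hx)
    refine ⟨min δ (f a), lt_min h0 (hf a (Finset.mem_insert_self _ _)), fun x hx => ?_⟩
    rcases Finset.mem_insert.mp hx with rfl | hx
    · exact min_le_right _ _
    · exact (min_le_left _ _).trans (h1 x hx)

private def CovX (κ : ℕ) (ι : Type) :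
    Set ((ι → Fin (κ + 3) → ℝ) × (ι → Fin (κ + 3) → ℝ)) :=
  {p | ∀ k, ON2 (p.1 k) (p.2 k)}

private theorem Cov_abs {a : Fin (κ + 3) → ℝ} (h : ∑ j, a j * a j = 1) (j : Fin (κ + 3)) :
    ‖a j‖ ≤ 1 := by
  have h1 : a j * a j ≤ ∑ j, a j * a j :=
    Finset.single_le_sum (f := fun j => a j * a j) (fun i _ => mul_self_nonneg _)
      (Finset.mem_univ j)
  rw [h] at h1
  rw [Real.norm_eq_abs, abs_le]
  constructor <;> nlinarith

private theorem Cov_compact (ι : Type) [Fintype ι] : IsCompact (CovX κ ι) := by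
  have hcl : IsClosed (CovX κ ι) := by
    have e : CovX κ ι = ⋂ k, ({p | ∑ j, p.1 k j * p.1 k j = 1} ∩
        ({p | ∑ j, p.2 k j * p.2 k j = 1} ∩ {p | ∑ j, p.1 k j * p.2 k j = 0})) := by
      ext p
      simp only [CovX, ON2, Set.mem_ofPred_eq, Set.mem_iInter, Set.mem_inter_iff]
    rw [e]
    refine isClosed_iInter fun k => ?_
    refine IsClosed.inter (isClosed_eq ?_ continuous_const)
      (IsClosed.inter (isClosed_eq ?_ continuous_const) (isClosed_eq ?_ continuous_const))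
    · fun_prop
    · fun_prop
    · fun_prop
  refine IsCompact.of_isClosed_subset (isCompact_closedBall
    (0 : (ι → Fin (κ + 3) → ℝ) × (ι → Fin (κ + 3) → ℝ)) 1) hcl ?_
  intro p hp
  rw [mem_closedBall_zero_iff, Prod.norm_def]
  refine max_le ?_ ?_
  · rw [pi_norm_le_iff_of_nonneg zero_le_one]
    intro k
    rw [pi_norm_le_iff_of_nonneg zero_le_one]
    exact Cov_abs (hp k).1
  · rw [pi_norm_le_iff_of_nonneg zero_le_one]
    intro k
    rw [pi_norm_le_iff_of_nonneg zero_le_one]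
    exact Cov_abs (hp k).2.1

theorem covG {L Ω : Type} [Field L] [CharZero L] [Field Ω] [Algebra L Ω] {x : Fin (κ + 3) → Ω}
    (hx : Crv L x) (τ : L →+* ℂ) (hNA : NAc L x τ) (ι : Type) [Fintype ι]
    (ε : ℕ → ℝ) (hε : ∀ n, 0 < ε n) :
    ∃ δ : ℝ, 0 < δ ∧ ∃ N₀ : ℕ, ∀ a b : ι → Fin (κ + 3) → ℝ, (∀ k, ON2 (a k) (b k)) →
      ∃ N : ℕ, N ≤ N₀ ∧
      ∃ f : (Fin (κ + 3) → ℂ) → Fin N, ∀ z w : Fin (κ + 3) → ℂ,
        (∃ k, NearG L x τ δ (a k) (b k) z) →
        (∃ k, NearG L x τ δ (a k) (b k) w) → f z = f w →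
        ‖z 0 - w 0‖ ≤ ε N * (max 1 ‖z 0‖ * max 1 ‖w 0‖) := by
  classical
  choose! N δ η hδ hη H using fun (p : (ι → Fin (κ + 3) → ℝ) × (ι → Fin (κ + 3) → ℝ))
    (hp : p ∈ CovX κ ι) => covF hx τ hNA ι p.1 p.2 hp ε hε
  obtain ⟨t, ht, hcov⟩ := (Cov_compact (κ := κ) ι).elim_nhds_subcover
    (fun p => Metric.ball p (η p)) (fun p hp => Metric.ball_mem_nhds p (hη p hp))
  obtain ⟨δ₀, h0, hmin⟩ := Cov_min t δ fun p hp => hδ p (ht p hp)
  refine ⟨δ₀, h0, t.sup N, fun a b hab => ?_⟩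
  have hmem : (a, b) ∈ CovX κ ι := hab
  obtain ⟨p, hp, hpb⟩ := Set.mem_iUnion₂.mp (hcov hmem)
  rw [Metric.mem_ball, dist_eq_norm, Prod.norm_def] at hpb
  have h1 : ‖a - p.1‖ < η p := lt_of_le_of_lt (le_max_left _ _) hpb
  have h2 : ‖b - p.2‖ < η p := lt_of_le_of_lt (le_max_right _ _) hpb
  obtain ⟨f, hf⟩ := H p (ht p hp) a b hab
    (fun k => lt_of_le_of_lt (norm_le_pi_norm (a - p.1) k) h1)
    (fun k => lt_of_le_of_lt (norm_le_pi_norm (b - p.2) k) h2)
  refine ⟨N p, Finset.le_sup hp, f, fun z w hz hw hfe => hf z w ?_ ?_ hfe⟩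
  · obtain ⟨k, hk⟩ := hz
    exact ⟨k, hk.1, hk.2.1.trans (hmin p hp), hk.2.2.trans (hmin p hp)⟩
  · obtain ⟨k, hk⟩ := hw
    exact ⟨k, hk.1, hk.2.1.trans (hmin p hp), hk.2.2.trans (hmin p hp)⟩

end BMK
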