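import Pool.Agent.Lib.MP_a325a5_ag.GK.Base
import Pool.Agent.Lib.MP_a325a5_ag.GK.Cov
import Pool.Agent.Lib.MP_a325a5_ag.G.DiscG
import Pool.Agent.Lib.MP_a325a5_ag.GK.H52
import Pool.Agent.Lib.MP_a325a5_ag.GK.OnCL
import Pool.Agent.Lib.MP_a325a5_ag.F2.HClus
import Pool.Agent.Lib.MP_a325a5_ag.F2.HRep
import Pool.Agent.Lib.MP_a325a5_ag.GK.HHt
import Pool.Agent.Lib.MP_a325a5_ag.F2.HLoc
import Pool.Agent.Lib.MP_a325a5_ag.F2.HMark

/-! Proposition 6.4, the case of at least two classes: as clus_gen in F2/HClus.lean (read it first; same constants), with the point t replaced by c 0 and the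
three linear functions by c.  Differences: covG instead of near_covq (labels on ℂ^3), discG instead of disc_half: for x in P choose g with x = g (c 0), good; the
label of x is the label of (σ (g (c j)))_j, which is in CT (onC_CT, onC_map).  h52 bounds the heights of the c j. -/

open NumberField BMF BMS

namespace BMK

open BMF BMS BMG

variable {κ : ℕ}

private theorem clusG_num (c N : ℕ) (n R : ℝ) (hn : 0 ≤ n) (hR : 0 ≤ R) (hN : 0 < N) (hc : 0 < c)
    (h : ((c : ℝ) ^ 2 / (4 * N) - c / 2) * (8 * N * (n * R + 1)) ≤ n * ((c : ℝ) * (c - 1) * R)) :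
    c ≤ 4 * N := by
  by_contra hlt
  push Not at hlt
  have hN' : (0 : ℝ) < N := by exact_mod_cast hN
  have hc' : (0 : ℝ) < c := by exact_mod_cast hc
  have hlt' : 4 * (N : ℝ) < c := by exact_mod_cast hlt
  have h1 : ((c : ℝ) ^ 2 / (4 * N) - c / 2) * (8 * N * (n * R + 1)) =
      (2 * (c : ℝ) ^ 2 - 4 * N * c) * (n * R + 1) := by
    field_simp
    ring
  rw [h1] at h
  have hnR : 0 ≤ n * R := mul_nonneg hn hR
  have h2 : (c : ℝ) ^ 2 ≤ 2 * (c : ℝ) ^ 2 - 4 * N * c := by nlinarith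
  have h3 : (c : ℝ) ^ 2 * (n * R + 1) ≤ (2 * (c : ℝ) ^ 2 - 4 * N * c) * (n * R + 1) :=
    mul_le_mul_of_nonneg_right h2 (by linarith)
  have h4 : n * ((c : ℝ) * (c - 1) * R) = (c : ℝ) ^ 2 * (n * R) - c * (n * R) := by ring
  have h5 : 0 ≤ (c : ℝ) * (n * R) := mul_nonneg hc'.le hnR
  have h6 : 0 < (c : ℝ) ^ 2 := by positivity
  nlinarith

/-- the euclidean length -/
private noncomputable def cgl (u : Fin (κ + 3) → ℝ) : ℝ := √(∑ j, u j ^ 2)

private theorem cgl_sq (u : Fin (κ + 3) → ℝ) : cgl u * cgl u = ∑ j, u j * u j := by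
  unfold cgl
  rw [Real.mul_self_sqrt (Finset.sum_nonneg fun j _ => sq_nonneg _)]
  exact Finset.sum_congr rfl fun j _ => by ring

private theorem cgl_norm (u : Fin (κ + 3) → ℝ) : ‖u‖ ≤ cgl u := by
  unfold cgl
  rw [pi_norm_le_iff_of_nonneg (Real.sqrt_nonneg _)]
  intro i
  apply Real.le_sqrt_of_sq_le
  rw [Real.norm_eq_abs, sq_abs]
  exact Finset.single_le_sum (f := fun j => u j ^ 2) (fun j _ => sq_nonneg _) (Finset.mem_univ i)

private theorem cgl_pos {u : Fin (κ + 3) → ℝ} (hu : u ≠ 0) : 0 < cgl u :=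
  (norm_pos_iff.2 hu).trans_le (cgl_norm u)

private theorem cg_on2 {r u : Fin (κ + 3) → ℝ} (hr : r ≠ 0) (hu : u ≠ 0)
    (h : ∑ j, r j * u j = 0) : ON2 (fun j => r j / cgl r) (fun j => u j / cgl u) := by
  have h1 := (cgl_pos hr).ne'
  have h2 := (cgl_pos hu).ne'
  have h3 : ∀ v w : Fin (κ + 3) → ℝ, cgl v ≠ 0 → cgl w ≠ 0 →
      ∑ j, v j / cgl v * (w j / cgl w) = (∑ j, v j * w j) / (cgl v * cgl w) := by
    intro v w hv hw
    rw [Finset.sum_div]
    exact Finset.sum_congr rfl fun j _ => by field_simp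
  refine ⟨?_, ?_, ?_⟩
  · rw [h3 r r h1 h1, ← cgl_sq, div_self (mul_ne_zero h1 h1)]
  · rw [h3 u u h2 h2, ← cgl_sq, div_self (mul_ne_zero h2 h2)]
  · rw [h3 r u h1 h2, h, zero_div]

private theorem cg_perp {r : Fin (κ + 3) → ℝ} (hr : r ≠ 0) : ∃ u : Fin (κ + 3) → ℝ, u ≠ 0 ∧
    ∑ j, r j * u j = 0 := by
  obtain ⟨i, hi⟩ := Function.ne_iff.1 hr
  obtain ⟨j, hj⟩ : ∃ j : Fin (κ + 3), j ≠ i := by
    by_cases h : i = 0
    · exact ⟨1, by rw [h]; simp⟩
    · exact ⟨0, fun h0 => h h0.symm⟩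
  refine ⟨Pi.single j (r i) - Pi.single i (r j), ?_, ?_⟩
  · intro h
    have h1 := congrFun h j
    rw [Pi.sub_apply, Pi.single_eq_same, Pi.single_eq_of_ne hj, sub_zero] at h1
    exact hi h1
  · simp only [Pi.sub_apply, mul_sub, Finset.sum_sub_distrib]
    rw [Finset.sum_eq_single j, Finset.sum_eq_single i, Pi.single_eq_same, Pi.single_eq_same]
    · ring
    · intro l _ hl
      rw [Pi.single_eq_of_ne hl, mul_zero]
    · intro h
      exact absurd (Finset.mem_univ _) h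
    · intro l _ hl
      rw [Pi.single_eq_of_ne hl, mul_zero]
    · intro h
      exact absurd (Finset.mem_univ _) h

/-- a unit vector orthogonal to `r`, proportional to `u` if `u` is not zero -/
private theorem cg_unit {r : Fin (κ + 3) → ℝ} (hr : r ≠ 0) (u : Fin (κ + 3) → ℝ)
    (h : ∑ j, r j * u j = 0) : ∃ b : Fin (κ + 3) → ℝ, ON2 (fun j => r j / cgl r) b ∧
      (u ≠ 0 → ∀ j, b j = u j / cgl u) := by
  by_cases hu : u = 0
  · obtain ⟨v, hv, hrv⟩ := cg_perp hr
    exact ⟨_, cg_on2 hr hv hrv, fun h => absurd hu h⟩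
  · exact ⟨_, cg_on2 hr hu h, fun _ _ => rfl⟩

theorem clusG {L Ω : Type} [Field L] [NumberField L] [Field Ω] [Algebra L Ω] {x : Fin (κ + 3) → Ω}
    (hx : Crv L x) (τ : L →+* ℂ) (hNA : NAc L x τ) (n : ℕ)
    (f : Fin (n + 1) → Polynomial L) :
    ∃ Φ : ℝ → ℝ, (∀ y, 1 ≤ y → 2 * y ≤ Φ y) ∧ ∃ D₁ : ℕ, ∀ (F : Type) [Field F] [NumberField F]
      [Algebra L F] [IsGalois L F] (c : Fin (κ + 3) → Fˣ) (z : Fin (n + 1) → Fˣ),
      OnC L x (fun j => (c j : F)) →
      NVS (fun i => Polynomial.aeval (c 0 : F) (f i) * (z i : F)) →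
      ∀ r : Fin (κ + 3) → ℤ, r ≠ 0 → ∏ j, c j ^ r j = 1 → ∀ W : Fin (n + 1) → Fin (κ + 3) → ℝ,
      (∀ i, ∑ j, (r j : ℝ) * W i j = 0) →
      (∀ v i, lg v (z i : F) = ∑ j, W i j * lg v (c j : F)) →
      ∀ ρ : ℝ, 1 ≤ ρ → (∀ i j, ‖W i - W j‖ ≤ ρ ∨ Φ ρ < ‖W i - W j‖) →
      (∃ i j, ρ < ‖W i - W j‖) → (minpoly L (c 0 : F)).natDegree ≤ D₁ := by
  classical
  obtain ⟨B, hB0, hB⟩ := h52 hx
  choose Q' hQ'0 hQ' using fun i => ht_aeval_bdd (f i) B
  set Q : ℝ := ∑ i, Q' i with hQdef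
  have hQ0 : 0 ≤ Q := Finset.sum_nonneg fun i _ => hQ'0 i
  set l : ℝ := (Module.finrank ℚ L : ℝ) with hl
  have hl0 : 0 < l := finrank_pos
  set R : ℝ := 2 * B + Real.log 2 with hR
  have hlog2 : 0 ≤ Real.log 2 := Real.log_nonneg (by norm_num)
  have hR0 : 0 ≤ R := by linarith
  have hlR : 0 ≤ l * R := mul_nonneg hl0.le hR0
  set ε : ℕ → ℝ := fun N => 2 * Real.exp (-(8 * N * (l * R + 1))) with hε
  have hε0 : ∀ N, 0 < ε N := fun N => by
    simp only [hε]
    positivity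
  obtain ⟨δ, hδ, N₀, hcov⟩ := covG hx τ hNA (Fin (n + 1) × Fin (n + 1)) ε hε0
  set β : ℝ → ℝ := fun ρ => 2 * (n + 1) ^ 2 * (Q + (κ + 3) * ρ * B + Real.log 2) with hβ
  set e : ℝ → ℝ := fun ρ => Real.log (n + 1) + 2 * l * β ρ with he
  refine ⟨fun ρ => max (2 * ρ) (e ρ / δ), fun x _ => le_max_left _ _, 4 * N₀, ?_⟩
  intro F _ _ _ _ c z hon hnvs r hr hrel W hWr hWz ρ hρ hgap hex
  set t : F := (c 0 : F) with htdef
  set Φρ : ℝ := max (2 * ρ) (e ρ / δ) with hΦρ
  have hΦ2 : 2 * ρ ≤ Φρ := le_max_left _ _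
  have hΦpos : 0 < Φρ := by linarith
  have heΦ : e ρ / Φρ ≤ δ := by
    rw [div_le_iff₀ hΦpos]
    have h1 : e ρ / δ ≤ Φρ := le_max_right _ _
    rw [div_le_iff₀ hδ] at h1
    linarith
  -- the classes
  have hequiv : Equivalence fun i j : Fin (n + 1) => ‖W i - W j‖ ≤ ρ := by
    refine ⟨fun i => by simp; linarith, fun {i j} h => by rwa [norm_sub_rev], ?_⟩
    intro i j k h1 h2
    rcases hgap i k with h3 | h3
    · exact h3
    · exfalso
      have h4 : W i - W k = (W i - W j) + (W j - W k) := by abel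
      have h5 : ‖W i - W k‖ ≤ ‖W i - W j‖ + ‖W j - W k‖ := by
        rw [h4]
        exact norm_add_le _ _
      have h6 : Φρ < ‖W i - W k‖ := h3
      linarith
  obtain ⟨rep, hrep1, hrep2⟩ := BMS.exists_rep _ hequiv
  have hz0 : ∀ i, (z i : F) ≠ 0 := fun i => (z i).ne_zero
  have h2cls : ∃ i j, rep i ≠ rep j := by
    obtain ⟨i, j, hij⟩ := hex
    refine ⟨i, j, fun h => ?_⟩
    have := (hrep2 i j).2 h
    linarith
  -- heights
  have hrel' : ∏ j, (c j : F) ^ r j = 1 := by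
    have h5 := congrArg (fun u : Fˣ => (u : F)) hrel
    simpa only [Units.coe_prod, Units.val_zpow_eq_zpow_val, Units.val_one] using h5
  have hcH : ∀ j, ht (c j : F) ≤ B := hB F _ (fun j => (c j).ne_zero) hon r hr hrel'
  have htt : ht t ≤ B := hcH 0
  have hq : ∀ i, ht (Polynomial.aeval t (f i)) ≤ Q := fun i =>
    (hQ' i F t htt).trans
      (Finset.single_le_sum (f := Q') (fun i _ => hQ'0 i) (Finset.mem_univ i))
  have hzz : ∀ i, ht ((z i : F) / z (rep i)) ≤ (κ + 3) * ρ * B := by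
    intro i
    have h1 := ht_of_lg (z i / z (rep i)) c (W i - W (rep i)) B hcH (by
      intro v
      rw [Units.val_div_eq_div_val, lg_div v (hz0 i) (hz0 _), hWz, hWz,
        ← Finset.sum_sub_distrib]
      exact Finset.sum_congr rfl fun j _ => by simp only [Pi.sub_apply]; ring)
    rw [Units.val_div_eq_div_val] at h1
    refine h1.trans ?_
    have h2 : ‖W i - W (rep i)‖ ≤ ρ := hrep1 i
    exact mul_le_mul_of_nonneg_right (mul_le_mul_of_nonneg_left h2 (by positivity)) hB0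
  have htot : tot (cerr rep (fun i => Polynomial.aeval t (f i)) fun i => (z i : F)) ≤ β ρ :=
    tot_cerr_le rep _ _ hnvs h2cls hz0 Q ((κ + 3) * ρ * B) hq hzz
  obtain ⟨O, hO, hcard⟩ := card_orbit (L := L) t
  have hr' : (fun j => (r j : ℝ)) ≠ 0 := by
    intro h0
    apply hr
    funext j
    have := congrFun h0 j
    simpa using this
  have hperp : ∀ k : Fin (n + 1) × Fin (n + 1),
      ∑ j, (r j : ℝ) * (W k.1 - W k.2) j = 0 := by
    intro k
    simp only [Pi.sub_apply, mul_sub, Finset.sum_sub_distrib]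
    rw [hWr, hWr, sub_zero]
  choose uh huh1 huh2 using fun k => cg_unit hr' (W k.1 - W k.2) (hperp k)
  obtain ⟨M, hM, f', hf'⟩ := hcov (fun _ => fun j => (r j : ℝ) / cgl (fun j => (r j : ℝ))) uh huh1
  have hlgr : ∀ v : Pl F, ∑ j, (r j : ℝ) * lg v (c j : F) = 0 := by
    intro v
    have h6 : ∀ s : Finset (Fin (κ + 3)), lg v ((∏ j ∈ s, c j ^ r j : Fˣ) : F) =
        ∑ j ∈ s, (r j : ℝ) * lg v (c j : F) := by
      intro s
      induction s using Finset.induction_on with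
      | empty => simp [lg_one]
      | insert i s hi ih =>
        rw [Finset.prod_insert hi, Finset.sum_insert hi, Units.val_mul,
          lg_mul v (Units.ne_zero _) (Units.ne_zero _), ih, Units.val_zpow_eq_zpow_val, lg_zpow]
    rw [← h6, hrel, Units.val_one, lg_one]
  -- a good embedding is near
  have hnear : ∀ σ : F →+* ℂ, σ.comp (algebraMap L F) = τ →
      cerr rep (fun i => Polynomial.aeval t (f i)) (fun i => (z i : F)) (.inl σ) ≤
        2 * l * β ρ → ∃ k : Fin (n + 1) × Fin (n + 1),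
        NearG L x τ δ (fun j => (r j : ℝ) / cgl (fun j => (r j : ℝ))) (uh k)
          (fun j => σ (c j : F)) := by
    intro σ hσ hgood
    obtain ⟨A, A', ⟨i, hi⟩, ⟨i', hi'⟩, hAA, hle⟩ := loc_ineq rep
      (fun i => Polynomial.aeval t (f i)) (fun i => (z i : F)) hnvs h2cls hz0 σ
    have hAA' : Φρ ≤ ‖W A - W A'‖ := by
      rcases hgap A A' with h | h
      · exfalso
        have h1 := (hrep2 A A').1 h
        have h3 : ∀ k, rep (rep k) = rep k := fun k => ((hrep2 k (rep k)).1 (hrep1 k)).symm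
        apply hAA
        rw [← hi, ← hi', h3, h3, ] at h1
        rw [← hi, ← hi']
        exact h1
      · exact h.le
    have hle2 : |∑ j, (W A - W A') j * lg (.inl σ) (c j : F)| ≤ e ρ := by
      have h1 : ∑ j, (W A - W A') j * lg (.inl σ) (c j : F) =
          lg (.inl σ) (z A : F) - lg (.inl σ) (z A' : F) := by
        rw [hWz, hWz, ← Finset.sum_sub_distrib]
        exact Finset.sum_congr rfl fun j _ => by simp only [Pi.sub_apply]; ring
      rw [h1]
      refine hle.trans ?_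
      simp only [he]
      linarith
    have hcoord : ∀ j, Real.log ‖σ (c j : F)‖ = lg (.inl σ) (c j : F) := by
      intro j
      unfold lg
      rw [av_inl]
    have hne : W A - W A' ≠ 0 := by
      intro h0
      rw [h0, norm_zero] at hAA'
      linarith
    have hcl : Φρ ≤ cgl (W A - W A') := hAA'.trans (cgl_norm _)
    have hcl0 : 0 < cgl (W A - W A') := cgl_pos hne
    refine ⟨(A, A'), onC_CT (fun j => (c j).ne_zero) hon τ σ hσ, ?_, ?_⟩
    · have h1 : ∑ j, (r j : ℝ) / cgl (fun j => (r j : ℝ)) * Real.log ‖σ (c j : F)‖ = 0 := by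
        have h2 : ∀ j, (r j : ℝ) / cgl (fun j => (r j : ℝ)) * Real.log ‖σ (c j : F)‖ =
            (r j : ℝ) * lg (.inl σ) (c j : F) * (cgl (fun j => (r j : ℝ)))⁻¹ := by
          intro j
          rw [hcoord]
          ring
        rw [Finset.sum_congr rfl fun j _ => h2 j, ← Finset.sum_mul, hlgr, zero_mul]
      rw [h1, abs_zero]
      exact hδ.le
    · have h1 : ∑ j, uh (A, A') j * Real.log ‖σ (c j : F)‖ =
          (∑ j, (W A - W A') j * lg (.inl σ) (c j : F)) / cgl (W A - W A') := by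
        rw [Finset.sum_div]
        refine Finset.sum_congr rfl fun j _ => ?_
        rw [hcoord, huh2 (A, A') hne j]
        ring
      rw [h1, abs_div, abs_of_pos hcl0, div_le_iff₀ hcl0]
      have h3 : e ρ ≤ δ * Φρ := by
        rw [div_le_iff₀ hΦpos] at heΦ
        exact heΦ
      calc |∑ j, (W A - W A') j * lg (.inl σ) (c j : F)| ≤ e ρ := hle2
        _ ≤ δ * Φρ := h3
        _ ≤ δ * cgl (W A - W A') := mul_le_mul_of_nonneg_left hcl hδ.le
  have hM0 : 0 < M := by
    rcases Nat.eq_zero_or_pos M with h0 | h0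
    · subst h0
      exact (f' 0).elim0
    · exact h0
  have hε2 : ε M ≤ 2 := by
    simp only [hε]
    have h1 : Real.exp (-(8 * M * (l * R + 1))) ≤ 1 := by
      rw [Real.exp_le_one_iff]
      have : (0 : ℝ) ≤ 8 * M * (l * R + 1) := by positivity
      linarith
    linarith
  have hBO : ∀ x ∈ O, ht x ≤ B := by
    intro y hy
    obtain ⟨g, rfl⟩ := (hO y).1 hy
    have h1 : OnC L x (fun j => g (c j : F)) := onC_map hon (g : F →ₐ[L] F)
    have h2 : ∀ j, g (c j : F) ≠ 0 := fun j =>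
      (map_ne_zero_iff _ g.injective).mpr (c j).ne_zero
    refine hB F (fun j => g (c j : F)) h2 h1 r hr ?_ 0
    have h3 := congrArg g hrel'
    simpa only [map_prod, map_zpow₀, map_one] using h3
  have hd := discG τ O B hBO M (ε M) (hε0 M) hε2 (by
    intro σ hσ
    obtain ⟨P, hPO, hPc, hP⟩ := markov (L := L) t O hO
      (cerr rep (fun i => Polynomial.aeval t (f i)) fun i => (z i : F))
      (fs_cerr rep _ _ hnvs h2cls hz0) (cerr_nonneg rep _ _) (β ρ) htot σ
    have hP' : ∀ y : F, ∃ g : F ≃ₐ[L] F, y ∈ P → y = g t ∧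
        cerr rep (fun i => Polynomial.aeval t (f i)) (fun i => (z i : F))
          (.inl (σ.comp (g : F →+* F))) ≤ 2 * (Module.finrank ℚ L : ℝ) * β ρ := by
      intro y
      by_cases hy : y ∈ P
      · obtain ⟨g, h1, h2⟩ := hP y hy
        exact ⟨g, fun _ => ⟨h1, h2⟩⟩
      · exact ⟨AlgEquiv.refl, fun h => absurd h hy⟩
    choose G hG using hP'
    refine ⟨P, hPO, hPc, fun y => f' (fun j => σ (G y (c j : F))), fun y hy y' hy' hyy => ?_⟩
    have hcomp : ∀ g : F ≃ₐ[L] F, (σ.comp (g : F →+* F)).comp (algebraMap L F) = τ := by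
      intro g
      rw [← hσ]
      ext x
      simp
    have hk := hnear _ (hcomp (G y)) (hG y hy).2
    have hk' := hnear _ (hcomp (G y')) (hG y' hy').2
    have e1 : σ (G y (c 0 : F)) = σ y := congrArg σ (hG y hy).1.symm
    have e2 : σ (G y' (c 0 : F)) = σ y' := congrArg σ (hG y' hy').1.symm
    have h3 := hf' (fun j => σ (G y (c j : F))) (fun j => σ (G y' (c j : F))) hk hk' hyy
    simp only [e1, e2] at h3
    exact h3)
  have hlog : Real.log (2 / ε M) = 8 * M * (l * R + 1) := by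
    simp only [hε]
    rw [div_mul_eq_div_div, div_self (two_ne_zero), one_div, ← Real.exp_neg, neg_neg, Real.log_exp]
  rw [hlog] at hd
  have hOpos : 0 < O.card := Finset.card_pos.2 ⟨t, (hO t).2 ⟨AlgEquiv.refl, rfl⟩⟩
  have h1 := clusG_num O.card M l R hl0.le hR0 hM0 hOpos hd
  rw [← hcard]
  omega

end BMK
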