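import Pool.Agent.Lib.MP_a325a5_ag.GK.Base
import Pool.Agent.Lib.MP_a325a5_ag.GK.ExPol
import Pool.Agent.Lib.MP_a325a5_ag.GK.OnCL
import Pool.Agent.Lib.MP_a325a5_ag.UL.Pts

/-! If the first coordinate of the generic point is constant then all three are.

Proof.  For `q` over the algebraic numbers `K` with `aeval x q = 0` the polynomial `(q.map φ)` in the variables `inl j`
(`rename`) vanishes on `S`, so at `p`.  For `P` of `expol hx j`: `P(x 0, x j) = 0`, so
`P^φ(p (inl 0), p (inl j)) = 0` (write `P` as a polynomial in `X 0`, `X j`).  With `p (inl 0) = t₀` the polynomial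
`P^φ(t₀, Y) ∈ ℂ[Y]` is not zero: `P` is primitive, so no `X - u` divides all coefficients; if all coefficients vanish at `t₀`
(after `φ`), then `t₀` is algebraic over `K`, `t₀ = φ u` (`K` is algebraically closed, some coefficient is not zero), and
`X - u` divides all coefficients.  So `p (inl j)` is algebraic over `ℂ`, hence a constant, not zero. -/

open Pool.Agent.Lib.MP_a325a5_ag.UL

namespace BMK

open BMF BMS BMG

variable {κ : ℕ}

private theorem ConG_root (φ : AlgebraicClosure ℚ →+* ℂ) (t : ℂ)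
    (P : Polynomial (AlgebraicClosure ℚ)) (hP : P ≠ 0) (h : P.eval₂ φ t = 0) :
    ∃ t' : AlgebraicClosure ℚ, φ t' = t := by
  have h1 : (P.map φ).roots = P.roots.map φ :=
    (Polynomial.Splits.roots_map (IsAlgClosed.splits P) φ)
  have h2 : t ∈ (P.map φ).roots := by
    rw [Polynomial.mem_roots ((Polynomial.map_ne_zero_iff φ.injective).2 hP),
      Polynomial.IsRoot.def, Polynomial.eval_map]
    exact h
  rw [h1, Multiset.mem_map] at h2
  obtain ⟨x, -, hx⟩ := h2
  exact ⟨x, hx⟩

private theorem ConG_aa {R A : Type} [CommRing R] [CommRing A] [Algebra R A] (x y : A)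
    (G : Polynomial (Polynomial R)) : Polynomial.aevalAeval x y G =
      Polynomial.eval₂ (Polynomial.aeval x : Polynomial R →ₐ[R] A).toRingHom y G := by
  induction G using Polynomial.induction_on' with
  | add p q hp hq => rw [map_add, Polynomial.eval₂_add, hp, hq]
  | monomial n a =>
    rw [← Polynomial.C_mul_X_pow_eq_monomial, map_mul, map_pow, Polynomial.aevalAeval_C,
      Polynomial.aevalAeval_Y, Polynomial.eval₂_mul, Polynomial.eval₂_C, Polynomial.eval₂_X_pow]
    rfl

/-- the generic point satisfies the equations of the curve -/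
private theorem ConG_gen {m : ℕ} {Ω : Type} [Field Ω] [Algebra (AlgebraicClosure ℚ) Ω]
    {x : Fin (κ + 3) → Ω} (φ : AlgebraicClosure ℚ →+* ℂ)
    (S : Set (Fin (κ + 3) ⊕ Fin m → ℂˣ)) {L : Type} [Field L] [Algebra ℂ L]
    (p : Fin (κ + 3) ⊕ Fin m → Lˣ) (h1 : vanIdeal S ≤ locus ℂ p)
    (hS : ∀ s ∈ S, (fun j => (s (.inl j) : ℂ)) ∈ CT (AlgebraicClosure ℚ) x φ)
    (q : MvPolynomial (Fin (κ + 3)) (AlgebraicClosure ℚ)) (hq : MvPolynomial.aeval x q = 0) :
    MvPolynomial.eval₂ ((algebraMap ℂ L).comp φ) (fun j => (p (.inl j) : L)) q = 0 := by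
  have hmem : MvPolynomial.rename Sum.inl (MvPolynomial.map φ q) ∈ vanIdeal S := by
    rw [mem_vanIdeal]
    intro s hs
    have h2 := (hS s hs).2 q hq
    rw [MvPolynomial.eval_rename, MvPolynomial.eval_map]
    exact h2
  have h3 := h1 hmem
  rw [mem_locus, MvPolynomial.aeval_rename, MvPolynomial.aeval_def, MvPolynomial.eval₂_map] at h3
  exact h3

theorem const_all {m : ℕ} {Ω : Type} [Field Ω] [Algebra (AlgebraicClosure ℚ) Ω]
    {x : Fin (κ + 3) → Ω} (hx : Crv (AlgebraicClosure ℚ) x) (φ : AlgebraicClosure ℚ →+* ℂ)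
    (S : Set (Fin (κ + 3) ⊕ Fin m → ℂˣ)) {L : Type} [Field L] [Algebra ℂ L]
    (p : Fin (κ + 3) ⊕ Fin m → Lˣ) (h1 : vanIdeal S ≤ locus ℂ p)
    (hS : ∀ s ∈ S, (fun j => (s (.inl j) : ℂ)) ∈ CT (AlgebraicClosure ℚ) x φ) (t₀ : ℂ)
    (h0 : (p (.inl 0) : L) = algebraMap ℂ L t₀) :
    ∃ c : Fin (κ + 3) → ℂˣ, ∀ j, (p (.inl j) : L) = algebraMap ℂ L (c j) := by
  classical
  letI : Algebra (AlgebraicClosure ℚ) L := ((algebraMap ℂ L).comp φ).toAlgebra
  have hon : OnC (AlgebraicClosure ℚ) x (fun j => (p (.inl j) : L)) := fun q hq =>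
    ConG_gen φ S p h1 hS q hq
  have hex : ∀ j, ∃ c : ℂ, algebraMap ℂ L c = (p (.inl j) : L) := by
    intro j
    obtain ⟨P, hP, hdeg, -, hP0, -⟩ := expol hx j
    have h2 := onC_bip0 hon 0 j P hP0
    rw [ConG_aa] at h2
    have h2' : Polynomial.eval₂ (Polynomial.aeval (p (.inl 0) : L) :
        Polynomial (AlgebraicClosure ℚ) →ₐ[AlgebraicClosure ℚ] L).toRingHom
        (p (.inl j) : L) P = 0 := h2
    rw [h0] at h2'
    have hcomp : (algebraMap ℂ L).comp (Polynomial.eval₂RingHom φ t₀) =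
        (Polynomial.aeval (algebraMap ℂ L t₀) :
          Polynomial (AlgebraicClosure ℚ) →ₐ[AlgebraicClosure ℚ] L).toRingHom := by
      ext y
      · simp [RingHom.algebraMap_toAlgebra]
      · simp
    have hne : P.map (Polynomial.eval₂RingHom φ t₀) ≠ 0 := by
      intro hz
      have hco : ∀ i, (P.coeff i).eval₂ φ t₀ = 0 := by
        intro i
        have h3 := congrArg (fun Q => Polynomial.coeff Q i) hz
        simpa using h3
      have hPne : P ≠ 0 := by
        intro h3
        rw [h3, Polynomial.natDegree_zero] at hdeg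
        omega
      have hlc : P.leadingCoeff ≠ 0 := Polynomial.leadingCoeff_ne_zero.mpr hPne
      obtain ⟨u, hu⟩ := ConG_root φ t₀ P.leadingCoeff hlc (hco _)
      have hdvd : ∀ i, Polynomial.X - Polynomial.C u ∣ P.coeff i := by
        intro i
        rw [Polynomial.dvd_iff_isRoot, Polynomial.IsRoot.def]
        apply φ.injective
        rw [map_zero, ← hco i, ← hu, Polynomial.eval₂_at_apply]
      exact Polynomial.not_isUnit_X_sub_C _
        (hP _ ((Polynomial.C_dvd_iff_dvd_coeff _ _).mpr hdvd))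
    have halg : IsAlgebraic ℂ (p (.inl j) : L) := by
      refine ⟨_, hne, ?_⟩
      rw [Polynomial.aeval_def, Polynomial.eval₂_map, hcomp]
      exact h2'
    have h4 := IsAlgClosed.degree_eq_one_of_irreducible ℂ (minpoly.irreducible halg.isIntegral)
    exact minpoly.mem_range_of_degree_eq_one ℂ _ h4
  choose c hc using hex
  have hc0 : ∀ j, c j ≠ 0 := by
    intro j h3
    have := hc j
    rw [h3, map_zero] at this
    exact (p (.inl j)).ne_zero this.symm
  exact ⟨fun j => Units.mk0 (c j) (hc0 j), fun j => (hc j).symm⟩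

end BMK
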