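import Pool.Agent.Lib.MP_a325a5_ag.GK.Base
import Pool.Agent.Lib.MP_a325a5_ag.F2.SDens

/-! Removing finitely many values of the first coordinate.

Proof (copy of `dens_sub` in F2/SDens.lean with `g = 1`, `b = 0`).  Let `f` vanish on the smaller set.  The product
`f * ∏ t₀ ∈ T₁, (X (inl 0) - C t₀)` vanishes on `S`, so at `p`, and `p (inl 0) - t₀ ≠ 0`. -/

namespace BMK

open BMF BMS BMG

variable {κ : ℕ}

open Pool.Agent.Lib.MP_a325a5_ag.UL MvPolynomial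

theorem dens_subG {m : ℕ} (S : Set (Fin (κ + 3) ⊕ Fin m → ℂˣ)) {L : Type} [Field L] [Algebra ℂ L]
    (p : Fin (κ + 3) ⊕ Fin m → Lˣ) (h1 : vanIdeal S ≤ locus ℂ p) (T₁ : Set ℂ) (hT₁ : T₁.Finite)
    (hTt : ∀ t : ℂ, (p (.inl 0) : L) ≠ algebraMap ℂ L t) :
    vanIdeal {s | s ∈ S ∧ (s (.inl 0) : ℂ) ∉ T₁} ≤ locus ℂ p := by
  classical
  intro f hf
  set P : MvPolynomial (Fin (κ + 3) ⊕ Fin m) ℂ :=
    ∏ t₀ ∈ hT₁.toFinset, (X (Sum.inl 0) - C t₀) with hP
  have hmem : f * P ∈ vanIdeal S := by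
    intro s hs
    rw [map_mul]
    by_cases h : (s (.inl 0) : ℂ) ∈ T₁
    · have h3 : eval (fun i => (s i : ℂ)) P = 0 := by
        rw [hP, map_prod]
        apply Finset.prod_eq_zero (hT₁.mem_toFinset.mpr h)
        rw [map_sub, eval_C, eval_X, sub_self]
      rw [h3, mul_zero]
    · have h2 := hf s ⟨hs, h⟩
      rw [h2, zero_mul]
  have h4 : aeval (fun i => (p i : L)) (f * P) = 0 := h1 hmem
  rw [map_mul] at h4
  have h5 : aeval (fun i => (p i : L)) P ≠ 0 := by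
    rw [hP, map_prod]
    apply Finset.prod_ne_zero_iff.mpr
    intro t₀ _
    rw [map_sub, aeval_X, aeval_C]
    exact sub_ne_zero.mpr (hTt t₀)
  exact (mul_eq_zero.mp h4).resolve_right h5

end BMK
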