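import Pool.Agent.Lib.MP_a325a5_ag.GK.PGG

/-! The two forms of the pigeonhole statement used in GK_PROOF.md: `pigeonK` (rank `κ + 2`, `κ + 3 + n` numbers, `n`
independent relations) and `pigeonLow` (rank `ρ ≤ κ + 1`, one relation). -/

open NumberField

namespace BMK

private theorem PGH_rpow {x y : ℝ} {n : ℕ} (hx : 0 ≤ x) (hy : 0 ≤ y) (h : x ^ (n + 1) ≤ y ^ n) :
    x ≤ y ^ ((n : ℝ) / (n + 1)) := by
  have hn : (0 : ℝ) < (n : ℝ) + 1 := by positivity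
  have h1 : x = (x ^ (n + 1)) ^ ((1 : ℝ) / (n + 1)) := by
    rw [← Real.rpow_natCast x (n + 1), ← Real.rpow_mul hx]
    push_cast
    rw [mul_one_div, div_self hn.ne', Real.rpow_one]
  rw [h1]
  refine (Real.rpow_le_rpow (by positivity) h (by positivity)).trans ?_
  rw [← Real.rpow_natCast y n, ← Real.rpow_mul hy, mul_one_div]

private theorem PGH_mul {x c : ℝ} (hc : 1 ≤ c) (hx : 0 ≤ x) {r : ℝ} (hr1 : r ≤ 1) :
    (c * x) ^ r ≤ c * x ^ r := by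
  rw [Real.mul_rpow (by linarith) hx]
  apply mul_le_mul_of_nonneg_right _ (Real.rpow_nonneg hx _)
  calc c ^ r ≤ c ^ (1 : ℝ) := Real.rpow_le_rpow_of_exponent_le hc hr1
    _ = c := Real.rpow_one c

private theorem PGH_abs {N : ℕ} (v : Fin N → ℤ) (i : Fin N) : |((v i : ℤ) : ℝ)| ≤ ‖BMF.rc v‖ := by
  rw [← Real.norm_eq_abs]
  exact norm_le_pi_norm (BMF.rc v) i

private theorem PGH_drop {n : ℕ} (x : Fin (n + 1) → ℝ) (h0 : ∀ l, 0 ≤ x l)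
    (hmono : ∀ l, x l ≤ x (Fin.last n)) {c y : ℝ} (hc : 1 ≤ c) (hy : 0 ≤ y)
    (h : ∏ l, x l ≤ c * y) : ∏ l : Fin n, x l.castSucc ≤ c * y ^ ((n : ℝ) / (n + 1)) := by
  rw [Fin.prod_univ_castSucc] at h
  set X := ∏ l : Fin n, x l.castSucc with hX
  have hX0 : 0 ≤ X := Finset.prod_nonneg fun l _ => h0 _
  have hXlam : X ≤ x (Fin.last n) ^ n := by
    have h1 : X ≤ ∏ _l : Fin n, x (Fin.last n) :=
      Finset.prod_le_prod (fun l _ => h0 _) fun l _ => hmono _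
    rwa [Finset.prod_const, Finset.card_univ, Fintype.card_fin] at h1
  have h1 : X ^ (n + 1) ≤ (c * y) ^ n := by
    calc X ^ (n + 1) = X ^ n * X := pow_succ _ _
      _ ≤ X ^ n * x (Fin.last n) ^ n := mul_le_mul_of_nonneg_left hXlam (by positivity)
      _ = (X * x (Fin.last n)) ^ n := (mul_pow _ _ _).symm
      _ ≤ (c * y) ^ n := pow_le_pow_left₀ (mul_nonneg hX0 (h0 _)) h n
  refine (PGH_rpow hX0 (by positivity) h1).trans (PGH_mul hc hy ?_)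
  rw [div_le_one (by positivity)]
  linarith

private theorem PGH_sz {N κ n : ℕ} (v : Fin N → ℤ) (p : Fin κ → Fin N) (q : Fin n → Fin N) :
    ((∑ j, (v (p j)).natAbs + ∑ i, (v (q i)).natAbs : ℕ) : ℝ) ≤
      ((κ : ℝ) + n) * ‖BMF.rc v‖ := by
  push_cast
  have h1 : ∑ j : Fin κ, (((v (p j)).natAbs : ℕ) : ℝ) ≤ ∑ _j : Fin κ, ‖BMF.rc v‖ := by
    refine Finset.sum_le_sum fun j _ => ?_
    rw [Nat.cast_natAbs, Int.cast_abs]
    exact PGH_abs _ _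
  have h2 : ∑ i : Fin n, (((v (q i)).natAbs : ℕ) : ℝ) ≤ ∑ _i : Fin n, ‖BMF.rc v‖ := by
    refine Finset.sum_le_sum fun j _ => ?_
    rw [Nat.cast_natAbs, Int.cast_abs]
    exact PGH_abs _ _
  rw [Finset.sum_const, Finset.card_univ, Fintype.card_fin, nsmul_eq_mul] at h1 h2
  calc _ ≤ (κ : ℝ) * ‖BMF.rc v‖ + n * ‖BMF.rc v‖ := add_le_add h1 h2
    _ = _ := by ring

/-- rank `κ + 2`, `κ + 3 + n` numbers: `n` relations -/
theorem pigeonK {κ : ℕ} (n : ℕ) (_hn : 1 ≤ n) : ∃ C : ℝ, 0 < C ∧ ∀ (F : Type) [Field F]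
    [NumberField F] (B : ℝ) (P : Fin (κ + 3) ⊕ Fin n → Fˣ), (∀ i, BMF.ht (P i : F) ≤ B) →
    BMF.mrk (fun i : Fin (κ + 3 + n) => P (finSumFinEquiv.symm i)) = κ + 2 →
    ∃ (V M : ℕ) (ζ : F) (g : Fin (κ + 2) → F) (a : Fin n → Fin (κ + 3) → ℤ)
      (b : Fin n → Fin n → ℤ),
      0 < V ∧ 0 < M ∧ IsPrimitiveRoot ζ M ∧ (∀ i, g i ≠ 0) ∧ DR.MInd g ∧
      (∏ i, BMF.ht (g i)) * V ≤ C * B ^ (κ + 2) ∧
      LinearIndependent ℤ (fun l => (Sum.elim (a l) (b l) : Fin (κ + 3) ⊕ Fin n → ℤ)) ∧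
      (∀ l, (∏ j, P (Sum.inl j) ^ a l j) * ∏ i, P (Sum.inr i) ^ b l i = 1) ∧
      ∏ l, ((∑ j, (a l j).natAbs + ∑ i, (b l i).natAbs : ℕ) : ℝ) ≤
        C * ((M : ℝ) * V) ^ ((n : ℝ) / (n + 1)) := by
  classical
  obtain ⟨C, hC1, hC⟩ := pigeonAll (κ + 2) n
  refine ⟨C * ((κ : ℝ) + 3 + n) ^ n + C, by positivity, ?_⟩
  intro F _ _ B P hPB hrk
  obtain ⟨V, M, ζ, g, a', hV, hM, hζ, hg0, hg, hgV, hai, harel, hamono, haone, haprod⟩ :=
    hC F B (fun i => P (finSumFinEquiv.symm i)) (fun i => hPB _) hrk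
  set e : Fin (κ + 3) ⊕ Fin n ≃ Fin (κ + 2 + 1 + n) := finSumFinEquiv with he
  have hB : 0 ≤ B := (BMF.ht_nonneg _).trans (hPB (Sum.inl 0))
  refine ⟨V, M, ζ, g, fun l j => a' l.castSucc (e (Sum.inl j)),
    fun l i => a' l.castSucc (e (Sum.inr i)), hV, hM, hζ, hg0, hg, ?_, ?_, ?_, ?_⟩
  · refine hgV.trans (mul_le_mul_of_nonneg_right ?_ (by positivity))
    have : (0 : ℝ) ≤ C * ((κ : ℝ) + 3 + n) ^ n := by positivity
    linarith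
  · have h1 : (fun l : Fin n => (Sum.elim (fun j => a' l.castSucc (e (Sum.inl j)))
        (fun i => a' l.castSucc (e (Sum.inr i))) : Fin (κ + 3) ⊕ Fin n → ℤ)) =
        fun l => (LinearEquiv.funCongrLeft ℤ ℤ e) (a' l.castSucc) := by
      funext l i
      rcases i with i | i <;> rfl
    rw [h1]
    have h2 : LinearIndependent ℤ (fun l : Fin n => a' l.castSucc) :=
      hai.comp _ (Fin.castSucc_injective n)
    exact h2.map' (LinearEquiv.funCongrLeft ℤ ℤ e).toLinearMap (LinearEquiv.ker _)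
  · intro l
    have h1 := harel l.castSucc
    rw [← Equiv.prod_comp e] at h1
    rw [Fintype.prod_sum_type] at h1
    simpa [he] using h1
  · have hMV0 : (0 : ℝ) ≤ (M : ℝ) * V := by positivity
    have hkey := PGH_drop (fun l => ‖BMF.rc (a' l)‖) (fun l => norm_nonneg _)
      (fun l => hamono l _ (Fin.le_last l)) hC1 hMV0 haprod
    have hsz : ∀ l : Fin n, ((∑ j, (a' l.castSucc (e (Sum.inl j))).natAbs +
        ∑ i, (a' l.castSucc (e (Sum.inr i))).natAbs : ℕ) : ℝ) ≤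
        ((κ : ℝ) + 3 + n) * ‖BMF.rc (a' l.castSucc)‖ := by
      intro l
      have h1 := PGH_sz (a' l.castSucc) (fun j => e (Sum.inl j)) (fun i => e (Sum.inr i))
      have h2 : (((κ + 3 : ℕ) : ℝ) + n) = (κ : ℝ) + 3 + n := by push_cast; ring
      rw [h2] at h1
      exact h1
    have hprod := Finset.prod_le_prod (s := (Finset.univ : Finset (Fin n)))
      (fun l _ => Nat.cast_nonneg _) fun l _ => hsz l
    rw [Finset.prod_mul_distrib, Finset.prod_const, Finset.card_univ, Fintype.card_fin] at hprod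
    refine hprod.trans ?_
    refine (mul_le_mul_of_nonneg_left hkey (by positivity)).trans ?_
    have h1 : (0 : ℝ) ≤ ((M : ℝ) * V) ^ ((n : ℝ) / (n + 1)) := Real.rpow_nonneg hMV0 _
    have h3 : ((κ : ℝ) + 3 + n) ^ n * (C * ((M : ℝ) * V) ^ ((n : ℝ) / (n + 1))) =
        (C * ((κ : ℝ) + 3 + n) ^ n) * ((M : ℝ) * V) ^ ((n : ℝ) / (n + 1)) := by ring
    rw [h3]
    exact mul_le_mul_of_nonneg_right (by linarith) h1

private theorem PGH_low {N : ℕ} (ρ n : ℕ) (hN : N = ρ + 1 + n) (hn : 1 ≤ n) (B : ℝ)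
    (_hB : 1 ≤ B) : ∃ C : ℝ, 0 < C ∧ ∀ (K : Type) [Field K] [NumberField K] (P : Fin N → Kˣ),
    (∀ i, BMF.ht (P i : K) ≤ B) → BMF.mrk P = ρ →
    ∃ (V M : ℕ) (ζ : K) (g : Fin ρ → K) (a : Fin N → ℤ), 0 < V ∧ 0 < M ∧ IsPrimitiveRoot ζ M ∧
      (∀ i, g i ≠ 0) ∧ DR.MInd g ∧ (∏ i, BMF.ht (g i)) * V ≤ C ∧ a ≠ 0 ∧ ∏ j, P j ^ a j = 1 ∧
      ((∑ j, |a j| : ℤ) : ℝ) ≤ C * ((M : ℝ) * V) ^ (1 / 2 : ℝ) := by
  subst hN
  obtain ⟨C, hC1, hC⟩ := pigeonAll ρ n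
  refine ⟨C * B ^ ρ + C * (ρ + 1 + n), by positivity, ?_⟩
  intro K _ _ P hPB hrk
  obtain ⟨V, M, ζ, g, a', hV, hM, hζ, hg0, hg, hgV, hai, harel, hamono, haone, haprod⟩ :=
    hC K B P hPB hrk
  refine ⟨V, M, ζ, g, a' 0, hV, hM, hζ, hg0, hg, ?_, hai.ne_zero 0, harel 0, ?_⟩
  · refine hgV.trans ?_
    have : (0 : ℝ) ≤ C * (ρ + 1 + n) := by positivity
    linarith
  · set y := ‖BMF.rc (a' 0)‖ with hy
    have hMV0 : (0 : ℝ) ≤ (M : ℝ) * V := by positivity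
    have h1 : y ^ (n + 1) ≤ ∏ l, ‖BMF.rc (a' l)‖ := by
      have h2 : ∏ _l : Fin (n + 1), y ≤ ∏ l, ‖BMF.rc (a' l)‖ :=
        Finset.prod_le_prod (fun l _ => norm_nonneg _) fun l _ => hamono 0 l (Fin.zero_le _)
      rwa [Finset.prod_const, Finset.card_univ, Fintype.card_fin] at h2
    have h2 : y ^ 2 ≤ C * ((M : ℝ) * V) := by
      calc y ^ 2 ≤ y ^ (n + 1) := pow_le_pow_right₀ (haone 0) (by omega)
        _ ≤ _ := h1.trans haprod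
    have h3 : y ≤ C * ((M : ℝ) * V) ^ (1 / 2 : ℝ) := by
      have h4 : y ≤ (C * ((M : ℝ) * V)) ^ (1 / 2 : ℝ) := by
        rw [← Real.sqrt_eq_rpow]
        exact Real.le_sqrt_of_sq_le h2
      exact h4.trans (PGH_mul hC1 hMV0 (by norm_num))
    have h4 : ((∑ j, |a' 0 j| : ℤ) : ℝ) ≤ ((ρ : ℝ) + 1 + n) * y := by
      push_cast
      have h5 : ∑ j : Fin (ρ + 1 + n), |((a' 0 j : ℤ) : ℝ)| ≤ ∑ _j : Fin (ρ + 1 + n), y :=
        Finset.sum_le_sum fun j _ => PGH_abs _ _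
      rw [Finset.sum_const, Finset.card_univ, Fintype.card_fin, nsmul_eq_mul] at h5
      push_cast at h5
      exact h5
    have h6 : (0 : ℝ) ≤ ((M : ℝ) * V) ^ (1 / 2 : ℝ) := by positivity
    calc ((∑ j, |a' 0 j| : ℤ) : ℝ) ≤ ((ρ : ℝ) + 1 + n) * (C * ((M : ℝ) * V) ^ (1 / 2 : ℝ)) :=
          h4.trans (mul_le_mul_of_nonneg_left h3 (by positivity))
      _ = (C * (ρ + 1 + n)) * ((M : ℝ) * V) ^ (1 / 2 : ℝ) := by ring
      _ ≤ _ := by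
          apply mul_le_mul_of_nonneg_right _ h6
          have : (0 : ℝ) ≤ C * B ^ ρ := by positivity
          linarith

/-- rank `ρ ≤ κ + 1`, `κ + 3` numbers: one relation -/
theorem pigeonLow {κ : ℕ} (ρ : ℕ) (hρ : ρ ≤ κ + 1) (B : ℝ) (hB : 1 ≤ B) : ∃ C : ℝ, 0 < C ∧
    ∀ (K : Type) [Field K] [NumberField K] (P : Fin (κ + 3) → Kˣ),
    (∀ i, BMF.ht (P i : K) ≤ B) → BMF.mrk P = ρ →
    ∃ (V M : ℕ) (ζ : K) (g : Fin ρ → K) (a : Fin (κ + 3) → ℤ), 0 < V ∧ 0 < M ∧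
      IsPrimitiveRoot ζ M ∧ (∀ i, g i ≠ 0) ∧ DR.MInd g ∧ (∏ i, BMF.ht (g i)) * V ≤ C ∧ a ≠ 0 ∧
      ∏ j, P j ^ a j = 1 ∧ ((∑ j, |a j| : ℤ) : ℝ) ≤ C * ((M : ℝ) * V) ^ (1 / 2 : ℝ) :=
  PGH_low ρ (κ + 2 - ρ) (by omega) (by omega) B hB

end BMK
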