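import Pool.Agent.Lib.MP_a325a5_ag.GK.Base
import Pool.Agent.Lib.MP_a325a5_ag.GK.PGH
import Pool.Agent.Lib.MP_a325a5_ag.DR.Dn
import Pool.Agent.Lib.MP_a325a5_ag.F.G2
import Pool.Agent.Lib.MP_a325a5_ag.F.N2
import Pool.Agent.Lib.MP_a325a5_ag.F.N4
import Pool.Agent.Lib.MP_a325a5_ag.F.P1

/-! The degree bound of GK 5.4: bounded heights, rank at most `κ + 1`, degree at most linear in the size of every relation. -/

open NumberField MvPolynomial

namespace BMK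

open BMF BMS BMG

variable {κ : ℕ}

private theorem DegK_MV {c Cε W D M V φ h dg : ℝ} (hc : 0 < c) (hCε : 0 < Cε)
    (hD : 1 ≤ D) (hV : 0 ≤ V) (hφ : 1 ≤ φ) (hdg : 1 ≤ dg)
    (h1 : c * D ^ (-(1 / 10 : ℝ)) ≤ h * dg) (h2 : h * V ≤ W) (h3 : φ * dg ≤ D)
    (h4 : M ≤ Cε * φ ^ (1 + 1 / 10 : ℝ)) : M * V ≤ Cε * (W / c) * D ^ (6 / 5 : ℝ) := by
  have hD0 : 0 < D := by linarith
  have hφ0 : 0 < φ := by linarith
  have hφD : φ ≤ D := by nlinarith
  set E := D ^ (1 / 10 : ℝ) with hE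
  have hE0 : 0 < E := Real.rpow_pos_of_pos hD0 _
  have hinv : D ^ (-(1 / 10 : ℝ)) * E = 1 := by
    rw [hE, ← Real.rpow_add hD0]; norm_num
  have hφE : φ ^ (1 / 10 : ℝ) ≤ E := Real.rpow_le_rpow hφ0.le hφD (by norm_num)
  have h5 : M ≤ Cε * (φ * E) := by
    refine h4.trans ?_
    rw [Real.rpow_add hφ0, Real.rpow_one]
    exact mul_le_mul_of_nonneg_left (mul_le_mul_of_nonneg_left hφE hφ0.le) hCε.le
  have h6 : c ≤ h * dg * E := by
    have := mul_le_mul_of_nonneg_right h1 hE0.le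
    rwa [mul_assoc, hinv, mul_one] at this
  have hh0 : 0 < h := by
    by_contra hneg
    push Not at hneg
    have : h * dg * E ≤ 0 :=
      mul_nonpos_of_nonpos_of_nonneg (mul_nonpos_of_nonpos_of_nonneg hneg (by linarith)) hE0.le
    linarith
  have hW : 0 ≤ W := le_trans (by positivity) h2
  have h7 : c * (V * φ) ≤ W * D * E := by
    calc c * (V * φ) ≤ (h * dg * E) * (V * φ) :=
          mul_le_mul_of_nonneg_right h6 (by positivity)
      _ = (h * V) * (φ * dg) * E := by ring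
      _ ≤ W * D * E := by
          apply mul_le_mul_of_nonneg_right _ hE0.le
          exact mul_le_mul h2 h3 (by positivity) hW
  have h8 : V * φ ≤ W / c * (D * E) := by
    rw [div_mul_eq_mul_div, le_div_iff₀ hc]
    linarith
  have hDE : D ^ (6 / 5 : ℝ) = D * E * E := by
    rw [hE, mul_assoc, ← Real.rpow_add hD0]
    nth_rewrite 2 [← Real.rpow_one D]
    rw [← Real.rpow_add hD0]
    norm_num
  calc M * V ≤ Cε * (φ * E) * V := mul_le_mul_of_nonneg_right h5 hV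
    _ = Cε * E * (V * φ) := by ring
    _ ≤ Cε * E * (W / c * (D * E)) := mul_le_mul_of_nonneg_left h8 (by positivity)
    _ = Cε * (W / c) * D ^ (6 / 5 : ℝ) := by rw [hDE]; ring

private theorem DegK_fin {A E s MV D : ℝ} (hA : 0 ≤ A) (hE : 0 ≤ E) (hD : 1 ≤ D) (hMV : 0 ≤ MV)
    (hs0 : 0 ≤ s) (hs : s ≤ 2 / 3) (h1 : D ≤ A * MV ^ s) (h2 : MV ≤ E * D ^ (6 / 5 : ℝ)) :
    D ≤ (A * E ^ s) ^ 5 := by
  have hD0 : 0 < D := by linarith
  have h3 : MV ^ s ≤ E ^ s * D ^ (4 / 5 : ℝ) := by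
    calc MV ^ s ≤ (E * D ^ (6 / 5 : ℝ)) ^ s := Real.rpow_le_rpow hMV h2 hs0
      _ = E ^ s * D ^ (6 / 5 * s : ℝ) := by
          rw [Real.mul_rpow hE (by positivity), ← Real.rpow_mul hD0.le]
      _ ≤ E ^ s * D ^ (4 / 5 : ℝ) := by
          apply mul_le_mul_of_nonneg_left _ (by positivity)
          exact Real.rpow_le_rpow_of_exponent_le hD (by linarith)
  have h4 : D ≤ A * E ^ s * D ^ (4 / 5 : ℝ) := by
    calc D ≤ A * MV ^ s := h1
      _ ≤ A * (E ^ s * D ^ (4 / 5 : ℝ)) := mul_le_mul_of_nonneg_left h3 hA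
      _ = _ := by ring
  have h5 : D ^ (1 / 5 : ℝ) ≤ A * E ^ s := by
    have hp : 0 < D ^ (4 / 5 : ℝ) := Real.rpow_pos_of_pos hD0 _
    have e : D = D ^ (1 / 5 : ℝ) * D ^ (4 / 5 : ℝ) := by
      rw [← Real.rpow_add hD0]; norm_num
    have : D ^ (1 / 5 : ℝ) * D ^ (4 / 5 : ℝ) ≤ A * E ^ s * D ^ (4 / 5 : ℝ) := by
      rw [← e]; exact h4
    exact le_of_mul_le_mul_right this hp
  calc D = (D ^ (1 / 5 : ℝ)) ^ 5 := by
        rw [← Real.rpow_natCast, ← Real.rpow_mul hD0.le]; norm_num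
    _ ≤ (A * E ^ s) ^ 5 := pow_le_pow_left₀ (by positivity) h5 5


private theorem degK_rho (L : Type) [Field L] [NumberField L] (B C1 : ℝ) (ρ : ℕ)
    (hρ : ρ ≤ κ + 1) :
    ∃ D1 : ℕ, ∀ (K : Type) [Field K] [NumberField K] [Algebra L K] (P : Fin (κ + 3) → Kˣ),
      (∀ i, ht (P i : K) ≤ B) → mrk P = ρ →
      (∀ a : Fin (κ + 3) → ℤ, a ≠ 0 → ∏ i, P i ^ a i = 1 → (Module.finrank L K : ℝ) ≤
          C1 * ((∑ i, |a i| : ℤ) : ℝ)) →
      Module.finrank ℚ K ≤ D1 := by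
  obtain ⟨c, hc, hD1⟩ := DR.Dn_main ρ (1 / 10) (by norm_num)
  obtain ⟨Cε, hCε, hN2⟩ := totient_lower (1 / 10) (by norm_num)
  obtain ⟨C, hC, hQ⟩ := pigeonLow (κ := κ) ρ hρ (max B 1) (le_max_right _ _)
  refine ⟨⌈((Module.finrank ℚ L : ℝ) * |C1| * C *
    (Cε * (C / c)) ^ (1 / 2 : ℝ)) ^ 5⌉₊, ?_⟩
  intro K _ _ _ P hP hr hdeg
  obtain ⟨V, M, ζ, g, a, hV, hM, hζ, hg, hind, hVg, ha, h1, haa⟩ :=
    hQ K P (fun i => (hP i).trans (le_max_left _ _)) hr
  obtain ⟨k, _, _, _, ⟨Z⟩⟩ := exists_cyc hM hζ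
  haveI : FiniteDimensional k K := Module.Finite.of_restrictScalars_finite ℚ k K
  have hN4 : M.totient * Module.finrank k K ≤ Module.finrank ℚ K := by
    rw [← N4_finrank Z, ← N4_tower (k := k) (K := K)]
  have hmain := hD1 M k K Z g hg hind
  have hdg : 0 < Module.finrank k K := Module.finrank_pos
  have hφ : 0 < M.totient := Nat.totient_pos.2 hM
  have hDpos : (1 : ℝ) ≤ Module.finrank ℚ K := by
    exact_mod_cast (Module.finrank_pos : 0 < Module.finrank ℚ K)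
  have hMV := DegK_MV (D := (Module.finrank ℚ K : ℝ)) (M := (M : ℝ)) (V := (V : ℝ))
    (φ := (M.totient : ℝ)) (h := ∏ i, ht (g i)) (dg := (Module.finrank k K : ℝ)) (W := C)
    hc hCε hDpos (Nat.cast_nonneg V) (by exact_mod_cast hφ) (by exact_mod_cast hdg) hmain hVg
    (by exact_mod_cast hN4) (hN2 M hM)
  have hd := hdeg a ha h1
  have htow : (Module.finrank ℚ K : ℝ) = (Module.finrank ℚ L : ℝ) * Module.finrank L K := by
    exact_mod_cast (Module.finrank_mul_finrank ℚ L K).symm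
  have hDle : (Module.finrank ℚ K : ℝ) ≤ ((Module.finrank ℚ L : ℝ) * |C1| * C) *
      ((M : ℝ) * V) ^ (1 / 2 : ℝ) := by
    rw [htow]
    have hn : (0 : ℝ) ≤ ((∑ i, |a i| : ℤ) : ℝ) := by
      have e1 : (0 : ℤ) ≤ ∑ i, |a i| := Finset.sum_nonneg fun i _ => abs_nonneg _
      exact_mod_cast e1
    have hL0 : (0 : ℝ) ≤ Module.finrank ℚ L := Nat.cast_nonneg _
    calc (Module.finrank ℚ L : ℝ) * Module.finrank L K
        ≤ (Module.finrank ℚ L : ℝ) * (|C1| * (C * ((M : ℝ) * V) ^ (1 / 2 : ℝ))) := by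
          apply mul_le_mul_of_nonneg_left _ hL0
          refine hd.trans ?_
          calc C1 * ((∑ i, |a i| : ℤ) : ℝ) ≤ |C1| * ((∑ i, |a i| : ℤ) : ℝ) :=
                mul_le_mul_of_nonneg_right (le_abs_self _) hn
            _ ≤ _ := mul_le_mul_of_nonneg_left haa (abs_nonneg _)
      _ = _ := by ring
  have hE0 : 0 ≤ Cε * (C / c) := by positivity
  have hfin := DegK_fin (A := (Module.finrank ℚ L : ℝ) * |C1| * C)
    (E := Cε * (C / c)) (s := 1 / 2) (MV := (M : ℝ) * V) (D := (Module.finrank ℚ K : ℝ))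
    (by positivity) hE0 hDpos (by positivity) (by norm_num) (by norm_num) hDle hMV
  exact_mod_cast hfin.trans (Nat.le_ceil _)

/-- bounded height and rank at most `κ + 1` for a curve -/
theorem degree_boundK (L : Type) [Field L] [NumberField L] (B C1 : ℝ) :
    ∃ D1 : ℕ, ∀ (K : Type) [Field K] [NumberField K] [Algebra L K] (P : Fin (κ + 3) → Kˣ),
      (∀ i, ht (P i : K) ≤ B) → mrk P ≤ κ + 1 →
      (∀ a : Fin (κ + 3) → ℤ, a ≠ 0 → ∏ i, P i ^ a i = 1 → (Module.finrank L K : ℝ) ≤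
          C1 * ((∑ i, |a i| : ℤ) : ℝ)) →
      Module.finrank ℚ K ≤ D1 := by
  choose D1 hD1 using fun ρ : Fin (κ + 2) =>
    degK_rho (κ := κ) L B C1 ρ (Nat.lt_succ_iff.1 ρ.2)
  refine ⟨Finset.univ.sup D1, ?_⟩
  intro K _ _ _ P hP hr hdeg
  exact (hD1 ⟨mrk P, Nat.lt_succ_of_le hr⟩ K P hP rfl hdeg).trans
    (Finset.le_sup (f := D1) (Finset.mem_univ _))

end BMK
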