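import Pool.Agent.Lib.MP_a325a5_ag.GK.Base
import Pool.Agent.Lib.MP_a325a5_ag.GK.H52
import Pool.Agent.Lib.MP_a325a5_ag.GK.ExPol
import Pool.Agent.Lib.MP_a325a5_ag.GK.OnCL
import Pool.Agent.Lib.MP_a325a5_ag.F.Sub
import Pool.Agent.Lib.MP_a325a5_ag.F.Hn

/-! Lemma 5.3.  fin_fibre: P_j from expol (j = 1, 2), P_j(c_0, c_j) = 0 (onC_bip0) and P_j(c_0, Y) is not the zero polynomial because P_j is primitive (the
minimal polynomial of c_0 would divide all coefficients; if c_0 is transcendental over L it is clear): finitely many c_j for every c_0.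
fin_TD: ht (c 0) ≤ B by h52 in a number field containing c (exists_field, F/Sub.lean), degree of c 0 over ℚ at most D [L:ℚ]: Northcott (as in
F/FinT.lean, fin_of_bd), then fin_fibre. -/

open NumberField BMF

namespace BMK

open BMF BMS BMG

variable {κ : ℕ}

private theorem finDG_ne {L E : Type} [Field L] [Field E] [Algebra L E]
    (P : Polynomial (Polynomial L)) (hP : P.IsPrimitive) (t : E) :
    P.map (Polynomial.aeval t : Polynomial L →ₐ[L] E).toRingHom ≠ 0 := by
  intro h
  obtain ⟨g, hg⟩ := (IsPrincipalIdealRing.principal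
    (RingHom.ker (Polynomial.aeval t : Polynomial L →ₐ[L] E).toRingHom)).principal
  have h1 : ∀ i, g ∣ P.coeff i := by
    intro i
    have h2 : P.coeff i ∈ RingHom.ker (Polynomial.aeval t : Polynomial L →ₐ[L] E).toRingHom := by
      rw [RingHom.mem_ker, ← Polynomial.coeff_map, h, Polynomial.coeff_zero]
    rw [hg] at h2
    exact Ideal.mem_span_singleton.1 h2
  have h3 : IsUnit g := hP g ((Polynomial.C_dvd_iff_dvd_coeff g P).2 h1)
  have h4 : (1 : Polynomial L) ∈
      RingHom.ker (Polynomial.aeval t : Polynomial L →ₐ[L] E).toRingHom := by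
    rw [hg]
    exact Ideal.mem_span_singleton.2 h3.dvd
  rw [RingHom.mem_ker, map_one] at h4
  exact one_ne_zero h4

private theorem finDG_eval {L E : Type} [Field L] [Field E] [Algebra L E]
    (P : Polynomial (Polynomial L)) (t y : E) :
    Polynomial.aevalAeval t y P =
      (P.map (Polynomial.aeval t : Polynomial L →ₐ[L] E).toRingHom).eval y := by
  rw [Polynomial.eval_map]
  have h : ((Polynomial.aevalAeval t y : Polynomial (Polynomial L) →ₐ[L] E) :
      Polynomial (Polynomial L) →+* E) =
      Polynomial.eval₂RingHom (Polynomial.aeval t : Polynomial L →ₐ[L] E).toRingHom y := by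
    apply Polynomial.ringHom_ext'
    · apply Polynomial.ringHom_ext'
      · ext a
        simp
      · simp
    · simp
  exact congrArg (fun f : Polynomial (Polynomial L) →+* E => f P) h

theorem fin_fibre {L Ω : Type} [Field L] [CharZero L] [Field Ω] [Algebra L Ω] {x : Fin (κ + 3) → Ω}
    (hx : Crv L x) {E : Type} [Field E] [Algebra L E] (T : Set E) (hT : T.Finite) :
    {c : Fin (κ + 3) → E | OnC L x c ∧ c 0 ∈ T}.Finite := by
  choose P hP using fun j => expol hx j
  have hfin : ∀ j, (⋃ t ∈ T, {y : E | ((P j).map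
      (Polynomial.aeval t : Polynomial L →ₐ[L] E).toRingHom).IsRoot y}).Finite := by
    intro j
    refine hT.biUnion fun t _ => ?_
    have h1 := finDG_ne (P j) (hP j).1 t
    refine ((Polynomial.rootSet_finite ((P j).map
      (Polynomial.aeval t : Polynomial L →ₐ[L] E).toRingHom) E)).subset ?_
    intro y hy
    rw [Polynomial.mem_rootSet]
    refine ⟨h1, ?_⟩
    rw [Polynomial.coe_aeval_eq_eval]
    exact hy
  refine (Set.Finite.pi' hfin).subset ?_
  rintro c ⟨hc, hcT⟩ j
  rw [Set.mem_iUnion₂]
  refine ⟨c 0, hcT, ?_⟩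
  show Polynomial.eval _ _ = 0
  rw [← finDG_eval]
  exact onC_bip0 hc 0 j (P j) (hP j).2.2.2.1

private theorem finDG_top {L K : Type} [Field L] [Field K] [Algebra L K]
    (F : IntermediateField L K) (S : Set K) (h : IntermediateField.adjoin L S = ⊤) :
    IntermediateField.adjoin F S = ⊤ := by
  have h1 : (⊤ : IntermediateField L K) ≤ (IntermediateField.adjoin F S).restrictScalars L := by
    rw [← h, IntermediateField.adjoin_le_iff]
    intro y hy
    have h2 : y ∈ IntermediateField.adjoin F S := IntermediateField.subset_adjoin F S hy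
    exact h2
  rw [eq_top_iff]
  intro y _
  exact h1 (IntermediateField.mem_top (x := y))

private theorem finDG_sup {F K : Type} [Field F] [Field K] [Algebra F K] [FiniteDimensional F K]
    {ι : Type} (c : ι → K) (d : ι → ℕ)
    (h : ∀ j, Module.finrank F (IntermediateField.adjoin F {c j}) ≤ d j) (s : Finset ι) :
    Module.finrank F (IntermediateField.adjoin F (c '' (s : Set ι))) ≤ ∏ j ∈ s, d j := by
  classical
  induction s using Finset.induction_on with
  | empty =>
    rw [Finset.coe_empty, Set.image_empty, IntermediateField.adjoin_empty, Finset.prod_empty,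
      IntermediateField.finrank_bot]
  | insert i s hi ih =>
    rw [Finset.prod_insert hi, Finset.coe_insert, Set.image_insert_eq, Set.insert_eq,
      IntermediateField.adjoin_union]
    exact (IntermediateField.finrank_sup_le _ _).trans (Nat.mul_le_mul (h i) ih)

theorem fin_TD (L : Type) [Field L] [NumberField L] [Algebra L (AlgebraicClosure ℚ)]
    {Ω : Type} [Field Ω] [Algebra L Ω] {x : Fin (κ + 3) → Ω} (hx : Crv L x) (D : ℕ) :
    {c : Fin (κ + 3) → AlgebraicClosure ℚ | (∀ j, c j ≠ 0) ∧ OnC L x c ∧
      (∃ a : Fin (κ + 3) → ℤ, a ≠ 0 ∧ ∏ j, c j ^ a j = 1) ∧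
      (minpoly L (c 0)).natDegree ≤ D}.Finite := by
  obtain ⟨B, _, hB⟩ := h52 hx
  choose P hP using fun j => expol hx j
  have hT : {t : AlgebraicClosure ℚ | ∃ c : Fin (κ + 3) → AlgebraicClosure ℚ, c 0 = t ∧
      (∀ j, c j ≠ 0) ∧ OnC L x c ∧ (∃ a : Fin (κ + 3) → ℤ, a ≠ 0 ∧ ∏ j, c j ^ a j = 1) ∧
      (minpoly L (c 0)).natDegree ≤ D}.Finite := by
    refine fin_of_bd L (D * ∏ j, (P j).natDegree) B _ ?_
    rintro t ⟨c, rfl, hc0, hon, ⟨a, ha0, ha⟩, hdeg⟩
    obtain ⟨K, iF, iN, iA, i, hS, htop⟩ := exists_field L (Set.range c) (Set.finite_range c)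
    have hinj : Function.Injective i := i.toRingHom.injective
    choose c' hc' using fun j => hS (Set.mem_range_self j)
    have hpre : i ⁻¹' (Set.range c) = Set.range c' := by
      ext y
      simp only [Set.mem_preimage, Set.mem_range]
      constructor
      · rintro ⟨j, hj⟩
        exact ⟨j, hinj ((hc' j).trans hj)⟩
      · rintro ⟨j, rfl⟩
        exact ⟨j, (hc' j).symm⟩
    rw [hpre] at htop
    have hon' : OnC L x c' := by
      intro p hp
      have h1 := hon p hp
      have h2 : c = fun j => i (c' j) := funext fun j => (hc' j).symm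
      rw [h2, ← MvPolynomial.comp_aeval, AlgHom.comp_apply] at h1
      exact (map_eq_zero_iff i hinj).1 h1
    have hc0' : ∀ j, c' j ≠ 0 := by
      intro j h
      apply hc0 j
      rw [← hc' j, h, map_zero]
    have ha' : ∏ j, c' j ^ a j = 1 := by
      apply hinj
      rw [map_prod, map_one, ← ha]
      refine Finset.prod_congr rfl fun j _ => ?_
      rw [map_zpow₀, hc' j]
    refine ⟨K, iF, iN, iA, i, c' 0, hc' 0, ?_, hB K c' hc0' hon' a ha0 ha' 0⟩
    rw [← hc' 0, minpoly.algHom_eq i hinj] at hdeg
    have hint : IsIntegral L (c' 0) := by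
      have h1 : IsIntegral ℚ (c' 0) := Algebra.IsIntegral.isIntegral (c' 0)
      exact h1.tower_top
    have h0 := IntermediateField.adjoin.finrank hint
    rw [← Module.finrank_mul_finrank L (IntermediateField.adjoin L {c' 0}) K, h0]
    refine Nat.mul_le_mul hdeg ?_
    -- the degree over the field generated by the first coordinate
    have hj : ∀ j, Module.finrank (IntermediateField.adjoin L {c' 0})
        (IntermediateField.adjoin (IntermediateField.adjoin L {c' 0}) {c' j}) ≤
          (P j).natDegree := by
      intro j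
      have h1 : IsIntegral (IntermediateField.adjoin L {c' 0}) (c' j) := by
        have h2 : IsIntegral ℚ (c' j) := Algebra.IsIntegral.isIntegral (c' j)
        have h3 : IsIntegral L (c' j) := h2.tower_top
        exact h3.tower_top
      rw [IntermediateField.adjoin.finrank h1]
      obtain ⟨g, hg⟩ : ∃ g : IntermediateField.adjoin L {c' 0}, g = ⟨c' 0,
        IntermediateField.subset_adjoin L {c' 0} rfl⟩ := ⟨_, rfl⟩
      obtain ⟨Q, hQ⟩ : ∃ Q, Q = (P j).map (Polynomial.aeval g :
        Polynomial L →ₐ[L] IntermediateField.adjoin L {c' 0}).toRingHom := ⟨_, rfl⟩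
      have h4 : Q ≠ 0 := by
        rw [hQ]
        exact finDG_ne (P j) (hP j).1 g
      have h5 : Polynomial.aeval (c' j) Q = 0 := by
        have h6 := onC_bip0 hon' 0 j (P j) (hP j).2.2.2.1
        rw [finDG_eval] at h6
        rw [hQ, Polynomial.aeval_def, Polynomial.eval₂_eq_eval_map, Polynomial.map_map]
        have h7 : (algebraMap (IntermediateField.adjoin L {c' 0}) K).comp
            (Polynomial.aeval g : Polynomial L →ₐ[L] IntermediateField.adjoin L {c' 0}).toRingHom =
            (Polynomial.aeval (c' 0) : Polynomial L →ₐ[L] K).toRingHom := by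
          rw [hg]
          apply Polynomial.ringHom_ext'
          · ext a
            simp
          · simp
        rw [h7]
        exact h6
      refine (Polynomial.natDegree_le_of_dvd (minpoly.dvd _ _ h5) h4).trans ?_
      rw [hQ]
      exact Polynomial.natDegree_map_le
    haveI : FiniteDimensional (IntermediateField.adjoin L {c' 0}) K :=
      Module.Finite.of_restrictScalars_finite ℚ _ K
    have h8 := finDG_sup c' (fun j => (P j).natDegree) hj Finset.univ
    rw [Finset.coe_univ, Set.image_univ, finDG_top _ _ htop, IntermediateField.finrank_top'] at h8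
    exact h8
  refine (fin_fibre hx _ hT).subset ?_
  rintro c ⟨h1, h2, h3, h4⟩
  exact ⟨h2, c, rfl, h1, h2, h3, h4⟩

end BMK
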