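import Pool.Agent.Lib.MP_a325a5_ag.GK.Base
import Pool.Agent.Lib.MP_a325a5_ag.F.FinT
import Pool.Agent.Lib.MP_a325a5_ag.UL.MRloc

/-! Points of small rank are algebraic.

Proof of `alg_t`.  `mr c ≤ 2` gives a relation `∏ c ^ a = 1` with `a ≠ 0` (`mr_eq_card_iff`); so `t` is a
root of `∏_{a j > 0} (φ γ j (X - φ α j)) ^ a j - ∏_{a j < 0} (φ γ j (X - φ α j)) ^ (-a j)`, the image of a
polynomial over the algebraically closed field, which is not zero (value at some `α j` with
`a j ≠ 0`; the two products are coprime); so `t` is in the range of `φ`.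
`alg_pt`: by `mr_spec` for `c` (`mr c = 2 = mr (Sum.elim c z)`) a power of `z i` is a product of powers of
the `c j`, so it is in the range of `φ`, and so is `z i` (roots in an algebraically closed field).
`fin_T1C`: the `t` are in the range of `φ` by `alg_t` and two independent relations hold; transfer to
`AlgebraicClosure ℚ` and apply `fin_T1` for a number field `L` containing the `α j`, `γ j`
(`exists_field` of `F/Sub.lean` with the finite set of the `α j`, `γ j`, `L = ℚ` there).
The set of two independent relations: from `mr c ≤ 1` (the lattice of relations has rank at least 2):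
`mr_spec` gives `I` with at most one element, and two indices outside `I` give the relations. -/

namespace BMK

open BMF BMS BMG

variable {κ : ℕ}

open Pool.Agent.Lib.MP_a325a5_ag.UL

private theorem SAlg_root (φ : AlgebraicClosure ℚ →+* ℂ) (t : ℂ)
    (p : Polynomial (AlgebraicClosure ℚ)) (hp : p ≠ 0) (h : p.eval₂ φ t = 0) :
    ∃ t' : AlgebraicClosure ℚ, φ t' = t := by
  letI : Algebra (AlgebraicClosure ℚ) ℂ := φ.toAlgebra
  have h1 : IsAlgebraic (AlgebraicClosure ℚ) t := ⟨p, hp, h⟩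
  have h2 : IsIntegral (AlgebraicClosure ℚ) t := h1.isIntegral
  have h3 := IsAlgClosed.degree_eq_one_of_irreducible (AlgebraicClosure ℚ) (minpoly.irreducible h2)
  obtain ⟨x, hx⟩ := minpoly.mem_range_of_degree_eq_one (AlgebraicClosure ℚ) t h3
  exact ⟨x, hx⟩

private theorem SAlg_prod {G : Type} [CommGroup G] (c : Fin (κ + 3) → G) (a : Fin (κ + 3) → ℤ)
    (h : ∏ i, c i ^ a i = 1) :
    ∏ i, c i ^ (a i).toNat = ∏ i, c i ^ (-a i).toNat := by
  have h1 : ∀ i, c i ^ (a i).toNat = c i ^ a i * c i ^ (-a i).toNat := by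
    intro i
    rw [← zpow_natCast, ← zpow_natCast, ← zpow_add]
    congr 1
    omega
  rw [Finset.prod_congr rfl fun i _ => h1 i, Finset.prod_mul_distrib, h, one_mul]


private theorem SAlg_mono {ι ι₂ : Type} [Fintype ι] [Fintype ι₂] (p : ι → ℂˣ) (f : ι₂ → ι) :
    mr (fun j => p (f j)) ≤ mr p :=
  mr_le_of_pow_mem p (fun j => p (f j)) fun j => ⟨1, one_pos, by
    rw [pow_one]
    exact Subgroup.subset_closure ⟨f j, rfl⟩⟩

theorem alg_pt {ι : Type} [Fintype ι] (φ : AlgebraicClosure ℚ →+* ℂ)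
    (c : Fin (κ + 3) → ℂˣ) (c' : Fin (κ + 3) → (AlgebraicClosure ℚ)ˣ) (hc : ∀ j, (c j : ℂ) = φ (c' j))
    (z : ι → ℂˣ) (h2 : mr (Sum.elim c z) ≤ κ + 2) (h1 : ¬ mr c ≤ κ + 1) :
    ∃ z' : ι → (AlgebraicClosure ℚ)ˣ, ∀ i, (z i : ℂ) = φ (z' i) := by
  classical
  obtain ⟨I, hI1, hI2, -⟩ := mr_spec c
  have hIc : κ + 2 ≤ I.card := by omega
  have hex : ∀ i, ∃ x : AlgebraicClosure ℚ, φ x = z i := by
    intro i
    -- the family on I together with z i
    let q : Option I → ℂˣ := fun o => o.elim (z i) (fun j => c j)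
    have hq : mr q ≤ mr (Sum.elim c z) := by
      have h3 := SAlg_mono (Sum.elim c z) (fun o : Option I => o.elim (Sum.inr i)
        (fun j => Sum.inl (j : Fin (κ + 3))))
      refine le_trans (le_of_eq ?_) h3
      congr 1
      funext o
      cases o <;> rfl
    have hne : ¬ mr q = Fintype.card (Option I) := by
      rw [Fintype.card_option, Fintype.card_coe]
      omega
    rw [mr_eq_card_iff] at hne
    push Not at hne
    obtain ⟨b, hb, hb0⟩ := hne
    rw [Fintype.prod_option] at hb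
    have hb' : z i ^ b none * ∏ j : I, c j ^ b (some j) = 1 := hb
    have hbn : b none ≠ 0 := by
      intro h0
      rw [h0, zpow_zero, one_mul] at hb'
      have hI3 : mr (fun i : I => c i) = Fintype.card I := by rw [hI2, Fintype.card_coe]
      rw [mr_eq_card_iff] at hI3
      have h4 := hI3 (fun j => b (some j)) hb'
      apply hb0
      funext o
      cases o with
      | none => exact h0
      | some j => exact congrFun h4 j
    -- z i ^ b none in the range
    set Y : (AlgebraicClosure ℚ)ˣ := (∏ j : I, c' j ^ b (some j))⁻¹ with hY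
    have hcm : ∀ j, c j = Units.map φ.toMonoidHom (c' j) := fun j => Units.ext (hc j)
    have hzY : z i ^ b none = Units.map φ.toMonoidHom Y := by
      rw [eq_inv_of_mul_eq_one_left hb', hY, map_inv, map_prod]
      congr 1
      refine Finset.prod_congr rfl fun j _ => ?_
      rw [map_zpow, ← hcm]
    obtain ⟨n, hn, Y', hY'⟩ : ∃ n : ℕ, 0 < n ∧ ∃ Y' : (AlgebraicClosure ℚ)ˣ,
        z i ^ n = Units.map φ.toMonoidHom Y' := by
      rcases Int.natAbs_eq (b none) with h5 | h5
      · refine ⟨(b none).natAbs, Int.natAbs_pos.2 hbn, Y, ?_⟩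
        rw [← hzY, ← zpow_natCast, ← h5]
      · refine ⟨(b none).natAbs, Int.natAbs_pos.2 hbn, Y⁻¹, ?_⟩
        rw [map_inv, ← hzY, ← zpow_natCast, ← zpow_neg]
        congr 1
        omega
    refine SAlg_root φ (z i : ℂ) (Polynomial.X ^ n - Polynomial.C (Y' : AlgebraicClosure ℚ))
      (Polynomial.X_pow_sub_C_ne_zero hn _) ?_
    rw [Polynomial.eval₂_sub, Polynomial.eval₂_X_pow, Polynomial.eval₂_C]
    have h6 := congrArg (Units.val : ℂˣ → ℂ) hY'
    rw [Units.val_pow_eq_pow_val] at h6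
    rw [h6]
    exact sub_self _
  choose x hx using hex
  refine ⟨fun i => Units.mk0 (x i) ?_, fun i => ?_⟩
  · intro h0
    have := hx i
    rw [h0, map_zero] at this
    exact (z i).ne_zero this.symm
  · rw [Units.val_mk0, hx]

private theorem SAlg_two (c : Fin (κ + 3) → ℂˣ) (h : mr c ≤ κ + 1) : ∃ a b : Fin (κ + 3) → ℤ,
    LinearIndependent ℤ ![a, b] ∧ ∏ j, c j ^ a j = 1 ∧ ∏ j, c j ^ b j = 1 := by
  classical
  obtain ⟨I, hI1, -, hI3⟩ := mr_spec c
  have hcard : 2 ≤ (Iᶜ : Finset (Fin (κ + 3))).card := by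
    rw [Finset.card_compl, Fintype.card_fin]
    omega
  obtain ⟨i, hi, j, hj, hij⟩ := Finset.one_lt_card.1 (show 1 < (Iᶜ : Finset (Fin (κ + 3))).card by omega)
  rw [Finset.mem_compl] at hi hj
  obtain ⟨N, a, hN, ha, hNa⟩ := hI3 i
  obtain ⟨M, b, hM, hb, hMb⟩ := hI3 j
  have hrel : ∀ (k : Fin (κ + 3)) (n : ℕ) (e : Fin (κ + 3) → ℤ), c k ^ n = ∏ j, c j ^ e j →
      ∏ j, c j ^ ((Pi.single k (n : ℤ) : Fin (κ + 3) → ℤ) - e) j = 1 := by
    intro k n e he
    simp only [Pi.sub_apply, zpow_sub, Finset.prod_mul_distrib, Finset.prod_inv_distrib]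
    rw [← he, Finset.prod_eq_single k]
    · rw [Pi.single_eq_same, zpow_natCast, mul_inv_cancel]
    · intro l _ hl
      rw [Pi.single_eq_of_ne hl, zpow_zero]
    · intro hh
      exact absurd (Finset.mem_univ k) hh
  refine ⟨Pi.single i (N : ℤ) - a, Pi.single j (M : ℤ) - b, ?_, hrel i N a hNa, hrel j M b hMb⟩
  rw [LinearIndependent.pair_iff]
  intro x y hxy
  have h3 := congrFun hxy i
  have h4 := congrFun hxy j
  simp only [Pi.add_apply, Pi.smul_apply, Pi.sub_apply, Pi.single_eq_same, smul_eq_mul,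
    Pi.zero_apply, Pi.single_eq_of_ne hij, Pi.single_eq_of_ne hij.symm, ha i hi, ha j hj,
    hb i hi, hb j hj, sub_zero, mul_zero, add_zero, zero_add] at h3 h4
  have hN' : (N : ℤ) ≠ 0 := by exact_mod_cast hN.ne'
  have hM' : (M : ℤ) ≠ 0 := by exact_mod_cast hM.ne'
  exact ⟨(mul_eq_zero.1 h3).resolve_right hN', (mul_eq_zero.1 h4).resolve_right hM'⟩


end BMK
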