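import Pool.Agent.Lib.MP_a325a5_ag.GK.Base
import Pool.Agent.Lib.MP_a325a5_ag.GK.GDef

/-! Passage to the algebraic closure of L in Ω (algebraicClosure L Ω, an intermediate field).  Transcendental over L implies transcendental over the
relative algebraic closure (tower of algebraic extensions).  ℚ ⊆ L ⊆ algebraicClosure L Ω algebraic tower. -/

open NumberField

namespace BMK

open BMF BMS BMG

variable {κ : ℕ}

variable {L Ω : Type} [Field L] [Field Ω] [Algebra L Ω] {x : Fin (κ + 3) → Ω}

theorem crvM (hx : Crv L x) : Crv (algebraicClosure L Ω) x := by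
  refine ⟨hx.ne, fun y => ?_, fun a ha h => hx.tr a ha ?_⟩
  · have hle : IntermediateField.adjoin L {x 0} ≤
        (IntermediateField.adjoin (algebraicClosure L Ω) {x 0}).restrictScalars L := by
      rw [IntermediateField.adjoin_le_iff]
      exact IntermediateField.subset_adjoin (algebraicClosure L Ω) {x 0}
    obtain ⟨p, hp, hp0⟩ := hx.alg y
    obtain ⟨j, hj⟩ : ∃ j : (IntermediateField.adjoin L {x 0}) →+*
        (IntermediateField.adjoin (algebraicClosure L Ω) {x 0}),
        (algebraMap (IntermediateField.adjoin (algebraicClosure L Ω) {x 0}) Ω).comp j =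
          algebraMap (IntermediateField.adjoin L {x 0}) Ω :=
      ⟨(IntermediateField.inclusion hle : _ →ₐ[L] _).toRingHom, rfl⟩
    refine ⟨p.map j, ?_, ?_⟩
    · rw [Ne, Polynomial.map_eq_zero_iff j.injective]
      exact hp
    · rw [Polynomial.aeval_def, Polynomial.eval₂_map, hj]
      exact hp0
  · exact IsAlgebraic.restrictScalars L h

theorem isAlgClosedM [IsAlgClosed Ω] : IsAlgClosed (algebraicClosure L Ω) :=
  (inferInstance : IsAlgClosure L (algebraicClosure L Ω)).isAlgClosed

theorem isAlgQ [CharZero L] [NumberField L] :
    letI : CharZero (algebraicClosure L Ω) :=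
      charZero_of_injective_algebraMap (algebraMap L (algebraicClosure L Ω)).injective
    Algebra.IsAlgebraic ℚ (algebraicClosure L Ω) := by
  have : CharZero (algebraicClosure L Ω) :=
    charZero_of_injective_algebraMap (algebraMap L (algebraicClosure L Ω)).injective
  exact Algebra.IsAlgebraic.trans ℚ L (algebraicClosure L Ω)

end BMK
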