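import Pool.Agent.Lib.MP_a325a5_ag.GK.Base
import Pool.Agent.Lib.MP_a325a5_ag.GK.DEb
import Mathlib.FieldTheory.Galois.Infinite

/-! Lemma 2.8.  Ω is an algebraic closure of KF (Crv.alg), characteristic 0, so Galois over KF.  If z_i is not in KF there is s in Aut(Ω/KF) with
s z_i ≠ z_i.  For all l: (z_l)^Δ is in KF, so s z_l = u_l z_l with u_l^Δ = 1, and u_l is in k (root_k), fixed by s.  Applying s^m: ∑_l u_l^m g_l z_l = 0
for all m ≥ 0; by Vandermonde (distinct values of u) ∑_{l : u_l = 1} g_l z_l = 0.  This set contains 0 and not i: contradiction with NVS. -/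

open NumberField BMF

namespace BMK

open BMF BMS BMG

variable {κ : ℕ}

variable {k Ω : Type} [Field k] [CharZero k] [IsAlgClosed k] [Field Ω] [IsAlgClosed Ω]
  [Algebra k Ω] {x : Fin (κ + 3) → Ω}

omit [CharZero k] [IsAlgClosed k] [IsAlgClosed Ω] in
private theorem kum_alg (hx : Crv k x) : Algebra.IsAlgebraic (KF k x) Ω := by
  constructor
  intro y
  have hle : IntermediateField.adjoin k {x 0} ≤ KF k x := by
    refine IntermediateField.adjoin.mono k _ _ ?_
    rintro _ rfl
    exact ⟨0, rfl⟩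
  obtain ⟨p, hp, hpy⟩ := hx.alg y
  refine ⟨p.map (IntermediateField.inclusion hle).toRingHom, ?_, ?_⟩
  · refine (Polynomial.map_ne_zero_iff ?_).mpr hp
    exact (IntermediateField.inclusion hle).toRingHom.injective
  · rw [Polynomial.aeval_def, Polynomial.eval₂_map]
    rw [Polynomial.aeval_def] at hpy
    exact hpy

omit [CharZero k] [IsAlgClosed k] [IsAlgClosed Ω] in
private theorem kum_poly [DecidableEq Ω] {n : ℕ} (u w : Fin (n + 1) → Ω) (h : ∀ m : ℕ, ∑ l, u l ^ m * w l = 0) :
    ∑ l ∈ Finset.univ.filter (fun l => u l = 1), w l = 0 := by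
  have h1 : ∀ P : Polynomial Ω, ∑ l, P.eval (u l) * w l = 0 := by
    intro P
    induction P using Polynomial.induction_on' with
    | add p q hp hq =>
      simp only [Polynomial.eval_add, add_mul, Finset.sum_add_distrib]
      rw [hp, hq, add_zero]
    | monomial m a =>
      have h2 : ∀ l, (Polynomial.monomial m a).eval (u l) * w l = a * (u l ^ m * w l) := by
        intro l
        rw [Polynomial.eval_monomial]
        ring
      rw [Finset.sum_congr rfl fun l _ => h2 l, ← Finset.mul_sum, h m, mul_zero]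
  let P : Polynomial Ω := ∏ v ∈ (Finset.univ.image u).erase 1, (Polynomial.X - Polynomial.C v)
  have h2 := h1 P
  have h3 : ∀ l, u l ≠ 1 → P.eval (u l) = 0 := by
    intro l hl
    rw [Polynomial.eval_prod]
    refine Finset.prod_eq_zero (Finset.mem_erase.mpr ⟨hl, Finset.mem_image_of_mem u (Finset.mem_univ l)⟩) ?_
    rw [Polynomial.eval_sub, Polynomial.eval_X, Polynomial.eval_C, sub_self]
  have h4 : P.eval 1 ≠ 0 := by
    rw [Polynomial.eval_prod]
    refine Finset.prod_ne_zero_iff.mpr fun v hv => ?_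
    rw [Polynomial.eval_sub, Polynomial.eval_X, Polynomial.eval_C]
    exact sub_ne_zero.mpr (Finset.ne_of_mem_erase hv).symm
  have h5 : ∑ l, P.eval (u l) * w l =
      ∑ l ∈ Finset.univ.filter (fun l => u l = 1), P.eval 1 * w l := by
    rw [Finset.sum_filter]
    refine Finset.sum_congr rfl fun l _ => ?_
    by_cases hl : u l = 1
    · rw [if_pos hl, hl]
    · rw [if_neg hl, h3 l hl, zero_mul]
  rw [h5, ← Finset.mul_sum] at h2
  exact (mul_eq_zero.mp h2).resolve_left h4

theorem kummer (hx : Crv k x) {n : ℕ} (g z : Fin (n + 1) → Ω) (hg : ∀ i, g i ∈ KF k x)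
    (hz : ∀ i, ∃ θ, DE x θ (z i)) (h0 : z 0 = 1) (h : NVS fun i => g i * z i) :
    ∀ i, z i ∈ KF k x := by
  classical
  intro i
  by_contra hi
  have : Algebra.IsAlgebraic (KF k x) Ω := kum_alg hx
  have : IsAlgClosure (KF k x) Ω := ⟨inferInstance, inferInstance⟩
  have : CharZero (KF k x) := charZero_of_injective_algebraMap (algebraMap k (KF k x)).injective
  have hxK : ∀ j, x j ∈ KF k x := fun j => IntermediateField.subset_adjoin k _ ⟨j, rfl⟩
  have hs : ∃ s : Ω ≃ₐ[KF k x] Ω, s (z i) ≠ z i := by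
    by_contra hcon
    push Not at hcon
    have h1 := (InfiniteGalois.mem_range_algebraMap_iff_fixed (k := KF k x) (z i)).mpr hcon
    obtain ⟨y, hy⟩ := h1
    apply hi
    rw [← hy]
    exact y.2
  obtain ⟨s, hs⟩ := hs
  have hfix : ∀ y ∈ KF k x, s y = y := fun y hy => s.commutes ⟨y, hy⟩
  have hkK : ∀ c : k, algebraMap k Ω c ∈ KF k x := fun c => (KF k x).algebraMap_mem c
  have hz0 : ∀ l, z l ≠ 0 := fun l => (hz l).choose_spec.1
  have hu : ∀ l, s (s (z l) / z l) = s (z l) / z l := by
    intro l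
    obtain ⟨θ, hzl, Δ, hΔ, a, _, he⟩ := hz l
    have h1 : z l ^ Δ ∈ KF k x := by
      rw [he]
      exact prod_mem fun j _ => zpow_mem (hxK j) (a j)
    have h2 : (s (z l) / z l) ^ Δ = 1 := by
      rw [div_pow, ← map_pow, hfix _ h1, div_self (pow_ne_zero _ hzl)]
    obtain ⟨c, _, hc⟩ := root_k (k := k) hΔ h2
    rw [← hc]
    exact hfix _ (hkK c)
  let u : Fin (n + 1) → Ω := fun l => s (z l) / z l
  have hsz : ∀ l, s (z l) = u l * z l := fun l => (div_mul_cancel₀ _ (hz0 l)).symm
  have hit : ∀ (m : ℕ), ∑ l, u l ^ m * (g l * z l) = 0 := by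
    intro m
    induction m with
    | zero =>
      simp only [pow_zero, one_mul]
      exact h.1
    | succ m ih =>
      have h1 := congrArg s ih
      rw [map_zero, map_sum] at h1
      rw [← h1]
      refine Finset.sum_congr rfl fun l _ => ?_
      rw [map_mul, map_mul, map_pow, hfix _ (hg l), hsz l]
      have h2 : s (u l) = u l := hu l
      rw [h2]
      ring
  have hsum := kum_poly u (fun l => g l * z l) hit
  refine h.2 (Finset.univ.filter (fun l => u l = 1)) ⟨0, ?_⟩ ?_ hsum
  · rw [Finset.mem_filter]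
    refine ⟨Finset.mem_univ _, ?_⟩
    show s (z 0) / z 0 = 1
    rw [h0, map_one, div_one]
  · intro hU
    have h1 : i ∈ Finset.univ.filter (fun l => u l = 1) := by
      rw [hU]
      exact Finset.mem_univ i
    rw [Finset.mem_filter] at h1
    apply hs
    rw [hsz i, h1.2, one_mul]

end BMK
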