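import Pool.Agent.Lib.MP_a325a5_ag.GK.Base
import Pool.Agent.Lib.MP_a325a5_ag.GK.Clos7
import Pool.Agent.Lib.MP_a325a5_ag.GK.Kum
import Pool.Agent.Lib.MP_a325a5_ag.G.MannG
import Pool.Agent.Lib.MP_a325a5_ag.GK.Lat3

/-! Proposition 2.10 over an algebraically closed field of constants.  n = 0: NVS is impossible (f_0(x_0) ≠ 0).  n ≥ 1: kummer: z_i in KF.
clos7 with S = univ, p_i = f_i(x_0) (Bm_pol, not 0 since x_0 is transcendental): qn θ_i = qn (θ_i - θ_0) ≤ C'.  lat3: the θ_i are in (1/e₀) ℤ^3: the set Θ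
of tuples (θ_i)_i which occur is finite.  For each such tuple choose a solution z' (all conditions), Δ' with z'_i^Δ' = ∏ x^(Δ' θ_i) for all i (a common Δ'),
and N' from mannG for a_i = f_i(x_0) z'_i.  Another solution z with the same tuple: η_i = z_i/z'_i is a root of unity (DE_div, DE_zero), η_0 = 1, NVS: η_i^N' = 1,
so z_i^(N' Δ') = ∏ x^(N' Δ' θ_i).  N₀ = product over Θ of the N' Δ', C₀ ≥ N₀ C'. -/

open NumberField BMF

namespace BMK

open BMF BMS BMG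

variable {κ : ℕ}

variable {k Ω : Type} [Field k] [CharZero k] [IsAlgClosed k] [Algebra.IsAlgebraic ℚ k]
  [Field Ω] [IsAlgClosed Ω] [Algebra k Ω] {x : Fin (κ + 3) → Ω}

omit [CharZero k] [IsAlgClosed k] [Algebra.IsAlgebraic ℚ k] [IsAlgClosed Ω] in
private theorem ffk_x0 (hx : Crv k x) : Transcendental k (x 0) := by
  have h := hx.tr (Pi.single 0 1) (by
    intro h
    have h1 := congrFun h 0
    rw [Pi.single_eq_same, Pi.zero_apply] at h1
    exact one_ne_zero h1)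
  rw [Finset.prod_eq_single (0 : Fin (κ + 3))] at h
  · rw [Pi.single_eq_same, zpow_one] at h
    exact h
  · intro j _ hj
    rw [Pi.single_eq_of_ne hj, zpow_zero]
  · intro h0
    exact absurd (Finset.mem_univ _) h0

omit [Field k] [CharZero k] [IsAlgClosed k] [Algebra.IsAlgebraic ℚ k] [IsAlgClosed Ω]
  [Algebra k Ω] in
private theorem ffk_comm {n : ℕ} {t : Fin (n + 1) → Fin (κ + 3) → ℚ} {z : Fin (n + 1) → Ω}
    (h : ∀ i, DE x (t i) (z i)) : ∃ Δ : ℕ, 0 < Δ ∧ ∀ i, ∃ a : Fin (κ + 3) → ℤ,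
      (∀ j, (a j : ℚ) = Δ * t i j) ∧ z i ^ Δ = ∏ j, x j ^ a j := by
  choose Δ hΔ hm using fun i => DEb_mult (h i)
  refine ⟨∏ i, Δ i, Finset.prod_pos fun i _ => hΔ i, fun i => ?_⟩
  obtain ⟨a, ha, he⟩ := hm i (∏ l ∈ Finset.univ.erase i, Δ l)
  rw [Finset.prod_erase_mul _ _ (Finset.mem_univ i)] at ha he
  exact ⟨a, ha, he⟩

omit [IsAlgClosed Ω] in
private theorem ffk_unif (hx : Crv k x) {n : ℕ} (g : Fin (n + 1) → Ω)
    (t : Fin (n + 1) → Fin (κ + 3) → ℚ) : ∃ N : ℕ, 0 < N ∧ ∀ z : Fin (n + 1) → Ω, z 0 = 1 →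
      (∀ i, DE x (t i) (z i)) → NVS (fun i => g i * z i) → ∀ i, ∃ a : Fin (κ + 3) → ℤ,
      (∀ j, (a j : ℚ) = N * t i j) ∧ z i ^ N = ∏ j, x j ^ a j := by
  by_cases hex : ∃ z : Fin (n + 1) → Ω, z 0 = 1 ∧ (∀ i, DE x (t i) (z i)) ∧
      NVS (fun i => g i * z i)
  · obtain ⟨z', h0', hD', _⟩ := hex
    obtain ⟨Δ, hΔ, hc⟩ := ffk_comm hD'
    obtain ⟨N, hN, hM⟩ := mannG (k := k) (fun i => g i * z' i)
    refine ⟨N * Δ, Nat.mul_pos hN hΔ, fun z h0 hD hNVS i => ?_⟩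
    have hη := hM (fun i => z i / z' i) (by
        show z 0 / z' 0 = 1
        rw [h0, h0', div_one]) (fun i => by
        have h1 := DE_div hx.ne (hD i) (hD' i)
        rw [sub_self] at h1
        exact DE_zero h1) (by
        have h2 : (fun i => z i / z' i * (g i * z' i)) = fun i => g i * z i := by
          funext i
          have h3 : z' i ≠ 0 := (hD' i).1
          field_simp
        rw [h2]
        exact hNVS) i
    have hz' : z' i ≠ 0 := (hD' i).1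
    have h4 : z i ^ N = z' i ^ N := by
      have h5 : (z i / z' i) ^ N = 1 := hη
      rw [div_pow, div_eq_one_iff_eq (pow_ne_zero _ hz')] at h5
      exact h5
    obtain ⟨a, ha, he⟩ := hc i
    refine ⟨fun j => (N : ℤ) * a j, fun j => ?_, ?_⟩
    · push_cast
      rw [ha j]
      ring
    · rw [mon_smul, ← he, pow_mul, h4, ← pow_mul, ← pow_mul, mul_comm]
  · exact ⟨1, one_pos, fun z h0 hD hNVS => absurd ⟨z, h0, hD, hNVS⟩ hex⟩

private theorem ffk_fin (n C e : ℕ) (he : 0 < e) :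
    {t : Fin (n + 1) → Fin (κ + 3) → ℚ | ∀ i, t i ∈ {s : Fin (κ + 3) → ℚ | ∀ j, s j ∈
      {q : ℚ | |q| ≤ C ∧ ∃ m : ℤ, (e : ℚ) * q = m}}}.Finite := by
  refine Set.Finite.pi' fun _ => Set.Finite.pi' fun _ => ?_
  refine ((Set.finite_Icc (-((e : ℤ) * C)) ((e : ℤ) * C)).image
    (fun m : ℤ => (m : ℚ) / e)).subset ?_
  rintro q ⟨hq, m, hm⟩
  have he' : (0 : ℚ) < e := Nat.cast_pos.mpr he
  refine ⟨m, ?_, ?_⟩
  · have h1 : |(m : ℚ)| ≤ e * C := by
      rw [← hm, abs_mul, abs_of_pos he']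
      exact mul_le_mul_of_nonneg_left hq he'.le
    have h2 := abs_le.mp h1
    constructor
    · have h3 : ((-((e : ℤ) * C) : ℤ) : ℚ) ≤ (m : ℚ) := by
        push_cast
        exact h2.1
      exact_mod_cast h3
    · have h3 : (m : ℚ) ≤ (((e : ℤ) * C : ℤ) : ℚ) := by
        push_cast
        exact h2.2
      exact_mod_cast h3
  · show (m : ℚ) / e = q
    rw [← hm]
    field_simp

omit [Algebra.IsAlgebraic ℚ k] in
private theorem ffk_bd (hx : Crv k x) {n : ℕ} (hn : 1 ≤ n) (f : Fin (n + 1) → Polynomial k)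
    (hf : ∀ i, f i ≠ 0) : ∃ C : ℕ, ∀ (z : Fin (n + 1) → Ω) (t : Fin (n + 1) → Fin (κ + 3) → ℚ),
      z 0 = 1 → (∀ i, DE x (t i) (z i)) → NVS (fun i => Polynomial.aeval (x 0) (f i) * z i) →
      ∀ i, z i ∈ KF k x ∧ qn (t i) ≤ C := by
  let D : ℕ := 1 + ∑ i, (f i).natDegree
  obtain ⟨C, hC⟩ := clos7 hx (n + 1) (by omega) D (Nat.le_add_right _ _)
  refine ⟨C, fun z t h0 hD hN i => ?_⟩
  have hB : ∀ i, Polynomial.aeval (x 0) (f i) ∈ Bm k x D := by
    intro i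
    refine Bm_mono ?_ (Bm_pol hx.ne (f i) 0)
    have h1 : (f i).natDegree ≤ ∑ i, (f i).natDegree :=
      Finset.single_le_sum (f := fun i => (f i).natDegree) (fun _ _ => Nat.zero_le _)
        (Finset.mem_univ i)
    omega
  have hne : ∀ i, Polynomial.aeval (x 0) (f i) ≠ 0 := by
    intro i h
    exact hf i ((transcendental_iff.mp (ffk_x0 hx)) _ h)
  have hK := kummer hx (fun i => Polynomial.aeval (x 0) (f i)) z (fun i => Bm_KF (hB i))
    (fun i => ⟨t i, hD i⟩) h0 hN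
  have h1 := hC (Fin (n + 1)) Finset.univ (fun i => Polynomial.aeval (x 0) (f i)) z t
    (by rw [Finset.card_univ, Fintype.card_fin]) (fun i _ => ⟨hB i, hne i, hD i, hK i⟩) hN.1
    (fun I _ hI hI' => hN.2 I hI hI') i (Finset.mem_univ i) 0 (Finset.mem_univ 0)
  have h2 : t 0 = 0 := by
    refine DE_uniq hx (z := 1) ?_ (DE_one x)
    rw [← h0]
    exact hD 0
  rw [h2, sub_zero] at h1
  exact ⟨hK i, h1⟩

theorem ffk {k Ω : Type} [Field k] [CharZero k] [IsAlgClosed k] [Algebra.IsAlgebraic ℚ k]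
    [Field Ω] [IsAlgClosed Ω] [Algebra k Ω] {x : Fin (κ + 3) → Ω} (hx : Crv k x) {n : ℕ}
    (f : Fin (n + 1) → Polynomial k) (hf : ∀ i, f i ≠ 0) :
    ∃ N₀ C₀ : ℕ, 0 < N₀ ∧ ∀ z : Fin (n + 1) → Ω, z 0 = 1 → (∀ i, ∃ θ, DE x θ (z i)) →
      NVS (fun i => Polynomial.aeval (x 0) (f i) * z i) →
      ∀ i, ∃ κ : Fin (κ + 3) → ℤ, (∀ j, |κ j| ≤ C₀) ∧ z i ^ N₀ = ∏ j, x j ^ κ j := by
  rcases Nat.eq_zero_or_pos n with rfl | hn
  · refine ⟨1, 0, one_pos, fun z h0 _ hN => ?_⟩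
    exfalso
    have h1 := hN.1
    rw [Fin.sum_univ_one] at h1
    have h2 : Polynomial.aeval (x 0) (f 0) * z 0 = 0 := h1
    rw [h0, mul_one] at h2
    exact hf 0 ((transcendental_iff.mp (ffk_x0 hx)) _ h2)
  · obtain ⟨C, hC⟩ := ffk_bd hx hn f hf
    obtain ⟨e, he, hlat⟩ := lat3 hx
    have hfin := ffk_fin (κ := κ) n C e he
    choose N hN hU using fun t => ffk_unif hx (fun i => Polynomial.aeval (x 0) (f i)) t
    let N₀ : ℕ := ∏ t ∈ hfin.toFinset, N t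
    have hN₀ : 0 < N₀ := Finset.prod_pos fun t _ => hN t
    refine ⟨N₀, N₀ * C, hN₀, fun z h0 hz hNVS i => ?_⟩
    choose t ht using hz
    have hb := hC z t h0 ht hNVS
    have hbj : ∀ i j, |t i j| ≤ C := fun i j => le_trans
      (Finset.single_le_sum (f := fun j => |t i j|) (fun _ _ => abs_nonneg _)
        (Finset.mem_univ j)) (hb i).2
    have hmem : t ∈ hfin.toFinset := by
      rw [Set.Finite.mem_toFinset]
      exact fun i j => ⟨hbj i j, hlat (t i) (z i) (ht i) (hb i).1 j⟩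
    obtain ⟨a, ha, hea⟩ := hU t z h0 ht hNVS i
    obtain ⟨M, hM⟩ : ∃ M : ℕ, N₀ = M * N t := by
      obtain ⟨M, hM⟩ := Finset.dvd_prod_of_mem N hmem
      exact ⟨M, by rw [mul_comm]; exact hM⟩
    have hcast : ∀ j, (((M : ℤ) * a j : ℤ) : ℚ) = N₀ * t i j := by
      intro j
      rw [hM]
      push_cast
      rw [ha j]
      ring
    refine ⟨fun j => (M : ℤ) * a j, fun j => ?_, ?_⟩
    · have h3 : |(((M : ℤ) * a j : ℤ) : ℚ)| ≤ ((N₀ * C : ℕ) : ℚ) := by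
        rw [hcast j, abs_mul, abs_of_nonneg (Nat.cast_nonneg N₀)]
        push_cast
        exact mul_le_mul_of_nonneg_left (hbj i j) (Nat.cast_nonneg N₀)
      exact_mod_cast h3
    · rw [mon_smul, ← hea, ← pow_mul, hM, mul_comm M]

end BMK
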