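import Pool.Agent.Lib.MP_a325a5_ag.GK.Base
import Pool.Agent.Lib.MP_a325a5_ag.GK.SDef

/-! θ = - b⁻¹ a, Cramer: det b * θ_ij = - det of b with column i replaced by the column (a_l j)_l; Leibniz: |det| ≤ ∑_σ ∏_l |entry| ≤ n! ∏ sz. -/

open Matrix

namespace BMK

open BMF BMS BMG

variable {κ : ℕ}

private theorem latT_det {n : ℕ} (M : Matrix (Fin n) (Fin n) ℤ) (s : Fin n → ℤ)
    (h : ∀ l i, |M l i| ≤ s l) : |M.det| ≤ (n.factorial : ℤ) * ∏ l, s l := by
  rw [Matrix.det_apply]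
  refine (Finset.abs_sum_le_sum_abs _ _).trans ?_
  have hb : ∀ σ ∈ (Finset.univ : Finset (Equiv.Perm (Fin n))),
      |Equiv.Perm.sign σ • ∏ i, M (σ i) i| ≤ ∏ l, s l := by
    intro σ _
    have h1 : |Equiv.Perm.sign σ • ∏ i, M (σ i) i| = |∏ i, M (σ i) i| := by
      rcases Int.units_eq_one_or (Equiv.Perm.sign σ) with h | h <;> simp [h]
    rw [h1, Finset.abs_prod]
    calc ∏ i, |M (σ i) i| ≤ ∏ i, s (σ i) :=
          Finset.prod_le_prod (fun i _ => abs_nonneg _) fun i _ => h _ _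
      _ = ∏ l, s l := Equiv.prod_comp σ s
  refine (Finset.sum_le_card_nsmul _ _ _ hb).trans ?_
  rw [Finset.card_univ, Fintype.card_perm, Fintype.card_fin, nsmul_eq_mul]

theorem lat_theta {n : ℕ} (a : Fin n → Fin (κ + 3) → ℤ) (b : Fin n → Fin n → ℤ)
    (hb : (Matrix.of b).det ≠ 0) :
    ∃ θ : Fin n → Fin (κ + 3) → ℚ, (∀ l j, tx θ (b l) j = -(a l j : ℚ)) ∧
      (∀ i j, ∃ m : ℤ, ((Matrix.of b).det : ℚ) * θ i j = m) ∧
      (∀ i j, |((Matrix.of b).det : ℚ)| * |θ i j| ≤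
        (n.factorial : ℚ) * ∏ l, (sz (a l) (b l) : ℚ)) ∧
      ((Matrix.of b).det.natAbs : ℚ) ≤ (n.factorial : ℚ) * ∏ l, (sz (a l) (b l) : ℚ) := by
  have hbQ : ((Matrix.of b).det : ℚ) ≠ 0 := by exact_mod_cast hb
  have hsb : ∀ l i, |b l i| ≤ ((sz (a l) (b l) : ℕ) : ℤ) := by
    intro l i
    have h1 : (b l i).natAbs ≤ ∑ i, (b l i).natAbs :=
      Finset.single_le_sum (f := fun i => (b l i).natAbs) (fun _ _ => Nat.zero_le _)
        (Finset.mem_univ i)
    have h2 : (b l i).natAbs ≤ sz (a l) (b l) := by unfold sz; omega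
    rw [Int.abs_eq_natAbs]
    exact_mod_cast h2
  have hsa : ∀ l j, |a l j| ≤ ((sz (a l) (b l) : ℕ) : ℤ) := by
    intro l j
    have h1 : (a l j).natAbs ≤ ∑ j, (a l j).natAbs :=
      Finset.single_le_sum (f := fun j => (a l j).natAbs) (fun _ _ => Nat.zero_le _)
        (Finset.mem_univ j)
    have h2 : (a l j).natAbs ≤ sz (a l) (b l) := by unfold sz; omega
    rw [Int.abs_eq_natAbs]
    exact_mod_cast h2
  set c : Fin n → Fin (κ + 3) → ℤ := fun i j => Matrix.cramer (Matrix.of b) (fun l => a l j) i with hc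
  have hcr : ∀ l j, ∑ i, b l i * c i j = (Matrix.of b).det * a l j := by
    intro l j
    have h := congrFun (Matrix.mulVec_cramer (Matrix.of b) (fun l => a l j)) l
    simpa [Matrix.mulVec, dotProduct] using h
  have hcb : ∀ i j, |c i j| ≤ (n.factorial : ℤ) * ∏ l, ((sz (a l) (b l) : ℕ) : ℤ) := by
    intro i j
    simp only [hc]
    rw [Matrix.cramer_apply]
    apply latT_det
    intro l i'
    rw [Matrix.updateCol_apply]
    split_ifs
    · exact hsa l j
    · exact hsb l i'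
  have hdet : |(Matrix.of b).det| ≤ (n.factorial : ℤ) * ∏ l, ((sz (a l) (b l) : ℕ) : ℤ) :=
    latT_det _ _ fun l i => hsb l i
  have hθ : ∀ i j, ((Matrix.of b).det : ℚ) * (-(c i j : ℚ) / ((Matrix.of b).det : ℚ)) =
      -(c i j : ℚ) := fun i j => mul_div_cancel₀ _ hbQ
  refine ⟨fun i j => -(c i j : ℚ) / ((Matrix.of b).det : ℚ), ?_, ?_, ?_, ?_⟩
  · intro l j
    unfold tx
    have h : ∑ i, (b l i : ℚ) * (-(c i j : ℚ) / ((Matrix.of b).det : ℚ)) =
        -(∑ i, (b l i : ℚ) * (c i j : ℚ)) / ((Matrix.of b).det : ℚ) := by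
      rw [← Finset.sum_neg_distrib, Finset.sum_div]
      apply Finset.sum_congr rfl
      intro i _
      ring
    rw [h]
    have h2 : (∑ i, (b l i : ℚ) * (c i j : ℚ)) = ((Matrix.of b).det : ℚ) * (a l j : ℚ) := by
      exact_mod_cast hcr l j
    rw [h2]
    field_simp
  · intro i j
    exact ⟨-(c i j), by rw [hθ]; push_cast; ring⟩
  · intro i j
    rw [← abs_mul, hθ, abs_neg]
    exact_mod_cast hcb i j
  · have h := hdet
    rw [Int.abs_eq_natAbs] at h
    exact_mod_cast h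

end BMK
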