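import Pool.Agent.Lib.MP_a325a5_ag.GK.Base
import Pool.Agent.Lib.MP_a325a5_ag.GK.AbDim
import Pool.Agent.Lib.MP_a325a5_ag.GK.AbMul
import Pool.Agent.Lib.MP_a325a5_ag.GK.AbEv
import Pool.Agent.Lib.MP_a325a5_ag.G.DimG
import Pool.Agent.Lib.MP_a325a5_ag.GK.FFp
import Pool.Agent.Lib.MP_a325a5_ag.GK.Pla
import Pool.Agent.Lib.MP_a325a5_ag.GK.Lift
import Pool.Agent.Lib.MP_a325a5_ag.GK.LatT

/-! Proposition 4.2 (Case A), assembly.  Δ = |det b|, θ from lat_theta (S/LatT.lean).  E = AlgebraicClosure F, place (R, π) at the image of c.  By Cramer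
(adjugate) z_(i+1)^Δ = ∏ c^(Δ θ_i) exactly; plc_lift gives w_i in R with w_i^Δ = ∏ x^(Δ θ_i), π w_i = z_(i+1).  (∏ x^(a_l)) ∏ w^(b_l) has Δ-th power 1 and
π-value 1, so it is 1 (plc_root).  f₀ = f_0(x_0) + ∑ f_(i+1)(x_0) w_i, π f₀ = 0 by PtG.eq.
If f₀ ≠ 0: dimG for B K = BAg, slope Δ σ, C = ceiling of max natDegree f_i + max_i ∑_j |θ_ij| + 1, W = image of F: finrank L F ≤ Δ σ C, with
Δ ≤ n! ∏ sz and Δ ∑_j|θ_ij| ≤ 3 n! ∏ sz.  If f₀ = 0: Fin.cons 1 w satisfies NVS (π of a vanishing subsum would vanish: PtG.sub) and DE (DE_of_pow): ff gives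
w_i^(N₀) = ∏ x^κ; apply π. -/

open NumberField BMF

namespace BMK

open BMF BMS BMG

variable {κ : ℕ}

private theorem pag_adj {G : Type} [AddCommGroup G] {n : ℕ} (b : Fin n → Fin n → ℤ)
    (e : Fin n → G) (i : Fin n) :
    (Matrix.of b).det • e i = ∑ l, (Matrix.of b).adjugate i l • ∑ i', b l i' • e i' := by
  classical
  simp only [Finset.smul_sum, smul_smul]
  rw [Finset.sum_comm]
  have h2 : ∀ i', ∑ l, ((Matrix.of b).adjugate i l * b l i') • e i' =
      (if i = i' then (Matrix.of b).det else 0) • e i' := by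
    intro i'
    rw [← Finset.sum_smul]
    congr 1
    have h3 := congrFun (congrFun (Matrix.adjugate_mul (Matrix.of b)) i) i'
    rw [Matrix.mul_apply, Matrix.smul_apply, Matrix.one_apply] at h3
    simpa using h3
  simp only [h2]
  simp

private theorem pag_lin {G : Type} [AddCommGroup G] {n : ℕ} (a : Fin n → Fin (κ + 3) → ℤ)
    (b : Fin n → Fin n → ℤ) (cu : Fin (κ + 3) → G) (zu : Fin n → G)
    (h : ∀ l, ∑ j, a l j • cu j + ∑ i', b l i' • zu i' = 0) (i : Fin n) :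
    (Matrix.of b).det • zu i =
      ∑ j, (-∑ l, (Matrix.of b).adjugate i l * a l j) • cu j := by
  rw [pag_adj b zu i]
  have h2 : ∀ l, ∑ i', b l i' • zu i' = -∑ j, a l j • cu j := fun l =>
    eq_neg_of_add_eq_zero_right (h l)
  simp only [h2, neg_smul, smul_neg, Finset.smul_sum, smul_smul, Finset.sum_smul,
    Finset.sum_neg_distrib]
  rw [Finset.sum_comm]

private theorem pag_neg {G : Type} [AddCommGroup G] (cu : Fin (κ + 3) → G) (z : G) (d : ℤ)
    (m : Fin (κ + 3) → ℤ) (h : d • z = ∑ j, m j • cu j) : (-d) • z = ∑ j, (-m) j • cu j := by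
  rw [neg_smul, h, ← Finset.sum_neg_distrib]
  exact Finset.sum_congr rfl fun j _ => by rw [Pi.neg_apply, neg_smul]

/-- exact exponents of the `z i` -/
private theorem pag_exp {F : Type} [Field F] {n : ℕ} (c : Fin (κ + 3) → F) (hc : ∀ j, c j ≠ 0)
    (z : Fin n → F) (hz : ∀ i, z i ≠ 0) (a : Fin n → Fin (κ + 3) → ℤ) (b : Fin n → Fin n → ℤ)
    (hr : ∀ l, (∏ j, c j ^ a l j) * ∏ i, z i ^ b l i = 1)
    (θ : Fin n → Fin (κ + 3) → ℚ) (hθ : ∀ l j, tx θ (b l) j = -(a l j : ℚ)) (i : Fin n) :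
    ∃ A : Fin (κ + 3) → ℤ, (∀ j, (A j : ℚ) = (Matrix.of b).det.natAbs * θ i j) ∧
      z i ^ (Matrix.of b).det.natAbs = ∏ j, c j ^ A j := by
  classical
  let cu : Fin (κ + 3) → Additive Fˣ := fun j => Additive.ofMul (Units.mk0 _ (hc j))
  let zu : Fin n → Additive Fˣ := fun i => Additive.ofMul (Units.mk0 _ (hz i))
  set m : Fin (κ + 3) → ℤ := fun j => -∑ l, (Matrix.of b).adjugate i l * a l j with hm
  have hmθ : ∀ j, (m j : ℚ) = (Matrix.of b).det * θ i j := by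
    intro j
    have h1 := pag_adj b (fun i => θ i j) i
    have h2 : ∀ l, ∑ i', b l i' • θ i' j = -(a l j : ℚ) := by
      intro l
      rw [← hθ l j]
      unfold tx
      exact Finset.sum_congr rfl fun i' _ => by rw [zsmul_eq_mul]
    simp only [h2] at h1
    rw [zsmul_eq_mul] at h1
    rw [h1, hm]
    push_cast
    rw [← Finset.sum_neg_distrib]
    exact Finset.sum_congr rfl fun l _ => by rw [zsmul_eq_mul]; ring
  have hzu : (Matrix.of b).det • zu i = ∑ j, m j • cu j := by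
    refine pag_lin a b cu zu (fun l => ?_) i
    have h3 : ∑ j, a l j • cu j + ∑ i', b l i' • zu i' = Additive.ofMul
        ((∏ j, (Units.mk0 _ (hc j)) ^ a l j) * ∏ i', (Units.mk0 _ (hz i')) ^ b l i') := by
      rw [ofMul_mul, ofMul_prod, ofMul_prod]
      congr 1
    rw [h3, ofMul_eq_zero]
    apply Units.ext
    simp only [Units.val_mul, Units.coe_prod, Units.val_zpow_eq_zpow_val, Units.val_one,
      Units.val_mk0]
    exact hr l
  have hpow : ∀ (d : ℤ) (m' : Fin (κ + 3) → ℤ), d • zu i = ∑ j, m' j • cu j →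
      z i ^ d = ∏ j, c j ^ m' j := by
    intro d m' h
    have h3 : d • zu i = Additive.ofMul ((Units.mk0 _ (hz i)) ^ d) := rfl
    have h4 : ∑ j, m' j • cu j = Additive.ofMul (∏ j, (Units.mk0 _ (hc j)) ^ m' j) := by
      rw [ofMul_prod]
      rfl
    rw [h3, h4] at h
    have h5 := congrArg (fun u : Fˣ => (u : F)) (Additive.ofMul.injective h)
    simpa using h5
  have hq : (((Matrix.of b).det.natAbs : ℤ) : ℚ) = ((Matrix.of b).det.natAbs : ℚ) :=
    Int.cast_natCast _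
  rcases Int.natAbs_eq (Matrix.of b).det with h1 | h1
  · refine ⟨m, fun j => ?_, ?_⟩
    · rw [hmθ j]
      congr 1
      rw [← hq, ← h1]
    · have h2 := hpow _ _ hzu
      rw [h1, zpow_natCast] at h2
      exact h2
  · have h3 : -(Matrix.of b).det = ((Matrix.of b).det.natAbs : ℤ) := by omega
    refine ⟨-m, fun j => ?_, ?_⟩
    · rw [Pi.neg_apply, Int.cast_neg, hmθ j, ← neg_mul]
      congr 1
      rw [← hq, ← h3, Int.cast_neg]
    · have h2 := hpow (-(Matrix.of b).det) (-m) (pag_neg cu (zu i) _ m hzu)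
      rw [h3, zpow_natCast] at h2
      exact h2

/-- the exact relations lift -/
private theorem pag_rel {L Ω E : Type} [Field L] [CharZero L] [Field Ω] [Field E] [Algebra L Ω]
    [Algebra L E] {x : Fin (κ + 3) → Ω} {c : Fin (κ + 3) → E} {R : Subalgebra L Ω} {π : R →ₐ[L] E}
    (h : IsPlc L x c R π) (hx : ∀ j, x j ≠ 0) (hc : ∀ j, c j ≠ 0) {n : ℕ}
    (w : Fin n → Ω) (y : Fin n → E) (hy : ∀ i, y i ≠ 0)
    (hw : ∀ i, ∃ hR : w i ∈ R, π ⟨w i, hR⟩ = y i) (Δ : ℕ) (hΔ : 0 < Δ)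
    (A : Fin n → Fin (κ + 3) → ℤ) (hA : ∀ i, w i ^ Δ = ∏ j, x j ^ A i j)
    (a : Fin (κ + 3) → ℤ) (b : Fin n → ℤ) (hr : (∏ j, c j ^ a j) * ∏ i, y i ^ b i = 1)
    (hab : ∀ j, ∑ i, b i * A i j = -(Δ * a j)) :
    (∏ j, x j ^ a j) * ∏ i, w i ^ b i = 1 := by
  classical
  choose hwR hwπ using hw
  have hu : ∀ i, ∃ hR : w i ^ b i ∈ R, π ⟨w i ^ b i, hR⟩ = y i ^ b i := by
    intro i
    obtain ⟨hR, he⟩ := plc_unit h (w i) (hwR i) (by rw [hwπ i]; exact hy i) (b i)
    exact ⟨hR, by rw [he, hwπ i]⟩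
  choose huR huπ using hu
  obtain ⟨haR, haπ⟩ := plc_mon h hc a
  let u : R := ⟨∏ j, x j ^ a j, haR⟩ * ∏ i, ⟨w i ^ b i, huR i⟩
  have huv : (u : Ω) = (∏ j, x j ^ a j) * ∏ i, w i ^ b i := by
    have h1 : (u : Ω) = R.val u := rfl
    rw [h1]
    simp only [u, map_mul, map_prod]
    rfl
  have huπ1 : π u = 1 := by
    simp only [u, map_mul, map_prod]
    rw [haπ]
    simp only [huπ]
    exact hr
  have hpow : (u : Ω) ^ Δ = 1 := by
    rw [huv, mul_pow, ← Finset.prod_pow]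
    have h1 : (∏ i, w i ^ b i) ^ Δ = ∏ j, x j ^ (-((Δ : ℤ) * a j)) := by
      rw [← Finset.prod_pow]
      have h2 : ∀ i, (w i ^ b i) ^ Δ = ∏ j, x j ^ (b i * A i j) := by
        intro i
        rw [← zpow_natCast, ← zpow_mul, mul_comm (b i), zpow_mul, zpow_natCast, hA i,
          ← Finset.prod_zpow]
        exact Finset.prod_congr rfl fun j _ => by rw [← zpow_mul, mul_comm]
      simp only [h2]
      rw [Finset.prod_comm]
      refine Finset.prod_congr rfl fun j _ => ?_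
      rw [← hab j]
      have h3 : ∀ s : Finset (Fin n), ∏ i ∈ s, x j ^ (b i * A i j) =
          x j ^ ∑ i ∈ s, b i * A i j := by
        intro s
        induction s using Finset.induction_on with
        | empty => simp
        | insert i s hi ih => rw [Finset.prod_insert hi, Finset.sum_insert hi, ih,
            zpow_add₀ (hx j)]
      exact h3 _
    rw [h1, ← Finset.prod_mul_distrib]
    refine Finset.prod_eq_one fun j _ => ?_
    rw [← zpow_natCast, ← zpow_mul, ← zpow_add₀ (hx j), mul_comm (a j)]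
    simp
  obtain ⟨hR, hone⟩ := plc_root h (u : Ω) Δ hΔ hpow
  rw [← huv]
  exact hone huπ1

/-- sums over the indices: values and place -/
private theorem pag_sum {L Ω E F : Type} [Field L] [Field Ω] [Field E] [Field F] [Algebra L Ω]
    [Algebra L E] [Algebra L F] [Algebra F E] [IsScalarTower L F E] {x : Fin (κ + 3) → Ω}
    {c : Fin (κ + 3) → F} {n : ℕ} (z : Fin (n + 1) → F) (hz0 : z 0 = 1) (R : Subalgebra L Ω)
    (π : R →ₐ[L] E) (h : IsPlc L x (fun j => algebraMap F E (c j)) R π)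
    (w : Fin n → Ω) (hw : ∀ i, ∃ hR : w i ∈ R, π ⟨w i, hR⟩ = algebraMap F E (z i.succ))
    (f : Fin (n + 1) → Polynomial L) (I : Finset (Fin (n + 1))) :
    ∃ hR : ∑ i ∈ I, Polynomial.aeval (x 0) (f i) * (Fin.cons 1 w : Fin (n + 1) → Ω) i ∈ R,
      π ⟨∑ i ∈ I, Polynomial.aeval (x 0) (f i) * (Fin.cons 1 w : Fin (n + 1) → Ω) i, hR⟩ =
        algebraMap F E (∑ i ∈ I, Polynomial.aeval (c 0) (f i) * z i) := by
  classical
  choose hwR hwπ using hw
  obtain ⟨hx0, hπ0⟩ := h.mem 0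
  let X0 : R := ⟨x 0, hx0⟩
  have hW : ∀ i : Fin (n + 1), ∃ hR : (Fin.cons 1 w : Fin (n + 1) → Ω) i ∈ R,
      π ⟨(Fin.cons 1 w : Fin (n + 1) → Ω) i, hR⟩ = algebraMap F E (z i) := by
    intro i
    refine Fin.cases ?_ (fun i' => ?_) i
    · refine ⟨?_, ?_⟩
      · rw [Fin.cons_zero]; exact R.one_mem
      · rw [hz0, map_one]
        have : (⟨(Fin.cons 1 w : Fin (n + 1) → Ω) 0, by
          rw [Fin.cons_zero]; exact R.one_mem⟩ : R) = 1 := Subtype.ext (by simp)
        rw [this, map_one]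
    · exact ⟨hwR i', hwπ i'⟩
  choose hWR hWπ using hW
  let S : R := ∑ i ∈ I, Polynomial.aeval X0 (f i) * ⟨_, hWR i⟩
  have hS : (S : Ω) =
      ∑ i ∈ I, Polynomial.aeval (x 0) (f i) * (Fin.cons 1 w : Fin (n + 1) → Ω) i := by
    have h1 : (S : Ω) = R.val S := rfl
    rw [h1]
    simp only [S, map_sum, map_mul]
    refine Finset.sum_congr rfl fun i _ => ?_
    rw [← Polynomial.aeval_algHom_apply]
    rfl
  refine ⟨hS ▸ S.2, ?_⟩
  have h2 : (⟨∑ i ∈ I, Polynomial.aeval (x 0) (f i) * (Fin.cons 1 w : Fin (n + 1) → Ω) i,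
      hS ▸ S.2⟩ : R) = S := Subtype.ext hS.symm
  rw [h2]
  simp only [S, map_sum, map_mul]
  refine Finset.sum_congr rfl fun i _ => ?_
  rw [← Polynomial.aeval_algHom_apply, hWπ i]
  congr 1
  have h3 : π X0 = algebraMap F E (c 0) := hπ0
  rw [h3, Polynomial.aeval_algebraMap_apply]

/-- the core of the case f₀ ≠ 0 -/
private theorem pag_core {L Ω E F : Type} [Field L] [CharZero L] [Field Ω] [Field E] [Field F]
    [Algebra L Ω] [Algebra L E] [Algebra L F] [Algebra F E] [IsScalarTower L F E]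
    [FiniteDimensional L F] {x : Fin (κ + 3) → Ω} (hx : ∀ j, x j ≠ 0) (σ τ : ℕ)
    (hdim : ∀ K : ℕ, FiniteDimensional L (Bm L x K) ∧
      (Module.finrank L (Bm L x K) : ℝ) ≤ σ * K + τ)
    {c : Fin (κ + 3) → F} {n : ℕ} (z : Fin (n + 1) → F) (hc : ∀ j, c j ≠ 0)
    (hz0 : z 0 = 1) (hz : ∀ i, z i ≠ 0) (R : Subalgebra L Ω) (π : R →ₐ[L] E)
    (h : IsPlc L x (fun j => algebraMap F E (c j)) R π)
    (w : Fin n → Ω) (hw : ∀ i, ∃ hR : w i ∈ R, π ⟨w i, hR⟩ = algebraMap F E (z i.succ))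
    (hgen : IntermediateField.adjoin L (Set.range c ∪ Set.range z) = ⊤)
    (hw0 : ∀ i, w i ≠ 0) (f : Fin (n + 1) → Polynomial L)
    (heq : ∑ i, Polynomial.aeval (c 0) (f i) * z i = 0)
    (a : Fin n → Fin (κ + 3) → ℤ) (b : Fin n → Fin n → ℤ) (hb : (Matrix.of b).det ≠ 0)
    (hrel : ∀ l, (∏ j, x j ^ a l j) * ∏ i, w i ^ b l i = 1) (θ : Fin n → Fin (κ + 3) → ℚ)
    (hθ : ∀ l j, tx θ (b l) j = -(a l j : ℚ)) (C : ℕ) (hC1 : 1 ≤ C)
    (hC : ∀ i, ((f i).natDegree : ℚ) + ∑ j, |(Fin.cons 0 θ : Fin (n + 1) → Fin (κ + 3) → ℚ) i j| ≤ C)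
    (hf : ∑ i, Polynomial.aeval (x 0) (f i) * (Fin.cons 1 w : Fin (n + 1) → Ω) i ≠ 0) :
    Module.finrank L F ≤ (Matrix.of b).det.natAbs * σ * C := by
  classical
  obtain ⟨hBR, K₀, hK₀⟩ := BAg_ev z hc hz0 hz R π h w hw θ hgen
  obtain ⟨hfR, hfπ⟩ := pag_sum z hz0 R π h w hw f Finset.univ
  set Δ : ℕ := (Matrix.of b).det.natAbs with hΔ
  have hD := BAg_dim hx σ τ hdim w hw0 a b hb hrel θ hθ
  let φ : F →ₗ[L] E := (IsScalarTower.toAlgHom L F E).toLinearMap
  have hφ : ∀ y, φ y = algebraMap F E y := fun y => rfl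
  have hinj : Function.Injective φ := (algebraMap F E).injective
  have h5 := dimG R π (BAg L x w θ) ((Δ : ℝ) * σ) (Δ * ((κ + 3) * σ + τ)) hBR (fun K => (hD K).1)
    (fun K => by
      refine (hD K).2.trans (le_of_eq ?_)
      ring)
    (∑ i, Polynomial.aeval (x 0) (f i) * (Fin.cons 1 w : Fin (n + 1) → Ω) i) hfR hf
    (by rw [hfπ, heq, map_zero]) C hC1
    (fun K g hg => by
      rw [Finset.sum_mul]
      refine Submodule.sum_mem _ fun i _ => ?_
      have h1 := hC i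
      revert h1
      refine Fin.cases ?_ (fun i' => ?_) i
      · intro h1
        have h2 : (f 0).natDegree ≤ C := by
          have h3 : (0 : ℚ) ≤ ∑ j, |(Fin.cons 0 θ : Fin (n + 1) → Fin (κ + 3) → ℚ) 0 j| :=
            Finset.sum_nonneg fun j _ => abs_nonneg _
          have h4 : ((f 0).natDegree : ℚ) ≤ C := by linarith
          exact_mod_cast h4
        rw [Fin.cons_zero, mul_one]
        exact BAg_mul0 hx w θ (f 0) C h2 K g hg
      · intro h1
        rw [Fin.cons_succ] at h1 ⊢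
        exact BAg_mul1 hx w hw0 θ i' (f i'.succ) C h1 K g hg)
    (LinearMap.range φ) K₀
    (fun K hK y hy => by
      obtain ⟨y', rfl⟩ := hy
      obtain ⟨g, hR, hg, he⟩ := hK₀ K hK y'
      exact ⟨g, hR, hg, he⟩)
  obtain ⟨-, h6⟩ := h5
  rw [LinearMap.finrank_range_of_inj hinj] at h6
  exact_mod_cast h6

theorem propAG {L Ω : Type} [Field L] [NumberField L] [Field Ω] [IsAlgClosed Ω] [Algebra L Ω]
    {x : Fin (κ + 3) → Ω} (hx : Crv L x) {n : ℕ} (f : Fin (n + 1) → Polynomial L)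
    (hf : ∀ i, f i ≠ 0) : ∃ C N₀ : ℕ, 0 < N₀ ∧ ∀ (F : Type) [Field F] [NumberField F]
      [Algebra L F] (c : Fin (κ + 3) → F) (z : Fin (n + 1) → F), PtG L x f c z →
      IntermediateField.adjoin L (Set.range c ∪ Set.range z) = ⊤ →
      ∀ (a : Fin n → Fin (κ + 3) → ℤ) (b : Fin n → Fin n → ℤ), (∀ l, RlG c z (a l) (b l)) →
      (Matrix.of b).det ≠ 0 →
      (Module.finrank L F : ℝ) ≤ C * ∏ l, (sz (a l) (b l) : ℝ) ∨
      ∀ i, ∃ κ : Fin (κ + 3) → ℤ, (∀ j, |κ j| ≤ C) ∧ z i ^ N₀ = ∏ j, c j ^ κ j := by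
  classical
  obtain ⟨N₀, C₀, hN₀, hff⟩ := ff hx f hf
  obtain ⟨σ, hσ, τ, hdim⟩ := hil hx
  set d : ℕ := ∑ i, (f i).natDegree with hd
  set N : ℕ := n.factorial with hN
  refine ⟨max C₀ (σ * ((d + 2) * N + (κ + 3) * N)), N₀, hN₀, ?_⟩
  intro F _ _ _ c z hpt hgen a b hr hb
  obtain ⟨θ, hθ, -, hθb, hdet⟩ := lat_theta a b hb
  have hfin : FiniteDimensional L F := Module.Finite.of_restrictScalars_finite ℚ L F
  set Δ : ℕ := (Matrix.of b).det.natAbs with hΔ
  have hΔ0 : 0 < Δ := Int.natAbs_pos.mpr hb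
  let E : Type := AlgebraicClosure F
  have hcE : ∀ j, algebraMap F E (c j) ≠ 0 := fun j =>
    (map_ne_zero_iff _ (algebraMap F E).injective).mpr (hpt.ne j)
  have hzE : ∀ i, algebraMap F E (z i) ≠ 0 := fun i =>
    (map_ne_zero_iff _ (algebraMap F E).injective).mpr (hpt.hz i)
  have hon : OnC L x (fun j => algebraMap F E (c j)) := by
    intro p hp
    have h1 := hpt.on p hp
    have h2 : MvPolynomial.aeval (fun j => algebraMap F E (c j)) p =
        algebraMap F E (MvPolynomial.aeval c p) := MvPolynomial.aeval_algebraMap_apply _ _ _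
    rw [h2, h1, map_zero]
  obtain ⟨R, π, hplc⟩ := place x hx.ne (fun j => algebraMap F E (c j)) hcE hon
  have hexp := pag_exp c hpt.ne (fun i : Fin n => z i.succ) (fun i => hpt.hz _) a b hr θ hθ
  choose A hAθ hAz using hexp
  have hlift : ∀ i : Fin n, ∃ (w : Ω) (hw : w ∈ R), w ≠ 0 ∧ w ^ Δ = ∏ j, x j ^ A i j ∧
      π ⟨w, hw⟩ = algebraMap F E (z i.succ) := by
    intro i
    refine plc_lift hplc hx.ne hcE Δ hΔ0 (A i) _ ?_
    have h1 := congrArg (algebraMap F E) (hAz i)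
    rw [map_pow, map_prod] at h1
    simp only [map_zpow₀] at h1
    exact h1
  choose w hwR hw0 hwA hwπ using hlift
  have hw : ∀ i, ∃ hR : w i ∈ R, π ⟨w i, hR⟩ = algebraMap F E (z i.succ) :=
    fun i => ⟨hwR i, hwπ i⟩
  have hrel : ∀ l, (∏ j, x j ^ a l j) * ∏ i, w i ^ b l i = 1 := by
    intro l
    refine pag_rel hplc hx.ne hcE w (fun i => algebraMap F E (z i.succ))
      (fun i => hzE _) hw Δ hΔ0 A hwA (a l) (b l) ?_ ?_
    · have h1 := congrArg (algebraMap F E) (hr l)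
      rw [map_mul, map_prod, map_prod, map_one] at h1
      simp only [map_zpow₀] at h1
      exact h1
    · intro j
      have h1 := hθ l j
      unfold tx at h1
      have h2 : (∑ i, (b l i : ℚ) * (A i j : ℚ)) = -((Δ : ℚ) * a l j) := by
        rw [← mul_neg, ← h1, Finset.mul_sum]
        exact Finset.sum_congr rfl fun i _ => by rw [hAθ i j]; ring
      exact_mod_cast h2
  by_cases hf0 : ∑ i, Polynomial.aeval (x 0) (f i) * (Fin.cons 1 w : Fin (n + 1) → Ω) i = 0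
  · right
    have hnvs : NVS (fun i => Polynomial.aeval (x 0) (f i) *
        (Fin.cons 1 w : Fin (n + 1) → Ω) i) := by
      refine ⟨hf0, fun I hI hI' h0 => ?_⟩
      obtain ⟨hR, he⟩ := pag_sum z hpt.z0 R π hplc w hw f I
      have h1 : (⟨∑ i ∈ I, Polynomial.aeval (x 0) (f i) *
          (Fin.cons 1 w : Fin (n + 1) → Ω) i, hR⟩ : R) = 0 := Subtype.ext h0
      rw [h1, map_zero] at he
      exact hpt.sub I hI hI' ((map_eq_zero_iff _ (algebraMap F E).injective).mp he.symm)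
    have hDE : ∀ i : Fin (n + 1), ∃ θ, DE x θ ((Fin.cons 1 w : Fin (n + 1) → Ω) i) := by
      intro i
      refine Fin.cases ⟨0, DE_one x⟩ (fun i' => ?_) i
      exact ⟨_, DE_of_pow (hw0 i') hΔ0 (A i') (hwA i')⟩
    have hres := hff (Fin.cons 1 w) rfl hDE hnvs
    intro i
    obtain ⟨κ, hκ, he⟩ := hres i
    refine ⟨κ, fun j => (hκ j).trans (by exact_mod_cast le_max_left _ _), ?_⟩
    obtain ⟨hcR, hcπ⟩ := plc_mon hplc hcE κ
    have hW : ∃ hR : (Fin.cons 1 w : Fin (n + 1) → Ω) i ∈ R,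
        π ⟨(Fin.cons 1 w : Fin (n + 1) → Ω) i, hR⟩ = algebraMap F E (z i) := by
      refine Fin.cases ?_ (fun i' => ?_) i
      · refine ⟨?_, ?_⟩
        · rw [Fin.cons_zero]; exact R.one_mem
        · rw [hpt.z0, map_one]
          have : (⟨(Fin.cons 1 w : Fin (n + 1) → Ω) 0, by
            rw [Fin.cons_zero]; exact R.one_mem⟩ : R) = 1 := Subtype.ext (by simp)
          rw [this, map_one]
      · exact ⟨hwR i', hwπ i'⟩
    obtain ⟨hWR, hWπ⟩ := hW
    apply (algebraMap F E).injective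
    rw [map_pow, ← hWπ, ← map_pow, map_prod]
    simp only [map_zpow₀]
    rw [← hcπ]
    congr 1
    exact Subtype.ext he
  · left
    set m : ℚ := Finset.univ.sup' Finset.univ_nonempty
      (fun i : Fin (n + 1) => ∑ j, |(Fin.cons 0 θ : Fin (n + 1) → Fin (κ + 3) → ℚ) i j|) with hm
    have hm1 : ∀ i, ∑ j, |(Fin.cons 0 θ : Fin (n + 1) → Fin (κ + 3) → ℚ) i j| ≤ m := fun i =>
      Finset.le_sup' (fun i : Fin (n + 1) =>
        ∑ j, |(Fin.cons 0 θ : Fin (n + 1) → Fin (κ + 3) → ℚ) i j|) (Finset.mem_univ i)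
    have hm0 : 0 ≤ m := (Finset.sum_nonneg fun j _ => abs_nonneg _).trans (hm1 0)
    set Pr : ℕ := ∏ l, sz (a l) (b l) with hPr
    have hΔq : |((Matrix.of b).det : ℚ)| = Δ := by
      rw [hΔ, ← Int.cast_abs, Int.abs_eq_natAbs]
      simp
    have hPrq : ∏ l, (sz (a l) (b l) : ℚ) = Pr := by
      rw [hPr]; push_cast; rfl
    have hm2 : (Δ : ℚ) * m ≤ (κ + 3) * N * Pr := by
      obtain ⟨i, -, hi⟩ := Finset.exists_mem_eq_sup' Finset.univ_nonempty
        (fun i : Fin (n + 1) => ∑ j, |(Fin.cons 0 θ : Fin (n + 1) → Fin (κ + 3) → ℚ) i j|)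
      rw [hm, hi, Finset.mul_sum]
      have hpos : (0 : ℚ) ≤ N * Pr := by positivity
      have h3 : ∀ j : Fin (κ + 3), (Δ : ℚ) * |(Fin.cons 0 θ : Fin (n + 1) → Fin (κ + 3) → ℚ) i j| ≤
          N * Pr := by
        intro j
        refine Fin.cases ?_ (fun i' => ?_) i
        · simpa using hpos
        · have := hθb i' j
          rw [hΔq, hPrq] at this
          simpa using this
      calc ∑ j, (Δ : ℚ) * |(Fin.cons 0 θ : Fin (n + 1) → Fin (κ + 3) → ℚ) i j|
          ≤ ∑ _j : Fin (κ + 3), (N * Pr : ℚ) := Finset.sum_le_sum fun j _ => h3 j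
        _ = (κ + 3) * N * Pr := by simp; ring
    set C : ℕ := d + ⌈m⌉₊ + 1 with hC
    have hcore := pag_core hx.ne σ τ hdim z hpt.ne hpt.z0 hpt.hz R π hplc w hw hgen hw0 f
      hpt.eq a b hb hrel θ hθ C (by omega) (fun i => by
      have h1 : (f i).natDegree ≤ d := Finset.single_le_sum (f := fun i => (f i).natDegree)
        (fun _ _ => Nat.zero_le _) (Finset.mem_univ i)
      have h2 : ((f i).natDegree : ℚ) ≤ d := by exact_mod_cast h1
      have h3 := hm1 i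
      have h4 : m ≤ ⌈m⌉₊ := Nat.le_ceil m
      rw [hC]
      push_cast
      linarith) hf0
    have hΔPr : (Δ : ℚ) ≤ N * Pr := by
      have := hdet
      rw [hPrq] at this
      exact this
    have hfinal : (Module.finrank L F : ℚ) ≤ (σ * ((d + 2) * N + (κ + 3) * N) : ℕ) * Pr := by
      have h1 : (Module.finrank L F : ℚ) ≤ Δ * σ * C := by exact_mod_cast hcore
      have h2 : (C : ℚ) ≤ d + m + 2 := by
        have := (Nat.ceil_lt_add_one hm0).le
        rw [hC]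
        push_cast
        linarith
      have hΔ0' : (0 : ℚ) ≤ Δ := Nat.cast_nonneg _
      have h3 : (Δ : ℚ) * C ≤ Δ * (d + 2) + Δ * m := by
        calc (Δ : ℚ) * C ≤ Δ * (d + m + 2) := mul_le_mul_of_nonneg_left h2 hΔ0'
          _ = _ := by ring
      have h4 : (Δ : ℚ) * (d + 2) ≤ (N * Pr) * (d + 2) :=
        mul_le_mul_of_nonneg_right hΔPr (by positivity)
      have h5 : (Δ : ℚ) * C ≤ ((d + 2) * N + (κ + 3) * N) * Pr := by nlinarith [h3, h4, hm2]
      calc (Module.finrank L F : ℚ) ≤ Δ * σ * C := h1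
        _ = σ * (Δ * C) := by ring
        _ ≤ σ * (((d + 2) * N + (κ + 3) * N) * Pr) :=
          mul_le_mul_of_nonneg_left h5 (Nat.cast_nonneg _)
        _ = _ := by push_cast; ring
    have hfinal2 : Module.finrank L F ≤ (σ * ((d + 2) * N + (κ + 3) * N)) * Pr := by
      exact_mod_cast hfinal
    calc (Module.finrank L F : ℝ) ≤ ((σ * ((d + 2) * N + (κ + 3) * N)) * Pr : ℕ) := by
          exact_mod_cast hfinal2
      _ ≤ ((max C₀ (σ * ((d + 2) * N + (κ + 3) * N)) * Pr : ℕ) : ℝ) := by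
          exact_mod_cast Nat.mul_le_mul_right _ (le_max_right _ _)
      _ = _ := by rw [hPr]; push_cast; rfl

end BMK
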