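import Pool.Agent.Lib.MP_a325a5_ag.GK.Base
import Pool.Agent.Lib.MP_a325a5_ag.GK.MinG
import Pool.Agent.Lib.MP_a325a5_ag.GK.BbEvG
import Pool.Agent.Lib.MP_a325a5_ag.GK.BbNeG
import Pool.Agent.Lib.MP_a325a5_ag.S.BbDim
import Pool.Agent.Lib.MP_a325a5_ag.S.BbMul
import Pool.Agent.Lib.MP_a325a5_ag.GK.LatB
import Pool.Agent.Lib.MP_a325a5_ag.S.DimL

/-! Proposition 4.4 (Case B), assembly: as propB in S/PropB.lean.  lat_B gives w, j₀, x, R₀ and the relation a* = ∑ x_l a_l of the c_j alone; k = KF L c;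
dim_lemma with BB k z w, f = fbB f (c 0) z w, C = |w j₀|: [F : k] ≤ 2 |R₀|; minG: [k : L] ≤ σ nm a*. -/

open NumberField BMF

namespace BMK

open BMF BMS BMG

variable {κ : ℕ}

private theorem propB_zp {G : Type} [CommGroup G] (x : G) {n : ℕ} (c : Fin n → ℤ) :
    ∏ i, x ^ c i = x ^ ∑ i, c i := by
  classical
  refine Finset.induction_on Finset.univ (by simp) (fun a s ha ih => ?_)
  rw [Finset.prod_insert ha, Finset.sum_insert ha, zpow_add, ih]

private theorem propB_comb {G : Type} [CommGroup G] {n : ℕ} (c : Fin (κ + 3) → G) (w : Fin n → G)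
    (a : Fin n → Fin (κ + 3) → ℤ) (b : Fin n → Fin n → ℤ)
    (h : ∀ l, (∏ j, c j ^ a l j) * ∏ i, w i ^ b l i = 1) (x : Fin n → ℤ) :
    (∏ j, c j ^ (∑ l, x l • a l) j) * ∏ i, w i ^ (∑ l, x l • b l) i = 1 := by
  have h1 : ∀ j, c j ^ (∑ l, x l • a l) j = ∏ l, (c j ^ a l j) ^ x l := by
    intro j
    simp only [← zpow_mul]
    rw [propB_zp, Finset.sum_apply]
    congr 1
    exact Finset.sum_congr rfl fun l _ => by simp [mul_comm]
  have h2 : ∀ i, w i ^ (∑ l, x l • b l) i = ∏ l, (w i ^ b l i) ^ x l := by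
    intro i
    simp only [← zpow_mul]
    rw [propB_zp, Finset.sum_apply]
    congr 1
    exact Finset.sum_congr rfl fun l _ => by simp [mul_comm]
  simp only [h1, h2]
  rw [Finset.prod_comm, Finset.prod_comm (s := (Finset.univ : Finset (Fin n)))
    (f := fun i l => (w i ^ b l i) ^ x l), ← Finset.prod_mul_distrib]
  refine Finset.prod_eq_one fun l _ => ?_
  rw [Finset.prod_zpow, Finset.prod_zpow, ← mul_zpow, h l, one_zpow]

theorem propBG {L Ω : Type} [Field L] [NumberField L] [Field Ω] [Algebra L Ω]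
    {x : Fin (κ + 3) → Ω} (hx : Crv L x) {n : ℕ} (f : Fin (n + 1) → Polynomial L) :
    ∃ C : ℕ, ∀ (F : Type) [Field F] [NumberField F] [Algebra L F] (c : Fin (κ + 3) → F)
      (z : Fin (n + 1) → F), PtG L x f c z →
      IntermediateField.adjoin L (Set.range c ∪ Set.range z) = ⊤ →
      ∀ (a : Fin n → Fin (κ + 3) → ℤ) (b : Fin n → Fin n → ℤ), (∀ l, RlG c z (a l) (b l)) →
      LinearIndependent ℤ (fun l => (Sum.elim (a l) (b l) : Fin (κ + 3) ⊕ Fin n → ℤ)) →
      (Matrix.of b).det = 0 →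
      (Module.finrank L F : ℝ) ≤ C * ∏ l, (sz (a l) (b l) : ℝ) := by
  classical
  obtain ⟨σ, hσ1, hσ⟩ := minG hx
  refine ⟨2 * (κ + 3) * σ * n.factorial, ?_⟩
  intro F _ _ _ c z hpt hgen a b hr hind hb
  have hfin : FiniteDimensional L F := Module.Finite.of_restrictScalars_finite ℚ L F
  have hcc : ∀ j, c j ≠ 0 := hpt.ne
  -- combinations of the relations without `z`
  have hcomb : ∀ y : Fin n → ℤ, ∑ l, y l • b l = 0 →
      ∏ j, c j ^ (∑ l, y l • a l) j = 1 := by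
    intro y hy
    let c' : Fin (κ + 3) → Fˣ := fun j => Units.mk0 _ (hcc j)
    let w : Fin n → Fˣ := fun i => Units.mk0 _ (hpt.hz i.succ)
    have h1 : ∀ l, (∏ j, c' j ^ a l j) * ∏ i, w i ^ b l i = 1 := by
      intro l
      apply Units.ext
      simp only [Units.val_mul, Units.coe_prod, Units.val_zpow_eq_zpow_val, Units.val_one]
      exact hr l
    have h2 := propB_comb c' w a b h1 y
    have h3 : ∏ i, w i ^ (∑ l, y l • b l) i = 1 := by
      rw [hy]
      simp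
    rw [h3, mul_one] at h2
    have h4 := congrArg (fun u : Fˣ => (u : F)) h2
    simp only [Units.coe_prod, Units.val_zpow_eq_zpow_val, Units.val_one] at h4
    exact h4
  obtain ⟨w, j₀, y, R, hw0, hwm, hwb, hxb, hxa, hR, hbound⟩ := lat_B a b hind hb
    (fun y y' hy hy' => hpt.two _ _ (hcomb y hy) (hcomb y' hy'))
  set A : Fin (κ + 3) → ℤ := ∑ l, y l • a l with hA
  have hdegt := hσ F c hpt.ne hpt.on A hxa (hcomb y hxb)
  set k := KF L c with hk
  have hcck : ∀ j, c j ∈ k := fun j => IntermediateField.subset_adjoin L _ ⟨j, rfl⟩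
  have haev : ∀ p : Polynomial L, ∃ e : k, algebraMap k F e = Polynomial.aeval (c 0) p := by
    intro p
    exact ⟨Polynomial.aeval (⟨c 0, hcck 0⟩ : k) p,
      (Polynomial.aeval_algebraMap_apply F (⟨c 0, hcck 0⟩ : k) p).symm⟩
  have hzk : ∀ l, ∃ e : k, algebraMap k F e = ∏ i : Fin n, z i.succ ^ b l i := by
    intro l
    have h1 : ∏ i : Fin n, z i.succ ^ b l i = ∏ j, c j ^ (-(a l j)) := by
      have h2 := hr l
      unfold RlG at h2
      have h3 : (∏ j, c j ^ (-(a l j))) * ∏ j, c j ^ a l j = 1 := by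
        rw [← Finset.prod_mul_distrib]
        refine Finset.prod_eq_one fun j _ => ?_
        rw [← zpow_add₀ (hcc j), neg_add_cancel, zpow_zero]
      calc ∏ i : Fin n, z i.succ ^ b l i
          = ((∏ j, c j ^ (-(a l j))) * ∏ j, c j ^ a l j) *
              ∏ i : Fin n, z i.succ ^ b l i := by rw [h3, one_mul]
        _ = (∏ j, c j ^ (-(a l j))) * ((∏ j, c j ^ a l j) *
              ∏ i : Fin n, z i.succ ^ b l i) := by ring
        _ = _ := by rw [h2, mul_one]
    refine ⟨⟨∏ i : Fin n, z i.succ ^ b l i, ?_⟩, rfl⟩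
    rw [h1]
    exact prod_mem fun j _ => zpow_mem (hcck j) _
  obtain ⟨τ, hτ⟩ := BB_dim k z hpt.hz w j₀ hw0 b hwb hzk R hR
  have hev := BB_evG c z hpt.z0 w hgen
  obtain ⟨K₀, hK₀⟩ := hev
  have hw : w ≠ 0 := fun h => hw0 (by rw [h]; rfl)
  have hw1 : 1 ≤ (w j₀).natAbs := Int.natAbs_pos.mpr hw0
  have hwC : ∀ i, |w i| ≤ ((w j₀).natAbs : ℤ) := by
    intro i
    rw [← Int.abs_eq_natAbs]
    exact hwm i
  have hf0 : PowerSeries.constantCoeff (fbB f (c 0) z w) = 0 := by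
    rw [fbB_const]
    exact hpt.eq
  obtain ⟨-, hdim⟩ := dim_lemma (k := k) (fun K => BB k z w K) (2 * R.card / |(w j₀ : ℝ)|) τ
    (fun K => (hτ K).1) (fun K => (hτ K).2) (fbB f (c 0) z w) (fbB_neG f c z hpt w hw) hf0
    (w j₀).natAbs hw1
    (fun K g hg => fbB_mul f (c 0) z hpt.z0 hpt.hz w k (fun i => haev (f i)) _ hwC K g hg) ⊤ K₀
    (fun K hK x _ => hK₀ K hK x)
  rw [finrank_top] at hdim
  have hwabs : ((w j₀).natAbs : ℝ) = |(w j₀ : ℝ)| := by
    rw [Nat.cast_natAbs, Int.cast_abs]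
  have hwpos : 0 < |(w j₀ : ℝ)| := abs_pos.mpr (by exact_mod_cast hw0)
  rw [hwabs, div_mul_cancel₀ _ hwpos.ne'] at hdim
  have htow : (Module.finrank L F : ℝ) = (Module.finrank L k : ℝ) * Module.finrank k F := by
    exact_mod_cast (Module.finrank_mul_finrank L k F).symm
  have hA1 : (Module.finrank L k : ℝ) ≤ σ * ((∑ j, |A j| : ℤ) : ℝ) := by
    have h1 : ((nm A : ℕ) : ℤ) = ∑ j, |A j| := by
      unfold nm
      push_cast
      rfl
    have h2 : (Module.finrank L k : ℤ) ≤ σ * ∑ j, |A j| := by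
      rw [← h1]
      exact_mod_cast hdegt
    exact_mod_cast h2
  rw [htow]
  calc (Module.finrank L k : ℝ) * Module.finrank k F
      ≤ (σ * ((∑ j, |A j| : ℤ) : ℝ)) * (2 * R.card) := by
        refine mul_le_mul hA1 hdim (Nat.cast_nonneg _) ((Nat.cast_nonneg _).trans hA1)
    _ = 2 * σ * (((∑ j, |A j| : ℤ) : ℝ) * R.card) := by ring
    _ ≤ 2 * σ * ((κ + 3) * (n.factorial : ℝ) * ∏ l, (sz (a l) (b l) : ℝ)) :=
        mul_le_mul_of_nonneg_left hbound (by positivity)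
    _ = _ := by push_cast; ring

end BMK
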