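import Pool.Agent.Lib.MP_a325a5_ag.GK.Base
import Pool.Agent.Lib.MP_a325a5_ag.UL.MRa
import Pool.Agent.Lib.MP_a325a5_ag.UL.MRb

/-! A group of rank at most two generated by three elements and further elements.

Proof.  Compare `cases5` of `F/Cases.lean`.  The relation: otherwise `mr c = 3`
(`mr_eq_card_iff`, `mr_le_of_pow_mem`).  `mr_spec` for `c`: a set `I` of indices with `mr c` elements, the
`c j`, `j ∈ I`, are independent, and a power of every `c j` is a product of powers of these.  If `I` has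
at most one element, take two indices outside `I`: two independent relations.  If `I` has two elements
then for every `i` the three elements `c j`, `j ∈ I`, and `z i` are dependent (`mr ≤ 2`), and the
exponent of `z i` is not zero. -/

namespace BMK

open BMF BMS BMG

variable {κ : ℕ}

open Pool.Agent.Lib.MP_a325a5_ag.UL

private theorem hc_prod {K : Type} [Field K] (c : Fin (κ + 3) → Kˣ) (I : Finset (Fin (κ + 3)))
    (f : I → ℤ) : ∃ b : Fin (κ + 3) → ℤ, (∀ j : I, b j = f j) ∧ ∏ j, c j ^ b j = ∏ j : I, c j ^ f j := by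
  classical
  refine ⟨fun j => if h : j ∈ I then f ⟨j, h⟩ else 0, fun j => ?_, ?_⟩
  · show (if h : (j : Fin (κ + 3)) ∈ I then f ⟨j, h⟩ else 0) = f j
    rw [dif_pos j.2]
  · have h1 : ∏ j : I, c j ^ f j =
        ∏ j : I, (fun j : Fin (κ + 3) => c j ^ (if h : j ∈ I then f ⟨j, h⟩ else 0)) j := by
      refine Finset.prod_congr rfl fun j _ => ?_
      show c j ^ f j = c j ^ (if h : (j : Fin (κ + 3)) ∈ I then f ⟨j, h⟩ else 0)
      rw [dif_pos j.2]
    rw [h1, Finset.prod_coe_sort I
      (fun j : Fin (κ + 3) => c j ^ (if h : j ∈ I then f ⟨j, h⟩ else 0))]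
    symm
    refine Finset.prod_subset (Finset.subset_univ I) fun j _ hj => ?_
    rw [dif_neg hj, zpow_zero]

private theorem hc_rel {K : Type} [Field K] (c : Fin (κ + 3) → Kˣ) (i : Fin (κ + 3)) (N : ℕ) (a : Fin (κ + 3) → ℤ)
    (h : c i ^ N = ∏ j, c j ^ a j) :
    ∏ j, c j ^ ((if j = i then (N : ℤ) else 0) - a j) = 1 := by
  simp_rw [zpow_sub]
  rw [Finset.prod_mul_distrib, Finset.prod_inv_distrib, ← h]
  have h1 : ∏ j, c j ^ (if j = i then (N : ℤ) else 0) = c i ^ N := by
    rw [Finset.prod_eq_single i]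
    · rw [if_pos rfl, zpow_natCast]
    · intro j _ hj
      rw [if_neg hj, zpow_zero]
    · intro hi
      exact absurd (Finset.mem_univ i) hi
  rw [h1, mul_inv_cancel]

theorem cases_hull {K : Type} [Field K] {ι : Type} [Fintype ι] (c : Fin (κ + 3) → Kˣ) (z : ι → Kˣ)
    (h : mr (Sum.elim c z) ≤ κ + 2) :
    (∃ a : Fin (κ + 3) → ℤ, a ≠ 0 ∧ ∏ j, c j ^ a j = 1) ∧
      ((∃ a b : Fin (κ + 3) → ℤ, LinearIndependent ℤ ![a, b] ∧ ∏ j, c j ^ a j = 1 ∧
          ∏ j, c j ^ b j = 1) ∨
        ∀ i, ∃ N : ℕ, 0 < N ∧ ∃ a : Fin (κ + 3) → ℤ, z i ^ N = ∏ j, c j ^ a j) := by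
  have hcz : mr c ≤ κ + 2 := by
    refine (mr_le_of_pow_mem (Sum.elim c z) c fun j => ⟨1, one_pos, ?_⟩).trans h
    rw [pow_one]
    exact Subgroup.subset_closure ⟨.inl j, rfl⟩
  constructor
  · by_contra hn
    push Not at hn
    have h1 : mr c = Fintype.card (Fin (κ + 3)) := by
      rw [mr_eq_card_iff]
      intro a ha
      by_contra h0
      exact hn a h0 ha
    rw [Fintype.card_fin] at h1
    omega
  · obtain ⟨I, hI, hI2, hI3⟩ := mr_spec c
    have hIc : I.card ≤ κ + 2 := by omega
    rcases Nat.lt_or_ge I.card (κ + 2) with h2 | h2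
    · left
      obtain ⟨i, hi, i', hi', hne⟩ : ∃ i ∈ Iᶜ, ∃ i' ∈ Iᶜ, i ≠ i' := by
        have h3 : 1 < (Iᶜ : Finset (Fin (κ + 3))).card := by
          rw [Finset.card_compl, Fintype.card_fin]
          omega
        exact Finset.one_lt_card.mp h3
      rw [Finset.mem_compl] at hi hi'
      obtain ⟨N, a, hN, ha, hNa⟩ := hI3 i
      obtain ⟨N', a', hN', ha', hNa'⟩ := hI3 i'
      refine ⟨fun j => (if j = i then (N : ℤ) else 0) - a j,
        fun j => (if j = i' then (N' : ℤ) else 0) - a' j, ?_, hc_rel c i N a hNa,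
        hc_rel c i' N' a' hNa'⟩
      rw [LinearIndependent.pair_iff]
      intro s t hst
      have e1 := congrFun hst i
      have e2 := congrFun hst i'
      simp only [Pi.add_apply, Pi.smul_apply, smul_eq_mul, Pi.zero_apply, if_pos, if_neg hne,
        if_neg hne.symm, ha i hi, ha i' hi', ha' i hi, ha' i' hi', sub_zero, mul_zero,
        add_zero, zero_add] at e1 e2
      have hN0 : (N : ℤ) ≠ 0 := by exact_mod_cast hN.ne'
      have hN0' : (N' : ℤ) ≠ 0 := by exact_mod_cast hN'.ne'
      exact ⟨(mul_eq_zero.mp e1).resolve_right hN0, (mul_eq_zero.mp e2).resolve_right hN0'⟩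
    · right
      intro i
      have hI4 : I.card = κ + 2 := le_antisymm hIc h2
      set q : I ⊕ Unit → Kˣ := Sum.elim (fun j : I => c j) (fun _ => z i) with hq
      have h3 : mr q ≤ κ + 2 := by
        refine (mr_le_of_pow_mem (Sum.elim c z) q fun j => ⟨1, one_pos, ?_⟩).trans h
        rw [pow_one]
        rcases j with j | j
        · exact Subgroup.subset_closure ⟨.inl j, rfl⟩
        · exact Subgroup.subset_closure ⟨.inr i, rfl⟩
      have h4 : ¬ (mr q = Fintype.card (I ⊕ Unit)) := by
        rw [Fintype.card_sum, Fintype.card_coe, Fintype.card_unit, hI4]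
        omega
      rw [mr_eq_card_iff] at h4
      push Not at h4
      obtain ⟨a, ha1, ha0⟩ := h4
      rw [Fintype.prod_sum_type] at ha1
      simp only [hq, Sum.elim_inl, Sum.elim_inr, Finset.univ_unique, Finset.prod_singleton] at ha1
      have hn0 : a (.inr ()) ≠ 0 := by
        intro h0
        apply ha0
        have h5 : ∏ j : I, c j ^ a (.inl j) = 1 := by
          rw [show a (.inr default) = 0 from h0, zpow_zero, mul_one] at ha1
          exact ha1
        have h6 := (mr_eq_card_iff (fun j : I => c j)).mp (by rw [hI2, Fintype.card_coe])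
          (fun j => a (.inl j)) h5
        funext j
        rcases j with j | j
        · exact congrFun h6 j
        · exact h0
      have ha2 : z i ^ a (.inr ()) = ∏ j : I, c j ^ (- a (.inl j)) := by
        simp_rw [zpow_neg]
        rw [Finset.prod_inv_distrib]
        exact eq_inv_of_mul_eq_one_right ha1
      rcases lt_trichotomy (a (.inr ())) 0 with hneg | hz | hpos
      · obtain ⟨b, _, hb⟩ := hc_prod c I (fun j => a (.inl j))
        refine ⟨(a (.inr ())).natAbs, Int.natAbs_pos.mpr hn0, b, ?_⟩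
        rw [hb, ← zpow_natCast, Int.ofNat_natAbs_of_nonpos hneg.le, zpow_neg, ha2,
          ← Finset.prod_inv_distrib]
        refine Finset.prod_congr rfl fun j _ => ?_
        rw [zpow_neg, inv_inv]
      · exact absurd hz hn0
      · obtain ⟨b, _, hb⟩ := hc_prod c I (fun j => - a (.inl j))
        refine ⟨(a (.inr ())).natAbs, Int.natAbs_pos.mpr hn0, b, ?_⟩
        rw [hb, ← zpow_natCast, Int.natAbs_of_nonneg hpos.le, ha2]

end BMK
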