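import Pool.Agent.Lib.MP_a325a5_ag.GK.Base
import Pool.Agent.Lib.MP_a325a5_ag.GK.ClusG
import Pool.Agent.Lib.MP_a325a5_ag.F2.HGap
import Pool.Agent.Lib.MP_a325a5_ag.GK.HWv
import Pool.Agent.Lib.MP_a325a5_ag.GK.HCases
import Pool.Agent.Lib.MP_a325a5_ag.F2.Hbd2

/-! Proposition 6.4: as hbd2 in F2/Hbd2.lean (read it first), with clusG instead of clus_gen and h52 for the heights of the c j.  cases_hull, gap, Wv,
Galois closure, invariance of heights and of the degree of minpoly under extension of the field. -/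

open NumberField BMF BMS Pool.Agent.Lib.MP_a325a5_ag.UL

namespace BMK

open BMF BMS BMG

variable {κ : ℕ}

private theorem hbdg_prod {F : Type} [Field F] [NumberField F] (c : Fin (κ + 3) → Fˣ) (a : Fin (κ + 3) → ℤ)
    (v : Pl F) : lg v ((∏ j, c j ^ a j : Fˣ) : F) = ∑ j, (a j : ℝ) * lg v (c j : F) := by
  have h : ∀ s : Finset (Fin (κ + 3)), lg v ((∏ j ∈ s, c j ^ a j : Fˣ) : F) =
      ∑ j ∈ s, (a j : ℝ) * lg v (c j : F) := by
    intro s
    induction s using Finset.induction_on with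
    | empty => simp [lg_one]
    | insert i s hi ih =>
      rw [Finset.prod_insert hi, Finset.sum_insert hi, Units.val_mul,
        lg_mul v (Units.ne_zero _) (Units.ne_zero _), ih, Units.val_zpow_eq_zpow_val, lg_zpow]
  exact h Finset.univ

private theorem hbdg_W {F : Type} [Field F] [NumberField F] (c : Fin (κ + 3) → Fˣ) (r : Fin (κ + 3) → ℤ)
    (hrel : ∏ j, c j ^ r j = 1) (z : Fˣ) (N : ℕ) (hN : 0 < N) (a : Fin (κ + 3) → ℤ)
    (h : z ^ N = ∏ j, c j ^ a j) (v : Pl F) :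
    lg v (z : F) = ∑ j, Wv r N a j * lg v (c j : F) := by
  refine Wv_eq r N hN a (fun j => lg v (c j : F)) _ ?_ ?_
  · rw [← hbdg_prod c r v, hrel, Units.val_one, lg_one]
  · rw [← hbdg_prod c a v, ← h, Units.val_pow_eq_pow_val, lg_pow]

theorem hbdG {L Ω : Type} [Field L] [NumberField L] [Field Ω] [Algebra L Ω] {x : Fin (κ + 3) → Ω}
    (hx : Crv L x) (τ : L →+* ℂ) (hNA : NAc L x τ) (n : ℕ)
    (f : Fin (n + 1) → Polynomial L) :
    ∃ B : ℝ, ∃ D₁ : ℕ, ∀ (K : Type) [Field K] [NumberField K] [Algebra L K]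
      (c : Fin (κ + 3) → Kˣ) (z : Fin (n + 1) → Kˣ), OnC L x (fun j => (c j : K)) →
      NVS (fun i => Polynomial.aeval (c 0 : K) (f i) * (z i : K)) → mr (Sum.elim c z) ≤ κ + 2 →
      (∃ a : Fin (κ + 3) → ℤ, a ≠ 0 ∧ ∏ j, c j ^ a j = 1) ∧ (∀ j, ht (c j : K) ≤ B) ∧
        ((∀ i, ht ((z i : K) / z 0) ≤ B) ∨ (minpoly L (c 0 : K)).natDegree ≤ D₁ ∨
          ∃ a b : Fin (κ + 3) → ℤ, LinearIndependent ℤ ![a, b] ∧ ∏ j, c j ^ a j = 1 ∧
            ∏ j, c j ^ b j = 1) := by
  classical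
  obtain ⟨H, hH0, hH⟩ := h52 hx
  obtain ⟨Φ, hΦ, D₁, hD⟩ := clusG hx τ hNA n f
  obtain ⟨R, hR1, hR⟩ := gap Φ hΦ ((n + 1) * (n + 1))
  refine ⟨max H ((κ + 3) * R * H), D₁, ?_⟩
  intro K _ _ _ c z hon hnvs hmr
  obtain ⟨⟨r, hr, hrel⟩, hcase⟩ := cases_hull c z hmr
  have hrel' : ∏ j, (c j : K) ^ r j = 1 := by
    have h5 := congrArg (fun u : Kˣ => (u : K)) hrel
    simp only [Units.coe_prod, Units.val_zpow_eq_zpow_val, Units.val_one] at h5
    exact h5
  have hcH : ∀ j, ht (c j : K) ≤ H :=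
    hH K (fun j => (c j : K)) (fun j => (c j).ne_zero) hon r hr hrel'
  refine ⟨⟨r, hr, hrel⟩, fun j => (hcH j).trans (le_max_left _ _), ?_⟩
  rcases hcase with htwo | hz
  · exact Or.inr (Or.inr htwo)
  choose N hN a ha using hz
  set W : Fin (n + 1) → Fin (κ + 3) → ℝ := fun i => Wv r (N i) (a i) with hW
  obtain ⟨ρ, hρ1, hρR, hρ⟩ := hR
    ((Finset.univ : Finset (Fin (n + 1) × Fin (n + 1))).image fun p => ‖W p.1 - W p.2‖) (by
      refine Finset.card_image_le.trans ?_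
      rw [Finset.card_univ, Fintype.card_prod, Fintype.card_fin])
  have hgap : ∀ i j, ‖W i - W j‖ ≤ ρ ∨ Φ ρ < ‖W i - W j‖ := fun i j =>
    hρ _ (Finset.mem_image.2 ⟨(i, j), Finset.mem_univ _, rfl⟩)
  by_cases hall : ∀ i j, ‖W i - W j‖ ≤ ρ
  · left
    intro i
    have h2 := ht_of_lg (z i / z 0) c (W i - W 0) H hcH (by
      intro v
      rw [Units.val_div_eq_div_val, lg_div v (z i).ne_zero (z 0).ne_zero,
        hbdg_W c r hrel (z i) (N i) (hN i) (a i) (ha i) v,
        hbdg_W c r hrel (z 0) (N 0) (hN 0) (a 0) (ha 0) v, ← Finset.sum_sub_distrib]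
      exact Finset.sum_congr rfl fun j _ => by simp only [Pi.sub_apply, hW]; ring)
    rw [Units.val_div_eq_div_val] at h2
    refine h2.trans (le_trans ?_ (le_max_right _ _))
    exact mul_le_mul_of_nonneg_right
      (mul_le_mul_of_nonneg_left ((hall i 0).trans hρR) (by positivity)) hH0
  · right
    left
    push Not at hall
    obtain ⟨F, iF, iNF, iA, iG, ⟨φ⟩⟩ := exists_galois L K
    have hφ : Function.Injective φ := φ.toRingHom.injective
    rw [← minpoly.algHom_eq φ hφ (c 0 : K)]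
    set m : Kˣ →* Fˣ := Units.map ((φ : K →+* F) : K →* F) with hm
    have hmv : ∀ x : Kˣ, ((m x : Fˣ) : F) = φ x := fun x => rfl
    have hrelF : ∏ j, (m (c j)) ^ r j = 1 := by
      have h2 := congrArg m hrel
      rw [map_prod, map_one] at h2
      rw [← h2]
      exact Finset.prod_congr rfl fun j _ => (map_zpow m _ _).symm
    refine hD F (fun j => m (c j)) (fun i => m (z i)) (onC_map hon φ) ?_ r hr hrelF W ?_ ?_ ρ
      hρ1 hgap hall
    · have e1 : ∀ i, Polynomial.aeval ((m (c 0) : Fˣ) : F) (f i) * ((m (z i) : Fˣ) : F) =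
          φ (Polynomial.aeval (c 0 : K) (f i) * (z i : K)) := by
        intro i
        rw [hmv, hmv, Polynomial.aeval_algHom_apply, map_mul]
      constructor
      · simp only [e1]
        rw [← map_sum, hnvs.1, map_zero]
      · intro I hI1 hI2
        simp only [e1]
        rw [← map_sum]
        intro h0
        exact hnvs.2 I hI1 hI2 (hφ (by rw [h0, map_zero]))
    · exact fun i => Wv_perp r hr (N i) (hN i) (a i)
    · intro v i
      refine hbdg_W (fun j => m (c j)) r hrelF (m (z i)) (N i) (hN i) (a i) ?_ v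
      rw [← map_pow, ha i, map_prod]
      exact Finset.prod_congr rfl fun j _ => map_zpow m _ _

end BMK
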