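import Pool.Agent.Lib.MP_a325a5_ag.GK.Base
import Pool.Agent.Lib.MP_a325a5_ag.GK.CDef
import Pool.Agent.Lib.MP_a325a5_ag.UL.KD
import Pool.Agent.Lib.MP_a325a5_ag.UL.LocSet

/-! The generic point of a curve over the algebraic numbers.

Proof.  `K` = the algebraic numbers.  `exists_generic C hC`: a field `L'` over `K` and `γ : Fin (κ + 3) → L'ˣ` with
`locus K γ = vanIdeal C`.  `krullDim_locus` and `zdim C = 1`: `td K γ = 1`.  Monomials: for `a ≠ 0` the element
`∏ γ j ^ a j` is transcendental over `K`: otherwise (`K` algebraically closed) it is a constant `ζ ≠ 0`, so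
`∏ X j ^ (a j)⁺ - C ζ * ∏ X j ^ (a j)⁻` is in `locus K γ = vanIdeal C`, so `∏ x j ^ a j = ζ` on `C`, against `hcos`.
In particular `γ 0` is transcendental, and as `td K γ = 1` all `γ j` are algebraic over `K(γ 0)`.
Let `Ω' = AlgebraicClosure L'`, `F = IntermediateField.adjoin K {γ 0}` in `Ω'`, and `Ω = algebraicClosure F Ω'` (an
intermediate field of `Ω' / F`; algebraically closed: `IsAlgClosure`), `x j = γ j ∈ Ω`.  The injection `Ω → Ω'` gives
`aeval x p = 0 ↔ p ∈ vanIdeal C` and the transcendence; `alg`: `y ∈ Ω` is algebraic over `K(γ 0) ⊆ Ω'`, transport to the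
isomorphic field `IntermediateField.adjoin K {x 0}` in `Ω`. -/

namespace BMK

open BMF BMS BMG

variable {κ : ℕ}

open MvPolynomial Pool.Agent.Lib.MP_a325a5_ag.UL

private theorem gq_mem_range {K L : Type} [Field K] [IsAlgClosed K] [Field L] [Algebra K L] {y : L}
    (h : IsAlgebraic K y) : ∃ ζ : K, algebraMap K L ζ = y := by
  have h1 := h.isIntegral
  have h2 : (minpoly K y).degree = 1 :=
    IsAlgClosed.degree_eq_one_of_irreducible K (minpoly.irreducible h1)
  exact minpoly.mem_range_of_degree_eq_one K y h2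

private theorem gq_zpow {F : Type} [Field F] (y : Fin (κ + 3) → F) (hy : ∀ j, y j ≠ 0)
    (a : Fin (κ + 3) → ℤ) : (∏ j, y j ^ a j) * ∏ j, y j ^ (-a j).toNat = ∏ j, y j ^ (a j).toNat := by
  rw [← Finset.prod_mul_distrib]
  refine Finset.prod_congr rfl fun j _ => ?_
  rw [← zpow_natCast, ← zpow_natCast, ← zpow_add₀ (hy j)]
  congr 1
  have := Int.toNat_sub_toNat_neg (a j)
  omega

private theorem gq_tr {K L' : Type} [Field K] [IsAlgClosed K] [Field L'] [Algebra K L']
    (γ : Fin (κ + 3) → L'ˣ) (C : Set (Fin (κ + 3) → Kˣ)) (hγ : locus K γ = vanIdeal C)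
    (hcos : ∀ a : Fin (κ + 3) → ℤ, a ≠ 0 → ∀ ζ : Kˣ, ¬ ∀ x ∈ C, ∏ j, x j ^ a j = ζ)
    (a : Fin (κ + 3) → ℤ) (ha : a ≠ 0) : Transcendental K (∏ j, (γ j : L') ^ a j) := by
  intro halg
  obtain ⟨ζ, hζ⟩ := gq_mem_range halg
  have hne : ∏ j, (γ j : L') ^ a j ≠ 0 :=
    Finset.prod_ne_zero_iff.2 fun j _ => zpow_ne_zero _ (γ j).ne_zero
  have hζ0 : ζ ≠ 0 := by
    rintro rfl
    rw [map_zero] at hζ
    exact hne hζ.symm
  have hP : (∏ j, (X j : MvPolynomial (Fin (κ + 3)) K) ^ (a j).toNat) -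
      MvPolynomial.C ζ * ∏ j, (X j : MvPolynomial (Fin (κ + 3)) K) ^ (-a j).toNat ∈ vanIdeal C := by
    rw [← hγ, mem_locus, map_sub, map_mul, map_prod, map_prod, aeval_C]
    simp only [map_pow, aeval_X]
    rw [hζ, gq_zpow _ (fun j => (γ j).ne_zero) a, sub_self]
  refine hcos a ha (Units.mk0 ζ hζ0) fun x hx => ?_
  have h1 := (mem_vanIdeal.1 hP) x hx
  rw [map_sub, map_mul, map_prod, map_prod, eval_C] at h1
  simp only [map_pow, eval_X] at h1
  rw [← gq_zpow (fun j => ((x j : Kˣ) : K)) (fun j => (x j).ne_zero) a, ← sub_mul] at h1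
  have h2 : ∏ j, ((x j : Kˣ) : K) ^ (-a j).toNat ≠ 0 :=
    Finset.prod_ne_zero_iff.2 fun j _ => pow_ne_zero _ (x j).ne_zero
  have h3 := (mul_eq_zero.1 h1).resolve_right h2
  apply Units.ext
  rw [Units.val_mk0, Units.coe_prod]
  simp only [Units.val_zpow_eq_zpow_val]
  exact sub_eq_zero.1 h3

private theorem gq_alg {K L' : Type} [Field K] [Field L'] [Algebra K L']
    (γ : Fin (κ + 3) → L'ˣ) (htd : td K γ = 1) (h0 : Transcendental K (γ 0 : L')) (j : Fin (κ + 3)) :
    IsAlgebraic (Algebra.adjoin K {(γ 0 : L')}) (γ j : L') := by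
  have h1 : AlgebraicIndependent K (fun _ : Unit => (γ 0 : L')) :=
    algebraicIndependent_unique_type_iff.2 h0
  by_contra hj
  have hr : Set.range (fun _ : Unit => (γ 0 : L')) = {(γ 0 : L')} := by
    ext z
    simp
  have h2 : AlgebraicIndependent K
      (fun o : Option Unit => o.elim (γ j : L') (fun _ : Unit => (γ 0 : L'))) := by
    rw [h1.option_iff_transcendental, hr]
    exact hj
  have h3 := le_td γ _ h2 (fun o => by
    have hmem : ∀ i, ((γ i : L'ˣ) : L') ∈ Algebra.adjoin K (Set.range fun i => (γ i : L')) :=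
      fun i => Algebra.subset_adjoin ⟨i, rfl⟩
    have halg : ∀ i, IsAlgebraic (Algebra.adjoin K (Set.range fun i => (γ i : L'))) (γ i : L') :=
      fun i => isAlgebraic_algebraMap (⟨_, hmem i⟩ : Algebra.adjoin K (Set.range fun i => (γ i : L')))
    cases o with
    | none => exact halg j
    | some _ => exact halg 0)
  rw [htd] at h3
  simp at h3

private theorem gq_main {K : Type} [Field K] [IsAlgClosed K] (C : Set (Fin (κ + 3) → Kˣ))
    (hcos : ∀ a : Fin (κ + 3) → ℤ, a ≠ 0 → ∀ ζ : Kˣ, ¬ ∀ x ∈ C, ∏ j, x j ^ a j = ζ)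
    {Ω' : Type} [Field Ω'] [IsAlgClosed Ω'] [Algebra K Ω'] (γ : Fin (κ + 3) → Ω'ˣ)
    (hγ : locus K γ = vanIdeal C) (htd : td K γ = 1) :
    ∃ (Ω : Type) (_ : Field Ω) (_ : IsAlgClosed Ω) (_ : Algebra K Ω)
      (x : Fin (κ + 3) → Ω), Crv K x ∧
        ∀ p : MvPolynomial (Fin (κ + 3)) K, aeval x p = 0 ↔ p ∈ vanIdeal C := by
  have htr := gq_tr γ C hγ hcos
  have h0 : Transcendental K (γ 0 : Ω') := by
    have h := htr (Pi.single 0 1) (by
      intro h
      have := congrFun h 0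
      simp at this)
    have h1 : ∏ j, (γ j : Ω') ^ (Pi.single 0 1 : Fin (κ + 3) → ℤ) j = γ 0 := by
      rw [Finset.prod_eq_single 0]
      · rw [Pi.single_eq_same, zpow_one]
      · intro i _ hi
        rw [Pi.single_eq_of_ne hi, zpow_zero]
      · intro h
        exact absurd (Finset.mem_univ _) h
    rwa [h1] at h
  have halg := gq_alg γ htd h0
  let F : IntermediateField K Ω' := IntermediateField.adjoin K {(γ 0 : Ω')}
  have halgF : ∀ j, IsAlgebraic F (γ j : Ω') := by
    intro j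
    have hle : Algebra.adjoin K {(γ 0 : Ω')} ≤ F.toSubalgebra :=
      IntermediateField.algebra_adjoin_le_adjoin K _
    exact IsAlgebraic.tower_top_of_subalgebra_le hle (halg j)
  let Ω := algebraicClosure F Ω'
  have hcl : IsAlgClosed Ω := IsAlgClosure.isAlgClosed F
  have hst : IsScalarTower K Ω Ω' := IsScalarTower.of_algebraMap_eq fun k => rfl
  let g : Ω →ₐ[K] Ω' := IsScalarTower.toAlgHom K Ω Ω'
  have hg : Function.Injective g := g.injective
  let x : Fin (κ + 3) → Ω := fun j => ⟨(γ j : Ω'), mem_algebraicClosure_iff.2 (halgF j)⟩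
  have hx : ∀ j, g (x j) = γ j := fun j => rfl
  refine ⟨Ω, inferInstance, hcl, inferInstance, x, ⟨?_, ?_, ?_⟩, ?_⟩
  · intro j h
    have := congrArg g h
    rw [hx, map_zero] at this
    exact (γ j).ne_zero this
  · intro y
    have hy : IsAlgebraic F (g y) := mem_algebraicClosure_iff.1 y.2
    have hF : F = (IntermediateField.adjoin K {x 0}).map g := by
      rw [IntermediateField.adjoin_map, Set.image_singleton, hx]
    have hmem : ∀ w : Ω', w ∈ F ↔ ∃ z, z ∈ IntermediateField.adjoin K {x 0} ∧ g z = w := by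
      intro w
      exact iff_of_eq (congrArg (fun T : IntermediateField K Ω' => w ∈ T) hF)
    let f : IntermediateField.adjoin K {x 0} →+* F :=
      ((g : Ω →+* Ω').comp (algebraMap (IntermediateField.adjoin K {x 0}) Ω)).codRestrict F
        (fun z => (hmem _).2 ⟨z, z.2, rfl⟩)
    refine IsAlgebraic.of_ringHom_of_comp_eq (f := f) (g := (g : Ω →+* Ω')) hy ?_ hg ?_
    · rintro ⟨w, hw⟩
      obtain ⟨z, hz, hzw⟩ := (hmem w).1 hw
      exact ⟨⟨z, hz⟩, Subtype.ext hzw⟩
    · rfl
  · intro a ha h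
    apply htr a ha
    have h1 := h.algHom g
    rw [map_prod] at h1
    simpa only [map_zpow₀, hx] using h1
  · intro p
    rw [← hγ, mem_locus]
    have h1 : g (aeval x p) = aeval (fun i => (γ i : Ω')) p := by
      have := comp_aeval (R := K) (f := x) g
      exact congrFun (congrArg DFunLike.coe this) p
    rw [← h1]
    constructor
    · intro h
      rw [h, map_zero]
    · intro h
      exact hg (by rw [h, map_zero])

theorem gen_curve (C : Set (Fin (κ + 3) → (AlgebraicClosure ℚ)ˣ)) (hC : IrrClosed C)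
    (hd : zdim C = 1)
    (hcos : ∀ a : Fin (κ + 3) → ℤ, a ≠ 0 → ∀ ζ : (AlgebraicClosure ℚ)ˣ,
      ¬ ∀ x ∈ C, ∏ j, x j ^ a j = ζ) :
    ∃ (Ω : Type) (_ : Field Ω) (_ : IsAlgClosed Ω) (_ : Algebra (AlgebraicClosure ℚ) Ω)
      (x : Fin (κ + 3) → Ω), Crv (AlgebraicClosure ℚ) x ∧
        ∀ p : MvPolynomial (Fin (κ + 3)) (AlgebraicClosure ℚ), aeval x p = 0 ↔ p ∈ vanIdeal C := by
  obtain ⟨L', hL, hA, γ, hγ⟩ := exists_generic C hC
  have htd : td (AlgebraicClosure ℚ) γ = 1 := by
    have h1 := zdim_eq C γ hγ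
    rw [hd] at h1
    exact_mod_cast h1.symm
  obtain ⟨γ', hγ'⟩ : ∃ γ' : Fin (κ + 3) → (AlgebraicClosure L')ˣ, ∀ j, (γ' j : AlgebraicClosure L') =
      algebraMap L' (AlgebraicClosure L') (γ j) :=
    ⟨fun j => Units.map (algebraMap L' (AlgebraicClosure L') : L' →* _) (γ j), fun j => rfl⟩
  have hl : locus (AlgebraicClosure ℚ) γ' = locus (AlgebraicClosure ℚ) γ := by
    ext p
    rw [mem_locus, mem_locus]
    have h1 : aeval (fun i => (γ' i : AlgebraicClosure L')) p =
        algebraMap L' (AlgebraicClosure L') (aeval (fun i => (γ i : L')) p) := by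
      rw [← aeval_algebraMap_apply]
      congr 2
      funext i
      exact hγ' i
    rw [h1]
    constructor
    · intro h
      exact (algebraMap L' (AlgebraicClosure L')).injective (by rw [h, map_zero])
    · intro h
      rw [h, map_zero]
  exact gq_main C hcos γ' (hl.trans hγ) ((td_congr γ γ' hl).trans htd)

end BMK
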