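import Pool.Agent.Lib.MP_a325a5_ag.F.Q3

/-! Coordinates in rank `r` (copy of `q3_general` of F/Q3, public). -/

open NumberField MvPolynomial

namespace BMK

theorem coordsR {K : Type} [Field K] {n : ℕ} (P : Fin n → Kˣ) (r : ℕ)
    (hr : BMF.mrk P = r) : ∃ (M : ℕ) (ζ : Kˣ) (e : Fin r → Kˣ) (t : Fin n → ℕ) (p : Fin n → Fin r → ℤ),
      0 < M ∧ IsPrimitiveRoot ζ M ∧ (∀ c : Fin r → ℤ, ∏ k, e k ^ c k = 1 → c = 0) ∧
      (∀ i, P i = ζ ^ t i * ∏ k, e k ^ p i k) ∧ Submodule.span ℤ (Set.range p) = ⊤ := by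
  classical
  set Λ : Submodule ℤ (Additive Kˣ) := Submodule.span ℤ (Set.range fun i => Additive.ofMul (P i))
    with hΛ
  have : Module.Finite ℤ Λ := Module.Finite.span_of_finite ℤ (Set.finite_range _)
  set T : Submodule ℤ Λ := Submodule.torsion ℤ Λ with hT
  have h1 : Module.finrank ℤ (Λ ⧸ T) = r := by
    rw [finrank_quotient_eq_of_le_torsion le_rfl]
    exact hr
  have : Module.Free ℤ (Λ ⧸ T) := Module.free_of_finite_type_torsion_free'
  let b : Module.Basis (Fin r) ℤ (Λ ⧸ T) := Module.finBasisOfFinrankEq ℤ (Λ ⧸ T) h1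
  choose E hE using fun k => T.mkQ_surjective (b k)
  let x : Fin n → Λ := fun i => ⟨Additive.ofMul (P i), Submodule.subset_span ⟨i, rfl⟩⟩
  let p : Fin n → Fin r → ℤ := fun i k => b.repr (T.mkQ (x i)) k
  let e : Fin r → Kˣ := fun k => Additive.toMul (E k : Additive Kˣ)
  -- products and sums
  have hprod : ∀ c : Fin r → ℤ, Additive.ofMul (∏ k, e k ^ c k) =
      ((∑ k, c k • E k : Λ) : Additive Kˣ) := by
    intro c
    rw [ofMul_prod]
    simp only [ofMul_zpow]
    rw [AddSubmonoidClass.coe_finsetSum]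
    refine Finset.sum_congr rfl fun k _ => ?_
    rfl
  have hmk : ∀ c : Fin r → ℤ, T.mkQ (∑ k, c k • E k) = ∑ k, c k • b k := by
    intro c
    rw [map_sum]
    refine Finset.sum_congr rfl fun k _ => ?_
    rw [map_smul, hE]
  have hind : ∀ c : Fin r → ℤ, ∏ k, e k ^ c k = 1 → c = 0 := by
    intro c hc
    have h2 : (∑ k, c k • E k : Λ) = 0 := by
      apply Subtype.ext
      rw [← hprod, hc]
      rfl
    have h3 : ∑ k, c k • b k = 0 := by rw [← hmk, h2, map_zero]
    funext k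
    have := Fintype.linearIndependent_iff.1 b.linearIndependent c h3 k
    simpa using this
  -- torsion parts
  let u : Fin n → Kˣ := fun i => P i * (∏ k, e k ^ p i k)⁻¹
  have hu : ∀ i, ∃ m : ℕ, 0 < m ∧ u i ^ m = 1 := by
    intro i
    have h2 : x i - ∑ k, p i k • E k ∈ T := by
      rw [← Submodule.Quotient.mk_eq_zero, ← Submodule.mkQ_apply, map_sub, hmk]
      have := b.sum_repr (T.mkQ (x i))
      rw [sub_eq_zero]
      exact this.symm
    rw [hT, Submodule.mem_torsion_iff] at h2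
    obtain ⟨a, ha⟩ := h2
    have ha0 : (a : ℤ) ≠ 0 := nonZeroDivisors.coe_ne_zero a
    have h4 : (a : ℤ) • (x i - ∑ k, p i k • E k) = 0 := ha
    have h5 : u i ^ (a : ℤ) = 1 := by
      apply Additive.ofMul.injective
      rw [ofMul_zpow]
      have h6 : Additive.ofMul (u i) = ((x i - ∑ k, p i k • E k : Λ) : Additive Kˣ) := by
        rw [AddSubgroupClass.coe_sub, ← hprod]
        simp only [u, x]
        rw [ofMul_mul, ofMul_inv, sub_eq_add_neg]
      rw [h6]
      have := congrArg (Subtype.val) h4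
      exact this
    refine ⟨(a : ℤ).natAbs, Int.natAbs_pos.2 ha0, ?_⟩
    rcases Int.natAbs_eq (a : ℤ) with h7 | h7
    · rw [h7, zpow_natCast] at h5
      exact h5
    · rw [h7, zpow_neg, zpow_natCast, inv_eq_one] at h5
      exact h5
  choose m hm0 hm using hu
  let M0 : ℕ := ∏ i, m i
  have hM0 : 0 < M0 := Finset.prod_pos fun i _ => hm0 i
  have : NeZero M0 := ⟨hM0.ne'⟩
  have huM : ∀ i, u i ∈ rootsOfUnity M0 K := by
    intro i
    rw [mem_rootsOfUnity]
    obtain ⟨q, hq⟩ := Finset.dvd_prod_of_mem m (Finset.mem_univ i)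
    show u i ^ (∏ i, m i) = 1
    rw [hq, pow_mul, hm, one_pow]
  obtain ⟨g, hg⟩ := IsCyclic.exists_generator (α := rootsOfUnity M0 K)
  have hgu : ∀ i, ∃ s : ℕ, u i = (g : Kˣ) ^ s := by
    intro i
    have h2 := hg ⟨u i, huM i⟩
    rw [← mem_powers_iff_mem_zpowers] at h2
    obtain ⟨s, hs⟩ := h2
    refine ⟨s, ?_⟩
    have := congrArg (Subtype.val) hs
    simpa using this.symm
  choose t ht using hgu
  refine ⟨orderOf (g : Kˣ), (g : Kˣ), e, t, p, ?_, IsPrimitiveRoot.orderOf _, hind, ?_, ?_⟩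
  · rw [Subgroup.orderOf_coe]
    exact orderOf_pos g
  · intro i
    rw [← ht]
    simp [u]
  · rw [eq_top_iff]
    intro v _
    have h2 : ((∑ k, v k • E k : Λ) : Additive Kˣ) ∈
        Submodule.span ℤ (Set.range fun i => Additive.ofMul (P i)) := (∑ k, v k • E k : Λ).2
    rw [Submodule.mem_span_range_iff_exists_fun] at h2
    obtain ⟨c, hc⟩ := h2
    rw [Submodule.mem_span_range_iff_exists_fun]
    refine ⟨c, ?_⟩
    have h3 : (∑ i, c i • x i : Λ) = ∑ k, v k • E k := by
      apply Subtype.ext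
      rw [← hc, AddSubmonoidClass.coe_finsetSum]
      rfl
    have h4 := congrArg (fun y => b.repr (T.mkQ y)) h3
    simp only [hmk, map_sum, map_smul] at h4
    funext k
    have h5 := DFunLike.congr_fun h4 k
    simp only [Finsupp.coe_finsetSum, Finset.sum_apply, Finsupp.smul_apply,
      Module.Basis.repr_self] at h5
    simp only [Finset.sum_apply, Pi.smul_apply]
    rw [show (∑ i, c i • p i k) = ∑ i, c i • (b.repr (T.mkQ (x i)) k) from rfl, h5]
    simp [Finsupp.single_apply]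


end BMK
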