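import Mathlib

/-! Maximal minor.  `A k j = p (I j) k` (columns are the chosen vectors).  Among all `I : Fin r → Fin N` take one with
maximal `|det|`; it is not zero because the `p i` span `ℤ^r` (so they span `ℚ^r`: some `r` of them are a basis, e.g.
`exists_linearIndependent'`/`Module.Basis` from a spanning family, or: if all minors vanish then the row rank of the
`N × r` matrix is `< r` and the standard basis vectors, integer combinations of the `p i`, would be dependent: expand the
determinant of the identity matrix multilinearly, `Matrix.det` of `∑ c i • p i` in every column).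
`A.cramer (p i) j = det (A.updateCol j (p i))` (`Matrix.cramer_apply`) is the determinant for `Function.update I j i`. -/

namespace BMK

private theorem pgb_exists {N r : ℕ} (p : Fin N → Fin r → ℤ) (hs : Submodule.span ℤ (Set.range p) = ⊤) :
    ∃ I : Fin r → Fin N, (Matrix.of (fun k j => p (I j) k) : Matrix (Fin r) (Fin r) ℤ).det ≠ 0 := by
  classical
  by_contra hcon
  push Not at hcon
  have h1 : ∀ k : Fin r, ∃ c : Fin N → ℤ, ∑ i, c i • p i = Pi.single k (1 : ℤ) := by
    intro k
    refine Submodule.mem_span_range_iff_exists_fun ℤ |>.1 ?_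
    rw [hs]
    exact Submodule.mem_top
  choose c hc using h1
  have h2 : (Matrix.detRowAlternating (n := Fin r) (R := ℤ)).toMultilinearMap
      (fun k => ∑ i, c k i • p i) = 1 := by
    have h3 : (fun k => ∑ i, c k i • p i) = (1 : Matrix (Fin r) (Fin r) ℤ) := by
      funext k
      rw [hc k]
      funext j
      rw [Matrix.one_apply, Pi.single_apply]
      simp only [eq_comm]
    rw [h3]
    exact Matrix.det_one
  rw [MultilinearMap.map_sum] at h2
  have h4 : ∀ I : Fin r → Fin N, (Matrix.detRowAlternating (n := Fin r) (R := ℤ)).toMultilinearMap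
      (fun k => c k (I k) • p (I k)) = 0 := by
    intro I
    rw [MultilinearMap.map_smul_univ]
    have h5 : (Matrix.detRowAlternating (n := Fin r) (R := ℤ)).toMultilinearMap (fun k => p (I k)) = 0 := by
      have h6 := hcon I
      rw [← Matrix.det_transpose] at h6
      exact h6
    rw [h5, smul_zero]
  rw [Finset.sum_eq_zero (fun I _ => h4 I)] at h2
  exact absurd h2 (by norm_num)

theorem max_minor {N r : ℕ} (p : Fin N → Fin r → ℤ) (hs : Submodule.span ℤ (Set.range p) = ⊤) :
    ∃ I : Fin r → Fin N, (Matrix.of (fun k j => p (I j) k) : Matrix (Fin r) (Fin r) ℤ).det ≠ 0 ∧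
      ∀ i j, |(Matrix.of (fun k j => p (I j) k) : Matrix (Fin r) (Fin r) ℤ).cramer (p i) j| ≤
        |(Matrix.of (fun k j => p (I j) k) : Matrix (Fin r) (Fin r) ℤ).det| := by
  classical
  obtain ⟨I0, hI0⟩ := pgb_exists p hs
  obtain ⟨I, _, hI⟩ := Finset.exists_max_image (Finset.univ : Finset (Fin r → Fin N))
    (fun I => |(Matrix.of (fun k j => p (I j) k) : Matrix (Fin r) (Fin r) ℤ).det|) ⟨I0, Finset.mem_univ _⟩
  refine ⟨I, ?_, fun i j => ?_⟩
  · have h1 := hI I0 (Finset.mem_univ _)
    intro h2
    rw [h2, abs_zero] at h1
    exact hI0 (abs_eq_zero.1 (le_antisymm h1 (abs_nonneg _)))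
  · rw [Matrix.cramer_apply]
    have h1 : (Matrix.of (fun k j => p (I j) k) : Matrix (Fin r) (Fin r) ℤ).updateCol j (p i) =
        (Matrix.of (fun k j' => p (Function.update I j i j') k) : Matrix (Fin r) (Fin r) ℤ) := by
      ext k j'
      rw [Matrix.updateCol_apply, Matrix.of_apply, Matrix.of_apply]
      by_cases h : j' = j
      · rw [if_pos h, h, Function.update_self]
      · rw [if_neg h, Function.update_of_ne h]
    rw [h1]
    exact hI (Function.update I j i) (Finset.mem_univ _)

end BMK
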