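import Mathlib

/-! Coset counts.  `A : Matrix (Fin r) (Fin r) ℤ`, `det A ≠ 0`.  The subgroup `A ℤ^r` has index `|det A|` in `ℤ^r` (private
`latR_card` in S/LatR: copy it), and `A.cramer (w + A *ᵥ y) = A.cramer w + A.det • y` (`Matrix.cramer` is linear,
`Matrix.cramer_eq_adjugate_mulVec`, `adjugate * A = det • 1`).
`coset_upper`: in one coset `w₀ + A ℤ^r` the element is determined by `y`, and `|c_j + det y_j| ≤ R |det|` leaves at most
`2 R + 1` values for every `y_j`.
`coset_lower`: every coset contains an element with `0 ≤ cramer w j < |det|` (Int.emod); the cosets are disjoint. -/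

namespace BMK

private theorem PGC_card {n : ℕ} (A : Matrix (Fin n) (Fin n) ℤ) (hA : A.det ≠ 0) :
    Nat.card ((Fin n → ℤ) ⧸ LinearMap.range (Matrix.toLin' A)) = A.det.natAbs := by
  have hinj : Function.Injective (Matrix.toLin' A) := by
    rw [← LinearMap.ker_eq_bot, LinearMap.ker_eq_bot']
    intro v hv
    rw [Matrix.toLin'_apply] at hv
    exact Matrix.eq_zero_of_mulVec_eq_zero hA hv
  have h := Submodule.natAbs_det_equiv (LinearMap.range (Matrix.toLin' A))
    (LinearEquiv.ofInjective _ hinj)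
  rw [← h]
  have e : ((LinearMap.range (Matrix.toLin' A)).subtype ∘ₗ
      AddMonoidHom.toIntLinearMap ((LinearEquiv.ofInjective _ hinj :
        (Fin n → ℤ) ≃ₗ[ℤ] LinearMap.range (Matrix.toLin' A)) :
        (Fin n → ℤ) →+ LinearMap.range (Matrix.toLin' A))) =
      Matrix.toLin' A := by
    ext v
    rfl
  rw [e, LinearMap.det_toLin']

theorem cramer_add_mulVec {r : ℕ} (A : Matrix (Fin r) (Fin r) ℤ) (w y : Fin r → ℤ) :
    A.cramer (w + A.mulVec y) = A.cramer w + A.det • y := by
  rw [map_add, Matrix.cramer_eq_adjugate_mulVec A (A.mulVec y), Matrix.mulVec_mulVec,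
    Matrix.adjugate_mul, Matrix.smul_mulVec, Matrix.one_mulVec]

private theorem PGC_inj {r : ℕ} (A : Matrix (Fin r) (Fin r) ℤ) (hA : A.det ≠ 0)
    {w w' : Fin r → ℤ} (h : A.cramer w = A.cramer w') : w = w' := by
  have h1 := Matrix.mulVec_cramer A w
  rw [h, Matrix.mulVec_cramer] at h1
  ext j
  have h2 := congrFun h1 j
  simp only [Pi.smul_apply, smul_eq_mul] at h2
  exact (mul_left_cancel₀ hA h2).symm

theorem coset_upper {r : ℕ} (A : Matrix (Fin r) (Fin r) ℤ) (hA : A.det ≠ 0) (R : ℕ)
    (s : Finset (Fin r → ℤ)) (hs : ∀ w ∈ s, ∀ j, |A.cramer w j| ≤ R * |A.det|) :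
    s.card ≤ A.det.natAbs * (2 * R + 1) ^ r := by
  classical
  set N := LinearMap.range (Matrix.toLin' A) with hN
  have hc : Nat.card ((Fin r → ℤ) ⧸ N) = A.det.natAbs := PGC_card A hA
  have hfin : Finite ((Fin r → ℤ) ⧸ N) := by
    apply Nat.finite_of_card_ne_zero
    rw [hc]
    exact Int.natAbs_ne_zero.mpr hA
  let _ : Fintype ((Fin r → ℤ) ⧸ N) := Fintype.ofFinite _
  have hd : 0 < |A.det| := abs_pos.2 hA
  let f : (Fin r → ℤ) → (Fin r → ℤ) ⧸ N := fun w => Submodule.Quotient.mk w
  have h1 : s.card ≤ (2 * R + 1) ^ r * (s.image f).card := by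
    apply Finset.card_le_mul_card_image
    intro q _
    have h2 : (Fintype.piFinset fun _ : Fin r => Finset.Icc (-(R : ℤ)) R).card =
        (2 * R + 1) ^ r := by
      rw [Fintype.card_piFinset_const, Int.card_Icc]
      congr 1
      omega
    rw [← h2]
    apply Finset.card_le_card_of_injOn (fun w j => A.cramer w j / |A.det|)
    · intro w hw
      have hw' := hs w (Finset.mem_filter.1 hw).1
      refine Finset.mem_coe.2 (Fintype.mem_piFinset.2 fun j => Finset.mem_Icc.2 ?_)
      have h3 := abs_le.1 (hw' j)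
      constructor
      · rw [Int.le_ediv_iff_mul_le hd]
        linarith [h3.1]
      · have h4 : A.cramer w j / |A.det| ≤ (R * |A.det|) / |A.det| :=
          Int.ediv_le_ediv hd h3.2
        rwa [Int.mul_ediv_cancel _ hd.ne'] at h4
    · intro w hw w' hw' hww
      have e1 : f w = f w' :=
        (Finset.mem_filter.1 hw).2.trans (Finset.mem_filter.1 hw').2.symm
      have e2 : w - w' ∈ N := (Submodule.Quotient.eq N).mp e1
      obtain ⟨y, hy⟩ := e2
      rw [Matrix.toLin'_apply] at hy
      have e3 : w = w' + A.mulVec y := by rw [hy]; abel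
      apply PGC_inj A hA
      ext j
      have e4 : A.cramer w j = A.cramer w' j + A.det * y j := by
        rw [e3, cramer_add_mulVec]
        rfl
      have e5 : A.cramer w j % |A.det| = A.cramer w' j % |A.det| := by
        apply Int.emod_eq_emod_iff_emod_sub_eq_zero.2
        apply Int.emod_eq_zero_of_dvd
        rw [e4, add_sub_cancel_left, abs_dvd]
        exact dvd_mul_right _ _
      have e6 : A.cramer w j / |A.det| = A.cramer w' j / |A.det| := congrFun hww j
      rw [← Int.emod_add_mul_ediv (A.cramer w j) |A.det|, e5, e6, Int.emod_add_mul_ediv]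
  have h5 : (s.image f).card ≤ A.det.natAbs := by
    rw [← hc, Nat.card_eq_fintype_card]
    exact Finset.card_le_univ _
  calc s.card ≤ (2 * R + 1) ^ r * (s.image f).card := h1
    _ ≤ (2 * R + 1) ^ r * A.det.natAbs := Nat.mul_le_mul_left _ h5
    _ = _ := Nat.mul_comm _ _

theorem coset_lower {r : ℕ} (A : Matrix (Fin r) (Fin r) ℤ) (hA : A.det ≠ 0) :
    ∃ s : Finset (Fin r → ℤ), s.card = A.det.natAbs ∧
      ∀ w ∈ s, ∀ j, 0 ≤ A.cramer w j ∧ A.cramer w j < |A.det| := by
  classical
  set N := LinearMap.range (Matrix.toLin' A) with hN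
  have hc : Nat.card ((Fin r → ℤ) ⧸ N) = A.det.natAbs := PGC_card A hA
  have hfin : Finite ((Fin r → ℤ) ⧸ N) := by
    apply Nat.finite_of_card_ne_zero
    rw [hc]
    exact Int.natAbs_ne_zero.mpr hA
  let _ : Fintype ((Fin r → ℤ) ⧸ N) := Fintype.ofFinite _
  let W : ((Fin r → ℤ) ⧸ N) → (Fin r → ℤ) := fun q =>
    q.out + A.mulVec fun j => -(A.cramer q.out j / A.det)
  have hW : ∀ q, Submodule.Quotient.mk (p := N) (W q) = q := by
    intro q
    have h1 : Submodule.Quotient.mk (p := N) (W q) = Submodule.Quotient.mk q.out := by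
      rw [Submodule.Quotient.eq]
      refine ⟨fun j => -(A.cramer q.out j / A.det), ?_⟩
      rw [Matrix.toLin'_apply]
      exact (add_sub_cancel_left _ _).symm
    rw [h1]
    exact Quotient.out_eq q
  have hinj : Function.Injective W := fun q q' h => by
    rw [← hW q, ← hW q', h]
  refine ⟨Finset.univ.image W, ?_, ?_⟩
  · rw [Finset.card_image_of_injective _ hinj, Finset.card_univ, ← Nat.card_eq_fintype_card, hc]
  · intro w hw j
    obtain ⟨q, _, rfl⟩ := Finset.mem_image.1 hw
    have h1 : A.cramer (W q) j = A.cramer q.out j % A.det := by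
      show A.cramer (q.out + A.mulVec fun j => -(A.cramer q.out j / A.det)) j = _
      rw [cramer_add_mulVec]
      simp only [Pi.add_apply, Pi.smul_apply, smul_eq_mul]
      rw [Int.emod_def]
      ring
    rw [h1]
    exact ⟨Int.emod_nonneg _ hA, Int.emod_lt_abs _ hA⟩

end BMK
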