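import Pool.Agent.Lib.MP_a325a5_ag.S.CntSp
import Pool.Agent.Lib.MP_a325a5_ag.GK.PGC

/-! Short independent vectors.  `Λ` := image of `A.cramer` (AddSubgroup of `Fin r → ℤ`, `N = n = r`).  It contains the
`|det| e_j` (`cramer_add_mulVec` with `w = 0`), which are independent: `BMF.greedy` gives `a : Fin r → Fin r → ℤ` in `Λ`,
independent, minimal, monotone; every `‖rc (a k)‖ ≤ |det|` because some `|det| e_j` is outside `sp a k` (dimension `< r`).
`sp a r = ⊤` (`r` independent vectors in `ℝ^r`).  `BMF.count_span` with `k = r`, `ρ = |det|` and `s` = image of the set of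
`coset_lower` under `A.cramer` (injective, `det ≠ 0`): `|det| * ∏ ‖rc (a j)‖ ≤ 3^(r*r) |det|^r`.  Choose `w j` with
`A.cramer (w j) = a j`; independent because the `a j` are. -/

namespace BMK

private theorem PGD_cramer {r : ℕ} (A : Matrix (Fin r) (Fin r) ℤ) (y : Fin r → ℤ) :
    A.cramer (A.mulVec y) = A.det • y := by
  have h := cramer_add_mulVec A 0 y
  rwa [zero_add, map_zero, zero_add] at h

private theorem PGD_inj {r : ℕ} (A : Matrix (Fin r) (Fin r) ℤ) (hA : A.det ≠ 0) :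
    Function.Injective A.cramer := by
  intro v w h
  have h1 : A.mulVec (A.cramer v) = A.mulVec (A.cramer w) := by rw [h]
  rw [Matrix.mulVec_cramer, Matrix.mulVec_cramer] at h1
  funext i
  have h2 := congrFun h1 i
  simp only [Pi.smul_apply, smul_eq_mul] at h2
  exact mul_left_cancel₀ hA h2

theorem short_vectors {r : ℕ} (A : Matrix (Fin r) (Fin r) ℤ) (hA : A.det ≠ 0) :
    ∃ w : Fin r → Fin r → ℤ, LinearIndependent ℤ w ∧
      (A.det.natAbs : ℝ) * ∏ i, ‖BMF.rc (A.cramer (w i))‖ ≤ 3 ^ (r * r) * (A.det.natAbs : ℝ) ^ r := by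
  classical
  let Λ : AddSubgroup (Fin r → ℤ) := (A.cramer : (Fin r → ℤ) →ₗ[ℤ] (Fin r → ℤ)).toAddMonoidHom.range
  have hΛ : ∀ v, v ∈ Λ ↔ ∃ w, A.cramer w = v := fun v => AddMonoidHom.mem_range
  have hd : ∀ j : Fin r, (A.det • Pi.single j 1 : Fin r → ℤ) ∈ Λ := fun j =>
    (hΛ _).2 ⟨A.mulVec (Pi.single j 1), PGD_cramer A _⟩
  have hdi : LinearIndependent ℤ (fun j : Fin r => (A.det • Pi.single j 1 : Fin r → ℤ)) := by
    rw [Fintype.linearIndependent_iff]
    intro c hc i
    have h1 := congrFun hc i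
    rw [Finset.sum_apply] at h1
    simp only [Pi.smul_apply, smul_eq_mul, Pi.zero_apply] at h1
    rw [Finset.sum_eq_single i] at h1
    · rw [Pi.single_eq_same, mul_one] at h1
      exact (mul_eq_zero.1 h1).resolve_right hA
    · intro b _ hb
      rw [Pi.single_eq_of_ne (Ne.symm hb), mul_zero, mul_zero]
    · intro h
      exact absurd (Finset.mem_univ i) h
  obtain ⟨a, ha, hai, hasp, hmin, hmono⟩ := BMF.greedy Λ ⟨_, hd, hdi⟩
  have hdet : (0 : ℝ) < A.det.natAbs := by exact_mod_cast Int.natAbs_pos.2 hA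
  have habs : (A.det.natAbs : ℝ) = |(A.det : ℝ)| := by
    rw [Nat.cast_natAbs, Int.cast_abs]
  have hnd : ∀ j : Fin r, ‖BMF.rc (A.det • Pi.single j 1 : Fin r → ℤ)‖ ≤ A.det.natAbs := by
    intro j
    rw [pi_norm_le_iff_of_nonneg hdet.le]
    intro i
    show ‖(((A.det • Pi.single j 1 : Fin r → ℤ) i : ℤ) : ℝ)‖ ≤ _
    rw [Real.norm_eq_abs, Pi.smul_apply, smul_eq_mul, Int.cast_mul, abs_mul, habs]
    by_cases hij : i = j
    · rw [hij, Pi.single_eq_same, Int.cast_one, abs_one, mul_one]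
    · rw [Pi.single_eq_of_ne hij, Int.cast_zero, abs_zero, mul_zero]
      exact abs_nonneg _
  have hle : ∀ k : Fin r, ‖BMF.rc (a k)‖ ≤ A.det.natAbs := by
    intro k
    have hex : ∃ j : Fin r, BMF.rc (A.det • Pi.single j 1 : Fin r → ℤ) ∉ BMF.sp a k := by
      by_contra hcon
      push Not at hcon
      apply hasp k
      have h1 : ∀ x : Fin r → ℝ, x ∈ BMF.sp a k := by
        intro x
        have h2 : x = ∑ j, (x j / (A.det : ℝ)) • BMF.rc (A.det • Pi.single j 1 : Fin r → ℤ) := by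
          funext i
          rw [Finset.sum_apply, Finset.sum_eq_single i]
          · show x i = (x i / (A.det : ℝ)) * (((A.det • Pi.single i 1 : Fin r → ℤ) i : ℤ) : ℝ)
            rw [Pi.smul_apply, smul_eq_mul, Pi.single_eq_same, mul_one]
            have h3 : (A.det : ℝ) ≠ 0 := by exact_mod_cast hA
            field_simp
          · intro b _ hb
            show (x b / (A.det : ℝ)) * (((A.det • Pi.single b 1 : Fin r → ℤ) i : ℤ) : ℝ) = 0
            rw [Pi.smul_apply, smul_eq_mul, Pi.single_eq_of_ne (Ne.symm hb), mul_zero,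
              Int.cast_zero, mul_zero]
          · intro h
            exact absurd (Finset.mem_univ i) h
        rw [h2]
        exact Submodule.sum_mem _ fun j _ => Submodule.smul_mem _ _ (hcon j)
      exact h1 _
    obtain ⟨j, hj⟩ := hex
    exact (hmin k _ (hd j) hj).trans (hnd j)
  have htop : BMF.sp a r = ⊤ := by
    have h1 : LinearIndependent ℝ (fun l => BMF.rc (a l)) :=
      (linearIndependent_algebraMap_comp_iff (R := ℤ) (S := ℝ) (v := a)).2 hai
    have h2 := h1.span_eq_top_of_card_eq_finrank' (by simp)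
    rw [eq_top_iff, ← h2]
    unfold BMF.sp
    apply Submodule.span_mono
    rintro x ⟨j, rfl⟩
    exact ⟨j, j.isLt, rfl⟩
  obtain ⟨s, hs1, hs2⟩ := coset_lower A hA
  have hmem : ∀ v ∈ s.image A.cramer, v ∈ Λ ∧ BMF.rc v ∈ BMF.sp a r ∧
      ‖BMF.rc v‖ < (A.det.natAbs : ℝ) := by
    intro v hv
    obtain ⟨w, hw, rfl⟩ := Finset.mem_image.1 hv
    refine ⟨(hΛ _).2 ⟨w, rfl⟩, by rw [htop]; exact Submodule.mem_top, ?_⟩
    rw [pi_norm_lt_iff hdet]
    intro i
    show ‖((A.cramer w i : ℤ) : ℝ)‖ < _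
    obtain ⟨h1, h2⟩ := hs2 w hw i
    rw [Real.norm_eq_abs, habs, ← Int.cast_abs, ← Int.cast_abs, abs_of_nonneg h1]
    exact_mod_cast h2
  have hcs := BMF.count_span Λ a hmin (fun k => hai.ne_zero k) hmono r le_rfl
    (A.det.natAbs : ℝ) hdet (fun j _ => hle j) (s.image A.cramer) hmem
  rw [Finset.card_image_of_injective _ (PGD_inj A hA), hs1,
    Finset.filter_true_of_mem (fun j _ => j.isLt)] at hcs
  choose w hw using fun l => (hΛ _).1 (ha l)
  refine ⟨w, ?_, ?_⟩
  · refine LinearIndependent.of_comp (A.cramer : (Fin r → ℤ) →ₗ[ℤ] (Fin r → ℤ)) ?_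
    have h1 : (A.cramer : (Fin r → ℤ) →ₗ[ℤ] (Fin r → ℤ)) ∘ w = a := funext hw
    rw [h1]
    exact hai
  · simp only [hw]
    exact hcs

end BMK
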