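import Pool.Agent.Lib.MP_a325a5_ag.F.Q3
import Pool.Agent.Lib.MP_a325a5_ag.S.Greedy

/-! Heights.  `A k j = p (I j) k`, `A *ᵥ (A.cramer w) = A.det • w` (`Matrix.mulVec_cramer`), so
`(∏ k, e k ^ w k) ^ A.det = ∏ j, P (I j) ^ (A.cramer w j) * ζ ^ (..)`; heights: `BMF.ht_zpow`, `BMF.ht_mul_le`, a root of
unity has height 0 (see `Q4_ht_root` in F/Q4, private: copy).  `|A.cramer w j| ≤ ‖rc (A.cramer w)‖`. -/

open NumberField

namespace BMK

private theorem PGE_root {K : Type} [Field K] [NumberField K] {M : ℕ} (hM : 0 < M) {z : Kˣ}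
    (hz : z ^ M = 1) (n : ℤ) : BMF.ht ((z ^ n : Kˣ) : K) = 0 := by
  have h1 : BMF.ht ((z : K) ^ M) = 0 := by
    rw [← Units.val_pow_eq_pow_val, hz, Units.val_one, BMF.ht_one]
  rw [BMF.ht_pow] at h1
  have hM' : (0 : ℝ) < M := by exact_mod_cast hM
  have h2 : BMF.ht (z : K) = 0 := (mul_eq_zero.mp h1).resolve_left hM'.ne'
  rw [Units.val_zpow_eq_zpow_val, BMF.ht_zpow, h2, mul_zero]

private theorem PGE_prod {K : Type} [Field K] [NumberField K] {ι : Type} (s : Finset ι)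
    (f : ι → Kˣ) : BMF.ht ((∏ i ∈ s, f i : Kˣ) : K) ≤ ∑ i ∈ s, BMF.ht (f i : K) := by
  classical
  induction s using Finset.induction_on with
  | empty => rw [Finset.prod_empty, Finset.sum_empty, Units.val_one, BMF.ht_one]
  | insert a s ha ih =>
    rw [Finset.prod_insert ha, Finset.sum_insert ha, Units.val_mul]
    have := BMF.ht_mul_le (f a : K) ((∏ i ∈ s, f i : Kˣ) : K)
    linarith

private theorem PGE_sum {G ι : Type} [CommGroup G] (s : Finset ι) (e : G) (f : ι → ℤ) :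
    ∏ i ∈ s, e ^ f i = e ^ (∑ i ∈ s, f i) := by
  classical
  induction s using Finset.induction_on with
  | empty => simp
  | insert a s ha ih => rw [Finset.sum_insert ha, Finset.prod_insert ha, zpow_add, ih]

private theorem PGE_word {G : Type} [CommGroup G] {N r : ℕ} (ζ : G) (e : Fin r → G)
    (P : Fin N → G) (t : Fin N → ℕ) (p : Fin N → Fin r → ℤ)
    (hP : ∀ i, P i = ζ ^ t i * ∏ k, e k ^ p i k) (I : Fin r → Fin N) (w c : Fin r → ℤ) (d : ℤ)
    (hc : ∀ k, ∑ j, p (I j) k * c j = d * w k) :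
    ∏ j, P (I j) ^ c j = ζ ^ (∑ j, (t (I j) : ℤ) * c j) * (∏ k, e k ^ w k) ^ d := by
  have h1 : ∀ j, P (I j) ^ c j =
      ζ ^ ((t (I j) : ℤ) * c j) * ∏ k, e k ^ (p (I j) k * c j) := by
    intro j
    rw [hP, mul_zpow, ← zpow_natCast ζ, ← zpow_mul, ← Finset.prod_zpow]
    congr 1
    refine Finset.prod_congr rfl fun k _ => ?_
    rw [← zpow_mul]
  rw [Finset.prod_congr rfl fun j _ => h1 j, Finset.prod_mul_distrib, PGE_sum,
    Finset.prod_comm, ← Finset.prod_zpow]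
  congr 1
  refine Finset.prod_congr rfl fun k _ => ?_
  rw [PGE_sum, hc, ← zpow_mul, mul_comm]

theorem ht_short {K : Type} [Field K] [NumberField K] {N r M : ℕ} (hM : 0 < M) {ζ : Kˣ}
    (hζ : ζ ^ M = 1) (e : Fin r → Kˣ) (P : Fin N → Kˣ) (t : Fin N → ℕ) (p : Fin N → Fin r → ℤ)
    (hP : ∀ i, P i = ζ ^ t i * ∏ k, e k ^ p i k) {B : ℝ} (hB : ∀ i, BMF.ht (P i : K) ≤ B)
    (I : Fin r → Fin N) (w : Fin r → ℤ) :
    BMF.ht ((∏ k, e k ^ w k : Kˣ) : K) *
        ((Matrix.of (fun k j => p (I j) k) : Matrix (Fin r) (Fin r) ℤ).det.natAbs : ℝ) ≤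
      r * ‖BMF.rc ((Matrix.of (fun k j => p (I j) k) : Matrix (Fin r) (Fin r) ℤ).cramer w)‖ * B := by
  set A : Matrix (Fin r) (Fin r) ℤ := Matrix.of (fun k j => p (I j) k) with hA
  have hc : ∀ k, ∑ j, p (I j) k * A.cramer w j = A.det * w k := by
    intro k
    have h := congrFun (Matrix.mulVec_cramer A w) k
    exact h
  have h1 := PGE_word ζ e P t p hP I w (A.cramer w) A.det hc
  have h2 : (∏ k, e k ^ w k) ^ A.det =
      ζ ^ (-(∑ j, (t (I j) : ℤ) * A.cramer w j)) * ∏ j, P (I j) ^ A.cramer w j := by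
    rw [h1, ← mul_assoc, ← zpow_add, neg_add_cancel, zpow_zero, one_mul]
  have h3 : BMF.ht (((∏ k, e k ^ w k) ^ A.det : Kˣ) : K) ≤
      ∑ j, BMF.ht ((P (I j) ^ A.cramer w j : Kˣ) : K) := by
    rw [h2, Units.val_mul]
    have h4 := BMF.ht_mul_le ((ζ ^ (-(∑ j, (t (I j) : ℤ) * A.cramer w j)) : Kˣ) : K)
      ((∏ j, P (I j) ^ A.cramer w j : Kˣ) : K)
    rw [PGE_root hM hζ, zero_add] at h4
    exact h4.trans (PGE_prod _ _)
  have h4 : ∀ j, BMF.ht ((P (I j) ^ A.cramer w j : Kˣ) : K) ≤ ‖BMF.rc (A.cramer w)‖ * B := by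
    intro j
    rw [Units.val_zpow_eq_zpow_val, BMF.ht_zpow]
    have h5 : |((A.cramer w j : ℤ) : ℝ)| ≤ ‖BMF.rc (A.cramer w)‖ := by
      have h6 := norm_le_pi_norm (BMF.rc (A.cramer w)) j
      rw [Real.norm_eq_abs] at h6
      exact h6
    exact mul_le_mul h5 (hB _) (BMF.ht_nonneg _) (norm_nonneg _)
  have h5 : ∑ j, BMF.ht ((P (I j) ^ A.cramer w j : Kˣ) : K) ≤
      r * ‖BMF.rc (A.cramer w)‖ * B := by
    refine (Finset.sum_le_sum fun j _ => h4 j).trans ?_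
    rw [Finset.sum_const, Finset.card_univ, Fintype.card_fin, nsmul_eq_mul, mul_assoc]
  have h6 : BMF.ht (((∏ k, e k ^ w k) ^ A.det : Kˣ) : K) =
      BMF.ht ((∏ k, e k ^ w k : Kˣ) : K) * (A.det.natAbs : ℝ) := by
    rw [Units.val_zpow_eq_zpow_val, BMF.ht_zpow, Nat.cast_natAbs, Int.cast_abs, mul_comm]
  rw [← h6]
  exact h3.trans h5

end BMK
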