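import Pool.Agent.Lib.MP_a325a5_ag.S.CntSp

/-! Relations in a group of rank `ρ` (GK_PROOF.md (P2)): S/RelN with `3 + n` replaced by `ρ + 1 + n` (`n + 1` relations), `c A^2`
by `c A^ρ`.  Copy `RelN_rc_add .. RelN_fib` (private) and adapt `RelN_exists` (`k ≤ n + 1` independent relations: the count
`(A+1)^(ρ+1+n) ≤ c A^ρ 3^(k k) (A+1)^k` is impossible for `k ≤ n`) and `RelN_main` (only `hmain : lam * X ≤ ..` is needed, in
the form: with `m = n`, `X = ∏ ‖rc (a l)‖` over `n + 1` vectors, `Y` the product of the first `n`, `lam` the last: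
`lam^(ρ+1+n) ≤ c lam^ρ 3^(n n) lam^n / Y`, i.e. `X = Y lam ≤ c 3^(n n)`). -/

namespace BMK

open BMF

private theorem PGF_rc_add {N : ℕ} (x y : Fin N → ℤ) : rc (x + y) = rc x + rc y := by
  funext i
  simp [rc]

private theorem PGF_rc_smul {N : ℕ} (m : ℤ) (x : Fin N → ℤ) : rc (m • x) = (m : ℝ) • rc x := by
  funext i
  simp [rc]

private theorem PGF_norm {N : ℕ} (v : Fin N → ℤ) (hv : v ≠ 0) : 1 ≤ ‖rc v‖ := by
  obtain ⟨i, hi⟩ := Function.ne_iff.1 hv
  have h1 : ‖rc v i‖ ≤ ‖rc v‖ := norm_le_pi_norm (rc v) i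
  have h2 : (1 : ℝ) ≤ ‖rc v i‖ := by
    have h3 : (1 : ℤ) ≤ |v i| := Int.one_le_abs hi
    show (1 : ℝ) ≤ ‖((v i : ℤ) : ℝ)‖
    rw [Real.norm_eq_abs]
    exact_mod_cast h3
  linarith

private theorem PGF_one_le {ι : Type} (s : Finset ι) (f : ι → ℝ) (h : ∀ i ∈ s, 1 ≤ f i) :
    1 ≤ ∏ i ∈ s, f i := by
  classical
  induction s using Finset.induction_on with
  | empty => simp
  | insert a s ha ih =>
    rw [Finset.prod_insert ha]
    have h1 := h a (Finset.mem_insert_self _ _)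
    have h2 := ih fun i hi => h i (Finset.mem_insert_of_mem hi)
    nlinarith

/-- one more independent vector -/
private theorem PGF_cons {N k : ℕ} (a : Fin k → Fin N → ℤ) (ha : LinearIndependent ℤ a)
    (u : Fin N → ℤ) (hu : rc u ∉ sp a k) :
    LinearIndependent ℤ (Fin.cons u a : Fin (k + 1) → Fin N → ℤ) := by
  refine ha.finCons' u a fun c y hy0 hcy => ?_
  by_contra hc
  apply hu
  have hy : rc (y : Fin N → ℤ) ∈ sp a k := by
    have hspan : ∀ w ∈ Submodule.span ℤ (Set.range a), rc w ∈ sp a k := by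
      intro w hw
      refine Submodule.span_induction (p := fun w _ => rc w ∈ sp a k) ?_ ?_ ?_ ?_ hw
      · rintro x ⟨j, rfl⟩
        exact Submodule.subset_span ⟨j, j.2, rfl⟩
      · have : rc (0 : Fin N → ℤ) = 0 := by
          funext i
          simp [rc]
        rw [this]
        exact Submodule.zero_mem _
      · intro x y _ _ hx hy
        rw [PGF_rc_add]
        exact Submodule.add_mem _ hx hy
      · intro m x _ hx
        rw [PGF_rc_smul]
        exact Submodule.smul_mem _ _ hx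
    exact hspan _ hy0
  have h1 : (c : ℝ) • rc u + rc (y : Fin N → ℤ) = 0 := by
    rw [← PGF_rc_smul, ← PGF_rc_add, hcy]
    funext i
    simp [rc]
  have hc' : (c : ℝ) ≠ 0 := Int.cast_ne_zero.2 hc
  have h2 : rc u = (c : ℝ)⁻¹ • (-(rc (y : Fin N → ℤ))) := by
    rw [← eq_neg_of_add_eq_zero_left h1, smul_smul, inv_mul_cancel₀ hc', one_smul]
  rw [h2]
  exact Submodule.smul_mem _ _ (Submodule.neg_mem _ hy)

/-- the lattice of the relations -/
private def PGF_L {G : Type} [CommGroup G] {N : ℕ} (Q : Fin N → G) :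
    AddSubgroup (Fin N → ℤ) where
  carrier := {v | ∏ i, Q i ^ v i = 1}
  add_mem' := by
    intro x y hx hy
    have hx' : ∏ i, Q i ^ x i = 1 := hx
    have hy' : ∏ i, Q i ^ y i = 1 := hy
    show ∏ i, Q i ^ (x + y) i = 1
    have h1 : ∏ i, Q i ^ (x + y) i = (∏ i, Q i ^ x i) * ∏ i, Q i ^ y i := by
      rw [← Finset.prod_mul_distrib]
      exact Finset.prod_congr rfl fun i _ => zpow_add _ _ _
    rw [h1, hx', hy', one_mul]
  zero_mem' := by
    show ∏ i, Q i ^ (0 : Fin N → ℤ) i = 1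
    simp
  neg_mem' := by
    intro x hx
    have hx' : ∏ i, Q i ^ x i = 1 := hx
    show ∏ i, Q i ^ (-x) i = 1
    have h1 : ∏ i, Q i ^ (-x) i = (∏ i, Q i ^ x i)⁻¹ := by
      rw [← Finset.prod_inv_distrib]
      exact Finset.prod_congr rfl fun i _ => zpow_neg _ _
    rw [h1, hx', inv_one]

private theorem PGF_fib {G : Type} [CommGroup G] {N : ℕ} (Q : Fin N → G) (A : ℕ)
    (s : Finset G) (hs : ∀ u : Fin N → ℕ, (∀ i, u i ≤ A) → ∏ i, Q i ^ u i ∈ s) (M : ℝ)
    (hM : ∀ T : Finset (Fin N → ℤ), (∀ v ∈ T, v ∈ PGF_L Q ∧ ‖rc v‖ ≤ A) → (T.card : ℝ) ≤ M) :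
    ((A : ℝ) + 1) ^ N ≤ s.card * M := by
  classical
  have hcard : (Fintype.piFinset (fun _ : Fin N => Finset.range (A + 1))).card =
      (A + 1) ^ N := by
    rw [Fintype.card_piFinset]
    simp
  have hmap : ∀ u ∈ Fintype.piFinset (fun _ : Fin N => Finset.range (A + 1)),
      ∏ i, Q i ^ u i ∈ s := by
    intro u hu
    refine hs u fun i => ?_
    have := Fintype.mem_piFinset.1 hu i
    rw [Finset.mem_range] at this
    omega
  have h1 := Finset.card_eq_sum_card_fiberwise (f := fun u : Fin N → ℕ => ∏ i, Q i ^ u i)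
    (s := Fintype.piFinset (fun _ : Fin N => Finset.range (A + 1))) (t := s) hmap
  rw [hcard] at h1
  have h2 : ((A : ℝ) + 1) ^ N = (((A + 1) ^ N : ℕ) : ℝ) := by push_cast; ring
  rw [h2, h1, Nat.cast_sum, ← nsmul_eq_mul, ← Finset.sum_const]
  refine Finset.sum_le_sum fun g _ => ?_
  set F := Finset.filter (fun u : Fin N → ℕ => ∏ i, Q i ^ u i = g)
    (Fintype.piFinset (fun _ : Fin N => Finset.range (A + 1))) with hF
  rcases F.eq_empty_or_nonempty with h0 | ⟨u0, hu0⟩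
  · rw [h0, Finset.card_empty]
    have := hM ∅ (by simp)
    rwa [Finset.card_empty] at this
  · have hinj : Set.InjOn (fun (u : Fin N → ℕ) (i : Fin N) => ((u i : ℤ) - (u0 i : ℤ))) F := by
      intro x _ y _ hxy
      funext i
      have := congrFun hxy i
      simp only at this
      omega
    rw [← Finset.card_image_of_injOn hinj]
    refine hM _ fun v hv => ?_
    obtain ⟨u, hu, rfl⟩ := Finset.mem_image.1 hv
    rw [hF, Finset.mem_filter, Fintype.mem_piFinset] at hu hu0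
    constructor
    · show ∏ i, Q i ^ ((u i : ℤ) - (u0 i : ℤ)) = 1
      rw [Finset.prod_congr rfl fun i _ => zpow_sub (Q i) _ _]
      rw [Finset.prod_mul_distrib, Finset.prod_inv_distrib]
      simp only [zpow_natCast]
      rw [hu.2, hu0.2, mul_inv_cancel]
    · rw [pi_norm_le_iff_of_nonneg (Nat.cast_nonneg A)]
      intro i
      have e1 := hu.1 i
      have e2 := hu0.1 i
      rw [Finset.mem_range] at e1 e2
      show ‖(((u i : ℤ) - (u0 i : ℤ) : ℤ) : ℝ)‖ ≤ A
      rw [Real.norm_eq_abs]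
      have e3 : |(u i : ℤ) - (u0 i : ℤ)| ≤ (A : ℤ) := by
        rw [abs_le]
        constructor <;> omega
      exact_mod_cast e3

/-- there are `n + 1` independent relations -/
private theorem PGF_exists {G : Type} [CommGroup G] {ρ n : ℕ} (Q : Fin (ρ + 1 + n) → G) (c : ℝ)
    (hc : 1 ≤ c)
    (hs : ∀ A : ℕ, 1 ≤ A → ∃ s : Finset G, (∀ u : Fin (ρ + 1 + n) → ℕ, (∀ i, u i ≤ A) →
      ∏ i, Q i ^ u i ∈ s) ∧ (s.card : ℝ) ≤ c * A ^ ρ) (k : ℕ) (hk : k ≤ n + 1) :
    ∃ v : Fin k → Fin (ρ + 1 + n) → ℤ, (∀ l, v l ∈ PGF_L Q) ∧ LinearIndependent ℤ v := by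
  induction k with
  | zero => exact ⟨fun l => l.elim0, fun l => l.elim0, linearIndependent_empty_type⟩
  | succ k ih =>
    obtain ⟨a, haΛ, ha, -, hmin, hmono⟩ := greedy (PGF_L Q) (ih (by omega))
    have ha0 : ∀ l, a l ≠ 0 := fun l => ha.ne_zero l
    by_cases hex : ∃ u ∈ PGF_L Q, rc u ∉ sp a k
    · obtain ⟨u, hu, hu'⟩ := hex
      refine ⟨Fin.cons u a, fun l => ?_, PGF_cons a ha u hu'⟩
      refine Fin.cases ?_ (fun l => ?_) l
      · exact hu
      · exact haΛ l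
    · exfalso
      push Not at hex
      -- a large bound
      obtain ⟨A, hA1, hA2, hA3⟩ : ∃ A : ℕ, 1 ≤ A ∧ (∀ j, ‖rc (a j)‖ ≤ (A : ℝ) + 1) ∧
          c * 3 ^ (k * k) < (A : ℝ) + 1 := by
        obtain ⟨A, hA⟩ := exists_nat_gt (∑ j, ‖rc (a j)‖ + c * 3 ^ (k * k) + 1)
        have h0 : 0 ≤ ∑ j, ‖rc (a j)‖ := Finset.sum_nonneg fun j _ => norm_nonneg _
        have h1 : 0 < c * 3 ^ (k * k) := by positivity
        refine ⟨A, ?_, ?_, ?_⟩
        · have : (1 : ℝ) ≤ A := by linarith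
          exact_mod_cast this
        · intro j
          have h2 : ‖rc (a j)‖ ≤ ∑ j, ‖rc (a j)‖ :=
            Finset.single_le_sum (f := fun j => ‖rc (a j)‖) (fun j _ => norm_nonneg _)
              (Finset.mem_univ j)
          linarith
        · linarith
      obtain ⟨s, hs1, hs2⟩ := hs A hA1
      have hρ0 : (0 : ℝ) < (A : ℝ) + 1 := by positivity
      have hprod : 1 ≤ ∏ j ∈ Finset.univ.filter (fun j : Fin k => (j : ℕ) < k), ‖rc (a j)‖ :=
        PGF_one_le _ _ fun j _ => PGF_norm _ (ha0 j)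
      have hfib := PGF_fib Q A s hs1 (3 ^ (k * k) * ((A : ℝ) + 1) ^ k) (by
        intro T hT
        have h1 := count_span (PGF_L Q) a hmin ha0 hmono k le_rfl ((A : ℝ) + 1) hρ0
          (fun j _ => hA2 j) T (fun v hv => ⟨(hT v hv).1, hex v (hT v hv).1, by
            have := (hT v hv).2
            linarith⟩)
        refine le_trans ?_ h1
        exact le_mul_of_one_le_right (Nat.cast_nonneg _) hprod)
      have hx : (1 : ℝ) ≤ (A : ℝ) + 1 := by
        have : (0 : ℝ) ≤ A := Nat.cast_nonneg A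
        linarith
      have hkey : ((A : ℝ) + 1) ^ (ρ + 1 + n) < ((A : ℝ) + 1) ^ (ρ + 1 + n) := by
        calc ((A : ℝ) + 1) ^ (ρ + 1 + n) ≤ s.card * (3 ^ (k * k) * ((A : ℝ) + 1) ^ k) := hfib
          _ ≤ (c * A ^ ρ) * (3 ^ (k * k) * ((A : ℝ) + 1) ^ k) :=
            mul_le_mul_of_nonneg_right hs2 (by positivity)
          _ ≤ (c * ((A : ℝ) + 1) ^ ρ) * (3 ^ (k * k) * ((A : ℝ) + 1) ^ k) := by
            gcongr
            linarith
          _ = (c * 3 ^ (k * k)) * ((A : ℝ) + 1) ^ (ρ + k) := by ring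
          _ < ((A : ℝ) + 1) * ((A : ℝ) + 1) ^ (ρ + k) :=
            mul_lt_mul_of_pos_right hA3 (by positivity)
          _ = ((A : ℝ) + 1) ^ (ρ + k + 1) := by ring
          _ ≤ ((A : ℝ) + 1) ^ (ρ + 1 + n) := pow_le_pow_right₀ hx (by omega)
      exact lt_irrefl _ hkey

theorem relG {G : Type} [CommGroup G] (ρ n : ℕ) (Q : Fin (ρ + 1 + n) → G) (c : ℝ) (hc : 1 ≤ c)
    (hs : ∀ A : ℕ, 1 ≤ A → ∃ s : Finset G, (∀ u : Fin (ρ + 1 + n) → ℕ, (∀ i, u i ≤ A) →
      ∏ i, Q i ^ u i ∈ s) ∧ (s.card : ℝ) ≤ c * A ^ ρ) :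
    ∃ a : Fin (n + 1) → Fin (ρ + 1 + n) → ℤ, LinearIndependent ℤ a ∧
      (∀ l, ∏ i, Q i ^ a l i = 1) ∧ (∀ i j : Fin (n + 1), i ≤ j → ‖BMF.rc (a i)‖ ≤ ‖BMF.rc (a j)‖) ∧
      (∀ l, 1 ≤ ‖BMF.rc (a l)‖) ∧ ∏ l, ‖BMF.rc (a l)‖ ≤ 3 ^ (n * n) * c := by
  obtain ⟨a, haΛ, ha, -, hmin, hmono⟩ := greedy (PGF_L Q) (PGF_exists Q c hc hs (n + 1) le_rfl)
  have ha0 : ∀ l, a l ≠ 0 := fun l => ha.ne_zero l
  have hone : ∀ l, 1 ≤ ‖rc (a l)‖ := fun l => PGF_norm _ (ha0 l)
  refine ⟨a, ha, haΛ, hmono, hone, ?_⟩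
  set lam := ‖rc (a (Fin.last n))‖ with hlam
  have hle : ∀ l, ‖rc (a l)‖ ≤ lam := fun l => hmono l _ (Fin.le_last l)
  set X := ∏ l, ‖rc (a l)‖ with hX
  set Y := ∏ j ∈ Finset.univ.filter (fun j : Fin (n + 1) => (j : ℕ) < n), ‖rc (a j)‖ with hY
  have hXY : X = Y * lam := by
    rw [hX, ← Finset.prod_filter_mul_prod_filter_not Finset.univ
      (fun j : Fin (n + 1) => (j : ℕ) < n)]
    refine congrArg (Y * ·) ?_
    have : Finset.univ.filter (fun j : Fin (n + 1) => ¬ (j : ℕ) < n) = {Fin.last n} := by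
      ext j
      rw [Finset.mem_filter, Finset.mem_singleton]
      constructor
      · rintro ⟨_, h⟩
        exact Fin.ext (by have := j.2; simp only [Fin.val_last]; omega)
      · rintro rfl
        exact ⟨Finset.mem_univ _, by simp⟩
    rw [this, Finset.prod_singleton]
  have hX1 : 1 ≤ X := PGF_one_le _ _ fun l _ => hone l
  have hY1 : 1 ≤ Y := PGF_one_le _ _ fun l _ => hone l
  have hlam1 : 1 ≤ lam := hone _
  have hXle : X ≤ lam ^ (n + 1) := by
    have h1 : ∏ l, ‖rc (a l)‖ ≤ ∏ _l : Fin (n + 1), lam :=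
      Finset.prod_le_prod (fun l _ => norm_nonneg _) fun l _ => hle l
    rwa [Finset.prod_const, Finset.card_univ, Fintype.card_fin] at h1
  rcases le_or_gt lam 1 with h | h
  · have e1 : lam = 1 := le_antisymm h hlam1
    have e2 : X ≤ 1 := by
      rw [e1, one_pow] at hXle
      exact hXle
    have e3 : (1 : ℝ) ≤ 3 ^ (n * n) := one_le_pow₀ (by norm_num)
    nlinarith
  · -- A = ⌈lam⌉ - 1
    set A := ⌈lam⌉₊ - 1 with hA
    have hceil : 1 < ⌈lam⌉₊ := by
      have : (1 : ℝ) < ⌈lam⌉₊ := lt_of_lt_of_le h (Nat.le_ceil lam)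
      exact_mod_cast this
    have hA1 : 1 ≤ A := by omega
    have hAc : (A : ℝ) + 1 = ⌈lam⌉₊ := by
      have : A + 1 = ⌈lam⌉₊ := by omega
      exact_mod_cast this
    have hAlt : (A : ℝ) < lam := by
      have := Nat.ceil_lt_add_one (by linarith : 0 ≤ lam)
      linarith
    have hAge : lam ≤ (A : ℝ) + 1 := by
      rw [hAc]
      exact Nat.le_ceil lam
    obtain ⟨s, hs1, hs2⟩ := hs A hA1
    have hfib := PGF_fib Q A s hs1 (3 ^ (n * n) * lam ^ n / Y) (by
      intro T hT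
      have h1 := count_span (PGF_L Q) a hmin ha0 hmono n (by omega) lam (by linarith)
        (fun j _ => hle j) T (fun v hv => ⟨(hT v hv).1, by
          by_contra hcon
          have h2 := hmin (Fin.last n) v (hT v hv).1 (by simpa using hcon)
          have h3 := (hT v hv).2
          linarith, by
          have := (hT v hv).2
          linarith⟩)
      rw [le_div_iff₀ (by linarith)]
      exact h1)
    have h5 : lam ^ (ρ + 1 + n) ≤ (c * lam ^ ρ) * (3 ^ (n * n) * lam ^ n / Y) := by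
      calc lam ^ (ρ + 1 + n) ≤ ((A : ℝ) + 1) ^ (ρ + 1 + n) :=
            pow_le_pow_left₀ (by linarith) hAge _
        _ ≤ s.card * (3 ^ (n * n) * lam ^ n / Y) := hfib
        _ ≤ (c * A ^ ρ) * (3 ^ (n * n) * lam ^ n / Y) :=
          mul_le_mul_of_nonneg_right hs2 (by positivity)
        _ ≤ (c * lam ^ ρ) * (3 ^ (n * n) * lam ^ n / Y) := by
          gcongr
    have h6 : X * lam ^ (ρ + n) ≤ (3 ^ (n * n) * c) * lam ^ (ρ + n) := by
      calc X * lam ^ (ρ + n) = lam ^ (ρ + 1 + n) * Y := by rw [hXY]; ring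
        _ ≤ ((c * lam ^ ρ) * (3 ^ (n * n) * lam ^ n / Y)) * Y :=
          mul_le_mul_of_nonneg_right h5 (by linarith)
        _ = (3 ^ (n * n) * c) * lam ^ (ρ + n) * (Y / Y) := by ring
        _ = _ := by rw [div_self (by linarith), mul_one]
    exact le_of_mul_le_mul_right h6 (by positivity)

end BMK
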