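import Pool.Agent.Lib.MP_a325a5_ag.GK.PGA
import Pool.Agent.Lib.MP_a325a5_ag.GK.PGB
import Pool.Agent.Lib.MP_a325a5_ag.GK.PGC
import Pool.Agent.Lib.MP_a325a5_ag.GK.PGD
import Pool.Agent.Lib.MP_a325a5_ag.GK.PGE
import Pool.Agent.Lib.MP_a325a5_ag.GK.PGF
import Pool.Agent.Lib.MP_a325a5_ag.DR.ADef

/-! The pigeonhole statement for a group of rank `ρ` with `ρ + 1 + n` generators. -/

open NumberField

namespace BMK

private theorem PGG_zsum {G ι : Type} [CommGroup G] (s : Finset ι) (c : ι → ℤ) (g : G) :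
    ∏ i ∈ s, g ^ c i = g ^ (∑ i ∈ s, c i) := by
  classical
  induction s using Finset.induction_on with
  | empty => simp
  | insert a s ha ih => rw [Finset.prod_insert ha, Finset.sum_insert ha, ih, zpow_add]

private theorem PGG_prod {G : Type} [CommGroup G] {N r : ℕ} (z : G) (e : Fin r → G)
    (P : Fin N → G) (t : Fin N → ℕ) (p : Fin N → Fin r → ℤ)
    (hP : ∀ i, P i = z ^ t i * ∏ k, e k ^ p i k) (u : Fin N → ℕ) :
    ∏ i, P i ^ u i = z ^ (∑ i, t i * u i) * ∏ k, e k ^ (∑ i, (u i : ℤ) * p i k) := by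
  have h1 : ∀ i, P i ^ u i = z ^ (t i * u i) * ∏ k, e k ^ ((u i : ℤ) * p i k) := by
    intro i
    rw [hP i, mul_pow, ← pow_mul, ← Finset.prod_pow]
    congr 1
    refine Finset.prod_congr rfl fun k _ => ?_
    rw [← zpow_natCast, ← zpow_mul, mul_comm (p i k)]
  rw [Finset.prod_congr rfl fun i _ => h1 i, Finset.prod_mul_distrib, Finset.prod_pow_eq_pow_sum,
    Finset.prod_comm]
  congr 1
  refine Finset.prod_congr rfl fun k _ => ?_
  exact PGG_zsum _ _ _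

theorem pigeonAll (ρ n : ℕ) : ∃ C : ℝ, 1 ≤ C ∧ ∀ (K : Type) [Field K] [NumberField K] (B : ℝ)
    (P : Fin (ρ + 1 + n) → Kˣ), (∀ i, BMF.ht (P i : K) ≤ B) → BMF.mrk P = ρ →
    ∃ (V M : ℕ) (ζ : K) (g : Fin ρ → K) (a : Fin (n + 1) → Fin (ρ + 1 + n) → ℤ),
      0 < V ∧ 0 < M ∧ IsPrimitiveRoot ζ M ∧ (∀ i, g i ≠ 0) ∧ DR.MInd g ∧
      (∏ i, BMF.ht (g i)) * V ≤ C * B ^ ρ ∧
      LinearIndependent ℤ a ∧ (∀ l, ∏ i, P i ^ a l i = 1) ∧
      (∀ i j : Fin (n + 1), i ≤ j → ‖BMF.rc (a i)‖ ≤ ‖BMF.rc (a j)‖) ∧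
      (∀ l, 1 ≤ ‖BMF.rc (a l)‖) ∧ ∏ l, ‖BMF.rc (a l)‖ ≤ C * ((M : ℝ) * V) := by
  classical
  obtain ⟨N, hN⟩ : ∃ N : ℕ, N = ρ + 1 + n := ⟨_, rfl⟩
  refine ⟨3 ^ (ρ * ρ) * (ρ : ℝ) ^ ρ + 3 ^ (n * n) * (2 * (N : ℝ) + 1) ^ ρ, ?_, ?_⟩
  · have h1 : (1 : ℝ) ≤ 3 ^ (n * n) := one_le_pow₀ (by norm_num)
    have h2 : (1 : ℝ) ≤ (2 * (N : ℝ) + 1) ^ ρ :=
      one_le_pow₀ (by have : (0 : ℝ) ≤ N := Nat.cast_nonneg _; linarith)
    have h3 : (0 : ℝ) ≤ 3 ^ (ρ * ρ) * (ρ : ℝ) ^ ρ := by positivity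
    nlinarith
  intro K _ _ B P hPB hrk
  obtain ⟨M, z, e, t, p, hM, hz, he, hP, hsp⟩ := coordsR P ρ hrk
  have hzM : z ^ M = 1 := hz.pow_eq_one
  have hB : 0 ≤ B := (BMF.ht_nonneg _).trans (hPB ⟨0, by omega⟩)
  obtain ⟨I, hdet, hmax⟩ := max_minor p hsp
  obtain ⟨w, hw, hwn⟩ := short_vectors _ hdet
  have hht := fun i => ht_short hM hzM e P t p hP hPB I (w i)
  generalize (Matrix.of (fun k j => p (I j) k) : Matrix (Fin ρ) (Fin ρ) ℤ) = A at hdet hmax hwn hht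
  obtain ⟨V, hV⟩ : ∃ V : ℕ, V = A.det.natAbs := ⟨_, rfl⟩
  have hV0 : 0 < V := hV ▸ Int.natAbs_pos.mpr hdet
  rw [← hV] at hwn hht
  have hVR : (0 : ℝ) < V := by exact_mod_cast hV0
  have hVabs : |A.det| = (V : ℤ) := by rw [hV, Int.abs_eq_natAbs]
  -- relations
  have hMV1 : (1 : ℝ) ≤ (M : ℝ) * V := by
    have h1 : (1 : ℝ) ≤ M := by exact_mod_cast hM
    have h2 : (1 : ℝ) ≤ V := by exact_mod_cast hV0
    exact one_le_mul_of_one_le_of_one_le h1 h2
  have hN1 : (1 : ℝ) ≤ (2 * (N : ℝ) + 1) ^ ρ :=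
    one_le_pow₀ (by have : (0 : ℝ) ≤ N := Nat.cast_nonneg _; linarith)
  obtain ⟨a, hai, harel, hamono, haone, haprod⟩ := relG ρ n P
    ((2 * (N : ℝ) + 1) ^ ρ * ((M : ℝ) * V)) (one_le_mul_of_one_le_of_one_le hN1 hMV1) (by
    intro X hX
    obtain ⟨S0, hS0⟩ : ∃ S0 : Finset (Fin ρ → ℤ), S0 = (Fintype.piFinset
      (fun _ : Fin (ρ + 1 + n) => Finset.range (X + 1))).image
        (fun u => fun k => ∑ i, (u i : ℤ) * p i k) := ⟨_, rfl⟩
    have hcard := coset_upper A hdet (N * X) S0 (by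
      intro v hv j
      rw [hS0, Finset.mem_image] at hv
      obtain ⟨u, hu, rfl⟩ := hv
      have hu' : ∀ i, u i ≤ X := fun i => by
        have := Fintype.mem_piFinset.mp hu i
        rw [Finset.mem_range] at this
        omega
      have e1 : A.cramer (fun k => ∑ i, (u i : ℤ) * p i k) j = ∑ i, (u i : ℤ) * A.cramer (p i) j := by
        have e2 : (fun k => ∑ i, (u i : ℤ) * p i k) = ∑ i, (u i : ℤ) • p i := by
          funext k
          simp [Finset.sum_apply]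
        rw [e2, map_sum, Finset.sum_apply]
        refine Finset.sum_congr rfl fun i _ => ?_
        rw [map_smul]
        rfl
      rw [e1]
      refine (Finset.abs_sum_le_sum_abs _ _).trans ?_
      have e3 : ∀ i ∈ (Finset.univ : Finset (Fin (ρ + 1 + n))),
          |(u i : ℤ) * A.cramer (p i) j| ≤ X * |A.det| := by
        intro i _
        rw [abs_mul, Nat.abs_cast]
        exact mul_le_mul (by exact_mod_cast hu' i) (hmax i j) (abs_nonneg _) (by positivity)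
      refine (Finset.sum_le_sum e3).trans ?_
      rw [Finset.sum_const, Finset.card_univ, Fintype.card_fin, nsmul_eq_mul, ← hN]
      push_cast
      rw [mul_assoc])
    refine ⟨((Finset.range M) ×ˢ S0).image (fun x => z ^ x.1 * ∏ k, e k ^ x.2 k), ?_, ?_⟩
    · intro u hu
      rw [PGG_prod z e P t p hP u, Finset.mem_image]
      refine ⟨((∑ i, t i * u i) % M, fun k => ∑ i, (u i : ℤ) * p i k), ?_, ?_⟩
      · rw [Finset.mem_product]
        refine ⟨Finset.mem_range.mpr (Nat.mod_lt _ hM), ?_⟩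
        rw [hS0]
        refine Finset.mem_image_of_mem _ ?_
        rw [Fintype.mem_piFinset]
        intro i
        rw [Finset.mem_range]
        have := hu i
        omega
      · show z ^ ((∑ i, t i * u i) % M) * _ = _
        rw [← pow_eq_pow_mod _ hzM]
    · have h1 : (((((Finset.range M) ×ˢ S0).image
          (fun x => z ^ x.1 * ∏ k, e k ^ x.2 k)).card : ℕ) : ℝ) ≤ (M : ℝ) * (S0.card : ℝ) := by
        have := Finset.card_image_le (s := (Finset.range M) ×ˢ S0)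
          (f := fun x : ℕ × (Fin ρ → ℤ) => z ^ x.1 * ∏ k, e k ^ x.2 k)
        rw [Finset.card_product, Finset.card_range] at this
        exact_mod_cast this
      have h2 : (S0.card : ℝ) ≤ (V : ℝ) * (2 * ((N : ℝ) * X) + 1) ^ ρ := by
        rw [← hV] at hcard
        exact_mod_cast hcard
      have hX1 : (1 : ℝ) ≤ (X : ℝ) := by exact_mod_cast hX
      have h3 : (2 * ((N : ℝ) * X) + 1) ^ ρ ≤ (2 * (N : ℝ) + 1) ^ ρ * (X : ℝ) ^ ρ := by
        rw [← mul_pow]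
        have h0 : (0 : ℝ) ≤ (N : ℝ) := Nat.cast_nonneg _
        apply pow_le_pow_left₀ (by positivity)
        nlinarith
      refine h1.trans ?_
      calc (M : ℝ) * (S0.card : ℝ)
          ≤ (M : ℝ) * ((V : ℝ) * ((2 * (N : ℝ) + 1) ^ ρ * (X : ℝ) ^ ρ)) := by
            apply mul_le_mul_of_nonneg_left _ (by positivity)
            refine h2.trans ?_
            exact mul_le_mul_of_nonneg_left h3 (by positivity)
        _ = (2 * (N : ℝ) + 1) ^ ρ * ((M : ℝ) * V) * (X : ℝ) ^ ρ := by ring)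
  refine ⟨V, M, (z : K), fun i => ((∏ k, e k ^ w i k : Kˣ) : K), a, hV0, hM,
    IsPrimitiveRoot.coe_units_iff.mpr hz, fun i => Units.ne_zero _, ?_, ?_, hai, harel, hamono,
    haone, ?_⟩
  · intro x hx
    have h1 : ∏ i, (∏ k, e k ^ w i k) ^ x i = 1 := by
      apply Units.ext
      have h0 : ((∏ i, (∏ k, e k ^ w i k) ^ x i : Kˣ) : K) =
          ∏ i, (((∏ k, e k ^ w i k : Kˣ) : K)) ^ x i := by
        push_cast
        rfl
      rw [h0, Units.val_one]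
      exact hx
    have h2 : ∏ k, e k ^ (∑ i, x i * w i k) = 1 := by
      rw [← h1]
      have h3 : ∀ i, (∏ k, e k ^ w i k) ^ x i = ∏ k, e k ^ (x i * w i k) := by
        intro i
        rw [← Finset.prod_zpow]
        refine Finset.prod_congr rfl fun k _ => ?_
        rw [← zpow_mul, mul_comm]
      rw [Finset.prod_congr rfl fun i _ => h3 i, Finset.prod_comm]
      refine Finset.prod_congr rfl fun k _ => ?_
      exact (PGG_zsum _ _ _).symm
    have h4 := he _ h2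
    have h5 : ∑ i, x i • w i = 0 := by
      funext k
      have := congrFun h4 k
      simpa [Finset.sum_apply] using this
    funext i
    exact Fintype.linearIndependent_iff.mp hw x h5 i
  · have h1 : (∏ i, (BMF.ht ((∏ k, e k ^ w i k : Kˣ) : K) * V)) ≤
        ∏ i, ((ρ : ℝ) * ‖BMF.rc (A.cramer (w i))‖ * B) :=
      Finset.prod_le_prod (fun i _ => mul_nonneg (BMF.ht_nonneg _) hVR.le) fun i _ => hht i
    rw [Finset.prod_mul_distrib, Finset.prod_const, Finset.card_univ, Fintype.card_fin,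
      Finset.prod_mul_distrib, Finset.prod_mul_distrib, Finset.prod_const, Finset.prod_const,
      Finset.card_univ, Fintype.card_fin] at h1
    have hVρ : (0 : ℝ) < (V : ℝ) ^ ρ := by positivity
    have h2 : ((∏ i, BMF.ht ((∏ k, e k ^ w i k : Kˣ) : K)) * V) * (V : ℝ) ^ ρ ≤
        (3 ^ (ρ * ρ) * (ρ : ℝ) ^ ρ * B ^ ρ) * (V : ℝ) ^ ρ := by
      calc ((∏ i, BMF.ht ((∏ k, e k ^ w i k : Kˣ) : K)) * V) * (V : ℝ) ^ ρ
          = ((∏ i, BMF.ht ((∏ k, e k ^ w i k : Kˣ) : K)) * (V : ℝ) ^ ρ) * V := by ring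
        _ ≤ ((ρ : ℝ) ^ ρ * (∏ i, ‖BMF.rc (A.cramer (w i))‖) * B ^ ρ) * V :=
            mul_le_mul_of_nonneg_right h1 hVR.le
        _ = ((ρ : ℝ) ^ ρ * B ^ ρ) * ((V : ℝ) * ∏ i, ‖BMF.rc (A.cramer (w i))‖) := by ring
        _ ≤ ((ρ : ℝ) ^ ρ * B ^ ρ) * (3 ^ (ρ * ρ) * (V : ℝ) ^ ρ) :=
            mul_le_mul_of_nonneg_left hwn (by positivity)
        _ = _ := by ring
    have h3 := le_of_mul_le_mul_right h2 hVρ
    refine h3.trans ?_
    have h4 : (0 : ℝ) ≤ 3 ^ (n * n) * (2 * (N : ℝ) + 1) ^ ρ * B ^ ρ := by positivity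
    linarith
  · refine haprod.trans ?_
    have h4 : (0 : ℝ) ≤ 3 ^ (ρ * ρ) * (ρ : ℝ) ^ ρ * ((M : ℝ) * V) := by positivity
    linarith

end BMK
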